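import Mathlib
import Pool.Agent.H3.Frg2.Defs
import Pool.Agent.H3.Frg3.Defs

set_option autoImplicit false
set_option linter.unusedSectionVars false

/-!
# Exponential lower bounds in bounded depth over short formulas: definitions

Decision trees `DT E` for Boolean functions of `E → Bool`; for a graph `src tgt : E → Wv` and signs
`ε`: the worlds `Sol v` (assignments satisfying the axioms of all vertices except `v`), the level of
a set of edges (its distance from the cuts, not counting the edges at `v`), closed sets of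
vertices (minimisers of `|Y| + c |bd Y|` among the larger sets).
-/

namespace Pool.Agent.H3.Ex

open Finset Pool.Agent.H3.Frg Pool.Agent.H3.Frg2 Pool.Agent.H3.Frg3

section Trees

/-- decision trees -/
inductive DT (E : Type) : Type
  | leaf : Bool → DT E
  | node : E → DT E → DT E → DT E

variable {E : Type}

/-- value -/
def DT.eval : DT E → (E → Bool) → Bool
  | DT.leaf b, _ => b
  | DT.node e t0 t1, z => if z e = true then t1.eval z else t0.eval z

/-- depth -/
def DT.depth : DT E → ℕ
  | DT.leaf _ => 0
  | DT.node _ t0 t1 => max t0.depth t1.depth + 1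

/-- the variables queried on the input `z` -/
def DT.qs [DecidableEq E] : DT E → (E → Bool) → Finset E
  | DT.leaf _, _ => ∅
  | DT.node e t0 t1, z => insert e (if z e = true then t1.qs z else t0.qs z)

/-- `g` has a decision tree of depth at most `d` -/
def TD (d : ℕ) (g : (E → Bool) → Bool) : Prop := ∃ T : DT E, T.depth ≤ d ∧ ∀ z, T.eval z = g z

/-- the part of the assignment in `S`, `false` elsewhere -/
def rst [DecidableEq E] (S : Finset E) (z : E → Bool) (e : E) : Bool := decide (e ∈ S) && z e

/-- flip the variables in `B` -/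
def fp [DecidableEq E] (B : Finset E) (z : E → Bool) (e : E) : Bool := xor (z e) (decide (e ∈ B))

/-- the sum modulo 2 of the sets `B i`, `i ∈ s` -/
def sm [Fintype E] [DecidableEq E] {ι : Type} (B : ι → Finset E) (s : Finset ι) : Finset E :=
  univ.filter fun e => Odd (s.filter fun i => e ∈ B i).card

end Trees

section Graph

variable {E Wv : Type} [Fintype E] [DecidableEq E] [Fintype Wv] [DecidableEq Wv]

/-- the hypotheses on a graph -/
structure GX (src tgt : E → Wv) (D c0 : ℕ) : Prop where
  /-- there are no loops -/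
  loopless : ∀ e, src e ≠ tgt e
  /-- bounded degree -/
  deg : ∀ w, (bd src tgt {w}).card ≤ D
  /-- edge expansion -/
  cheeger : ∀ X : Finset Wv,
    min X.card (Fintype.card Wv - X.card) ≤ c0 * (bd src tgt X).card
  /-- positive degree bound -/
  hD : 1 ≤ D
  /-- positive constant -/
  hc : 1 ≤ c0

/-- the edges with an end in `U` -/
def inc (src tgt : E → Wv) (U : Finset Wv) : Finset E :=
  univ.filter fun e => src e ∈ U ∨ tgt e ∈ U

/-- the ends of the edges in `R` -/
def ends (src tgt : E → Wv) (R : Finset E) : Finset Wv := R.image src ∪ R.image tgt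

/-- the vertices of odd degree in `R` -/
def odv (src tgt : E → Wv) (R : Finset E) : Finset Wv :=
  univ.filter fun w => Odd (R ∩ bd src tgt {w}).card

/-- `z` satisfies the axioms of the vertices in `U` -/
def Sat (src tgt : E → Wv) (ε : Wv → ℝ) (U : Finset Wv) (z : E → Bool) : Prop :=
  ∀ w ∈ U, chi (bd src tgt {w}) z = ε w

open scoped Classical in
/-- the world `v`: the assignments satisfying the axioms of all vertices except `v` -/
noncomputable def Sol (src tgt : E → Wv) (ε : Wv → ℝ) (v : Wv) : Finset (E → Bool) :=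
  univ.filter fun y => ∀ w, w ≠ v → chi (bd src tgt {w}) y = ε w

open scoped Classical in
/-- indicator function of the world `v` -/
noncomputable def sI (src tgt : E → Wv) (ε : Wv → ℝ) (v : Wv) (y : E → Bool) : ℝ :=
  if y ∈ Sol src tgt ε v then 1 else 0

/-- the level of `T` in the world `v` -/
def lvl (src tgt : E → Wv) (v : Wv) (T : Finset E) : ℕ :=
  (univ : Finset (Finset Wv)).inf' ⟨∅, mem_univ _⟩
    fun X => (symmDiff T (bd src tgt X) \ bd src tgt {v}).card

/-- in the world `v` the function `f` has only terms of level at most `t` -/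
def LW (src tgt : E → Wv) (ε : Wv → ℝ) (v : Wv) (f : (E → Bool) → ℝ) (t : ℕ) : Prop :=
  ∀ T, W (fun y => f y * sI src tgt ε v y) T ≠ 0 → lvl src tgt v T ≤ t

/-- the potential of a set of vertices -/
def Lam (src tgt : E → Wv) (c : ℕ) (Y : Finset Wv) : ℕ := Y.card + c * (bd src tgt Y).card

/-- closed sets of vertices -/
def Cls (src tgt : E → Wv) (c : ℕ) (Y : Finset Wv) : Prop :=
  ∀ Y', Y ⊆ Y' → Lam src tgt c Y ≤ Lam src tgt c Y'

/-- local consistency: `z` satisfies the parity condition of every small set of vertices with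
boundary in `Q` -/
def LC (src tgt : E → Wv) (ε : Wv → ℝ) (Q : Finset E) (z : E → Bool) : Prop :=
  ∀ X : Finset Wv, 3 * X.card ≤ Fintype.card Wv → bd src tgt X ⊆ Q →
    chi (bd src tgt X) z = epsX ε X

/-- `T` has the value `b` on all assignments of the worlds which extend the part of `z` at `U`
(those on which the run of `T` is hidden: contained in a closed set not containing the vertex of
the world) -/
def Con (src tgt : E → Wv) (ε : Wv → ℝ) (c0 : ℕ) (T : DT E) (b : Bool) (U : Finset Wv)
    (z : E → Bool) : Prop :=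
  ∀ v y W', y ∈ Sol src tgt ε v → (∀ e ∈ inc src tgt U, y e = z e) → U ⊆ W' →
    Cls src tgt (4 * c0) W' → v ∉ W' → T.qs y ⊆ inc src tgt W' → T.eval y = b

/-- the value of `T` after flipping `B` is `true` on all assignments of the worlds which extend
the part of `z` at `U` (those on which the run of `T` is hidden) -/
def Sens (src tgt : E → Wv) (ε : Wv → ℝ) (c0 : ℕ) (T : DT E) (U : Finset Wv) (z : E → Bool)
    (B : Finset E) : Prop :=
  ∀ v y W', y ∈ Sol src tgt ε v → (∀ e ∈ inc src tgt U, y e = z e) → U ⊆ W' →
    Cls src tgt (4 * c0) W' → v ∉ W' → T.qs (fp B y) ⊆ inc src tgt W' → T.eval (fp B y) = true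

end Graph

section Numbers

/-- number of disjoint blocks -/
def kA (t D : ℕ) : ℕ := 4 * (t + D) ^ 2

/-- number of blocks with congestion two -/
def kB (t D : ℕ) : ℕ := 16 * (t + D) ^ 2

/-- number of edges which are lost in the construction of short cuts -/
def rh (t D c0 L1 : ℕ) : ℕ := kB t D * (2 * L1 + 1 + 16 * D * (1 + 2 * c0 * D) * L1)

/-- length of blocks -/
def lB (t D c0 L1 : ℕ) : ℕ := (rh t D c0 L1 + 1) * (2 * L1 + 1) + rh t D c0 L1

/-- growth of the set of vertices in the core lemma -/
def q1 (t D c0 L1 : ℕ) : ℕ := 4 * (1 + 3 * c0 * D) * (2 * lB t D c0 L1 * kA t D)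

/-- growth of the potential in one round -/
def q2 (t D c0 L1 : ℕ) : ℕ := (1 + 4 * c0 * D) * (q1 t D c0 L1 * (1 + 8 * L1 * D))

/-- maximal potential -/
def lmx (t D c0 L1 : ℕ) : ℕ := kA t D * q2 t D c0 L1

/-- budget -/
def bud (t D c0 L1 d0 : ℕ) : ℕ :=
  2 * lmx t D c0 L1 + (1 + 4 * c0 * D) * (2 * lB t D c0 L1 * kA t D + (kA t D + 1) * d0) +
    (1 + 4 * c0 * D) * (q1 t D c0 L1 + d0) +
    (1 + 4 * c0 * D) * (2 * lB t D c0 L1 + (kB t D + 1) * d0)

/-- depth of the determined tree -/
def dpt (t D c0 L1 : ℕ) : ℕ := kA t D * (2 * D * lmx t D c0 L1)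

end Numbers

end Pool.Agent.H3.Ex
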