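import Mathlib
import Pool.Agent.H3.Ex.Defs
import Pool.Agent.H3.Frg2.Proj

set_option autoImplicit false
set_option linter.unusedSectionVars false

/-!
# Module BAS1: basic facts, first part

All statements are elementary. Useful: `odd_symmDiff_inter` (`Frg2/Proj.lean`), `chi_mul`,
`bd_symmDiff`, `bd_empty`, `bd_insert`, `card_symmDiff_le'` (`Frg/Tseitin.lean`, `Frg2/Proj.lean`).

* `chi_fp`: `chi T (fp B z) = ∏_{e ∈ T} sg (z e) * sg (decide (e ∈ B)) = chi T z * (-1)^|T ∩ B|`.
* `sm_insert`, `odd_inter_sm`: membership and parity; induction on `s` with `odd_symmDiff_inter`.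
* `card_inc_le`: `inc U ⊆ U.biUnion (bd {·})` (no loops).
* `odv_singleton`: `{e} ∩ bd {w}` is `{e}` iff exactly one end of `e` is `w`.
* `odv_sm`: induction on `s`.
* `odd_inter_bd`: induction on `X` with `bd_insert` and `odd_symmDiff_inter` (after `inter_comm`).
* `even_odv`: `odd_inter_bd` for `X = univ`, `bd univ = ∅`.
-/

namespace Pool.Agent.H3.Ex

open Finset Pool.Agent.H3.Frg Pool.Agent.H3.Frg2 Pool.Agent.H3.Frg3

section Flip

variable {E : Type} [Fintype E] [DecidableEq E]

theorem fp_empty (z : E → Bool) : fp (∅ : Finset E) z = z := by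
  funext e
  simp [fp]

theorem fp_fp (A B : Finset E) (z : E → Bool) : fp A (fp B z) = fp (symmDiff A B) z := by
  funext e
  unfold fp
  by_cases h1 : e ∈ A <;> by_cases h2 : e ∈ B <;> cases z e <;> simp [Finset.mem_symmDiff, h1, h2]

theorem chi_fp (T B : Finset E) (z : E → Bool) :
    chi T (fp B z) = chi T z * (if Odd (T ∩ B).card then -1 else 1) := by
  have h1 : chi T (fp B z) = chi T z * ∏ e ∈ T, (if e ∈ B then (-1 : ℝ) else 1) := by
    unfold chi
    rw [← Finset.prod_mul_distrib]
    refine Finset.prod_congr rfl fun e _ => ?_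
    unfold fp
    rw [sg_xor']
    congr 1
    by_cases h : e ∈ B <;> simp [sg, h]
  rw [h1, Finset.prod_ite, Finset.prod_const, Finset.prod_const_one, mul_one]
  have h2 : (T.filter fun e => e ∈ B) = T ∩ B := by ext e; simp
  rw [h2]
  by_cases h : Odd (T ∩ B).card
  · rw [if_pos h, h.neg_one_pow]
  · rw [if_neg h, (Nat.not_odd_iff_even.mp h).neg_one_pow]

theorem exists_fp (y z : E → Bool) : fp (univ.filter fun e => y e ≠ z e) y = z := by
  funext e
  unfold fp
  simp only [Finset.mem_filter, Finset.mem_univ, true_and]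
  cases y e <;> cases z e <;> simp

variable {ι : Type} [DecidableEq ι]

theorem sm_empty (B : ι → Finset E) : sm B ∅ = ∅ := by
  ext e
  simp [sm]

theorem sm_insert (B : ι → Finset E) {s : Finset ι} {i : ι} (hi : i ∉ s) :
    sm B (insert i s) = symmDiff (sm B s) (B i) := by
  ext e
  simp only [sm, Finset.mem_filter, Finset.mem_univ, true_and, Finset.mem_symmDiff]
  rw [Finset.filter_insert]
  by_cases h : e ∈ B i
  · rw [if_pos h, Finset.card_insert_of_notMem (fun h2 => hi (Finset.mem_filter.mp h2).1),
      Nat.odd_add_one]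
    tauto
  · rw [if_neg h]
    tauto

theorem sm_singleton (B : ι → Finset E) (i : ι) : sm B {i} = B i := by
  have h1 := sm_insert B (s := ∅) (i := i) (by simp)
  rw [sm_empty] at h1
  rw [show ({i} : Finset ι) = insert i ∅ by simp, h1]
  ext e
  simp [Finset.mem_symmDiff]

theorem odd_inter_sm (B : ι → Finset E) (s : Finset ι) (T : Finset E) :
    Odd (T ∩ sm B s).card ↔ Odd (s.filter fun i => Odd (T ∩ B i).card).card := by
  induction s using Finset.induction_on with
  | empty => simp [sm_empty]
  | insert a s ha ih =>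
    rw [sm_insert B ha, Finset.inter_comm, odd_symmDiff_inter, Finset.inter_comm,
      Finset.inter_comm (B a) T, ih, Finset.filter_insert]
    by_cases h : Odd (T ∩ B a).card
    · rw [if_pos h, Finset.card_insert_of_notMem (fun h2 => ha (Finset.mem_filter.mp h2).1),
        Nat.odd_add_one]
      tauto
    · rw [if_neg h]
      tauto

end Flip

section Graph

variable {E Wv : Type} [Fintype E] [DecidableEq E] [Fintype Wv] [DecidableEq Wv]
  {src tgt : E → Wv} {D c0 : ℕ} {ε : Wv → ℝ}

theorem mem_inc {U : Finset Wv} {e : E} : e ∈ inc src tgt U ↔ src e ∈ U ∨ tgt e ∈ U := by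
  simp [inc]

theorem inc_mono {U U' : Finset Wv} (h : U ⊆ U') : inc src tgt U ⊆ inc src tgt U' := by
  intro e he
  rw [mem_inc] at he ⊢
  exact he.imp (fun h1 => h h1) (fun h1 => h h1)

theorem inc_union (U U' : Finset Wv) :
    inc src tgt (U ∪ U') = inc src tgt U ∪ inc src tgt U' := by
  ext e
  simp only [mem_inc, Finset.mem_union]
  tauto

theorem bd_sub_inc {U : Finset Wv} {w : Wv} (hw : w ∈ U) :
    bd src tgt {w} ⊆ inc src tgt U := by
  intro e he
  rw [mem_bd] at he
  rw [mem_inc]
  simp only [Finset.mem_singleton] at he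
  by_cases h1 : src e = w
  · exact Or.inl (h1 ▸ hw)
  · by_cases h2 : tgt e = w
    · exact Or.inr (h2 ▸ hw)
    · exact absurd ⟨fun h => absurd h h1, fun h => absurd h h2⟩ he

theorem card_inc_le (h : GX src tgt D c0) (U : Finset Wv) :
    (inc src tgt U).card ≤ D * U.card := by
  have h1 : inc src tgt U ⊆ U.biUnion fun w => bd src tgt {w} := by
    intro e he
    rw [mem_inc] at he
    rw [Finset.mem_biUnion]
    have hl := h.loopless e
    rcases he with he | he
    · refine ⟨src e, he, ?_⟩
      rw [mem_bd]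
      simp only [Finset.mem_singleton]
      exact fun h2 => hl (h2.mp trivial).symm
    · refine ⟨tgt e, he, ?_⟩
      rw [mem_bd]
      simp only [Finset.mem_singleton]
      exact fun h2 => hl (h2.mpr trivial)
  refine (Finset.card_le_card h1).trans ?_
  refine Finset.card_biUnion_le.trans ?_
  refine (Finset.sum_le_card_nsmul U _ D fun w _ => h.deg w).trans ?_
  rw [smul_eq_mul, mul_comm]

theorem mem_ends {R : Finset E} {w : Wv} :
    w ∈ ends src tgt R ↔ ∃ e ∈ R, src e = w ∨ tgt e = w := by
  unfold ends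
  simp only [Finset.mem_union, Finset.mem_image]
  constructor
  · rintro (⟨e, he, h⟩ | ⟨e, he, h⟩)
    · exact ⟨e, he, Or.inl h⟩
    · exact ⟨e, he, Or.inr h⟩
  · rintro ⟨e, he, h | h⟩
    · exact Or.inl ⟨e, he, h⟩
    · exact Or.inr ⟨e, he, h⟩

theorem ends_mono {R R' : Finset E} (h : R ⊆ R') : ends src tgt R ⊆ ends src tgt R' := by
  intro w hw
  rw [mem_ends] at hw ⊢
  obtain ⟨e, he, h1⟩ := hw
  exact ⟨e, h he, h1⟩

theorem card_ends_le (R : Finset E) : (ends src tgt R).card ≤ 2 * R.card := by
  unfold ends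
  refine (Finset.card_union_le _ _).trans ?_
  have h1 := Finset.card_image_le (s := R) (f := src)
  have h2 := Finset.card_image_le (s := R) (f := tgt)
  omega

theorem sub_inc_of_ends {R : Finset E} {U : Finset Wv} (h : ends src tgt R ⊆ U) :
    R ⊆ inc src tgt U := by
  intro e he
  rw [mem_inc]
  exact Or.inl (h (mem_ends.mpr ⟨e, he, Or.inl rfl⟩))

theorem ends_symmDiff (R R' : Finset E) :
    ends src tgt (symmDiff R R') ⊆ ends src tgt R ∪ ends src tgt R' := by
  intro w hw
  rw [mem_ends] at hw
  obtain ⟨e, he, h1⟩ := hw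
  rw [Finset.mem_union, mem_ends, mem_ends]
  rw [Finset.mem_symmDiff] at he
  rcases he with ⟨he, _⟩ | ⟨he, _⟩
  · exact Or.inl ⟨e, he, h1⟩
  · exact Or.inr ⟨e, he, h1⟩

theorem mem_odv {R : Finset E} {w : Wv} :
    w ∈ odv src tgt R ↔ Odd (R ∩ bd src tgt {w}).card := by
  simp [odv]

theorem odv_empty : odv src tgt (∅ : Finset E) = ∅ := by
  ext w
  simp [mem_odv]

theorem odv_symmDiff (R R' : Finset E) :
    odv src tgt (symmDiff R R') = symmDiff (odv src tgt R) (odv src tgt R') := by
  ext w
  rw [mem_odv, odd_symmDiff_inter, Finset.mem_symmDiff, mem_odv, mem_odv]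
  tauto

theorem odv_singleton (h : GX src tgt D c0) (e : E) : odv src tgt {e} = {src e, tgt e} := by
  ext w
  rw [mem_odv, Finset.mem_insert, Finset.mem_singleton]
  have hl := h.loopless e
  have h1 : e ∈ bd src tgt {w} ↔ (w = src e ∨ w = tgt e) := by
    rw [mem_bd]
    simp only [Finset.mem_singleton]
    constructor
    · intro h2
      by_contra h3
      push Not at h3
      exact h2 ⟨fun h4 => absurd h4.symm h3.1, fun h4 => absurd h4.symm h3.2⟩
    · rintro (h2 | h2) h3
      · exact hl (h2 ▸ (h3.mp h2.symm).symm)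
      · exact hl (h2 ▸ (h3.mpr h2.symm))
  rw [← h1]
  by_cases h2 : e ∈ bd src tgt {w}
  · rw [Finset.singleton_inter_of_mem h2]
    simp [h2]
  · rw [Finset.singleton_inter_of_notMem h2]
    simp [h2]

theorem odv_sub_ends (h : GX src tgt D c0) (R : Finset E) :
    odv src tgt R ⊆ ends src tgt R := by
  intro w hw
  rw [mem_odv] at hw
  have h1 := hw.pos
  rw [Finset.card_pos] at h1
  obtain ⟨e, he⟩ := h1
  rw [Finset.mem_inter, mem_bd] at he
  rw [mem_ends]
  refine ⟨e, he.1, ?_⟩
  have h2 := he.2
  simp only [Finset.mem_singleton] at h2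
  by_contra h3
  push Not at h3
  exact h2 ⟨fun h4 => absurd h4 h3.1, fun h4 => absurd h4 h3.2⟩

theorem card_odv_le (h : GX src tgt D c0) (R : Finset E) :
    (odv src tgt R).card ≤ 2 * R.card := by
  exact (Finset.card_le_card (odv_sub_ends h R)).trans (card_ends_le R)

theorem odv_sm {ι : Type} [DecidableEq ι] {B : ι → Finset E} {s : Finset ι}
    (h : ∀ i ∈ s, odv src tgt (B i) = ∅) : odv src tgt (sm B s) = ∅ := by
  induction s using Finset.induction_on with
  | empty => rw [sm_empty, odv_empty]
  | insert a s ha ih =>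
    rw [sm_insert B ha, odv_symmDiff, ih fun i hi => h i (Finset.mem_insert_of_mem hi),
      h a (Finset.mem_insert_self a s), symmDiff_self]
    rfl

theorem odd_inter_bd (R : Finset E) (X : Finset Wv) :
    Odd (R ∩ bd src tgt X).card ↔ Odd (odv src tgt R ∩ X).card := by
  induction X using Finset.induction_on with
  | empty => simp [bd_empty]
  | insert a X ha ih =>
    rw [bd_insert ha, Finset.inter_comm, odd_symmDiff_inter, Finset.inter_comm,
      Finset.inter_comm (bd src tgt X) R, ih]
    by_cases h : a ∈ odv src tgt R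
    · rw [Finset.inter_insert_of_mem h, Finset.card_insert_of_notMem
        (fun h2 => ha (Finset.mem_inter.mp h2).2), Nat.odd_add_one]
      rw [mem_odv] at h
      tauto
    · rw [Finset.inter_insert_of_notMem h]
      rw [mem_odv] at h
      tauto

theorem even_odv (R : Finset E) : Even (odv src tgt R).card := by
  have h1 := odd_inter_bd (src := src) (tgt := tgt) R univ
  have h2 : bd src tgt (univ : Finset Wv) = ∅ := by
    ext e
    simp [mem_bd]
  rw [h2, Finset.inter_univ, Finset.inter_empty, Finset.card_empty] at h1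
  rw [← Nat.not_odd_iff_even, ← h1]
  simp

theorem even_inter_bd {R : Finset E} (h : odv src tgt R = ∅) (X : Finset Wv) :
    Even (R ∩ bd src tgt X).card := by
  rw [← Nat.not_odd_iff_even, odd_inter_bd, h]
  simp

theorem bd_univ : bd src tgt (univ : Finset Wv) = ∅ := by
  ext e
  simp [mem_bd]

end Graph

end Pool.Agent.H3.Ex
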