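import Mathlib
import Pool.Agent.H3.Ex.Defs
import Pool.Agent.H3.Ex.BaseA
import Pool.Agent.H3.Frg2.Proj

set_option autoImplicit false
set_option linter.unusedSectionVars false

/-!
# Module BAS2: basic facts, second part

All statements are elementary. See `BaseA.lean`.

* `fp_mem_Sol`, `sat_fp`: `chi (bd {w}) (fp B y) = chi (bd {w}) y` if `odv B = ∅` (`chi_fp`,
  `even_inter_bd` after `inter_comm`).
* `odv_diff`: for `w ∈ U` all edges of `bd {w}` are in `inc U`; `chi (bd {w}) z = chi (bd {w}) y * (-1)^m`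
  where `m` is the number of `e ∈ bd {w}` with `z e ≠ y e` (`exists_fp`, `chi_fp`, or directly).
* `Lam_union_le`: `bd (S ∪ F) ⊆ bd S ∪ inc F`; `Lam_union`: `bd (A ∪ B) ⊆ bd A ∪ bd B`.
* `pos_bd`: from `cheeger`.
-/

namespace Pool.Agent.H3.Ex

open Finset Pool.Agent.H3.Frg Pool.Agent.H3.Frg2 Pool.Agent.H3.Frg3

section Graph

variable {E Wv : Type} [Fintype E] [DecidableEq E] [Fintype Wv] [DecidableEq Wv]
  {src tgt : E → Wv} {D c0 : ℕ} {ε : Wv → ℝ}

theorem mem_Sol {v : Wv} {y : E → Bool} :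
    y ∈ Sol src tgt ε v ↔ ∀ w, w ≠ v → chi (bd src tgt {w}) y = ε w := by
  classical
  unfold Sol
  rw [Finset.mem_filter]
  exact ⟨fun h => h.2, fun h => ⟨Finset.mem_univ _, h⟩⟩

theorem fp_mem_Sol {v : Wv} {B : Finset E} (hB : odv src tgt B = ∅) {y : E → Bool} :
    fp B y ∈ Sol src tgt ε v ↔ y ∈ Sol src tgt ε v := by
  have key : ∀ w, chi (bd src tgt {w}) (fp B y) = chi (bd src tgt {w}) y := by
    intro w
    have h1 : ¬ Odd (bd src tgt {w} ∩ B).card := by
      rw [Finset.inter_comm, Nat.not_odd_iff_even]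
      exact even_inter_bd hB {w}
    rw [chi_fp, if_neg h1, mul_one]
  rw [mem_Sol, mem_Sol]
  constructor
  · intro h w hw
    rw [← key w]
    exact h w hw
  · intro h w hw
    rw [key w]
    exact h w hw

theorem sat_of_mem_Sol {v : Wv} {y : E → Bool} (hy : y ∈ Sol src tgt ε v) {U : Finset Wv}
    (hv : v ∉ U) : Sat src tgt ε U y := by
  intro w hw
  exact mem_Sol.1 hy w (fun h => hv (h ▸ hw))

theorem sat_congr {U : Finset Wv} {y z : E → Bool} (h : ∀ e ∈ inc src tgt U, y e = z e)
    (hy : Sat src tgt ε U y) : Sat src tgt ε U z := by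
  intro w hw
  rw [← hy w hw]
  unfold chi
  refine Finset.prod_congr rfl fun e he => ?_
  rw [h e (bd_sub_inc hw he)]

theorem sat_fp {U : Finset Wv} {y : E → Bool} {B : Finset E} (hB : odv src tgt B = ∅)
    (hy : Sat src tgt ε U y) : Sat src tgt ε U (fp B y) := by
  intro w hw
  have h1 : ¬ Odd (bd src tgt {w} ∩ B).card := by
    rw [Finset.inter_comm, Nat.not_odd_iff_even]
    exact even_inter_bd hB {w}
  rw [chi_fp, if_neg h1, mul_one]
  exact hy w hw

/-- the difference of two assignments satisfying the axioms of `U` is even in `U` -/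
theorem odv_diff {U : Finset Wv} {y z : E → Bool} (hy : Sat src tgt ε U y)
    (hz : Sat src tgt ε U z) :
    Disjoint (odv src tgt ((inc src tgt U).filter fun e => y e ≠ z e)) U := by
  rw [Finset.disjoint_left]
  intro w hw hwU
  rw [mem_odv] at hw
  have h1 : ((inc src tgt U).filter fun e => y e ≠ z e) ∩ bd src tgt {w} =
      bd src tgt {w} ∩ (univ.filter fun e => y e ≠ z e) := by
    ext e
    simp only [Finset.mem_inter, Finset.mem_filter, Finset.mem_univ, true_and]
    constructor
    · rintro ⟨⟨_, h2⟩, h3⟩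
      exact ⟨h3, h2⟩
    · rintro ⟨h3, h2⟩
      exact ⟨⟨bd_sub_inc hwU h3, h2⟩, h3⟩
  rw [h1] at hw
  have h2 := chi_fp (bd src tgt {w}) (univ.filter fun e => y e ≠ z e) y
  rw [exists_fp, if_pos hw, hy w hwU, hz w hwU] at h2
  have h3 : ε w = 0 := by linarith
  have h4 := chi_mul_self (bd src tgt {w}) y
  rw [hy w hwU, h3] at h4
  norm_num at h4

theorem bd_compl (X : Finset Wv) : bd src tgt Xᶜ = bd src tgt X := by
  ext e
  rw [mem_bd, mem_bd, Finset.mem_compl, Finset.mem_compl, not_iff_not]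
  tauto

theorem pos_bd (h : GX src tgt D c0) {X : Finset Wv} (h1 : X.Nonempty)
    (h2 : 2 * X.card ≤ Fintype.card Wv) : X.card ≤ c0 * (bd src tgt X).card := by
  have h3 := h.cheeger X
  have h4 : X.card ≤ Fintype.card Wv - X.card := by omega
  rw [min_eq_left h4] at h3
  exact h3

theorem card_le_Lam (c : ℕ) (Y : Finset Wv) : Y.card ≤ Lam src tgt c Y := by
  exact Nat.le_add_right _ _

theorem Lam_empty (c : ℕ) : Lam src tgt c ∅ = 0 := by
  unfold Lam
  simp [bd_empty]

theorem Lam_mono {c c' : ℕ} (h : c ≤ c') (Y : Finset Wv) :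
    Lam src tgt c Y ≤ Lam src tgt c' Y := by
  unfold Lam
  exact Nat.add_le_add_left (Nat.mul_le_mul_right _ h) _

theorem Lam_union_le (h : GX src tgt D c0) (c : ℕ) (S F : Finset Wv) :
    Lam src tgt c (S ∪ F) ≤ Lam src tgt c S + (1 + c * D) * F.card := by
  have h1 : (S ∪ F).card ≤ S.card + F.card := Finset.card_union_le _ _
  have h2 : bd src tgt (S ∪ F) ⊆ bd src tgt S ∪ inc src tgt F := by
    intro e he
    rw [mem_bd, Finset.mem_union, Finset.mem_union] at he
    rw [Finset.mem_union, mem_bd, mem_inc]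
    tauto
  have h3 : (bd src tgt (S ∪ F)).card ≤ (bd src tgt S).card + D * F.card :=
    ((Finset.card_le_card h2).trans (Finset.card_union_le _ _)).trans
      (Nat.add_le_add_left (card_inc_le h F) _)
  have h4 := Nat.mul_le_mul_left c h3
  unfold Lam
  calc (S ∪ F).card + c * (bd src tgt (S ∪ F)).card
      ≤ (S.card + F.card) + c * ((bd src tgt S).card + D * F.card) := Nat.add_le_add h1 h4
    _ = S.card + c * (bd src tgt S).card + (1 + c * D) * F.card := by ring

theorem Lam_union (c : ℕ) (S F : Finset Wv) :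
    Lam src tgt c (S ∪ F) ≤ Lam src tgt c S + Lam src tgt c F := by
  have h1 : (S ∪ F).card ≤ S.card + F.card := Finset.card_union_le _ _
  have h2 : bd src tgt (S ∪ F) ⊆ bd src tgt S ∪ bd src tgt F := by
    intro e he
    rw [mem_bd, Finset.mem_union, Finset.mem_union] at he
    rw [Finset.mem_union, mem_bd, mem_bd]
    tauto
  have h3 : (bd src tgt (S ∪ F)).card ≤ (bd src tgt S).card + (bd src tgt F).card :=
    (Finset.card_le_card h2).trans (Finset.card_union_le _ _)
  have h4 := Nat.mul_le_mul_left c h3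
  unfold Lam
  calc (S ∪ F).card + c * (bd src tgt (S ∪ F)).card
      ≤ (S.card + F.card) + c * ((bd src tgt S).card + (bd src tgt F).card) := Nat.add_le_add h1 h4
    _ = S.card + c * (bd src tgt S).card + (F.card + c * (bd src tgt F).card) := by ring

/-- version of `Lam_union_le` for a larger set -/
theorem Lam_le_of_subset (h : GX src tgt D c0) (c : ℕ) {S S' : Finset Wv} (hS : S ⊆ S') :
    Lam src tgt c S' ≤ Lam src tgt c S + (1 + c * D) * (S' \ S).card := by
  have h1 := Lam_union_le h c S (S' \ S)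
  rw [Finset.union_sdiff_of_subset hS] at h1
  exact h1

end Graph

end Pool.Agent.H3.Ex
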