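import Mathlib
import Pool.Agent.H3.Ex.Defs
import Pool.Agent.H3.Ex.Base

set_option autoImplicit false
set_option linter.unusedSectionVars false

/-!
# Module CLO: closed sets of vertices

`n = |Wv|`, `b(X) = |bd X|`, `Lam c Y = |Y| + c b(Y)`; `Cls c Y`: `Lam c Y ≤ Lam c Y'` for all
`Y' ⊇ Y`.

* `lam_submod`: `Lam c (A ∪ B) + Lam c (A ∩ B) ≤ Lam c A + Lam c B`. For every edge `e`,
  `[e ∈ bd (A ∪ B)] + [e ∈ bd (A ∩ B)] ≤ [e ∈ bd A] + [e ∈ bd B]` (16 cases), and
  `card_union_add_card_inter`.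
* `exists_cls_between`: let `Y` minimise `Lam c` among the sets with `S ⊆ Y ⊆ W`
  (`Finset.exists_min_image`). If `Y ⊆ Y'` then
  `Lam (Y' ∪ W) + Lam (Y' ∩ W) ≤ Lam Y' + Lam W` and `Lam W ≤ Lam (Y' ∪ W)` (`W` is closed), so
  `Lam Y ≤ Lam (Y' ∩ W) ≤ Lam Y'`.
* `cls_mono`: if `b(Y) > b(Y')` then `c' (b(Y) - b(Y')) ≤ c (b(Y) - b(Y')) ≤ |Y'| - |Y|`.
* `cls_expand`: let `Z` be disjoint from the closed set `Y`, `2 |Z| ≤ n`, `a = |bd Z \ inc Y|`,
  `b = |bd Z ∩ inc Y|`. All edges in `bd Z ∩ inc Y` connect `Z` and `Y`, so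
  `|bd (Y ∪ Z)| = |bd Y| - b + a` and closedness gives `c b ≤ |Z| + c a`. With `|Z| ≤ c0 (a + b)`
  (`GX.cheeger`, or `pos_bd`): `c |Z| ≤ c0 c a + c0 (|Z| + c a)`, so `(c - c0) |Z| ≤ 2 c0 c a` and
  with `2 c0 ≤ c`: `|Z| ≤ 4 c0 a`.
* `cls_big`: otherwise `cls_expand` with `Z = Yᶜ`, where `a = 0`.
* `robust`: `U` closed for `c + c0`, `S = U ∪ F ⊆ W`, `W` closed for `c`. Take `Y` from
  `exists_cls_between`. Put `Δ = |Y| - |U|`, `δ = b(U) - b(Y)` (integers).
  `Lam_union_le`: `Δ ≤ c δ + (1 + c D) |F|`; closedness of `U`: `(c + c0) δ ≤ Δ`. So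
  `c0 δ ≤ (1 + c D) |F|` and (`c ≤ 3 c0`) `Δ ≤ 3 (c0 δ) + (1 + c D)|F| ≤ 4 (1 + c D) |F|` if `δ ≥ 0`,
  and `Δ ≤ (1 + c D) |F|` otherwise.
* `sub_of_inc_sub`: if `u ∈ U \ W` then all edges at `u` are in `inc W` and connect `u` to `W`:
  `cls_expand` with `Z = {u}` gives `1 ≤ 0`.
-/

namespace Pool.Agent.H3.Ex

open Finset Pool.Agent.H3.Frg Pool.Agent.H3.Frg2 Pool.Agent.H3.Frg3

variable {E Wv : Type} [Fintype E] [DecidableEq E] [Fintype Wv] [DecidableEq Wv]
  {src tgt : E → Wv} {D c0 : ℕ} {ε : Wv → ℝ}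

theorem lam_submod (c : ℕ) (A B : Finset Wv) :
    Lam src tgt c (A ∪ B) + Lam src tgt c (A ∩ B) ≤ Lam src tgt c A + Lam src tgt c B := by
  have h1 := Finset.card_union_add_card_inter A B
  have h2 : (bd src tgt (A ∪ B)).card + (bd src tgt (A ∩ B)).card
      ≤ (bd src tgt A).card + (bd src tgt B).card := by
    unfold bd
    simp only [Finset.card_filter]
    rw [← Finset.sum_add_distrib, ← Finset.sum_add_distrib]
    refine Finset.sum_le_sum fun e _ => ?_
    by_cases a1 : src e ∈ A <;> by_cases a2 : src e ∈ B <;> by_cases a3 : tgt e ∈ A <;>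
      by_cases a4 : tgt e ∈ B <;> simp [a1, a2, a3, a4]
  unfold Lam
  have h3 := Nat.mul_le_mul_left c h2
  rw [Nat.mul_add, Nat.mul_add] at h3
  omega

theorem cls_univ (c : ℕ) : Cls src tgt c (univ : Finset Wv) := by
  intro Y' h
  have : Y' = univ := Finset.univ_subset_iff.mp h
  rw [this]

theorem cls_empty (c : ℕ) : Cls src tgt c (∅ : Finset Wv) := by
  intro Y' _
  rw [Lam_empty]
  exact Nat.zero_le _

theorem exists_cls_between {c : ℕ} {S W' : Finset Wv} (hW : Cls src tgt c W') (hS : S ⊆ W') :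
    ∃ Y, S ⊆ Y ∧ Y ⊆ W' ∧ Cls src tgt c Y ∧ Lam src tgt c Y ≤ Lam src tgt c S := by
  classical
  obtain ⟨Y, hY, hmin⟩ := Finset.exists_min_image (W'.powerset.filter fun Y => S ⊆ Y)
    (fun Y => Lam src tgt c Y) ⟨S, by simp [hS]⟩
  rw [Finset.mem_filter, Finset.mem_powerset] at hY
  refine ⟨Y, hY.2, hY.1, ?_, hmin S (by simp [hS])⟩
  intro Y' hYY'
  have h1 := lam_submod (src := src) (tgt := tgt) c Y' W'
  have h2 := hW (Y' ∪ W') Finset.subset_union_right
  have h3 := hmin (Y' ∩ W') (by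
    rw [Finset.mem_filter, Finset.mem_powerset]
    exact ⟨Finset.inter_subset_right, Finset.subset_inter (hY.2.trans hYY') hS⟩)
  omega

theorem cls_mono {c c' : ℕ} (h : c' ≤ c) {Y : Finset Wv} (hY : Cls src tgt c Y) :
    Cls src tgt c' Y := by
  intro Y' hYY'
  have h1 := hY Y' hYY'
  have h2 := Finset.card_le_card hYY'
  unfold Lam at *
  obtain ⟨d, rfl⟩ := Nat.exists_eq_add_of_le h
  by_cases hb : (bd src tgt Y).card ≤ (bd src tgt Y').card
  · have := Nat.mul_le_mul_left c' hb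
    omega
  · push Not at hb
    obtain ⟨g, hg⟩ := Nat.exists_eq_add_of_lt hb
    rw [hg] at h1 ⊢
    have h3 : (c' + d) * ((bd src tgt Y').card + g + 1)
        = (c' + d) * (bd src tgt Y').card + (c' * (g + 1) + d * (g + 1)) := by ring
    have h4 : c' * ((bd src tgt Y').card + g + 1)
        = c' * (bd src tgt Y').card + c' * (g + 1) := by ring
    rw [h3] at h1
    rw [h4]
    omega

theorem cls_expand (h : GX src tgt D c0) {c : ℕ} (hc : 2 * c0 ≤ c) {Y Z : Finset Wv}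
    (hY : Cls src tgt c Y) (hZ : Disjoint Z Y) (h2 : 2 * Z.card ≤ Fintype.card Wv) :
    Z.card ≤ 4 * c0 * (bd src tgt Z \ inc src tgt Y).card := by
  rcases Finset.eq_empty_or_nonempty Z with hZe | hZn
  · rw [hZe]; simp
  have hmem : ∀ e, e ∈ bd src tgt Z → (e ∈ inc src tgt Y ↔ e ∈ bd src tgt Y) := by
    intro e he
    rw [mem_bd] at he
    rw [mem_inc, mem_bd]
    have d1 : src e ∈ Z → src e ∉ Y := fun h => Finset.disjoint_left.mp hZ h
    have d2 : tgt e ∈ Z → tgt e ∉ Y := fun h => Finset.disjoint_left.mp hZ h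
    tauto
  have e1 : bd src tgt Z \ inc src tgt Y = bd src tgt Z \ bd src tgt Y := by
    ext e
    simp only [Finset.mem_sdiff]
    constructor
    · rintro ⟨ha, hb⟩
      exact ⟨ha, fun hx => hb ((hmem e ha).mpr hx)⟩
    · rintro ⟨ha, hb⟩
      exact ⟨ha, fun hx => hb ((hmem e ha).mp hx)⟩
  rw [e1]
  have e2 : bd src tgt (Y ∪ Z) = symmDiff (bd src tgt Y) (bd src tgt Z) := by
    rw [← bd_symmDiff]
    congr 1
    ext w
    rw [Finset.mem_union, Finset.mem_symmDiff]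
    have d1 : w ∈ Z → w ∉ Y := fun h => Finset.disjoint_left.mp hZ h
    tauto
  have e3 : (bd src tgt (Y ∪ Z)).card
      = (bd src tgt Y \ bd src tgt Z).card + (bd src tgt Z \ bd src tgt Y).card := by
    rw [e2, symmDiff_def, Finset.sup_eq_union, Finset.card_union_of_disjoint]
    rw [Finset.disjoint_left]
    intro a ha hb
    rw [Finset.mem_sdiff] at ha hb
    exact ha.2 hb.1
  have e4 := Finset.card_sdiff_add_card_inter (bd src tgt Y) (bd src tgt Z)
  have e5 := Finset.card_sdiff_add_card_inter (bd src tgt Z) (bd src tgt Y)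
  have e6 : (bd src tgt Z ∩ bd src tgt Y).card = (bd src tgt Y ∩ bd src tgt Z).card := by
    rw [Finset.inter_comm]
  have e7 : (Y ∪ Z).card = Y.card + Z.card := Finset.card_union_of_disjoint hZ.symm
  have e8 := hY (Y ∪ Z) Finset.subset_union_left
  have e9 := pos_bd h hZn h2
  unfold Lam at e8
  rw [e3, e7, ← e4] at e8
  rw [← e5, e6] at e9
  generalize (bd src tgt Z \ bd src tgt Y).card = a at *
  generalize (bd src tgt Y ∩ bd src tgt Z).card = b at *
  generalize (bd src tgt Y \ bd src tgt Z).card = g at *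
  have f1 : c * b ≤ Z.card + c * a := by nlinarith
  have hc0 := h.hc
  obtain ⟨d, rfl⟩ := Nat.exists_eq_add_of_le hc
  have f2 : (2 * c0 + d) * Z.card ≤ (2 * c0 + d) * (c0 * (a + b)) := Nat.mul_le_mul_left _ e9
  have f3 : c0 * ((2 * c0 + d) * b) ≤ c0 * (Z.card + (2 * c0 + d) * a) :=
    Nat.mul_le_mul_left _ f1
  have f4 : (c0 + d) * Z.card ≤ 2 * c0 * ((2 * c0 + d) * a) := by nlinarith
  have f5 : (c0 + d) * Z.card ≤ (c0 + d) * (4 * c0 * a) := by
    refine f4.trans ?_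
    have : 2 * c0 * ((2 * c0 + d) * a) ≤ 2 * c0 * ((2 * c0 + 2 * d) * a) :=
      Nat.mul_le_mul_left _ (Nat.mul_le_mul_right _ (by omega))
    refine this.trans (le_of_eq ?_)
    ring
  exact Nat.le_of_mul_le_mul_left f5 (by omega)

theorem cls_big (h : GX src tgt D c0) {c : ℕ} (hc : 2 * c0 ≤ c) {Y : Finset Wv}
    (hY : Cls src tgt c Y) (hne : Y ≠ univ) : Fintype.card Wv < 2 * Yᶜ.card := by
  by_contra hcon
  push Not at hcon
  have h1 := cls_expand h hc hY (Z := Yᶜ) disjoint_compl_left hcon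
  have h2 : bd src tgt Yᶜ \ inc src tgt Y = ∅ := by
    rw [Finset.sdiff_eq_empty_iff_subset]
    intro e he
    rw [bd_compl, mem_bd] at he
    rw [mem_inc]
    tauto
  rw [h2, Finset.card_empty, Nat.mul_zero, Nat.le_zero, Finset.card_eq_zero,
    Finset.compl_eq_empty_iff] at h1
  exact hne h1

theorem exists_notMem_of_lam {c : ℕ} {Y : Finset Wv}
    (h : Lam src tgt c Y < Fintype.card Wv) : ∃ v, v ∉ Y := by
  by_contra hcon
  push Not at hcon
  have h1 : Y = univ := Finset.eq_univ_iff_forall.mpr hcon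
  have h2 := card_le_Lam (src := src) (tgt := tgt) c Y
  rw [h1, Finset.card_univ] at h2
  rw [h1] at h
  omega

theorem robust (h : GX src tgt D c0) {c : ℕ} (h3 : c ≤ 3 * c0)
    {U F W' : Finset Wv} (hU : Cls src tgt (c + c0) U) (hW : Cls src tgt c W')
    (hUW : U ∪ F ⊆ W') :
    ∃ Y, U ∪ F ⊆ Y ∧ Y ⊆ W' ∧ Cls src tgt c Y ∧
      (Y \ U).card ≤ 4 * (1 + c * D) * F.card := by
  obtain ⟨Y, hY1, hY2, hY3, hY4⟩ := exists_cls_between hW hUW
  refine ⟨Y, hY1, hY2, hY3, ?_⟩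
  have hUY : U ⊆ Y := Finset.subset_union_left.trans hY1
  have a1 := Lam_union_le h c U F
  have a2 := hU Y hUY
  have a3 : (Y \ U).card + U.card = Y.card := Finset.card_sdiff_add_card_eq_card hUY
  have a4 := hY4.trans a1
  unfold Lam at a2 a4
  rw [← a3] at a2 a4
  rw [Nat.mul_assoc]
  generalize (1 + c * D) * F.card = K at *
  generalize (Y \ U).card = Δ at *
  generalize (bd src tgt U).card = u at *
  generalize (bd src tgt Y).card = y at *
  rcases le_total u y with huy | huy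
  · have := Nat.mul_le_mul_left c huy
    omega
  · obtain ⟨δ, rfl⟩ := Nat.exists_eq_add_of_le huy
    have b1 : (c + c0) * (y + δ) = (c + c0) * y + (c * δ + c0 * δ) := by ring
    have b2 : c * (y + δ) = c * y + c * δ := by ring
    rw [b1] at a2
    rw [b2] at a4
    have b3 : c * δ ≤ 3 * (c0 * δ) := by
      calc c * δ ≤ (3 * c0) * δ := Nat.mul_le_mul_right _ h3
        _ = 3 * (c0 * δ) := by ring
    omega

theorem sub_of_inc_sub (h : GX src tgt D c0) {c : ℕ} (hc : 2 * c0 ≤ c)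
    (hn : 2 ≤ Fintype.card Wv) {U W' : Finset Wv} (hW : Cls src tgt c W')
    (hinc : inc src tgt U ⊆ inc src tgt W') : U ⊆ W' := by
  intro u hu
  by_contra hcon
  have h1 := cls_expand h hc hW (Z := {u}) (by simpa using hcon) (by simpa using hn)
  have h2 : bd src tgt {u} \ inc src tgt W' = ∅ := by
    rw [Finset.sdiff_eq_empty_iff_subset]
    exact (bd_sub_inc hu).trans hinc
  rw [h2] at h1
  simp at h1

end Pool.Agent.H3.Ex
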