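import Mathlib
import Pool.Agent.H3.Ex.Defs

set_option autoImplicit false
set_option linter.unusedSectionVars false

/-!
# Definitions for the core lemma: configurations and quadruples
-/

namespace Pool.Agent.H3.Ex

open Finset Pool.Agent.H3.Frg Pool.Agent.H3.Frg2 Pool.Agent.H3.Frg3

variable {E Wv : Type} [Fintype E] [DecidableEq E] [Fintype Wv] [DecidableEq Wv]

/-- configuration: an assignment `y` of the world `v` extending the part of `z` at `U`, on which `T`
has the value `b`, with `k` disjoint short even blocks `B i` such that `T` has the value `!b` on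
`fp (B i) y`; everything is hidden by `W'` -/
structure IsCfg (src tgt : E → Wv) (ε : Wv → ℝ) (c0 : ℕ) (T : DT E) (b : Bool) (l : ℕ)
    (U : Finset Wv) (z : E → Bool) {k : ℕ} (v : Wv) (y : E → Bool) (W' : Finset Wv)
    (B : Fin k → Finset E) : Prop where
  hUW : U ⊆ W'
  hcls : Cls src tgt (4 * c0) W'
  hv : v ∉ W'
  hy : y ∈ Sol src tgt ε v
  hz : ∀ e ∈ inc src tgt U, y e = z e
  hqs : T.qs y ⊆ inc src tgt W'
  hval : T.eval y = b
  hodv : ∀ i, odv src tgt (B i) = ∅
  hcard : ∀ i, (B i).card ≤ l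
  hdis : ∀ i, Disjoint (B i) (inc src tgt U)
  hends : ∀ i, ends src tgt (B i) ⊆ W'
  hqsB : ∀ i, T.qs (fp (B i) y) ⊆ inc src tgt W'
  hvalB : ∀ i, T.eval (fp (B i) y) = !b
  hpair : ∀ i j, i ≠ j → Disjoint (B i) (B j)

/-- quadruple: an assignment `y3` of the world `v3` extending the part of `y` at `W'`, and an even set
`B3` disjoint from `inc U'` such that `T` has the value `!b` on `fp B3 y3`, hidden by `W3` -/
structure IsQ (src tgt : E → Wv) (ε : Wv → ℝ) (c0 : ℕ) (T : DT E) (b : Bool)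
    (U' W' : Finset Wv) (y : E → Bool) (v3 : Wv) (y3 : E → Bool) (B3 : Finset E)
    (W3 : Finset Wv) : Prop where
  hW : W' ⊆ W3
  hcls : Cls src tgt (4 * c0) W3
  hv : v3 ∉ W3
  hy : y3 ∈ Sol src tgt ε v3
  hz : ∀ e ∈ inc src tgt W', y3 e = y e
  hodv : odv src tgt B3 = ∅
  hdis : Disjoint B3 (inc src tgt U')
  hqs : T.qs (fp B3 y3) ⊆ inc src tgt W3
  hval : T.eval (fp B3 y3) = !b

end Pool.Agent.H3.Ex
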