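import Mathlib
import Pool.Agent.H3.Ex.Defs
import Pool.Agent.H3.Ex.Base
import Pool.Agent.H3.Ex.Clos

set_option autoImplicit false
set_option linter.unusedSectionVars false

/-!
# Module DIA: short connections outside a closed set

`n = |Wv|`, `q = 4 c0 D`, `Y` closed (for `c ≥ 2 c0`).

* `exists_len`: `(1 + 1/q)^L` tends to infinity (`q ≥ 1`); for instance Bernoulli's inequality with
  `L = n q`: `(q+1)^(nq) ≥ q^(nq) (1 + n)`; for `q = 0` take `L = 1`.
* `exists_link`: for `x ∉ Y` let `B r` be the set of all `w ∉ Y` such that there is `R` disjoint from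
  `inc Y` with `|R| ≤ r` and `odv R = {x} ∆ {w}`. `x ∈ B 0` (`R = ∅`). If `w ∈ B r` and `e ∉ inc Y` is
  an edge with ends `w, w'`, then `w' ∉ Y` and `w' ∈ B (r + 1)` (`R ∆ {e}`; `odv_symmDiff`,
  `odv_singleton`). So every edge in `bd (B r) \ inc Y` has its outer end in `B (r+1) \ B r`, and each
  vertex is the end of at most `D` of these edges (`GX.deg`; an edge `e` with end `w` is in
  `bd {w}`): `|bd (B r) \ inc Y| ≤ D |B (r+1) \ B r|`. By `cls_expand`, if `2 |B r| ≤ n` then
  `|B r| ≤ 4 c0 D (|B (r+1)| - |B r|)`, i.e. `(q+1) |B r| ≤ q |B (r+1)|`. If `2 |B L1| ≤ n` then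
  `(q+1)^L1 ≤ (q+1)^L1 |B 0| ≤ q^L1 |B L1| ≤ q^L1 n`, a contradiction. So `2 |B L1| > n`, for `x` and
  for `x'`: there is a common vertex `w`, and `R ∆ R'` connects `x` and `x'`
  (`card_symmDiff_le'` of `Frg/Tseitin.lean`).
-/

namespace Pool.Agent.H3.Ex

open Finset Pool.Agent.H3.Frg Pool.Agent.H3.Frg2 Pool.Agent.H3.Frg3

variable {E Wv : Type} [Fintype E] [DecidableEq E] [Fintype Wv] [DecidableEq Wv]
  {src tgt : E → Wv} {D c0 : ℕ} {ε : Wv → ℝ}

theorem exists_len (n q : ℕ) : ∃ L1 : ℕ, n * q ^ L1 < (q + 1) ^ L1 := by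
  rcases Nat.eq_zero_or_pos q with hq | hq
  · exact ⟨1, by simp [hq]⟩
  · refine ⟨n * q, ?_⟩
    have hq' : (0 : ℝ) < (q : ℝ) := by exact_mod_cast hq
    have h1 : (1 : ℝ) + ((n * q : ℕ) : ℝ) * (1 / (q : ℝ)) ≤ (1 + 1 / (q : ℝ)) ^ (n * q) := by
      refine one_add_mul_le_pow ?_ _
      have : (0 : ℝ) ≤ 1 / (q : ℝ) := by positivity
      linarith
    have h2 : ((n * q : ℕ) : ℝ) * (1 / (q : ℝ)) = n := by
      push_cast
      field_simp
    rw [h2] at h1
    have h3 : (1 + 1 / (q : ℝ)) ^ (n * q) * (q : ℝ) ^ (n * q) = ((q : ℝ) + 1) ^ (n * q) := by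
      rw [← mul_pow]
      congr 1
      field_simp
    have h4 : (0 : ℝ) < (q : ℝ) ^ (n * q) := by positivity
    have h5 : (n : ℝ) * (q : ℝ) ^ (n * q) < ((q : ℝ) + 1) ^ (n * q) := by
      rw [← h3]
      nlinarith
    exact_mod_cast h5

open scoped Classical in
/-- the vertices which can be reached by a set of at most `r` edges outside `inc Y` -/
noncomputable def rch (src tgt : E → Wv) (Y : Finset Wv) (x : Wv) (r : ℕ) : Finset Wv :=
  univ.filter fun w => w ∉ Y ∧ ∃ R : Finset E, Disjoint R (inc src tgt Y) ∧ R.card ≤ r ∧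
    odv src tgt R = symmDiff {x} {w}

theorem mem_rch {Y : Finset Wv} {x w : Wv} {r : ℕ} : w ∈ rch src tgt Y x r ↔
    w ∉ Y ∧ ∃ R : Finset E, Disjoint R (inc src tgt Y) ∧ R.card ≤ r ∧
      odv src tgt R = symmDiff {x} {w} := by
  simp [rch]

theorem self_mem_rch {Y : Finset Wv} {x : Wv} (hx : x ∉ Y) : x ∈ rch src tgt Y x 0 := by
  rw [mem_rch]
  refine ⟨hx, ∅, Finset.disjoint_empty_left _, by simp, ?_⟩
  rw [odv_empty, symmDiff_self]
  rfl

theorem rch_succ {Y : Finset Wv} {x : Wv} {r : ℕ} :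
    rch src tgt Y x r ⊆ rch src tgt Y x (r + 1) := by
  intro w hw
  rw [mem_rch] at hw ⊢
  obtain ⟨h1, R, h2, h3, h4⟩ := hw
  exact ⟨h1, R, h2, by omega, h4⟩

theorem rch_step (h : GX src tgt D c0) {Y : Finset Wv} {x : Wv} {r : ℕ} {e : E} {w w' : Wv}
    (he : e ∉ inc src tgt Y) (hw : w ∈ rch src tgt Y x r)
    (hww : ({src e, tgt e} : Finset Wv) = symmDiff {w} {w'}) (hw' : w' ∉ Y) :
    w' ∈ rch src tgt Y x (r + 1) := by
  rw [mem_rch] at hw ⊢
  obtain ⟨h1, R, h2, h3, h4⟩ := hw
  refine ⟨hw', symmDiff R {e}, ?_, ?_, ?_⟩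
  · rw [Finset.disjoint_left] at h2 ⊢
    intro a ha
    rw [Finset.mem_symmDiff, Finset.mem_singleton] at ha
    rcases ha with ha | ha
    · exact h2 ha.1
    · rw [ha.1]; exact he
  · refine (card_symmDiff_le' R {e}).trans ?_
    rw [Finset.card_singleton]
    omega
  · rw [odv_symmDiff, odv_singleton h, h4, hww, symmDiff_assoc, symmDiff_symmDiff_cancel_left]

theorem rch_bd (h : GX src tgt D c0) {Y : Finset Wv} {x : Wv} {r : ℕ} :
    (bd src tgt (rch src tgt Y x r) \ inc src tgt Y).card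
      ≤ D * (rch src tgt Y x (r + 1) \ rch src tgt Y x r).card := by
  have hsub : bd src tgt (rch src tgt Y x r) \ inc src tgt Y
      ⊆ (rch src tgt Y x (r + 1) \ rch src tgt Y x r).biUnion fun w => bd src tgt {w} := by
    intro e he
    rw [Finset.mem_sdiff, mem_bd] at he
    obtain ⟨he1, he2⟩ := he
    have hl := h.loopless e
    have hY : src e ∉ Y ∧ tgt e ∉ Y := by
      rw [mem_inc] at he2
      tauto
    have hp : ({src e, tgt e} : Finset Wv) = symmDiff {src e} {tgt e} := by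
      ext w
      simp only [Finset.mem_insert, Finset.mem_singleton, Finset.mem_symmDiff]
      constructor
      · rintro (rfl | rfl)
        · exact Or.inl ⟨rfl, hl⟩
        · exact Or.inr ⟨rfl, fun hh => hl hh.symm⟩
      · rintro (hh | hh)
        · exact Or.inl hh.1
        · exact Or.inr hh.1
    rw [Finset.mem_biUnion]
    by_cases hs : src e ∈ rch src tgt Y x r
    · have ht : tgt e ∉ rch src tgt Y x r := by tauto
      refine ⟨tgt e, ?_, ?_⟩
      · rw [Finset.mem_sdiff]
        exact ⟨rch_step h he2 hs hp hY.2, ht⟩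
      · rw [mem_bd, Finset.mem_singleton, Finset.mem_singleton]
        tauto
    · have ht : tgt e ∈ rch src tgt Y x r := by tauto
      refine ⟨src e, ?_, ?_⟩
      · rw [Finset.mem_sdiff]
        exact ⟨rch_step h he2 ht (by rw [hp, symmDiff_comm]) hY.1, hs⟩
      · rw [mem_bd, Finset.mem_singleton, Finset.mem_singleton]
        have : tgt e ≠ src e := fun hh => hl hh.symm
        tauto
  refine (Finset.card_le_card hsub).trans ?_
  rw [Nat.mul_comm]
  exact Finset.card_biUnion_le_card_mul _ _ _ fun w _ => h.deg w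

theorem rch_big (h : GX src tgt D c0) {c L1 : ℕ} (hc : 2 * c0 ≤ c)
    (hL : Fintype.card Wv * (4 * c0 * D) ^ L1 < (4 * c0 * D + 1) ^ L1) {Y : Finset Wv}
    (hY : Cls src tgt c Y) {x : Wv} (hx : x ∉ Y) :
    Fintype.card Wv < 2 * (rch src tgt Y x L1).card := by
  by_contra hcon
  push Not at hcon
  have hmono : ∀ r s, r ≤ s → rch src tgt Y x r ⊆ rch src tgt Y x s := by
    intro r s hrs
    induction s, hrs using Nat.le_induction with
    | base => exact Finset.Subset.refl _
    | succ s _ ih => exact ih.trans rch_succ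
  have key : ∀ r, r ≤ L1 → (4 * c0 * D + 1) ^ r ≤ (4 * c0 * D) ^ r * (rch src tgt Y x r).card := by
    intro r
    induction r with
    | zero =>
      intro _
      rw [pow_zero, pow_zero, Nat.one_mul]
      exact Finset.card_pos.mpr ⟨x, self_mem_rch hx⟩
    | succ r ih =>
      intro hr
      have h1 := ih (by omega)
      have h2 : 2 * (rch src tgt Y x r).card ≤ Fintype.card Wv :=
        (Nat.mul_le_mul_left 2 (Finset.card_le_card (hmono r L1 (by omega)))).trans hcon
      have hd : Disjoint (rch src tgt Y x r) Y := by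
        rw [Finset.disjoint_left]
        intro w hw
        rw [mem_rch] at hw
        exact hw.1
      have h3 := cls_expand h hc hY hd h2
      have h4 := rch_bd h (Y := Y) (x := x) (r := r)
      have h5 : (rch src tgt Y x (r + 1) \ rch src tgt Y x r).card + (rch src tgt Y x r).card
          = (rch src tgt Y x (r + 1)).card := Finset.card_sdiff_add_card_eq_card rch_succ
      have h6 : (rch src tgt Y x r).card
          ≤ 4 * c0 * D * (rch src tgt Y x (r + 1) \ rch src tgt Y x r).card := by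
        calc (rch src tgt Y x r).card
            ≤ 4 * c0 * (bd src tgt (rch src tgt Y x r) \ inc src tgt Y).card := h3
          _ ≤ 4 * c0 * (D * (rch src tgt Y x (r + 1) \ rch src tgt Y x r).card) :=
            Nat.mul_le_mul_left _ h4
          _ = _ := by ring
      have h7 : (4 * c0 * D + 1) * (rch src tgt Y x r).card
          ≤ 4 * c0 * D * (rch src tgt Y x (r + 1)).card := by
        rw [← h5, Nat.mul_add, Nat.add_mul, Nat.one_mul]
        omega
      calc (4 * c0 * D + 1) ^ (r + 1) = (4 * c0 * D + 1) ^ r * (4 * c0 * D + 1) := pow_succ _ _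
        _ ≤ ((4 * c0 * D) ^ r * (rch src tgt Y x r).card) * (4 * c0 * D + 1) :=
          Nat.mul_le_mul_right _ h1
        _ = (4 * c0 * D) ^ r * ((4 * c0 * D + 1) * (rch src tgt Y x r).card) := by ring
        _ ≤ (4 * c0 * D) ^ r * (4 * c0 * D * (rch src tgt Y x (r + 1)).card) :=
          Nat.mul_le_mul_left _ h7
        _ = _ := by ring
  have h1 := key L1 le_rfl
  have h2 : (rch src tgt Y x L1).card ≤ Fintype.card Wv := Finset.card_le_univ _
  have h3 : (4 * c0 * D) ^ L1 * (rch src tgt Y x L1).card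
      ≤ (4 * c0 * D) ^ L1 * Fintype.card Wv := Nat.mul_le_mul_left _ h2
  rw [Nat.mul_comm (Fintype.card Wv)] at hL
  omega

theorem exists_link (h : GX src tgt D c0) {c L1 : ℕ} (hc : 2 * c0 ≤ c)
    (hL : Fintype.card Wv * (4 * c0 * D) ^ L1 < (4 * c0 * D + 1) ^ L1) {Y : Finset Wv}
    (hY : Cls src tgt c Y) {x x' : Wv} (hx : x ∉ Y) (hx' : x' ∉ Y) :
    ∃ R : Finset E, Disjoint R (inc src tgt Y) ∧ odv src tgt R = symmDiff {x} {x'} ∧
      R.card ≤ 2 * L1 := by
  have h1 := rch_big h hc hL hY hx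
  have h2 := rch_big h hc hL hY hx'
  have h3 : ¬ Disjoint (rch src tgt Y x L1) (rch src tgt Y x' L1) := by
    intro hd
    have h4 := Finset.card_union_of_disjoint hd
    have h5 : (rch src tgt Y x L1 ∪ rch src tgt Y x' L1).card ≤ Fintype.card Wv :=
      Finset.card_le_univ _
    omega
  rw [Finset.not_disjoint_iff] at h3
  obtain ⟨w, hw, hw'⟩ := h3
  rw [mem_rch] at hw hw'
  obtain ⟨_, R, hR1, hR2, hR3⟩ := hw
  obtain ⟨_, R', hR1', hR2', hR3'⟩ := hw'
  refine ⟨symmDiff R R', ?_, ?_, ?_⟩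
  · rw [Finset.disjoint_left] at hR1 hR1' ⊢
    intro a ha
    rw [Finset.mem_symmDiff] at ha
    rcases ha with ha | ha
    · exact hR1 ha.1
    · exact hR1' ha.1
  · rw [odv_symmDiff, hR3, hR3', symmDiff_comm ({x'} : Finset Wv) {w}, symmDiff_assoc,
      symmDiff_symmDiff_cancel_left]
  · refine (card_symmDiff_le' R R').trans ?_
    omega

end Pool.Agent.H3.Ex
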