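import Mathlib
import Pool.Agent.H3.Ex.Defs
import Pool.Agent.H3.Ex.Base
import Pool.Agent.H3.Ex.Clos
import Pool.Agent.H3.Ex.LinkA

/-!
# Module COM: completion to even sets, extension of assignments

* `exists_completion`: induction on `A`; for `A = insert a A'` add to the set of `A'` the connection of
  `a` and `x0` (`exists_link`). For all `A`: `odv O = A` if `|A|` is even, `A ∆ {x0}` if `|A|` is odd.
* `exists_world`: take `L1` with `n q^L1 < (q+1)^L1`, `q = 4 c0 D` (`exists_len`), and
  `A = {w ∉ Y : w ≠ v, chi (bd {w}) z ≠ ε w}`, `O` from `exists_completion` with `x0 = v`, and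
  `y = fp O z`: for `w ∈ Y` the edges of `bd {w}` are in `inc Y`, where `y = z`; for `w ∉ Y`, `w ≠ v`:
  `w ∈ odv O ↔ w ∈ A`, and `chi (bd {w}) y = chi (bd {w}) z * (-1)^[w ∈ odv O]` (`chi_fp`, `mem_odv`,
  after `inter_comm`), which is `ε w` (all values are `1` or `-1`: `ε w * ε w = 1`, `chi_mul_self`).
-/

set_option autoImplicit false
set_option linter.unusedSectionVars false

namespace Pool.Agent.H3.Ex

open Finset Pool.Agent.H3.Frg Pool.Agent.H3.Frg2 Pool.Agent.H3.Frg3

variable {E Wv : Type} [Fintype E] [DecidableEq E] [Fintype Wv] [DecidableEq Wv]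
  {src tgt : E → Wv} {D c0 : ℕ} {ε : Wv → ℝ}

theorem exists_completion (h : GX src tgt D c0) {c L1 : ℕ} (hc : 2 * c0 ≤ c)
    (hL : Fintype.card Wv * (4 * c0 * D) ^ L1 < (4 * c0 * D + 1) ^ L1) {Y : Finset Wv}
    (hY : Cls src tgt c Y) {x0 : Wv} (hx : x0 ∉ Y) (A : Finset Wv) (hA : Disjoint A Y) :
    ∃ R : Finset E, Disjoint R (inc src tgt Y) ∧
      odv src tgt R = (if Even A.card then A else symmDiff A {x0}) ∧
      R.card ≤ 2 * L1 * A.card := by
  induction A using Finset.induction_on with
  | empty =>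
    refine ⟨∅, Finset.disjoint_empty_left _, ?_, ?_⟩
    · rw [odv_empty, Finset.card_empty, if_pos Even.zero]
    · simp
  | insert a A' ha ih =>
    rw [Finset.disjoint_insert_left] at hA
    obtain ⟨R', h1, h2, h3⟩ := ih hA.2
    obtain ⟨R1, h4, h5, h6⟩ := exists_link h hc hL hY hA.1 hx
    have hins : insert a A' = symmDiff A' {a} := by
      ext w
      rw [Finset.mem_insert, Finset.mem_symmDiff, Finset.mem_singleton]
      constructor
      · rintro (rfl | hw)
        · exact Or.inr ⟨rfl, ha⟩
        · refine Or.inl ⟨hw, ?_⟩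
          rintro rfl
          exact ha hw
      · rintro (⟨hw, -⟩ | ⟨hw, -⟩)
        · exact Or.inr hw
        · exact Or.inl hw
    refine ⟨symmDiff R' R1, ?_, ?_, ?_⟩
    · rw [Finset.disjoint_left] at h1 h4 ⊢
      intro e he
      rw [Finset.mem_symmDiff] at he
      rcases he with he | he
      · exact h1 he.1
      · exact h4 he.1
    · rw [odv_symmDiff, h2, h5, Finset.card_insert_of_notMem ha]
      by_cases hev : Even A'.card
      · rw [if_pos hev, if_neg (by rw [Nat.even_add_one]; exact fun hh => hh hev), hins,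
          symmDiff_assoc]
      · rw [if_neg hev, if_pos (by rw [Nat.even_add_one]; exact hev), hins, symmDiff_assoc,
          symmDiff_comm ({a} : Finset Wv) {x0}, ← symmDiff_assoc ({x0} : Finset Wv) {x0} {a},
          symmDiff_self, bot_symmDiff]
    · rw [Finset.card_insert_of_notMem ha]
      have := card_symmDiff_le' R' R1
      rw [mul_add, mul_one]
      omega

theorem exists_world (h : GX src tgt D c0) (hε : ∀ w, ε w * ε w = 1) {c : ℕ} (hc : 2 * c0 ≤ c)
    {Y : Finset Wv} (hY : Cls src tgt c Y) {z : E → Bool} (hz : Sat src tgt ε Y z) {v : Wv}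
    (hv : v ∉ Y) : ∃ y ∈ Sol src tgt ε v, ∀ e ∈ inc src tgt Y, y e = z e := by
  classical
  obtain ⟨L1, hL⟩ := exists_len (Fintype.card Wv) (4 * c0 * D)
  obtain ⟨A, hA⟩ : ∃ A : Finset Wv,
      A = univ.filter fun w => w ∉ Y ∧ chi (bd src tgt {w}) z ≠ ε w := ⟨_, rfl⟩
  have hAY : Disjoint A Y := by
    rw [Finset.disjoint_left]
    intro w hw
    rw [hA, Finset.mem_filter] at hw
    exact hw.2.1
  obtain ⟨R, h1, h2, -⟩ := exists_completion h hc hL hY hv A hAY
  have hR : ∀ w, w ≠ v → (Odd (bd src tgt {w} ∩ R).card ↔ w ∈ A) := by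
    intro w hw
    rw [Finset.inter_comm, ← mem_odv, h2]
    split_ifs
    · exact Iff.rfl
    · rw [Finset.mem_symmDiff, Finset.mem_singleton]
      constructor
      · rintro (⟨hh, -⟩ | ⟨hh, -⟩)
        · exact hh
        · exact absurd hh hw
      · intro hh
        exact Or.inl ⟨hh, hw⟩
  refine ⟨fp R z, ?_, ?_⟩
  · rw [mem_Sol]
    intro w hw
    rw [chi_fp]
    by_cases hwA : w ∈ A
    · rw [if_pos ((hR w hw).2 hwA)]
      rw [hA, Finset.mem_filter] at hwA
      have h3 := chi_mul_self (bd src tgt {w}) z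
      have h4 := hε w
      have h5 : (chi (bd src tgt {w}) z - ε w) * (chi (bd src tgt {w}) z + ε w) = 0 := by
        linear_combination h3 - h4
      rcases mul_eq_zero.1 h5 with h6 | h6
      · exact absurd (sub_eq_zero.1 h6) hwA.2.2
      · linear_combination -h6
    · rw [if_neg (fun hh => hwA ((hR w hw).1 hh)), mul_one]
      by_cases hwY : w ∈ Y
      · exact hz w hwY
      · by_contra hne
        apply hwA
        rw [hA, Finset.mem_filter]
        exact ⟨Finset.mem_univ _, hwY, hne⟩
  · intro e he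
    have h3 : e ∉ R := fun hh => Finset.disjoint_left.1 h1 hh he
    unfold fp
    rw [decide_eq_false h3, Bool.xor_false]

end Pool.Agent.H3.Ex
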