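import Mathlib
import Pool.Agent.H3.Ex.Defs
import Pool.Agent.H3.Frg3.Basic

set_option autoImplicit false
set_option linter.unusedSectionVars false

/-!
# Module TR1: decision trees, queries

* `DT.congr`, `DT.card_qs`: induction on `T`.
* `exists_query`: induction on `S` (`Finset.induction_on`), for all `F`. `S = ∅`:
  `T = F (rst ∅ z)` (`rst ∅ z` is the constant assignment `false`). `S = insert a S'`: apply the
  induction hypothesis to `S'` and to the two families `F_b z = F (Function.update z a b)`, `b : Bool`
  (note `rst (insert a S') z = Function.update (rst S' z) a (z a)`), and put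
  `T = DT.node a T_false T_true`.
* `exists_rs`: induction on `T`; for `node e t0 t1` use `exists_query` with `S = lvi c e` and
  `F z = if rs lvi c a z e then t1' else t0'`; `rs lvi c a z e` depends only on the values of `z` in
  `lvi c e`. The queried set is `lvi c e ∪ uv (…) = uv (insert e …)`.
* `td_rs`: from `exists_rs`.
-/

namespace Pool.Agent.H3.Ex

open Finset Pool.Agent.H3.Frg Pool.Agent.H3.Frg2 Pool.Agent.H3.Frg3

variable {E : Type} [Fintype E] [DecidableEq E]

theorem DT.congr (T : DT E) {z z' : E → Bool} (h : ∀ e ∈ T.qs z, z e = z' e) :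
    T.eval z' = T.eval z ∧ T.qs z' = T.qs z := by
  induction T with
  | leaf b => exact ⟨rfl, rfl⟩
  | node e t0 t1 ih0 ih1 =>
    have he : z e = z' e := h e (by unfold DT.qs; exact mem_insert_self _ _)
    by_cases hz : z e = true
    · have hz' : z' e = true := by rw [← he]; exact hz
      obtain ⟨i1, i2⟩ := ih1 (fun u hu => h u (by
        unfold DT.qs
        rw [if_pos hz]
        exact mem_insert_of_mem hu))
      constructor
      · simp only [DT.eval, if_pos hz, if_pos hz', i1]
      · simp only [DT.qs, if_pos hz, if_pos hz', i2]
    · have hz' : ¬ z' e = true := by rw [← he]; exact hz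
      obtain ⟨i1, i2⟩ := ih0 (fun u hu => h u (by
        unfold DT.qs
        rw [if_neg hz]
        exact mem_insert_of_mem hu))
      constructor
      · simp only [DT.eval, if_neg hz, if_neg hz', i1]
      · simp only [DT.qs, if_neg hz, if_neg hz', i2]

theorem DT.card_qs (T : DT E) (z : E → Bool) : (T.qs z).card ≤ T.depth := by
  induction T with
  | leaf b => simp [DT.qs, DT.depth]
  | node e t0 t1 ih0 ih1 =>
    unfold DT.qs DT.depth
    refine (card_insert_le _ _).trans ?_
    apply Nat.succ_le_succ
    by_cases hz : z e = true
    · rw [if_pos hz]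
      exact ih1.trans (le_max_right _ _)
    · rw [if_neg hz]
      exact ih0.trans (le_max_left _ _)

theorem TD_mono {d d' : ℕ} (h : d ≤ d') {g : (E → Bool) → Bool} (hg : TD d g) : TD d' g := by
  obtain ⟨T, h1, h2⟩ := hg
  exact ⟨T, h1.trans h, h2⟩

/-- query all variables in `S` and continue with a tree that depends on the answers -/
theorem exists_query (S : Finset E) (F : (E → Bool) → DT E) (d : ℕ)
    (hF : ∀ z, (F z).depth ≤ d) :
    ∃ T : DT E, T.depth ≤ S.card + d ∧
      ∀ z, T.eval z = (F (rst S z)).eval z ∧ T.qs z = S ∪ (F (rst S z)).qs z := by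
  induction S using Finset.induction_on generalizing F with
  | empty =>
    have h0 : ∀ z : E → Bool, rst ∅ z = fun _ => false := by
      intro z
      funext e
      simp [rst]
    refine ⟨F (fun _ => false), ?_, fun z => ?_⟩
    · rw [card_empty, zero_add]
      exact hF _
    · rw [h0]
      exact ⟨rfl, (empty_union _).symm⟩
  | insert a S ha ih =>
    obtain ⟨T0, d0, h0⟩ := ih (fun z => F (Function.update z a false)) (fun z => hF _)
    obtain ⟨T1, d1, h1⟩ := ih (fun z => F (Function.update z a true)) (fun z => hF _)
    have hr : ∀ (z : E → Bool) (b : Bool), z a = b →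
        Function.update (rst S z) a b = rst (insert a S) z := by
      intro z b hb
      funext e
      by_cases he : e = a
      · rw [he, Function.update_self]
        simp [rst, hb]
      · rw [Function.update_of_ne he]
        simp [rst, he]
    refine ⟨DT.node a T0 T1, ?_, fun z => ?_⟩
    · unfold DT.depth
      rw [card_insert_of_notMem ha]
      have := max_le d0 d1
      omega
    · by_cases hz : z a = true
      · obtain ⟨e1, e2⟩ := h1 z
        simp only [hr z true hz] at e1 e2
        constructor
        · simp only [DT.eval, if_pos hz, e1]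
        · simp only [DT.qs, if_pos hz, e2]
          rw [insert_union]
      · obtain ⟨e1, e2⟩ := h0 z
        simp only [hr z false (Bool.eq_false_iff.2 hz)] at e1 e2
        constructor
        · simp only [DT.eval, if_neg hz, e1]
        · simp only [DT.qs, if_neg hz, e2]
          rw [insert_union]

theorem exists_rs {E' C : Type} [Fintype E'] [DecidableEq E'] (lvi : C → E → Finset E') (c : C)
    {D : ℕ} (hcard : ∀ i, (lvi c i).card ≤ D) (a : E → Bool) (T : DT E) :
    ∃ T' : DT E', T'.depth ≤ D * T.depth ∧ ∀ z, T'.eval z = T.eval (rs lvi c a z) ∧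
      T'.qs z = uv lvi c (T.qs (rs lvi c a z)) := by
  induction T with
  | leaf b =>
    exact ⟨DT.leaf b, Nat.zero_le _, fun z => ⟨rfl, rfl⟩⟩
  | node e t0 t1 ih0 ih1 =>
    obtain ⟨T0, d0, h0⟩ := ih0
    obtain ⟨T1, d1, h1⟩ := ih1
    obtain ⟨T', hd, hT⟩ := exists_query (lvi c e)
      (fun z => if rs lvi c a z e = true then T1 else T0) (D * max t0.depth t1.depth) (by
        intro z
        by_cases hz : rs lvi c a z e = true
        · rw [if_pos hz]
          exact d1.trans (Nat.mul_le_mul_left _ (le_max_right _ _))
        · rw [if_neg hz]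
          exact d0.trans (Nat.mul_le_mul_left _ (le_max_left _ _)))
    have hr : ∀ z : E' → Bool, rs lvi c a (rst (lvi c e) z) e = rs lvi c a z e := by
      intro z
      unfold rs
      have hf : (lvi c e).filter (fun u => rst (lvi c e) z u = true) =
          (lvi c e).filter (fun u => z u = true) := by
        apply Finset.filter_congr
        intro u hu
        simp [rst, hu]
      rw [hf]
    refine ⟨T', ?_, fun z => ?_⟩
    · change T'.depth ≤ D * (max t0.depth t1.depth + 1)
      calc T'.depth ≤ (lvi c e).card + D * max t0.depth t1.depth := hd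
        _ ≤ D + D * max t0.depth t1.depth := Nat.add_le_add_right (hcard e) _
        _ = D * (max t0.depth t1.depth + 1) := by ring
    · obtain ⟨e1, e2⟩ := hT z
      simp only [hr z] at e1 e2
      by_cases hz : rs lvi c a z e = true
      · rw [if_pos hz] at e1 e2
        constructor
        · rw [e1, (h1 z).1]
          simp only [DT.eval, if_pos hz]
        · rw [e2, (h1 z).2]
          simp only [DT.qs, if_pos hz, uv]
          rw [biUnion_insert]
      · rw [if_neg hz] at e1 e2
        constructor
        · rw [e1, (h0 z).1]
          simp only [DT.eval, if_neg hz]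
        · rw [e2, (h0 z).2]
          simp only [DT.qs, if_neg hz, uv]
          rw [biUnion_insert]

theorem td_rs {E' C : Type} [Fintype E'] [DecidableEq E'] (lvi : C → E → Finset E') (c : C)
    {D : ℕ} (hcard : ∀ i, (lvi c i).card ≤ D) (a : E → Bool) {d : ℕ} {g : (E → Bool) → Bool}
    (hg : TD d g) : TD (D * d) (fun z => g (rs lvi c a z)) := by
  obtain ⟨T, h1, h2⟩ := hg
  obtain ⟨T', h3, h4⟩ := exists_rs lvi c hcard a T
  exact ⟨T', h3.trans (Nat.mul_le_mul_left _ h1), fun z => by rw [(h4 z).1, h2]⟩

end Pool.Agent.H3.Ex
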