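import Mathlib
import Pool.Agent.H3.Ex.Defs
import Pool.Agent.H3.Ex.TreeA
import Pool.Agent.H3.Frg3.Basic
import Pool.Agent.H3.Frg3.Mid

set_option autoImplicit false
set_option linter.unusedSectionVars false

/-!
# Module TR2: decision trees, degree and formulas

* `dg_tree`: induction on `T`; `rl (node e t0 t1) z = (1 - x) * rl t0 z + x * rl t1 z` with
  `x = (1 - sg (z e)) / 2 = (1 - chi {e} z) / 2`; `Dg_mul`, `Dg_mono`, `Dg_chi`, `W_add`, `W_smul`
  (`Frg/Tseitin.lean`).
* `td_vl`: induction on the formula. `neg`: change the leaves. `imp`: replace the leaves `true` of the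
  tree of `A` by the tree of `B` and the leaves `false` by `leaf true`.
-/

namespace Pool.Agent.H3.Ex

open Finset Pool.Agent.H3.Frg Pool.Agent.H3.Frg2 Pool.Agent.H3.Frg3

variable {E : Type} [Fintype E] [DecidableEq E]

theorem Tree_Dg_smul {r : (E → Bool) → ℝ} {D : ℕ} (c : ℝ) (hr : Dg r D) :
    Dg (fun z => c * r z) D := by
  intro T hT
  rw [W_smul, hr T hT, mul_zero]

theorem Tree_Dg_add {r q : (E → Bool) → ℝ} {D : ℕ} (hr : Dg r D) (hq : Dg q D) :
    Dg (fun z => r z + q z) D := by
  intro T hT
  rw [W_add, hr T hT, hq T hT, add_zero]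

theorem dg_tree (T : DT E) : Dg (rl T.eval) T.depth := by
  induction T with
  | leaf b =>
    have h := Tree_Dg_smul (rl (DT.leaf b : DT E).eval (fun _ => false))
      (Dg_chi (∅ : Finset E))
    have h1 : (fun z : E → Bool => rl (DT.leaf b : DT E).eval (fun _ => false) * chi ∅ z) =
        rl (DT.leaf b : DT E).eval := by
      funext z
      rw [chi_empty, mul_one]
      rfl
    rw [h1, card_empty] at h
    exact h
  | node e t0 t1 h0 h1 =>
    have e0 : Dg (rl t0.eval) (max t0.depth t1.depth) := Dg_mono h0 (le_max_left _ _)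
    have e1 : Dg (rl t1.eval) (max t0.depth t1.depth) := Dg_mono h1 (le_max_right _ _)
    have ec : Dg (chi ({e} : Finset E)) 1 := by
      have := Dg_chi ({e} : Finset E)
      rwa [card_singleton] at this
    have a0 := Dg_mul e0 ec
    have a1 := Dg_mul e1 ec
    have b0 := Dg_mono e0 (Nat.le_succ (max t0.depth t1.depth))
    have b1 := Dg_mono e1 (Nat.le_succ (max t0.depth t1.depth))
    have h := Tree_Dg_add (Tree_Dg_add (Tree_Dg_smul (1 / 2) b0) (Tree_Dg_smul (1 / 2) b1))
      (Tree_Dg_add (Tree_Dg_smul (1 / 2) a0) (Tree_Dg_smul (-(1 / 2)) a1))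
    have h2 : (fun z : E → Bool => (1 / 2 * rl t0.eval z + 1 / 2 * rl t1.eval z) +
        (1 / 2 * (rl t0.eval z * chi {e} z) + -(1 / 2) * (rl t1.eval z * chi {e} z))) =
        rl (DT.node e t0 t1).eval := by
      funext z
      have h3 : chi ({e} : Finset E) z = sg (z e) := by
        unfold chi
        rw [prod_singleton]
      rw [h3]
      unfold rl
      by_cases hz : z e = true
      · have h4 : (DT.node e t0 t1).eval z = t1.eval z := by
          show (if z e = true then t1.eval z else t0.eval z) = t1.eval z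
          rw [if_pos hz]
        rw [h4, hz]
        unfold sg
        rw [if_pos rfl]
        ring
      · have h4 : (DT.node e t0 t1).eval z = t0.eval z := by
          show (if z e = true then t1.eval z else t0.eval z) = t0.eval z
          rw [if_neg hz]
        rw [h4]
        unfold sg
        rw [if_neg hz]
        ring
    rw [h2] at h
    exact h

theorem dg_of_TD {d : ℕ} {g : (E → Bool) → Bool} (h : TD d g) : Dg (rl g) d := by
  obtain ⟨T, hT, hg⟩ := h
  have h1 : rl g = rl T.eval := by
    funext z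
    unfold rl
    rw [hg z]
  rw [h1]
  exact Dg_mono (dg_tree T) hT

omit [Fintype E] [DecidableEq E] in
theorem Tree_not (T : DT E) : ∃ T' : DT E, T'.depth ≤ T.depth ∧ ∀ z, T'.eval z = !T.eval z := by
  induction T with
  | leaf b => exact ⟨DT.leaf (!b), le_refl _, fun z => rfl⟩
  | node e t0 t1 h0 h1 =>
    obtain ⟨s0, d0, g0⟩ := h0
    obtain ⟨s1, d1, g1⟩ := h1
    refine ⟨DT.node e s0 s1, ?_, fun z => ?_⟩
    · exact Nat.succ_le_succ (max_le_max d0 d1)
    · show (if z e = true then s1.eval z else s0.eval z) =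
        !(if z e = true then t1.eval z else t0.eval z)
      by_cases hz : z e = true
      · rw [if_pos hz, if_pos hz, g1]
      · rw [if_neg hz, if_neg hz, g0]

omit [Fintype E] [DecidableEq E] in
theorem Tree_imp (T S : DT E) : ∃ T' : DT E, T'.depth ≤ T.depth + S.depth ∧
    ∀ z, T'.eval z = (!T.eval z || S.eval z) := by
  induction T with
  | leaf b =>
    cases b with
    | true => exact ⟨S, Nat.le_add_left _ _, fun z => rfl⟩
    | false => exact ⟨DT.leaf true, Nat.zero_le _, fun z => rfl⟩
  | node e t0 t1 h0 h1 =>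
    obtain ⟨s0, d0, g0⟩ := h0
    obtain ⟨s1, d1, g1⟩ := h1
    refine ⟨DT.node e s0 s1, ?_, fun z => ?_⟩
    · show max s0.depth s1.depth + 1 ≤ max t0.depth t1.depth + 1 + S.depth
      omega
    · show (if z e = true then s1.eval z else s0.eval z) =
        (!(if z e = true then t1.eval z else t0.eval z) || S.eval z)
      by_cases hz : z e = true
      · rw [if_pos hz, if_pos hz, g1]
      · rw [if_neg hz, if_neg hz, g0]

theorem td_vl {w : ℕ} (A : Fm ((E → Bool) → Bool)) :
    A.all (fun g => TD w g) → TD (w * A.len) (vl A) := by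
  induction A with
  | var g =>
    intro h
    obtain ⟨T, hT, hg⟩ := h
    refine ⟨T, ?_, fun z => ?_⟩
    · show T.depth ≤ w * 1
      omega
    · rw [hg]
      rfl
  | neg A ih =>
    intro h
    obtain ⟨T, hT, hg⟩ := ih h
    obtain ⟨T', hT', hg'⟩ := Tree_not T
    refine ⟨T', ?_, fun z => ?_⟩
    · show T'.depth ≤ w * (A.len + 1)
      have : w * (A.len + 1) = w * A.len + w := by ring
      omega
    · rw [hg', hg]
      rfl
  | imp A B ihA ihB =>
    intro h
    obtain ⟨T, hT, hg⟩ := ihA h.1
    obtain ⟨S, hS, hgS⟩ := ihB h.2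
    obtain ⟨T', hT', hg'⟩ := Tree_imp T S
    refine ⟨T', ?_, fun z => ?_⟩
    · show T'.depth ≤ w * (A.len + B.len + 1)
      have : w * (A.len + B.len + 1) = w * A.len + w * B.len + w := by ring
      omega
    · rw [hg', hg, hgS]
      rfl

end Pool.Agent.H3.Ex
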