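import Mathlib
import Pool.Agent.H3.Ex.Defs
import Pool.Agent.H3.Ex.Base
import Pool.Agent.H3.Ex.Tree
import Pool.Agent.H3.Ex.Clos
import Pool.Agent.H3.Ex.Link

set_option autoImplicit false
set_option linter.unusedSectionVars false

/-!
# Module EXP: extension of states

A state is `(U, y)` with `Cls (4 c0) U`, `Sat U y`. Put `a = 1 + 4 c0 D`, `Lam = Lam (4 c0)`.

* `exists_shrink`: for `e ∈ Q` choose an end of `e` in `W'` (`e ∈ inc W'`); let `F'` be the set of these
  ends, `|F'| ≤ |Q|`. `exists_cls_between` with `S = U ∪ (F ∪ F')` and `Lam_union_le`.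
* `extend_set`: `exists_cls_between` with `W' = univ`, `S = U ∪ F`: `U'` with
  `Lam U' ≤ Lam U + a |F| < n`; `v ∉ U'` (`exists_notMem_of_lam`); `y'` from `exists_world` for `U`
  (`v ∉ U`).
* `extend_one`: induction on `T`, for all states. Leaf: `extend_set` with `F = ∅`. `node e t0 t1`:
  `extend_set` with `F = {src e}` gives `(U1, y1)`, `e ∈ inc U1`, `Sat U1 y1` (`sat_of_mem_Sol`). Let
  `b = fp B y1 e` and apply the induction hypothesis to the subtree of `b` and `(U1, y1)`; the new
  assignment agrees with `y1` on `inc U1`, so `fp B y' e = b` and `T.qs (fp B y') = insert e (..)`.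
* `exists_extension`: induction on `s`; `s = ∅`: `extend_set`. `insert i s`: take the result
  `(U', y')` for `s` and apply `extend_one` to it, with `B i`. For `j ∈ s`: `y'' = y'` on `inc U'` which
  contains `T.qs (fp (B j) y')`, so `T.qs (fp (B j) y'') = T.qs (fp (B j) y')` (`DT.congr`).
-/

namespace Pool.Agent.H3.Ex

open Finset Pool.Agent.H3.Frg Pool.Agent.H3.Frg2 Pool.Agent.H3.Frg3

variable {E Wv : Type} [Fintype E] [DecidableEq E] [Fintype Wv] [DecidableEq Wv]
  {src tgt : E → Wv} {D c0 : ℕ} {ε : Wv → ℝ}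

theorem exists_shrink (h : GX src tgt D c0) {U W' : Finset Wv} (hUW : U ⊆ W')
    (hW : Cls src tgt (4 * c0) W') (Q : Finset E) (hQ : Q ⊆ inc src tgt W') (F : Finset Wv)
    (hF : F ⊆ W') :
    ∃ W'', U ∪ F ⊆ W'' ∧ W'' ⊆ W' ∧ Cls src tgt (4 * c0) W'' ∧ Q ⊆ inc src tgt W'' ∧
      Lam src tgt (4 * c0) W'' ≤
        Lam src tgt (4 * c0) U + (1 + 4 * c0 * D) * (F.card + Q.card) := by
  classical
  set g : E → Wv := fun e => if src e ∈ W' then src e else tgt e with hg
  have hgW : ∀ e ∈ Q, g e ∈ W' := by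
    intro e he
    rcases mem_inc.1 (hQ he) with h1 | h1
    · simp only [hg, h1, if_true]
    · by_cases h2 : src e ∈ W'
      · simp only [hg, h2, if_true]
      · simp only [hg, h2, if_false]; exact h1
  have hgi : ∀ e, src e = g e ∨ tgt e = g e := by
    intro e
    by_cases h2 : src e ∈ W'
    · left; simp only [hg, h2, if_true]
    · right; simp only [hg, h2, if_false]
  have hS : U ∪ (F ∪ Q.image g) ⊆ W' := by
    refine union_subset hUW (union_subset hF ?_)
    intro w hw
    rcases mem_image.1 hw with ⟨e, he, rfl⟩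
    exact hgW e he
  obtain ⟨Y, hY1, hY2, hY3, hY4⟩ := exists_cls_between hW hS
  refine ⟨Y, ?_, hY2, hY3, ?_, ?_⟩
  · refine Subset.trans ?_ hY1
    exact union_subset_union (Subset.refl _) subset_union_left
  · intro e he
    have h1 : g e ∈ Y :=
      hY1 (mem_union_right _ (mem_union_right _ (mem_image_of_mem g he)))
    rw [mem_inc]
    rcases hgi e with h2 | h2
    · left; rw [h2]; exact h1
    · right; rw [h2]; exact h1
  · refine hY4.trans ((Lam_union_le h (4 * c0) U (F ∪ Q.image g)).trans ?_)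
    have h1 : (F ∪ Q.image g).card ≤ F.card + Q.card :=
      (card_union_le _ _).trans (Nat.add_le_add_left card_image_le _)
    exact Nat.add_le_add_left (Nat.mul_le_mul_left _ h1) _

theorem extend_set (h : GX src tgt D c0) (hε : ∀ w, ε w * ε w = 1) (F : Finset Wv)
    {U : Finset Wv} (hU : Cls src tgt (4 * c0) U) {y : E → Bool} (hy : Sat src tgt ε U y)
    (hb : Lam src tgt (4 * c0) U + (1 + 4 * c0 * D) * F.card < Fintype.card Wv) :
    ∃ U' v y', U ∪ F ⊆ U' ∧ Cls src tgt (4 * c0) U' ∧ v ∉ U' ∧ y' ∈ Sol src tgt ε v ∧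
      (∀ e ∈ inc src tgt U, y' e = y e) ∧
      Lam src tgt (4 * c0) U' ≤ Lam src tgt (4 * c0) U + (1 + 4 * c0 * D) * F.card := by
  obtain ⟨Y, hY1, -, hY3, hY4⟩ :=
    exists_cls_between (src := src) (tgt := tgt) (cls_univ (4 * c0)) (subset_univ (U ∪ F))
  have hlam : Lam src tgt (4 * c0) Y ≤ Lam src tgt (4 * c0) U + (1 + 4 * c0 * D) * F.card :=
    hY4.trans (Lam_union_le h (4 * c0) U F)
  obtain ⟨v, hv⟩ := exists_notMem_of_lam (hlam.trans_lt hb)
  have hvU : v ∉ U := fun h1 => hv (hY1 (mem_union_left _ h1))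
  obtain ⟨y', hy', hag⟩ := exists_world h hε (by omega) hU hy hvU
  exact ⟨Y, v, y', hY1, hY3, hv, hy', hag, hlam⟩

theorem extend_one (h : GX src tgt D c0) (hε : ∀ w, ε w * ε w = 1) (T : DT E) (B : Finset E) :
    ∀ (U : Finset Wv) (y : E → Bool), Cls src tgt (4 * c0) U → Sat src tgt ε U y →
      Lam src tgt (4 * c0) U + (1 + 4 * c0 * D) * T.depth < Fintype.card Wv →
      ∃ U' v y', U ⊆ U' ∧ Cls src tgt (4 * c0) U' ∧ v ∉ U' ∧ y' ∈ Sol src tgt ε v ∧
        (∀ e ∈ inc src tgt U, y' e = y e) ∧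
        Lam src tgt (4 * c0) U' ≤ Lam src tgt (4 * c0) U + (1 + 4 * c0 * D) * T.depth ∧
        T.qs (fp B y') ⊆ inc src tgt U' := by
  induction T with
  | leaf b =>
    intro U y hU hy hb
    obtain ⟨U', v, y', h1, h2, h3, h4, h5, h6⟩ :=
      extend_set h hε ∅ hU hy (by simpa [DT.depth] using hb)
    refine ⟨U', v, y', Subset.trans subset_union_left h1, h2, h3, h4, h5, ?_, ?_⟩
    · simpa [DT.depth] using h6
    · simp [DT.qs]
  | node e t0 t1 ih0 ih1 =>
    intro U y hU hy hb
    have hdep : (DT.node e t0 t1).depth = max t0.depth t1.depth + 1 := rfl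
    rw [hdep] at hb ⊢
    set a := 1 + 4 * c0 * D with ha
    have e1 : a * (max t0.depth t1.depth + 1) = a * max t0.depth t1.depth + a * 1 := by ring
    obtain ⟨U1, v1, y1, h1, h2, h3, h4, h5, h6⟩ :=
      extend_set h hε {src e} hU hy (by
        rw [card_singleton]
        rw [e1] at hb
        omega)
    rw [card_singleton] at h6
    have hUU1 : U ⊆ U1 := Subset.trans subset_union_left h1
    have heU1 : e ∈ inc src tgt U1 := by
      rw [mem_inc]; left
      exact h1 (mem_union_right _ (mem_singleton_self _))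
    have hsat : Sat src tgt ε U1 y1 := sat_of_mem_Sol h4 h3
    by_cases hbv : fp B y1 e = true
    · have hle : a * t1.depth ≤ a * max t0.depth t1.depth :=
        Nat.mul_le_mul_left _ (le_max_right _ _)
      obtain ⟨U', v, y', g1, g2, g3, g4, g5, g6, g7⟩ := ih1 U1 y1 h2 hsat (by
        rw [e1] at hb
        omega)
      have hfe : fp B y' e = true := by
        rw [← hbv]; unfold fp; rw [g5 e heU1]
      refine ⟨U', v, y', hUU1.trans g1, g2, g3, g4, ?_, ?_, ?_⟩
      · intro e' he'
        rw [g5 e' (inc_mono hUU1 he'), h5 e' he']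
      · rw [e1]; omega
      · simp only [DT.qs, hfe, if_true]
        exact insert_subset (inc_mono g1 heU1) g7
    · have hle : a * t0.depth ≤ a * max t0.depth t1.depth :=
        Nat.mul_le_mul_left _ (le_max_left _ _)
      obtain ⟨U', v, y', g1, g2, g3, g4, g5, g6, g7⟩ := ih0 U1 y1 h2 hsat (by
        rw [e1] at hb
        omega)
      have hfe : fp B y' e ≠ true := by
        have : fp B y' e = fp B y1 e := by unfold fp; rw [g5 e heU1]
        rw [this]; exact hbv
      refine ⟨U', v, y', hUU1.trans g1, g2, g3, g4, ?_, ?_, ?_⟩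
      · intro e' he'
        rw [g5 e' (inc_mono hUU1 he'), h5 e' he']
      · rw [e1]; omega
      · simp only [DT.qs, hfe]
        exact insert_subset (inc_mono g1 heU1) g7

theorem exists_extension (h : GX src tgt D c0) (hε : ∀ w, ε w * ε w = 1) {ι : Type}
    [DecidableEq ι] (T : DT E) (B : ι → Finset E) (F : Finset Wv) (s : Finset ι)
    {U : Finset Wv} (hU : Cls src tgt (4 * c0) U) {y : E → Bool} (hy : Sat src tgt ε U y)
    (hb : Lam src tgt (4 * c0) U + (1 + 4 * c0 * D) * (F.card + s.card * T.depth) <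
      Fintype.card Wv) :
    ∃ U' v y', U ∪ F ⊆ U' ∧ Cls src tgt (4 * c0) U' ∧ v ∉ U' ∧ y' ∈ Sol src tgt ε v ∧
      (∀ e ∈ inc src tgt U, y' e = y e) ∧
      Lam src tgt (4 * c0) U' ≤
        Lam src tgt (4 * c0) U + (1 + 4 * c0 * D) * (F.card + s.card * T.depth) ∧
      ∀ i ∈ s, T.qs (fp (B i) y') ⊆ inc src tgt U' := by
  induction s using Finset.induction_on with
  | empty =>
    obtain ⟨U', v, y', h1, h2, h3, h4, h5, h6⟩ :=
      extend_set h hε F hU hy (by simpa using hb)
    refine ⟨U', v, y', h1, h2, h3, h4, h5, ?_, ?_⟩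
    · simpa using h6
    · intro i hi; simp at hi
  | insert i s hi ih =>
    rw [card_insert_of_notMem hi] at hb ⊢
    have e1 : (1 + 4 * c0 * D) * (F.card + (s.card + 1) * T.depth) =
        (1 + 4 * c0 * D) * (F.card + s.card * T.depth) + (1 + 4 * c0 * D) * T.depth := by ring
    rw [e1] at hb
    obtain ⟨U', v, y', h1, h2, h3, h4, h5, h6, h7⟩ := ih (by omega)
    have hsat : Sat src tgt ε U' y' := sat_of_mem_Sol h4 h3
    obtain ⟨U'', v', y'', g1, g2, g3, g4, g5, g6, g7⟩ :=
      extend_one h hε T (B i) U' y' h2 hsat (by omega)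
    have hUU' : U ⊆ U' := Subset.trans subset_union_left h1
    refine ⟨U'', v', y'', h1.trans g1, g2, g3, g4, ?_, ?_, ?_⟩
    · intro e' he'
      rw [g5 e' (inc_mono hUU' he'), h5 e' he']
    · rw [e1]; omega
    · intro j hj
      rcases mem_insert.1 hj with rfl | hj
      · exact g7
      · have hc : T.qs (fp (B j) y'') = T.qs (fp (B j) y') := by
          refine (DT.congr T ?_).2
          intro e he
          have := g5 e (h7 j hj he)
          unfold fp
          rw [this]
        rw [hc]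
        exact (h7 j hj).trans (inc_mono g1)

end Pool.Agent.H3.Ex
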