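import Mathlib

set_option autoImplicit false
set_option linter.unusedSectionVars false

/-!
# Module LAG: a polynomial of degree `d` cannot jump from `0` to `1` if it is bounded up to `4 d^2`

* `lagrange_step`: if `d = 0` the polynomial is constant. Otherwise use the nodes `x_0 = 0`,
  `x_i = 4 i^2` (`i = 1..d`), all `≤ k`. Lagrange interpolation (`Lagrange.eq_interpolate` or a direct
  argument) gives `p(1) = Σ_i p(x_i) l_i(1)` and `Σ_i l_i(1) = 1` with
  `l_i(x) = ∏_{j ≠ i} (x - x_j)/(x_i - x_j)`, so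
  `p(1) - p(0) = Σ_{i ≥ 1} (p(x_i) - p(0)) l_i(1)`, and `|p(x_i) - p(0)| ≤ 1`. For `i ≥ 1`
  `|l_i(1)| = (1/(4 i^2)) ∏_{j ≥ 1, j ≠ i} (4 j^2 - 1)/(4 |i^2 - j^2|)
    ≤ (1/(4 i^2)) ∏_{j ≥ 1, j ≠ i} j^2/|i^2 - j^2| = (1/(4 i^2)) * 2 (d!)^2/((d-i)! (d+i)!)
    ≤ 1/(2 i^2)`,
  because `∏_{j ≠ i} |j^2 - i^2| = ∏_{j ≠ i} |j - i| * ∏_{j ≠ i} (j + i)
    = (i-1)! (d-i)! * (d+i)!/(i! 2 i)` and `(d!)^2 ≤ (d-i)! (d+i)!`.
  Finally `Σ_{i=1}^d 1/(2 i^2) ≤ 1 - 1/(2 d) < 1` (`1/i^2 ≤ 1/(i-1) - 1/i` for `i ≥ 2`).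
-/

namespace Pool.Agent.H3.Ex

open Finset

/-- the factor of index `j` in the bound for the `(n+1)`-st Lagrange polynomial -/
private noncomputable def lf (n j : ℕ) : ℝ :=
  if j = n + 1 then 1 else (j : ℝ) ^ 2 / |((n : ℝ) + 1) ^ 2 - (j : ℝ) ^ 2|

private lemma lf_nonneg (n j : ℕ) : 0 ≤ lf n j := by
  unfold lf
  split_ifs
  · exact zero_le_one
  · positivity

private lemma prodA (n : ℕ) : ∀ m ≤ n, ∏ j ∈ range m, lf n (j + 1)
    = ((m.factorial : ℝ)) ^ 2 * ((n - m).factorial : ℝ) * ((n + 1).factorial : ℝ) /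
      ((n.factorial : ℝ) * ((n + 1 + m).factorial : ℝ)) := by
  intro m
  induction m with
  | zero =>
    intro _
    have h1 : ((n.factorial : ℝ)) ≠ 0 := by positivity
    have h2 : (((n + 1).factorial : ℝ)) ≠ 0 := by positivity
    simp
    field_simp
  | succ m ih =>
    intro hm
    rw [Finset.prod_range_succ, ih (by omega)]
    obtain ⟨e, he⟩ : ∃ e, n = m + 1 + e := ⟨n - (m + 1), by omega⟩
    subst he
    have h1 : (m + 1 + e - m) = e + 1 := by omega
    have h2 : (m + 1 + e - (m + 1)) = e := by omega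
    rw [h1, h2]
    have h3 : lf (m + 1 + e) (m + 1) = ((m : ℝ) + 1) ^ 2 / (((e : ℝ) + 1) * (2 * m + e + 3)) := by
      unfold lf
      rw [if_neg (by omega)]
      push_cast
      congr 1
      rw [abs_of_pos]
      · ring
      · have hm0 : (0 : ℝ) ≤ m := Nat.cast_nonneg m
        have he0 : (0 : ℝ) ≤ e := Nat.cast_nonneg e
        nlinarith
    rw [h3]
    have h4 : ((m + 1 + e + 1 + (m + 1)).factorial : ℝ)
        = (2 * m + e + 3) * ((m + 1 + e + 1 + m).factorial : ℝ) := by
      rw [show m + 1 + e + 1 + (m + 1) = (m + 1 + e + 1 + m) + 1 by ring, Nat.factorial_succ]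
      push_cast
      ring
    have h5 : ((m + 1).factorial : ℝ) = (m + 1) * (m.factorial : ℝ) := by
      rw [Nat.factorial_succ]; push_cast; ring
    have h6 : ((e + 1).factorial : ℝ) = (e + 1) * (e.factorial : ℝ) := by
      rw [Nat.factorial_succ]; push_cast; ring
    rw [h4, h5, h6]
    have h7 : ((m + 1 + e).factorial : ℝ) ≠ 0 := by positivity
    have h8 : ((m + 1 + e + 1 + m).factorial : ℝ) ≠ 0 := by positivity
    have h9 : ((e : ℝ) + 1) ≠ 0 := by positivity
    have h10 : ((2 : ℝ) * m + e + 3) ≠ 0 := by positivity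
    field_simp

private lemma prodB (n : ℕ) : ∀ e : ℕ, ∏ j ∈ range (n + 1 + e), lf n (j + 1)
    = 2 * (((n + 1 + e).factorial : ℝ)) ^ 2 /
      ((e.factorial : ℝ) * ((2 * n + 2 + e).factorial : ℝ)) := by
  intro e
  induction e with
  | zero =>
    rw [Nat.add_zero, Finset.prod_range_succ, prodA n n le_rfl]
    have h0 : lf n (n + 1) = 1 := by unfold lf; rw [if_pos rfl]
    rw [h0, Nat.sub_self, mul_one]
    have h4 : ((2 * n + 2 + 0).factorial : ℝ) = (2 * n + 2) * ((n + 1 + n).factorial : ℝ) := by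
      rw [show 2 * n + 2 + 0 = (n + 1 + n) + 1 by ring, Nat.factorial_succ]
      push_cast
      ring
    have h5 : ((n + 1).factorial : ℝ) = (n + 1) * (n.factorial : ℝ) := by
      rw [Nat.factorial_succ]; push_cast; ring
    rw [h4, h5]
    have h7 : (n.factorial : ℝ) ≠ 0 := by positivity
    have h8 : ((n + 1 + n).factorial : ℝ) ≠ 0 := by positivity
    have h9 : ((n : ℝ) + 1) ≠ 0 := by positivity
    have h10 : ((2 : ℝ) * n + 2) ≠ 0 := by positivity
    simp only [Nat.factorial_zero, Nat.cast_one]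
    field_simp
  | succ e ih =>
    rw [show n + 1 + (e + 1) = n + 1 + e + 1 by ring, Finset.prod_range_succ, ih]
    have h3 : lf n (n + 1 + e + 1) = ((n : ℝ) + e + 2) ^ 2 / (((e : ℝ) + 1) * (2 * n + e + 3)) := by
      unfold lf
      rw [if_neg (by omega)]
      push_cast
      have hn0 : (0 : ℝ) ≤ n := Nat.cast_nonneg n
      have he0 : (0 : ℝ) ≤ e := Nat.cast_nonneg e
      rw [abs_of_neg (by nlinarith)]
      congr 1
      · ring
      · ring
    rw [h3]
    have h4 : ((2 * n + 2 + (e + 1)).factorial : ℝ)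
        = (2 * n + e + 3) * ((2 * n + 2 + e).factorial : ℝ) := by
      rw [show 2 * n + 2 + (e + 1) = (2 * n + 2 + e) + 1 by ring, Nat.factorial_succ]
      push_cast
      ring
    have h5 : ((n + 1 + e + 1).factorial : ℝ) = (n + e + 2) * ((n + 1 + e).factorial : ℝ) := by
      rw [Nat.factorial_succ]; push_cast; ring
    have h6 : ((e + 1).factorial : ℝ) = (e + 1) * (e.factorial : ℝ) := by
      rw [Nat.factorial_succ]; push_cast; ring
    rw [h4, h5, h6]
    have h7 : (e.factorial : ℝ) ≠ 0 := by positivity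
    have h8 : ((2 * n + 2 + e).factorial : ℝ) ≠ 0 := by positivity
    have h9 : ((e : ℝ) + 1) ≠ 0 := by positivity
    have h10 : ((2 : ℝ) * n + e + 3) ≠ 0 := by positivity
    field_simp

private lemma prod_le_two (n d : ℕ) (hd : n + 1 ≤ d) : ∏ j ∈ range d, lf n (j + 1) ≤ 2 := by
  obtain ⟨e, rfl⟩ : ∃ e, d = n + 1 + e := ⟨d - (n + 1), by omega⟩
  rw [prodB]
  have h1 : ((n + 1 + e).factorial) ^ 2 ≤ e.factorial * (2 * n + 2 + e).factorial := by
    have h2 := Nat.choose_le_centralBinom e (n + 1 + e)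
    have h3 : Nat.choose (2 * (n + 1 + e)) e * e.factorial * (2 * n + 2 + e).factorial
        = (2 * (n + 1 + e)).factorial := by
      have := Nat.choose_mul_factorial_mul_factorial (n := 2 * (n + 1 + e)) (k := e) (by omega)
      rwa [show 2 * (n + 1 + e) - e = 2 * n + 2 + e by omega] at this
    have h4 : Nat.centralBinom (n + 1 + e) * (n + 1 + e).factorial * (n + 1 + e).factorial
        = (2 * (n + 1 + e)).factorial := by
      have := Nat.choose_mul_factorial_mul_factorial (n := 2 * (n + 1 + e)) (k := n + 1 + e)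
        (by omega)
      rw [show 2 * (n + 1 + e) - (n + 1 + e) = n + 1 + e by omega] at this
      exact this
    have hc : 0 < Nat.choose (2 * (n + 1 + e)) e := Nat.choose_pos (by omega)
    by_contra hcon
    push Not at hcon
    have h5 : Nat.choose (2 * (n + 1 + e)) e * (e.factorial * (2 * n + 2 + e).factorial)
        < Nat.centralBinom (n + 1 + e) * ((n + 1 + e).factorial) ^ 2 :=
      lt_of_lt_of_le (Nat.mul_lt_mul_of_pos_left hcon hc) (Nat.mul_le_mul_right _ h2)
    have h6 : Nat.choose (2 * (n + 1 + e)) e * (e.factorial * (2 * n + 2 + e).factorial)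
        = (2 * (n + 1 + e)).factorial := by rw [← h3]; ring
    have h7 : Nat.centralBinom (n + 1 + e) * ((n + 1 + e).factorial) ^ 2
        = (2 * (n + 1 + e)).factorial := by rw [← h4]; ring
    omega
  have h2 : (((n + 1 + e).factorial : ℝ)) ^ 2
      ≤ (e.factorial : ℝ) * ((2 * n + 2 + e).factorial : ℝ) := by exact_mod_cast h1
  rw [div_le_iff₀ (by positivity)]
  linarith

private lemma sum_inv_sq (d : ℕ) : ∑ i ∈ range d, (1 : ℝ) / (2 * ((i : ℝ) + 1) ^ 2) < 1 := by
  rcases d with _ | e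
  · simp
  · have h : ∑ i ∈ range (e + 1), (1 : ℝ) / (2 * ((i : ℝ) + 1) ^ 2)
        ≤ 1 - 1 / (2 * ((e : ℝ) + 1)) := by
      induction e with
      | zero => norm_num
      | succ e ih =>
        rw [Finset.sum_range_succ]
        have h1 : (1 : ℝ) / (2 * (((e + 1 : ℕ) : ℝ) + 1) ^ 2)
            ≤ 1 / (2 * ((e : ℝ) + 1)) - 1 / (2 * (((e + 1 : ℕ) : ℝ) + 1)) := by
          push_cast
          have he0 : (0 : ℝ) ≤ e := Nat.cast_nonneg e
          rw [div_sub_div _ _ (by positivity) (by positivity), div_le_div_iff₀ (by positivity)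
            (by positivity)]
          nlinarith [mul_nonneg he0 he0, mul_nonneg (mul_nonneg he0 he0) he0]
        linarith
    have h2 : (0 : ℝ) < 1 / (2 * ((e : ℝ) + 1)) := by positivity
    linarith

theorem lagrange_step (p : Polynomial ℝ) (d k : ℕ) (hp : p.natDegree ≤ d) (hk : 4 * d ^ 2 ≤ k)
    (hv : ∀ j : ℕ, j ≤ k → 0 ≤ p.eval (j : ℝ) ∧ p.eval (j : ℝ) ≤ 1) :
    |p.eval 1 - p.eval 0| < 1 := by
  classical
  let v : ℕ → ℝ := fun i => 4 * (i : ℝ) ^ 2
  let s : Finset ℕ := range (d + 1)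
  have hinj : Set.InjOn v s := by
    intro i _ j _ hij
    have h1 : (4 : ℝ) * (i : ℝ) ^ 2 = 4 * (j : ℝ) ^ 2 := hij
    have h2 : (i : ℝ) ^ 2 = (j : ℝ) ^ 2 := by linarith
    have h3 : (i : ℝ) = j := by
      rwa [sq_eq_sq₀ (Nat.cast_nonneg i) (Nat.cast_nonneg j)] at h2
    exact_mod_cast h3
  have hdeg : p.degree < (s.card : WithBot ℕ) := by
    have h1 : s.card = d + 1 := Finset.card_range _
    rw [h1]
    refine lt_of_le_of_lt Polynomial.degree_le_natDegree ?_
    exact_mod_cast Nat.lt_succ_of_le hp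
  have hint := Lagrange.eq_interpolate (f := p) hinj hdeg
  have heval : ∀ x : ℝ, p.eval x = ∑ i ∈ s, p.eval (v i) * (Lagrange.basis s v i).eval x := by
    intro x
    conv_lhs => rw [hint]
    rw [Lagrange.interpolate_apply, Polynomial.eval_finsetSum]
    refine Finset.sum_congr rfl fun i _ => ?_
    rw [Polynomial.eval_mul, Polynomial.eval_C]
  have hone : ∑ i ∈ s, (Lagrange.basis s v i).eval 1 = 1 := by
    have h1 := Lagrange.sum_basis hinj (⟨0, by simp [s]⟩ : s.Nonempty)
    have h2 := congrArg (Polynomial.eval (1 : ℝ)) h1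
    rwa [Polynomial.eval_finsetSum, Polynomial.eval_one] at h2
  have hdiff : p.eval 1 - p.eval 0
      = ∑ i ∈ range d, (p.eval (v (i + 1)) - p.eval 0) * (Lagrange.basis s v (i + 1)).eval 1 := by
    have h1 : p.eval 1 - p.eval 0
        = ∑ i ∈ s, (p.eval (v i) - p.eval 0) * (Lagrange.basis s v i).eval 1 := by
      have h0 : p.eval 0 = ∑ i ∈ s, p.eval 0 * (Lagrange.basis s v i).eval 1 := by
        rw [← Finset.mul_sum, hone, mul_one]
      calc p.eval 1 - p.eval 0 = ∑ i ∈ s, p.eval (v i) * (Lagrange.basis s v i).eval 1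
            - ∑ i ∈ s, p.eval 0 * (Lagrange.basis s v i).eval 1 := by rw [← heval 1, ← h0]
        _ = ∑ i ∈ s, (p.eval (v i) - p.eval 0) * (Lagrange.basis s v i).eval 1 := by
          rw [← Finset.sum_sub_distrib]
          refine Finset.sum_congr rfl fun i _ => ?_
          ring
    rw [h1, Finset.sum_range_succ']
    have h2 : v 0 = 0 := by simp [v]
    rw [h2, sub_self, zero_mul, add_zero]
  -- the bound for the Lagrange polynomials
  have hbasis : ∀ n, n < d → |(Lagrange.basis s v (n + 1)).eval 1| ≤ 1 / (2 * ((n : ℝ) + 1) ^ 2) := by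
    intro n hn
    have h1 : (Lagrange.basis s v (n + 1)).eval 1
        = ∏ j ∈ s.erase (n + 1), ((v (n + 1) - v j)⁻¹ * (1 - v j)) := by
      rw [Lagrange.basis, Polynomial.eval_prod]
      refine Finset.prod_congr rfl fun j _ => ?_
      rw [Lagrange.basisDivisor, Polynomial.eval_mul, Polynomial.eval_C, Polynomial.eval_sub,
        Polynomial.eval_X, Polynomial.eval_C]
    rw [h1, Finset.abs_prod]
    have h2 : ∏ j ∈ s.erase (n + 1), |(v (n + 1) - v j)⁻¹ * (1 - v j)|
        = ∏ j ∈ s, (if j = n + 1 then 1 else |(v (n + 1) - v j)⁻¹ * (1 - v j)|) := by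
      rw [← Finset.prod_erase s (a := n + 1) (f := fun j => if j = n + 1 then (1 : ℝ) else
        |(v (n + 1) - v j)⁻¹ * (1 - v j)|) (by simp)]
      refine Finset.prod_congr rfl fun j hj => ?_
      rw [if_neg (Finset.ne_of_mem_erase hj)]
    rw [h2, Finset.prod_range_succ']
    have h3 : ∏ j ∈ range d, (if j + 1 = n + 1 then (1 : ℝ) else
        |(v (n + 1) - v (j + 1))⁻¹ * (1 - v (j + 1))|) ≤ ∏ j ∈ range d, lf n (j + 1) := by
      refine Finset.prod_le_prod (fun j _ => ?_) (fun j _ => ?_)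
      · split_ifs
        · exact zero_le_one
        · exact abs_nonneg _
      · unfold lf
        split_ifs with hj
        · exact le_rfl
        · have hne : ((n : ℝ) + 1) ^ 2 - ((j : ℝ) + 1) ^ 2 ≠ 0 := by
            intro h0
            apply hj
            have h5 : ((n : ℝ) + 1) ^ 2 = ((j : ℝ) + 1) ^ 2 := by linarith
            have h6 : (n : ℝ) + 1 = j + 1 := by
              rwa [sq_eq_sq₀ (by positivity) (by positivity)] at h5
            have h7 : (n : ℝ) = j := by linarith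
            have h8 : n = j := by exact_mod_cast h7
            omega
          have h5 : v (n + 1) - v (j + 1) = 4 * (((n : ℝ) + 1) ^ 2 - ((j : ℝ) + 1) ^ 2) := by
            simp only [v]
            push_cast
            ring
          have h6 : 1 - v (j + 1) = -(4 * ((j : ℝ) + 1) ^ 2 - 1) := by
            simp only [v]
            push_cast
            ring
          rw [h5, h6, abs_mul, abs_inv, abs_mul, abs_neg, abs_of_pos (by norm_num : (0 : ℝ) < 4)]
          have hj0 : (0 : ℝ) ≤ j := Nat.cast_nonneg j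
          rw [abs_of_nonneg (by nlinarith : (0 : ℝ) ≤ 4 * ((j : ℝ) + 1) ^ 2 - 1)]
          push_cast
          have hpos : 0 < |((n : ℝ) + 1) ^ 2 - ((j : ℝ) + 1) ^ 2| := abs_pos.2 hne
          rw [le_div_iff₀ hpos, mul_inv]
          have h7 : (4 : ℝ)⁻¹ * |((n : ℝ) + 1) ^ 2 - ((j : ℝ) + 1) ^ 2|⁻¹ *
              (4 * ((j : ℝ) + 1) ^ 2 - 1) * |((n : ℝ) + 1) ^ 2 - ((j : ℝ) + 1) ^ 2|
              = (4 : ℝ)⁻¹ * (4 * ((j : ℝ) + 1) ^ 2 - 1) := by
            field_simp
          rw [h7]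
          linarith
    have h4 : (if (0 : ℕ) = n + 1 then (1 : ℝ) else |(v (n + 1) - v 0)⁻¹ * (1 - v 0)|)
        = 1 / (4 * ((n : ℝ) + 1) ^ 2) := by
      rw [if_neg (by omega)]
      have h5 : v (n + 1) - v 0 = 4 * ((n : ℝ) + 1) ^ 2 := by
        simp only [v]
        push_cast
        ring
      have h6 : 1 - v 0 = 1 := by simp [v]
      rw [h5, h6, mul_one, abs_of_pos (by positivity), one_div]
    rw [h4]
    calc _ ≤ 2 * (1 / (4 * ((n : ℝ) + 1) ^ 2)) :=
          mul_le_mul_of_nonneg_right (h3.trans (prod_le_two n d (by omega))) (by positivity)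
      _ = 1 / (2 * ((n : ℝ) + 1) ^ 2) := by
          field_simp
          norm_num
  rw [hdiff]
  refine lt_of_le_of_lt (Finset.abs_sum_le_sum_abs _ _) (lt_of_le_of_lt ?_ (sum_inv_sq d))
  refine Finset.sum_le_sum fun n hn => ?_
  rw [abs_mul]
  have hn' : n < d := Finset.mem_range.1 hn
  have h1 : |p.eval (v (n + 1)) - p.eval 0| ≤ 1 := by
    have h2 := hv (4 * (n + 1) ^ 2) (by
      refine le_trans ?_ hk
      exact Nat.mul_le_mul_left 4 (Nat.pow_le_pow_left hn' 2))
    have h3 := hv 0 (Nat.zero_le k)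
    have h4 : (((4 * (n + 1) ^ 2 : ℕ)) : ℝ) = v (n + 1) := by
      simp only [v]
      push_cast
      ring
    rw [h4] at h2
    rw [Nat.cast_zero] at h3
    rw [abs_le]
    constructor
    · linarith [h2.1, h3.2]
    · linarith [h2.2, h3.1]
  calc |p.eval (v (n + 1)) - p.eval 0| * |(Lagrange.basis s v (n + 1)).eval 1|
      ≤ 1 * (1 / (2 * ((n : ℝ) + 1) ^ 2)) :=
        mul_le_mul h1 (hbasis n hn') (abs_nonneg _) zero_le_one
    _ = 1 / (2 * ((n : ℝ) + 1) ^ 2) := one_mul _

end Pool.Agent.H3.Ex
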