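import Mathlib
import Pool.Agent.H3.Ex.Poly

set_option autoImplicit false
set_option linter.unusedSectionVars false

/-!
# Module SYM: symmetrisation

* `exists_sym` (symmetrisation): `(-1)^|A ∩ s| = Σ_{B ⊆ A} (-2)^|B| [B ⊆ s]`, so
  `F s = Σ_{|B| ≤ d} b_B [B ⊆ s]`. For `|B| = m` the number of `s ⊇ B` with `j` elements is
  `C(k - m, j - m) = C(k, j) * j(j-1)...(j-m+1) / (k(k-1)...(k-m+1))` (`m ≤ k`; zero for `j < m`), so
  `p = Σ_B b_B * descPochhammer ℝ m / (k.descFactorial m)` (`descPochhammer_eval_eq_descFactorial`,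
  `natDegree_descPochhammer` or a direct definition of the polynomial as a product).
* `sens_poly`: `p` from `exists_sym` has values in `[0, 1]` on `0..k` (averages; `C(k, j) > 0`),
  `p(0) = F ∅`, `p(1) = (1/k) Σ_i F {i} = 1 - F ∅`, so `|p(1) - p(0)| = 1` and `lagrange_step` gives
  `¬ 4 d^2 ≤ k`.
-/

namespace Pool.Agent.H3.Ex

open Finset

private theorem card_sup {k : ℕ} (B : Finset (Fin k)) (j : ℕ) :
    (((powersetCard j (univ : Finset (Fin k))).filter fun s => B ⊆ s).card) *
      k.descFactorial B.card = k.choose j * j.descFactorial B.card := by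
  have hBk : B.card ≤ k := by simpa using card_le_univ B
  by_cases hj : B.card ≤ j
  · have e : ((powersetCard j (univ : Finset (Fin k))).filter fun s => B ⊆ s).card =
        (k - B.card).choose (j - B.card) := by
      have h1 : (univ \ B).card = k - B.card := by
        rw [card_sdiff_of_subset (subset_univ B), card_univ, Fintype.card_fin]
      rw [← h1, ← card_powersetCard]
      refine card_nbij' (fun s => s \ B) (fun s => s ∪ B) ?_ ?_ ?_ ?_
      · intro s hs
        rw [mem_coe, mem_filter, mem_powersetCard] at hs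
        rw [mem_coe, mem_powersetCard]
        exact ⟨sdiff_subset_sdiff hs.1.1 le_rfl, by rw [card_sdiff_of_subset hs.2, hs.1.2]⟩
      · intro s hs
        rw [mem_coe, mem_powersetCard] at hs
        rw [mem_coe, mem_filter, mem_powersetCard]
        refine ⟨⟨subset_univ _, ?_⟩, subset_union_right⟩
        rw [card_union_of_disjoint, hs.2]
        · omega
        · exact disjoint_left.2 fun x hx hB => (mem_sdiff.1 (hs.1 hx)).2 hB
      · intro s hs
        rw [mem_coe, mem_filter, mem_powersetCard] at hs
        exact sdiff_union_of_subset hs.2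
      · intro s hs
        rw [mem_coe, mem_powersetCard] at hs
        exact union_sdiff_cancel_right
          (disjoint_left.2 fun x hx hB => (mem_sdiff.1 (hs.1 hx)).2 hB)
    rw [e, Nat.descFactorial_eq_factorial_mul_choose, Nat.descFactorial_eq_factorial_mul_choose]
    by_cases hjk : j ≤ k
    · have h2 : k.choose j * j.choose B.card = k.choose B.card * (k - B.card).choose (j - B.card) :=
        Nat.choose_mul hj
      calc (k - B.card).choose (j - B.card) * (B.card.factorial * k.choose B.card)
          = B.card.factorial * (k.choose B.card * (k - B.card).choose (j - B.card)) := by ring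
        _ = B.card.factorial * (k.choose j * j.choose B.card) := by rw [h2]
        _ = k.choose j * (B.card.factorial * j.choose B.card) := by ring
    · push Not at hjk
      rw [Nat.choose_eq_zero_of_lt hjk, Nat.choose_eq_zero_of_lt (by omega)]
      simp
  · push Not at hj
    rw [Nat.descFactorial_of_lt hj, mul_zero]
    have e : ((powersetCard j (univ : Finset (Fin k))).filter fun s => B ⊆ s) = ∅ := by
      rw [filter_eq_empty_iff]
      intro s hs hB
      rw [mem_powersetCard] at hs
      have := card_le_card hB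
      omega
    rw [e, card_empty, zero_mul]

private theorem sgn_eq {k : ℕ} (A s : Finset (Fin k)) :
    (if Odd (A ∩ s).card then (-1 : ℝ) else 1) =
      ∑ B ∈ A.powerset, (-2 : ℝ) ^ B.card * (if B ⊆ s then 1 else 0) := by
  have h1 : (if Odd (A ∩ s).card then (-1 : ℝ) else 1) = ∏ i ∈ A, (1 + if i ∈ s then -2 else 0) := by
    have h2 : ∏ i ∈ A, ((1 : ℝ) + if i ∈ s then -2 else 0) = ∏ i ∈ A, if i ∈ s then (-1) else 1 := by
      refine prod_congr rfl fun i _ => ?_
      split_ifs <;> norm_num
    rw [h2, ← prod_filter, prod_const, filter_mem_eq_inter]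
    split_ifs with h
    · exact (h.neg_one_pow).symm
    · exact ((Nat.not_odd_iff_even.1 h).neg_one_pow).symm
  rw [h1, prod_one_add]
  refine sum_congr rfl fun B _ => ?_
  split_ifs with h
  · rw [mul_one, ← prod_const]
    exact prod_congr rfl fun i hi => if_pos (h hi)
  · rw [mul_zero]
    rw [not_subset] at h
    obtain ⟨i, hi, his⟩ := h
    exact prod_eq_zero hi (if_neg his)

theorem exists_sym {k d : ℕ} (F a : Finset (Fin k) → ℝ)
    (hF : ∀ s, F s = ∑ A, a A * (if Odd (A ∩ s).card then -1 else 1))
    (ha : ∀ A, d < A.card → a A = 0) :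
    ∃ p : Polynomial ℝ, p.natDegree ≤ d ∧
      ∀ j ≤ k, p.eval (j : ℝ) * (k.choose j : ℝ) = ∑ s ∈ powersetCard j univ, F s := by
  classical
  refine ⟨∑ A, ∑ B ∈ A.powerset, Polynomial.C (a A * (-2 : ℝ) ^ B.card *
    ((k.descFactorial B.card : ℝ))⁻¹) * descPochhammer ℝ B.card, ?_, fun j _ => ?_⟩
  · refine Polynomial.natDegree_sum_le_of_forall_le _ _ fun A _ => ?_
    by_cases hA : d < A.card
    · rw [ha A hA]
      simp
    · refine Polynomial.natDegree_sum_le_of_forall_le _ _ fun B hB => ?_
      refine (Polynomial.natDegree_C_mul_le _ _).trans ?_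
      rw [descPochhammer_natDegree]
      have := card_le_card (mem_powerset.1 hB)
      omega
  · rw [Polynomial.eval_finsetSum, sum_mul]
    simp only [hF]
    rw [sum_comm]
    refine sum_congr rfl fun A _ => ?_
    rw [Polynomial.eval_finsetSum, sum_mul, ← mul_sum]
    simp only [sgn_eq]
    rw [sum_comm, mul_sum]
    refine sum_congr rfl fun B _ => ?_
    rw [← mul_sum, ← sum_filter, sum_const, nsmul_eq_mul, mul_one, Polynomial.eval_mul,
      Polynomial.eval_C, descPochhammer_eval_eq_descFactorial]
    have hBk : B.card ≤ k := by simpa using card_le_univ B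
    have h0 : (k.descFactorial B.card : ℝ) ≠ 0 := by
      have := Nat.descFactorial_pos.2 hBk
      positivity
    have h1 : ((((powersetCard j (univ : Finset (Fin k))).filter fun s => B ⊆ s).card : ℝ)) *
      k.descFactorial B.card = k.choose j * j.descFactorial B.card := by
      exact_mod_cast card_sup B j
    field_simp
    linear_combination (-(a A)) * h1

theorem sens_poly {k d : ℕ} (F a : Finset (Fin k) → ℝ)
    (hF : ∀ s, F s = ∑ A, a A * (if Odd (A ∩ s).card then -1 else 1))
    (ha : ∀ A, d < A.card → a A = 0) (h01 : ∀ s, 0 ≤ F s ∧ F s ≤ 1)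
    (h0 : F ∅ = 0 ∨ F ∅ = 1) (hs : ∀ i, F {i} = 1 - F ∅) (hk : 1 ≤ k) : k < 4 * d ^ 2 := by
  by_contra hc
  push Not at hc
  obtain ⟨p, hp, hpe⟩ := exists_sym F a hF ha
  have hv : ∀ j : ℕ, j ≤ k → 0 ≤ p.eval (j : ℝ) ∧ p.eval (j : ℝ) ≤ 1 := by
    intro j hj
    have h1 := hpe j hj
    have h2 : (0 : ℝ) < (k.choose j : ℝ) := by
      exact_mod_cast Nat.choose_pos hj
    have h3 : 0 ≤ ∑ s ∈ powersetCard j (univ : Finset (Fin k)), F s :=
      sum_nonneg fun s _ => (h01 s).1
    have h4 : ∑ s ∈ powersetCard j (univ : Finset (Fin k)), F s ≤ (k.choose j : ℝ) := by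
      calc ∑ s ∈ powersetCard j (univ : Finset (Fin k)), F s
          ≤ ∑ s ∈ powersetCard j (univ : Finset (Fin k)), (1 : ℝ) :=
            sum_le_sum fun s _ => (h01 s).2
        _ = (k.choose j : ℝ) := by simp
    rw [← h1] at h3 h4
    constructor
    · by_contra hn
      push Not at hn
      have := mul_neg_of_neg_of_pos hn h2
      linarith
    · by_contra hn
      push Not at hn
      have := mul_lt_mul_of_pos_right hn h2
      linarith
  have e0 : p.eval 0 = F ∅ := by
    have h1 := hpe 0 (Nat.zero_le k)
    simpa using h1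
  have e1 : p.eval 1 = 1 - F ∅ := by
    have h1 := hpe 1 hk
    rw [Nat.choose_one_right, Nat.cast_one, powersetCard_one, sum_map] at h1
    simp only [Function.Embedding.coeFn_mk, hs, sum_const, card_univ, Fintype.card_fin,
      nsmul_eq_mul] at h1
    have h2 : (k : ℝ) ≠ 0 := by
      have : 0 < k := hk
      positivity
    rw [mul_comm] at h1
    exact mul_left_cancel₀ h2 h1
  have h5 := lagrange_step p d k hp hc hv
  rw [e0, e1] at h5
  rcases h0 with h | h
  · rw [h] at h5
    norm_num at h5
  · rw [h] at h5
    norm_num at h5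

end Pool.Agent.H3.Ex
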