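import Mathlib
import Pool.Agent.H3.Ex.Defs
import Pool.Agent.H3.Ex.Base
import Pool.Agent.H3.Ex.Sym

set_option autoImplicit false
set_option linter.unusedSectionVars false

/-!
# Module MKV: functions of low level have few sensitive blocks

* `lw_sensitivity`: `F s = rl g (fp (sm B s) y)`. `fp (sm B s) y ∈ Sol v` (`odv_sm`, `fp_mem_Sol`), so by
  `inversion` for `fun y => rl g y * sI v y` (and `chi_fp`)
  `2^|E| F s = Σ_T W(..)(T) chi T y (-1)^|T ∩ sm B s|`. If `W(..)(T) ≠ 0` there is `X` with
  `|(T ∆ bd X) \ bd {v}| ≤ t` (`LW`, `lvl`, `Finset.exists_mem_eq_inf'`), so `T' = T ∆ bd X` has at most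
  `t + D` elements; `|T ∩ sm B s|` and `|T' ∩ sm B s|` have the same parity (`even_inter_bd`,
  `odv_sm`, `odd_symmDiff_inter`), and by `odd_inter_sm` it is the parity of `|A ∩ s|` with
  `A = {i : |T' ∩ B i| odd}`, `|A| ≤ Σ_{e ∈ T'} #{i : e ∈ B i} ≤ κ (t + D)` (choose `X` and `A` for
  every `T`, and sum the coefficients of the `T` with the same `A`: `Finset.sum_fiberwise`).
  Then `sens_poly` with `d = κ (t + D)`.
-/

namespace Pool.Agent.H3.Ex

open Finset Pool.Agent.H3.Frg Pool.Agent.H3.Frg2 Pool.Agent.H3.Frg3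

variable {E Wv : Type} [Fintype E] [DecidableEq E] [Fintype Wv] [DecidableEq Wv]
  {src tgt : E → Wv} {D c0 : ℕ} {ε : Wv → ℝ}

private theorem level_set {v : Wv} {t : ℕ} {T : Finset E}
    (h : lvl src tgt v T ≤ t) :
    ∃ X : Finset Wv, (symmDiff T (bd src tgt X) \ bd src tgt {v}).card ≤ t := by
  obtain ⟨X, _, hX⟩ := exists_mem_eq_inf' (s := (univ : Finset (Finset Wv))) ⟨∅, mem_univ _⟩
    (fun X => (symmDiff T (bd src tgt X) \ bd src tgt {v}).card)
  exact ⟨X, by rw [← hX]; exact h⟩

private theorem card_par {k κ : ℕ} (B : Fin k → Finset E)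
    (hκ : ∀ e, (univ.filter fun i => e ∈ B i).card ≤ κ) (T : Finset E) :
    (univ.filter fun i => Odd (T ∩ B i).card).card ≤ κ * T.card := by
  calc (univ.filter fun i => Odd (T ∩ B i).card).card
      = ∑ i ∈ univ.filter fun i => Odd (T ∩ B i).card, 1 := by simp
    _ ≤ ∑ i ∈ univ.filter fun i => Odd (T ∩ B i).card, (T ∩ B i).card :=
        sum_le_sum fun i hi => ((mem_filter.1 hi).2).pos
    _ ≤ ∑ i, (T ∩ B i).card := sum_le_sum_of_subset (filter_subset _ _)
    _ = ∑ i, ∑ e ∈ T, (if e ∈ B i then 1 else 0) := by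
        refine sum_congr rfl fun i _ => ?_
        rw [← filter_mem_eq_inter, card_filter]
    _ = ∑ e ∈ T, ∑ i, (if e ∈ B i then 1 else 0) := sum_comm
    _ = ∑ e ∈ T, (univ.filter fun i => e ∈ B i).card := by
        refine sum_congr rfl fun e _ => ?_
        rw [card_filter]
    _ ≤ ∑ e ∈ T, κ := sum_le_sum fun e _ => hκ e
    _ = κ * T.card := by rw [sum_const, smul_eq_mul, mul_comm]

theorem lw_sensitivity (h : GX src tgt D c0) {v : Wv} {t κ k : ℕ} {g : (E → Bool) → Bool}
    (hg : LW src tgt ε v (rl g) t) {y : E → Bool} (hy : y ∈ Sol src tgt ε v) (hk : 1 ≤ k)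
    (B : Fin k → Finset E) (hB : ∀ i, odv src tgt (B i) = ∅)
    (hκ : ∀ e, (univ.filter fun i => e ∈ B i).card ≤ κ) (hs : ∀ i, g (fp (B i) y) ≠ g y) :
    k < 4 * (κ * (t + D)) ^ 2 := by
  classical
  set f : (E → Bool) → ℝ := fun z => rl g z * sI src tgt ε v z with hf
  have hex : ∀ T : Finset E, ∃ A : Finset (Fin k), W f T ≠ 0 → A.card ≤ κ * (t + D) ∧
      ∀ s : Finset (Fin k), (Odd (T ∩ sm B s).card ↔ Odd (A ∩ s).card) := by
    intro T
    by_cases hT : W f T = 0
    · exact ⟨∅, fun h0 => absurd hT h0⟩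
    · obtain ⟨X, hX⟩ := level_set (hg T hT)
      refine ⟨univ.filter fun i => Odd (symmDiff T (bd src tgt X) ∩ B i).card, fun _ => ⟨?_, ?_⟩⟩
      · refine (card_par B hκ _).trans (Nat.mul_le_mul_left κ ?_)
        calc (symmDiff T (bd src tgt X)).card
            ≤ (symmDiff T (bd src tgt X) \ bd src tgt {v}).card + (bd src tgt {v}).card := by
              rw [← card_union_of_disjoint sdiff_disjoint]
              exact card_le_card (by
                intro e he
                by_cases h1 : e ∈ bd src tgt {v}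
                · exact mem_union_right _ h1
                · exact mem_union_left _ (mem_sdiff.2 ⟨he, h1⟩))
          _ ≤ t + D := add_le_add hX (h.deg v)
      · intro s
        have h1 : Odd (symmDiff T (bd src tgt X) ∩ sm B s).card ↔ Odd (T ∩ sm B s).card := by
          rw [odd_symmDiff_inter]
          have h2 : ¬ Odd (bd src tgt X ∩ sm B s).card := by
            rw [Nat.not_odd_iff_even, inter_comm]
            exact even_inter_bd (odv_sm fun i _ => hB i) X
          tauto
        rw [← h1, odd_inter_sm]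
        have h3 : (s.filter fun i => Odd (symmDiff T (bd src tgt X) ∩ B i).card) =
            (univ.filter fun i => Odd (symmDiff T (bd src tgt X) ∩ B i).card) ∩ s := by
          ext i
          simp only [mem_filter, mem_inter, mem_univ, true_and]
          tauto
        rw [h3]
  choose Ao hAo using hex
  have h2n : ((2 : ℝ) ^ Fintype.card E) ≠ 0 := by positivity
  have hF : ∀ s : Finset (Fin k), rl g (fp (sm B s) y) = ∑ A : Finset (Fin k),
      (((2 : ℝ) ^ Fintype.card E)⁻¹ * ∑ T ∈ univ.filter (fun T => Ao T = A), W f T * chi T y) *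
        (if Odd (A ∩ s).card then -1 else 1) := by
    intro s
    have h1 : fp (sm B s) y ∈ Sol src tgt ε v := (fp_mem_Sol (odv_sm fun i _ => hB i)).2 hy
    have h2 := inversion f (fp (sm B s) y)
    have h3 : f (fp (sm B s) y) = rl g (fp (sm B s) y) := by
      rw [hf]
      simp only [sI]
      rw [if_pos h1, mul_one]
    rw [h3] at h2
    have h4 : ∑ A : Finset (Fin k), (∑ T ∈ univ.filter (fun T => Ao T = A), W f T * chi T y) *
        (if Odd (A ∩ s).card then (-1 : ℝ) else 1) = ∑ T, W f T * chi T (fp (sm B s) y) := by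
      rw [← sum_fiberwise (univ : Finset (Finset E)) Ao]
      refine sum_congr rfl fun A _ => ?_
      rw [sum_mul]
      refine sum_congr rfl fun T hT => ?_
      rw [chi_fp]
      by_cases hT0 : W f T = 0
      · rw [hT0]
        simp
      · have h5 := (hAo T hT0).2 s
        rw [(mem_filter.1 hT).2] at h5
        simp only [h5]
        ring
    rw [h2] at h4
    simp only [mul_assoc]
    rw [← mul_sum]
    rw [h4]
    field_simp
  have ha : ∀ A : Finset (Fin k), κ * (t + D) < A.card →
      (((2 : ℝ) ^ Fintype.card E)⁻¹ * ∑ T ∈ univ.filter (fun T => Ao T = A), W f T * chi T y) = 0 := by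
    intro A hA
    rw [sum_eq_zero, mul_zero]
    intro T hT
    by_cases hT0 : W f T = 0
    · rw [hT0, zero_mul]
    · exfalso
      have h5 := (hAo T hT0).1
      rw [(mem_filter.1 hT).2] at h5
      omega
  have h0 : fp (sm B ∅) y = y := by rw [sm_empty, fp_empty]
  refine sens_poly (fun s => rl g (fp (sm B s) y)) _ hF ha ?_ ?_ ?_ hk
  · intro s
    simp only [rl]
    split_ifs <;> norm_num
  · simp only [h0, rl]
    split_ifs
    · right; rfl
    · left; rfl
  · intro i
    simp only [h0, sm_singleton, rl]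
    have := hs i
    cases h5 : g (fp (B i) y) <;> cases h6 : g y <;> simp_all

end Pool.Agent.H3.Ex
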