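import Mathlib
import Pool.Agent.H3.Ex.Defs
import Pool.Agent.H3.Ex.CoreDefs
import Pool.Agent.H3.Ex.Base
import Pool.Agent.H3.Ex.Tree
import Pool.Agent.H3.Ex.Clos
import Pool.Agent.H3.Ex.Link
import Pool.Agent.H3.Ex.Mark
import Pool.Agent.H3.Ex.Ext

/-!
# Module CR1: configurations

* `cfg_lt`: if `k ≥ 1` then `lw_sensitivity` with `κ = 1`, `g = T.eval` (every `e` is in at most one
  `B i` by `hpair`; `T.eval (fp (B i) y) = !b ≠ b = T.eval y`). If `k = 0`: `kA t D > 0` as `1 ≤ D`.
* `cfg_shrink`: `exists_shrink` with `Q = T.qs y ∪ ⋃ i, T.qs (fp (B i) y)` (`|Q| ≤ (k + 1) d0`,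
  `DT.card_qs`) and `F = ⋃ i, ends (B i)` (`|F| ≤ 2 l k`, `card_ends_le`).
* `exists_max_cfg`: `¬ Con T (!b) U z` gives a configuration with `k = 0` (its value is not `!b`, so it
  is `b`). By `cfg_lt` the number `k` is bounded; take a configuration with the largest `k`.
* `cfg_step`: let `a = 1 + 4 c0 D`. `exists_shrink` (for `W' ⊆ W3`, `Q = T.qs (fp B3 y3)`, `F = ∅`)
  gives `W3'` with `W' ⊆ W3' ⊆ W3`, `Lam W3' ≤ Lam W' + a d0`. `extend_set` for the state
  `(W3', y3)` (`v3 ∉ W3'`, so `Sat W3' y3`) and `F = ends B3` (`|F| ≤ 2 l`) gives `W4, v4, y4`, with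
  `y4 = y3` on `inc W3'`. Then `(v4, y4, W4, Fin.snoc B B3)` (or `Fin.cons`) is a configuration:
  `y4 = y3 = y` on `inc W'`, which contains `inc U`, `T.qs y`, `T.qs (fp (B i) y)`, so by `DT.congr` the
  runs of `T` on `y4`, `fp (B i) y4` are those on `y`, `fp (B i) y`; and `y4 = y3` on `inc W3'`, which
  contains `T.qs (fp B3 y3)`. `B3` is disjoint from `inc U'`, hence from `inc U` and from the `B i`
  (`ends (B i) ⊆ U'`, `sub_inc_of_ends`).
-/

set_option autoImplicit false
set_option linter.unusedSectionVars false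

namespace Pool.Agent.H3.Ex

open Finset Pool.Agent.H3.Frg Pool.Agent.H3.Frg2 Pool.Agent.H3.Frg3

variable {E Wv : Type} [Fintype E] [DecidableEq E] [Fintype Wv] [DecidableEq Wv]
  {src tgt : E → Wv} {D c0 : ℕ} {ε : Wv → ℝ} {T : DT E} {b : Bool} {l : ℕ}
  {U : Finset Wv} {z : E → Bool}

theorem cfg_lt (h : GX src tgt D c0) {t : ℕ} (hLW : ∀ v, LW src tgt ε v (rl T.eval) t) {k : ℕ}
    {v : Wv} {y : E → Bool} {W' : Finset Wv} {B : Fin k → Finset E}
    (hc : IsCfg src tgt ε c0 T b l U z v y W' B) : k < kA t D := by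
  rcases Nat.eq_zero_or_pos k with hk | hk
  · rw [hk]
    unfold kA
    have := h.hD
    positivity
  · have h1 := lw_sensitivity h (κ := 1) (hLW v) hc.hy hk B hc.hodv
      (fun e => by
        rw [Finset.card_le_one]
        intro i hi j hj
        by_contra hij
        rw [mem_filter] at hi hj
        exact Finset.disjoint_left.1 (hc.hpair i j hij) hi.2 hj.2)
      (fun i => by
        rw [hc.hvalB i, hc.hval]
        exact Bool.not_ne_self b)
    rw [one_mul] at h1
    exact h1

theorem cfg_shrink (h : GX src tgt D c0) {d0 : ℕ} (hT : T.depth ≤ d0) {k : ℕ}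
    {v : Wv} {y : E → Bool} {W' : Finset Wv} {B : Fin k → Finset E}
    (hc : IsCfg src tgt ε c0 T b l U z v y W' B) :
    ∃ W'' ⊆ W', IsCfg src tgt ε c0 T b l U z v y W'' B ∧
      Lam src tgt (4 * c0) W'' ≤
        Lam src tgt (4 * c0) U + (1 + 4 * c0 * D) * (2 * l * k + (k + 1) * d0) := by
  have hQ : T.qs y ∪ (univ : Finset (Fin k)).biUnion (fun i => T.qs (fp (B i) y)) ⊆
      inc src tgt W' := by
    refine union_subset hc.hqs ?_
    intro e he
    obtain ⟨i, -, hi⟩ := mem_biUnion.1 he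
    exact hc.hqsB i hi
  have hF : (univ : Finset (Fin k)).biUnion (fun i => ends src tgt (B i)) ⊆ W' := by
    intro e he
    obtain ⟨i, -, hi⟩ := mem_biUnion.1 he
    exact hc.hends i hi
  obtain ⟨W'', h1, h2, h3, h4, h5⟩ := exists_shrink h hc.hUW hc.hcls _ hQ _ hF
  refine ⟨W'', h2, ⟨subset_union_left.trans h1, h3, fun hv => hc.hv (h2 hv), hc.hy, hc.hz,
    subset_union_left.trans h4, hc.hval, hc.hodv, hc.hcard, hc.hdis, ?_, ?_, hc.hvalB,
    hc.hpair⟩, h5.trans ?_⟩
  · intro i w hw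
    exact h1 (mem_union_right _ (mem_biUnion.2 ⟨i, mem_univ i, hw⟩))
  · intro i e he
    exact h4 (mem_union_right _ (mem_biUnion.2 ⟨i, mem_univ i, he⟩))
  · have hFc : ((univ : Finset (Fin k)).biUnion (fun i => ends src tgt (B i))).card ≤
        2 * l * k := by
      refine (Finset.card_biUnion_le_card_mul _ _ (2 * l) fun i _ => ?_).trans ?_
      · exact (card_ends_le (B i)).trans (Nat.mul_le_mul_left _ (hc.hcard i))
      · rw [Finset.card_univ, Fintype.card_fin, mul_comm]
    have hQc : (T.qs y ∪ (univ : Finset (Fin k)).biUnion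
        (fun i => T.qs (fp (B i) y))).card ≤ (k + 1) * d0 := by
      refine (Finset.card_union_le _ _).trans ?_
      have h6 : ((univ : Finset (Fin k)).biUnion (fun i => T.qs (fp (B i) y))).card ≤
          k * d0 := by
        refine (Finset.card_biUnion_le_card_mul _ _ d0 fun i _ =>
          (DT.card_qs T _).trans hT).trans ?_
        rw [Finset.card_univ, Fintype.card_fin]
      have h7 := (DT.card_qs T y).trans hT
      rw [add_mul, one_mul]
      omega
    exact Nat.add_le_add_left (Nat.mul_le_mul_left _ (Nat.add_le_add hFc hQc)) _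

theorem exists_max_cfg (h : GX src tgt D c0) {t : ℕ}
    (hLW : ∀ v, LW src tgt ε v (rl T.eval) t) (hb : ¬ Con src tgt ε c0 T (!b) U z) :
    ∃ k, (∃ v y W', ∃ B : Fin k → Finset E, IsCfg src tgt ε c0 T b l U z v y W' B) ∧
      ¬ ∃ v y W', ∃ B : Fin (k + 1) → Finset E, IsCfg src tgt ε c0 T b l U z v y W' B := by
  by_contra hno
  have hall : ∀ k, ∃ v y W', ∃ B : Fin k → Finset E,
      IsCfg src tgt ε c0 T b l U z v y W' B := by
    intro k
    induction k with
    | zero =>
      unfold Con at hb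
      simp only [not_forall] at hb
      obtain ⟨v, y, W', hy, hz, hUW, hcls, hv, hqs, hval⟩ := hb
      refine ⟨v, y, W', Fin.elim0, hUW, hcls, hv, hy, hz, hqs, ?_, fun i => i.elim0,
        fun i => i.elim0, fun i => i.elim0, fun i => i.elim0, fun i => i.elim0,
        fun i => i.elim0, fun i => i.elim0⟩
      revert hval
      cases T.eval y <;> cases b <;> simp
    | succ k ih =>
      by_contra hk
      exact hno ⟨k, ih, hk⟩
  obtain ⟨v, y, W', B, hc⟩ := hall (kA t D)
  exact lt_irrefl _ (cfg_lt h hLW hc)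

theorem cfg_step (h : GX src tgt D c0) (hε : ∀ w, ε w * ε w = 1) {d0 : ℕ} (hT : T.depth ≤ d0)
    {k : ℕ} {v : Wv} {y : E → Bool} {W' : Finset Wv} {B : Fin k → Finset E}
    (hc : IsCfg src tgt ε c0 T b l U z v y W' B) {U' : Finset Wv} (hU : U ⊆ U')
    (hB : ∀ i, ends src tgt (B i) ⊆ U') {v3 : Wv} {y3 : E → Bool} {B3 : Finset E}
    {W3 : Finset Wv} (hq : IsQ src tgt ε c0 T b U' W' y v3 y3 B3 W3) (hl : B3.card ≤ l)
    (hbud : Lam src tgt (4 * c0) W' + (1 + 4 * c0 * D) * (d0 + 2 * l) < Fintype.card Wv) :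
    ∃ v y W', ∃ B : Fin (k + 1) → Finset E, IsCfg src tgt ε c0 T b l U z v y W' B := by
  obtain ⟨W3', h1, h2, h3, h4, h5⟩ := exists_shrink h hq.hW hq.hcls _ hq.hqs ∅
    (Finset.empty_subset _)
  rw [Finset.union_empty] at h1
  rw [Finset.card_empty, zero_add] at h5
  have hv3 : v3 ∉ W3' := fun hv => hq.hv (h2 hv)
  have hqc : (T.qs (fp B3 y3)).card ≤ d0 := (DT.card_qs T _).trans hT
  have hec : (ends src tgt B3).card ≤ 2 * l :=
    (card_ends_le B3).trans (Nat.mul_le_mul_left _ hl)
  have hbud' : Lam src tgt (4 * c0) W3' + (1 + 4 * c0 * D) * (ends src tgt B3).card <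
      Fintype.card Wv := by
    refine lt_of_le_of_lt ?_ hbud
    rw [mul_add, ← add_assoc]
    exact Nat.add_le_add (h5.trans (Nat.add_le_add_left (Nat.mul_le_mul_left _ hqc) _))
      (Nat.mul_le_mul_left _ hec)
  obtain ⟨W4, v4, y4, g1, g2, g3, g4, g5, -⟩ := extend_set h hε (ends src tgt B3) h3
    (sat_of_mem_Sol hq.hy hv3) hbud'
  have hW3 : W3' ⊆ W4 := subset_union_left.trans g1
  have hW' : W' ⊆ W4 := h1.trans hW3
  -- agreement
  have hay : ∀ e ∈ inc src tgt W', y4 e = y e := fun e he =>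
    (g5 e (inc_mono h1 he)).trans (hq.hz e he)
  have hcy := DT.congr T (z := y) (z' := y4) fun e he => (hay e (hc.hqs he)).symm
  have hcB : ∀ i, T.eval (fp (B i) y4) = T.eval (fp (B i) y) ∧
      T.qs (fp (B i) y4) = T.qs (fp (B i) y) := fun i =>
    DT.congr T (z := fp (B i) y) (z' := fp (B i) y4) fun e he => by
      unfold fp
      rw [hay e (hc.hqsB i he)]
  have hc3 : T.eval (fp B3 y4) = T.eval (fp B3 y3) ∧ T.qs (fp B3 y4) = T.qs (fp B3 y3) :=
    DT.congr T (z := fp B3 y3) (z' := fp B3 y4) fun e he => by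
      unfold fp
      rw [g5 e (h4 he)]
  have hdisj : ∀ i, Disjoint B3 (B i) := fun i =>
    Finset.disjoint_of_subset_right (sub_inc_of_ends (hB i)) hq.hdis
  refine ⟨v4, y4, W4, Fin.cons B3 B, (hc.hUW.trans hW'), g2, g3, g4, ?_, ?_, ?_, ?_, ?_, ?_, ?_,
    ?_, ?_, ?_⟩
  · intro e he
    rw [hay e (inc_mono hc.hUW he)]
    exact hc.hz e he
  · rw [hcy.2]
    exact hc.hqs.trans (inc_mono hW')
  · rw [hcy.1]
    exact hc.hval
  · intro i
    refine Fin.cases ?_ (fun i => ?_) i
    · exact hq.hodv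
    · exact hc.hodv i
  · intro i
    refine Fin.cases ?_ (fun i => ?_) i
    · exact hl
    · exact hc.hcard i
  · intro i
    refine Fin.cases ?_ (fun i => ?_) i
    · exact Finset.disjoint_of_subset_right (inc_mono hU) hq.hdis
    · exact hc.hdis i
  · intro i
    refine Fin.cases ?_ (fun i => ?_) i
    · exact subset_union_right.trans g1
    · exact (hc.hends i).trans hW'
  · intro i
    refine Fin.cases ?_ (fun i => ?_) i
    · change T.qs (fp B3 y4) ⊆ _
      rw [hc3.2]
      exact h4.trans (inc_mono hW3)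
    · change T.qs (fp (B i) y4) ⊆ _
      rw [(hcB i).2]
      exact (hc.hqsB i).trans (inc_mono hW')
  · intro i
    refine Fin.cases ?_ (fun i => ?_) i
    · change T.eval (fp B3 y4) = _
      rw [hc3.1]
      exact hq.hval
    · change T.eval (fp (B i) y4) = _
      rw [(hcB i).1]
      exact hc.hvalB i
  · intro i j
    refine Fin.cases ?_ (fun i => ?_) i
    · refine Fin.cases ?_ (fun j => ?_) j
      · intro hne
        exact absurd rfl hne
      · intro _
        exact hdisj j
    · refine Fin.cases ?_ (fun j => ?_) j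
      · intro _
        exact (hdisj i).symm
      · intro hne
        exact hc.hpair i j fun hij => hne (by rw [hij])

end Pool.Agent.H3.Ex
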