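import Mathlib
import Pool.Agent.H3.Ex.Defs
import Pool.Agent.H3.Ex.CoreDefs
import Pool.Agent.H3.Ex.Base
import Pool.Agent.H3.Ex.Tree
import Pool.Agent.H3.Ex.Clos
import Pool.Agent.H3.Ex.Link
import Pool.Agent.H3.Ex.Ext

set_option autoImplicit false
set_option linter.unusedSectionVars false

/-!
# Module CR2: existence of quadruples

* `exists_quad`: by `exists_shrink` (for `U' ⊆ W2`, `Q = T.qs y2`, `F = ∅`) we may assume
  `Lam W2 ≤ Lam U' + a d0` (`a = 1 + 4 c0 D`). `exists_cls_between` with `S = W' ∪ W2` and `univ`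
  gives `W3 ⊇ W' ∪ W2` closed with `Lam W3 ≤ Lam W' + Lam W2 < n` (`Lam_union`); let `v3 ∉ W3`
  (`exists_notMem_of_lam`), and `y3` of the world `v3` with `y3 = y` on `inc W'` (`exists_world`;
  `Sat W' y` as `v ∉ W'`). Let `δ = {e ∈ inc W2 : y2 e ≠ y3 e}`. `y2` and `y3` satisfy the axioms of
  `W2`, so `odv δ` is disjoint from `W2` (`odv_diff`). `exists_completion` (`Y = W2`, `x0 = v3`,
  `A = odv δ`, which has even cardinality by `even_odv`; `L1` from `exists_len`) gives `O` disjoint from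
  `inc W2` with `odv O = odv δ`. `B3 = δ ∆ O`. For `e ∈ inc W2`: `e ∈ B3 ↔ y2 e ≠ y3 e`, so
  `fp B3 y3 = y2` on `inc W2`, and `DT.congr`. On `inc U'` (contained in `inc W2` and `inc W'`):
  `y3 = y = y2`, so `B3` is disjoint from `inc U'`.
-/

namespace Pool.Agent.H3.Ex

open Finset Pool.Agent.H3.Frg Pool.Agent.H3.Frg2 Pool.Agent.H3.Frg3

variable {E Wv : Type} [Fintype E] [DecidableEq E] [Fintype Wv] [DecidableEq Wv]
  {src tgt : E → Wv} {D c0 : ℕ} {ε : Wv → ℝ} {T : DT E} {b : Bool}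

theorem exists_quad (h : GX src tgt D c0) (hε : ∀ w, ε w * ε w = 1) {d0 : ℕ}
    (hT : T.depth ≤ d0) {U' W' : Finset Wv} {v : Wv} {y : E → Bool} (hUW : U' ⊆ W')
    (hcls : Cls src tgt (4 * c0) W') (hv : v ∉ W') (hy : y ∈ Sol src tgt ε v)
    (hbud : Lam src tgt (4 * c0) W' + Lam src tgt (4 * c0) U' + (1 + 4 * c0 * D) * d0 <
      Fintype.card Wv) (hcon : ¬ Con src tgt ε c0 T b U' y) :
    ∃ v3 y3 B3 W3, IsQ src tgt ε c0 T b U' W' y v3 y3 B3 W3 := by
  unfold Con at hcon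
  push Not at hcon
  obtain ⟨v2, y2, W2, hy2, hz2, hUW2, hcls2, hv2, hqs2, hval2⟩ := hcon
  obtain ⟨Wt, hUWt, hWt2, hclst, hqst, hLt⟩ :=
    exists_shrink h hUW2 hcls2 (T.qs y2) hqs2 ∅ (empty_subset _)
  rw [union_empty] at hUWt
  have hLt' : Lam src tgt (4 * c0) Wt ≤
      Lam src tgt (4 * c0) U' + (1 + 4 * c0 * D) * d0 := by
    refine hLt.trans (Nat.add_le_add_left (Nat.mul_le_mul_left _ ?_) _)
    rw [card_empty, zero_add]
    exact (DT.card_qs T y2).trans hT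
  obtain ⟨W3, hS3, -, hcls3, hL3⟩ := exists_cls_between (src := src) (tgt := tgt)
    (cls_univ (4 * c0)) (subset_univ (W' ∪ Wt))
  have hL3' : Lam src tgt (4 * c0) W3 < Fintype.card Wv := by
    have h1 := Lam_union (src := src) (tgt := tgt) (4 * c0) W' Wt
    omega
  obtain ⟨v3, hv3⟩ := exists_notMem_of_lam hL3'
  have hW3 : W' ⊆ W3 := subset_union_left.trans hS3
  have hWt3 : Wt ⊆ W3 := subset_union_right.trans hS3
  have hc : 2 * c0 ≤ 4 * c0 := by omega
  obtain ⟨y3, hy3, hyy⟩ := exists_world h hε hc hcls (sat_of_mem_Sol hy hv)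
    (fun hx => hv3 (hW3 hx))
  have hv3t : v3 ∉ Wt := fun hx => hv3 (hWt3 hx)
  set δ : Finset E := (inc src tgt Wt).filter fun e => y2 e ≠ y3 e with hδ
  have hodd : Disjoint (odv src tgt δ) Wt :=
    odv_diff (sat_of_mem_Sol hy2 fun hx => hv2 (hWt2 hx)) (sat_of_mem_Sol hy3 hv3t)
  obtain ⟨L1, hL1⟩ := exists_len (Fintype.card Wv) (4 * c0 * D)
  obtain ⟨O, hOd, hO, -⟩ := exists_completion h hc hL1 hclst hv3t (odv src tgt δ) hodd
  rw [if_pos (even_odv δ)] at hO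
  have hmem : ∀ e ∈ inc src tgt Wt, (e ∈ symmDiff δ O ↔ y2 e ≠ y3 e) := by
    intro e he
    have hne : e ∉ O := fun hx => (disjoint_left.1 hOd) hx he
    rw [mem_symmDiff, hδ, mem_filter]
    constructor
    · rintro (⟨⟨-, h1⟩, -⟩ | ⟨h1, -⟩)
      · exact h1
      · exact absurd h1 hne
    · intro h1
      exact Or.inl ⟨⟨he, h1⟩, hne⟩
  have hfp : ∀ e ∈ T.qs y2, y2 e = fp (symmDiff δ O) y3 e := by
    intro e he
    have he' := hqst he
    have hm := hmem e he'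
    unfold fp
    by_cases h1 : y2 e = y3 e
    · have h2 : e ∉ symmDiff δ O := fun hx => (hm.1 hx) h1
      rw [decide_eq_false h2, h1, Bool.xor_false]
    · have h2 : e ∈ symmDiff δ O := hm.2 h1
      rw [decide_eq_true h2, Bool.xor_true]
      exact Bool.eq_not_of_ne h1
  obtain ⟨hev, hqe⟩ := DT.congr T hfp
  refine ⟨v3, y3, symmDiff δ O, W3, ⟨hW3, hcls3, hv3, hy3, hyy, ?_, ?_, ?_, ?_⟩⟩
  · rw [odv_symmDiff, hO, symmDiff_self]
    rfl
  · rw [disjoint_left]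
    intro e he heU
    have h1 := (hmem e (inc_mono hUWt heU)).1 he
    exact h1 ((hz2 e heU).trans (hyy e (inc_mono hUW heU)).symm)
  · rw [hqe]
    exact hqst.trans (inc_mono hWt3)
  · rw [hev]
    exact Bool.eq_not_of_ne hval2

end Pool.Agent.H3.Ex
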