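import Mathlib
import Pool.Agent.H3.Ex.Defs
import Pool.Agent.H3.Ex.Base

set_option autoImplicit false
set_option linter.unusedSectionVars false

/-!
# Module TRL: trails

* `exists_trail`: induction on `k`. `R` is nonempty, so among the nonempty `σ ⊆ R` with
  `|odv σ| ≤ 2` and `|σ| ≤ L` (single edges are such) choose one with the largest number of edges.
  `|odv σ|` is even (`even_odv`), so it is `0` (done) or `2`: `odv σ = {a, b}`, `a ≠ b`. If `|σ| = L`:
  done. Otherwise `|σ| < L`. If there were `e ∈ R \ σ` with end `b` (`e ∈ bd {b}`) then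
  `odv (insert e σ) = {a, b} ∆ {b, b'} = {a} ∆ {b'}` has at most two elements, a contradiction to the
  choice of `σ`. So `R ∩ bd {b} = σ ∩ bd {b}`, which is odd: `b ∈ odv R`; in the same way `a ∈ odv R`
  (in particular `k ≥ 1`). So `R' = R \ σ` has `odv R' = odv R \ {a, b}`, `|odv R'| ≤ 2 (k - 1)`,
  `|R'| > (k+1) L - L = k L`, and the induction hypothesis for `R'` gives the result.
-/

namespace Pool.Agent.H3.Ex

open Finset Pool.Agent.H3.Frg Pool.Agent.H3.Frg2 Pool.Agent.H3.Frg3

variable {E Wv : Type} [Fintype E] [DecidableEq E] [Fintype Wv] [DecidableEq Wv]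
  {src tgt : E → Wv} {D c0 : ℕ} {ε : Wv → ℝ}

/-- adding an edge at an odd vertex does not increase the number of odd vertices -/
private lemma card_symmDiff_pair {x x' : Wv} {e : E} (h : GX src tgt D c0)
    (he : e ∈ bd src tgt {x}) :
    (symmDiff ({x, x'} : Finset Wv) {src e, tgt e}).card ≤ 2 := by
  rw [mem_bd] at he
  simp only [Finset.mem_singleton] at he
  obtain ⟨y, hy⟩ : ∃ y, symmDiff ({x, x'} : Finset Wv) {src e, tgt e} ⊆ {x', y} := by
    by_cases h1 : src e = x
    · refine ⟨tgt e, ?_⟩
      intro w hw
      rw [Finset.mem_symmDiff] at hw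
      simp only [Finset.mem_insert, Finset.mem_singleton] at hw ⊢
      rw [h1] at hw
      tauto
    · have h2 : tgt e = x := by
        by_contra h2
        exact he (by tauto)
      refine ⟨src e, ?_⟩
      intro w hw
      rw [Finset.mem_symmDiff] at hw
      simp only [Finset.mem_insert, Finset.mem_singleton] at hw ⊢
      rw [h2] at hw
      tauto
  exact (Finset.card_le_card hy).trans Finset.card_le_two

theorem exists_trail (h : GX src tgt D c0) (L : ℕ) (hL : 1 ≤ L) (k : ℕ) :
    ∀ R : Finset E, (odv src tgt R).card ≤ 2 * k → (k + 1) * L ≤ R.card →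
      ∃ σ ⊆ R, σ.Nonempty ∧ ((odv src tgt σ = ∅ ∧ σ.card ≤ L) ∨
        ∃ a b, a ≠ b ∧ odv src tgt σ = {a, b} ∧ σ.card = L) := by
  induction k with
  | zero =>
    intro R hR hc
    exact main_step h L hL 0 (by intro k' hk'; omega) R hR hc
  | succ k ih =>
    intro R hR hc
    exact main_step h L hL (k + 1) (by intro k' hk'; have : k' = k := by omega
                                       subst this; exact ih) R hR hc
where
  main_step (h : GX src tgt D c0) (L : ℕ) (hL : 1 ≤ L) (k : ℕ)
    (ih : ∀ k', k' + 1 = k → ∀ R : Finset E, (odv src tgt R).card ≤ 2 * k' →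
      (k' + 1) * L ≤ R.card →
      ∃ σ ⊆ R, σ.Nonempty ∧ ((odv src tgt σ = ∅ ∧ σ.card ≤ L) ∨
        ∃ a b, a ≠ b ∧ odv src tgt σ = {a, b} ∧ σ.card = L))
    (R : Finset E) (hR : (odv src tgt R).card ≤ 2 * k) (hc : (k + 1) * L ≤ R.card) :
      ∃ σ ⊆ R, σ.Nonempty ∧ ((odv src tgt σ = ∅ ∧ σ.card ≤ L) ∨
        ∃ a b, a ≠ b ∧ odv src tgt σ = {a, b} ∧ σ.card = L) := by
    classical
    have hRne : R.Nonempty := by
      rw [← Finset.card_pos]
      have : 1 ≤ (k + 1) * L := Nat.mul_pos (Nat.succ_pos k) hL
      omega
    let S : Finset (Finset E) := R.powerset.filter fun σ =>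
      σ.Nonempty ∧ (odv src tgt σ).card ≤ 2 ∧ σ.card ≤ L
    have hSne : S.Nonempty := by
      obtain ⟨e, he⟩ := hRne
      refine ⟨{e}, ?_⟩
      rw [Finset.mem_filter, Finset.mem_powerset, Finset.singleton_subset_iff]
      refine ⟨he, Finset.singleton_nonempty e, ?_, by simpa using hL⟩
      rw [odv_singleton h]
      exact Finset.card_le_two
    obtain ⟨σ, hσS, hmax⟩ := Finset.exists_max_image S (fun σ => σ.card) hSne
    rw [Finset.mem_filter, Finset.mem_powerset] at hσS
    obtain ⟨hσR, hσne, hσ2, hσL⟩ := hσS
    have hev := even_odv (src := src) (tgt := tgt) σ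
    have hcases : (odv src tgt σ).card = 0 ∨ (odv src tgt σ).card = 2 := by
      obtain ⟨m, hm⟩ := hev
      omega
    rcases hcases with h0 | h2
    · exact ⟨σ, hσR, hσne, Or.inl ⟨Finset.card_eq_zero.1 h0, hσL⟩⟩
    obtain ⟨a, b, hab, hodv⟩ := Finset.card_eq_two.1 h2
    by_cases hcL : σ.card = L
    · exact ⟨σ, hσR, hσne, Or.inr ⟨a, b, hab, hodv, hcL⟩⟩
    have hlt : σ.card < L := by omega
    -- edges at `a` and `b`
    have key : ∀ x x' : Wv, x ≠ x' → odv src tgt σ = {x, x'} → x ∈ odv src tgt R := by
      intro x x' hxx' hx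
      have hno : ∀ e ∈ R, e ∈ bd src tgt {x} → e ∈ σ := by
        intro e heR heb
        by_contra heσ
        have hins : insert e σ ∈ S := by
          rw [Finset.mem_filter, Finset.mem_powerset]
          refine ⟨Finset.insert_subset heR hσR, Finset.insert_nonempty e σ, ?_, ?_⟩
          · have h1 : insert e σ = symmDiff σ {e} := by
              ext w
              rw [Finset.mem_insert, Finset.mem_symmDiff, Finset.mem_singleton]
              constructor
              · rintro (rfl | hw)
                · exact Or.inr ⟨rfl, heσ⟩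
                · exact Or.inl ⟨hw, fun h => heσ (h ▸ hw)⟩
              · rintro (⟨hw, _⟩ | ⟨hw, _⟩)
                · exact Or.inr hw
                · exact Or.inl hw
            rw [h1, odv_symmDiff, odv_singleton h, hx]
            exact card_symmDiff_pair h heb
          · rw [Finset.card_insert_of_notMem heσ]
            omega
        have := hmax _ hins
        rw [Finset.card_insert_of_notMem heσ] at this
        omega
      have hxσ : x ∈ odv src tgt σ := by rw [hx]; simp
      rw [mem_odv] at hxσ ⊢
      have heq : R ∩ bd src tgt {x} = σ ∩ bd src tgt {x} := by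
        ext e
        rw [Finset.mem_inter, Finset.mem_inter]
        constructor
        · rintro ⟨h1, h2⟩
          exact ⟨hno e h1 h2, h2⟩
        · rintro ⟨h1, h2⟩
          exact ⟨hσR h1, h2⟩
      rw [heq]
      exact hxσ
    have ha : a ∈ odv src tgt R := key a b hab hodv
    have hb : b ∈ odv src tgt R := key b a hab.symm (by rw [hodv, Finset.pair_comm])
    have hsub : ({a, b} : Finset Wv) ⊆ odv src tgt R := by
      intro w hw
      rw [Finset.mem_insert, Finset.mem_singleton] at hw
      rcases hw with rfl | rfl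
      · exact ha
      · exact hb
    have hcard2 : ({a, b} : Finset Wv).card = 2 := Finset.card_pair hab
    have hge : 2 ≤ (odv src tgt R).card := hcard2 ▸ Finset.card_le_card hsub
    obtain ⟨k', rfl⟩ : ∃ k', k = k' + 1 := ⟨k - 1, by omega⟩
    have hR' : R \ σ = symmDiff R σ := by
      ext w
      rw [Finset.mem_sdiff, Finset.mem_symmDiff]
      constructor
      · intro hw; exact Or.inl hw
      · rintro (hw | ⟨hw, hw'⟩)
        · exact hw
        · exact absurd (hσR hw) hw'
    have hodvR' : odv src tgt (R \ σ) = odv src tgt R \ {a, b} := by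
      rw [hR', odv_symmDiff, hodv]
      ext w
      rw [Finset.mem_sdiff, Finset.mem_symmDiff]
      constructor
      · rintro (hw | ⟨hw, hw'⟩)
        · exact hw
        · exact absurd (hsub hw) hw'
      · intro hw; exact Or.inl hw
    obtain ⟨σ', hσ', hne', hfin⟩ := ih k' rfl (R \ σ)
      (by
        rw [hodvR', Finset.card_sdiff_of_subset hsub, hcard2]
        omega)
      (by
        rw [Finset.card_sdiff_of_subset hσR]
        have h1 : (k' + 1 + 1) * L = (k' + 1) * L + L := by ring
        omega)
    exact ⟨σ', hσ'.trans Finset.sdiff_subset, hne', hfin⟩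

end Pool.Agent.H3.Ex
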