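import Mathlib
import Pool.Agent.H3.Ex.Defs
import Pool.Agent.H3.Ex.Base
import Pool.Agent.H3.Ex.Clos
import Pool.Agent.H3.Ex.LinkA
import Pool.Agent.H3.Ex.TrailA

set_option autoImplicit false
set_option linter.unusedSectionVars false

/-!
# Module SHC: short cuts

* `exists_shortcuts`: put `N = 4 (1 + 2 c0 D)`. By induction on `j ≤ m` there are sets `σ i, P i`
  (`i < j`) with `σ i ⊆ B`, `|σ i| ≤ L`, `P i` disjoint from `inc U`, `|P i| ≤ 2 L1`,
  `|P i| < |σ i|`, `odv (σ i) = odv (P i)`, the `σ i` pairwise disjoint and the `P i` pairwise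
  disjoint. Step: `F = ⋃_{i<j} ends (P i)`, `|F| ≤ 4 L1 j` (`card_ends_le`). `robust` with `c = 2 c0`,
  `W' = univ` gives `Y ⊇ U ∪ F` closed for `2 c0` with `|Y \ U| ≤ N |F|`. Let
  `R = B \ (⋃_{i<j} σ i) \ inc Y`. The number of lost edges is at most
  `j L + D |Y \ U| ≤ m (L + D N 4 L1) = ρ` (the edges in `B ∩ inc Y` are not in `inc U`, so they are
  in `inc (Y \ U)`; `card_inc_le`). So `|R| ≥ |B| - ρ ≥ (ρ + 1) L` and
  `odv R = odv (B ∆ R) = odv (B \ R)` has at most `2 ρ` elements (`odv B = ∅`, `odv_symmDiff`,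
  `card_odv_le`). `exists_trail` with `k = ρ` gives `σ ⊆ R`. If `odv σ = ∅`: take `P = ∅`
  (`σ` is nonempty). If `odv σ = {a, b}`, `|σ| = L = 2 L1 + 1`: `a, b ∉ Y` because they are ends of
  edges in `σ`, which are not in `inc Y`; take `P` from `exists_link` (`c = 2 c0`); it is disjoint from
  `inc Y`, which contains `inc U` and all `P i` (`sub_inc_of_ends`); `|P| ≤ 2 L1 < L = |σ|`.
  Finally `C i = σ i ∆ P i`: `B ∆ C i = (B ∆ σ i) ∆ P i` has at most
  `|B| - |σ i| + |P i| < |B|` elements.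
-/

namespace Pool.Agent.H3.Ex

open Finset Pool.Agent.H3.Frg Pool.Agent.H3.Frg2 Pool.Agent.H3.Frg3

variable {E Wv : Type} [Fintype E] [DecidableEq E] [Fintype Wv] [DecidableEq Wv]
  {src tgt : E → Wv} {D c0 : ℕ} {ε : Wv → ℝ}

theorem shortcut_step (h : GX src tgt D c0) {L1 m ρ : ℕ}
    (hL1 : Fintype.card Wv * (4 * c0 * D) ^ L1 < (4 * c0 * D + 1) ^ L1)
    (hρ : ρ = m * (2 * L1 + 1 + 16 * D * (1 + 2 * c0 * D) * L1)) {U : Finset Wv}
    (hU : Cls src tgt (3 * c0) U) {B : Finset E} (hB : odv src tgt B = ∅)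
    (hBU : Disjoint B (inc src tgt U)) (hBL : (ρ + 1) * (2 * L1 + 1) + ρ ≤ B.card)
    {j : ℕ} (hj : j < m) {A Q : Finset E} (hAc : A.card ≤ j * (2 * L1 + 1))
    (hQc : Q.card ≤ j * (2 * L1)) :
    ∃ σ P : Finset E, σ ⊆ B \ A ∧ σ.card ≤ 2 * L1 + 1 ∧ Disjoint P (inc src tgt U) ∧
      Disjoint P Q ∧ P.card ≤ 2 * L1 ∧ P.card < σ.card ∧ odv src tgt σ = odv src tgt P := by
  classical
  have hFc : (ends src tgt Q).card ≤ 4 * L1 * j := by
    have h1 := card_ends_le (src := src) (tgt := tgt) Q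
    nlinarith [h1, hQc]
  have hU' : Cls src tgt (2 * c0 + c0) U := by
    have : 2 * c0 + c0 = 3 * c0 := by ring
    rw [this]; exact hU
  obtain ⟨Y, hY1, -, hY3, hY4⟩ := robust h (c := 2 * c0) (by omega) hU' (cls_univ (2 * c0))
    (subset_univ (U ∪ ends src tgt Q))
  set R := (B \ A) \ inc src tgt Y with hR
  have hRB : R ⊆ B := sdiff_subset.trans sdiff_subset
  have hlost : B \ R ⊆ A ∪ inc src tgt (Y \ U) := by
    intro e he
    rcases mem_sdiff.1 he with ⟨heB, heR⟩
    rw [mem_union]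
    by_cases heA : e ∈ A
    · exact Or.inl heA
    · right
      have heY : e ∈ inc src tgt Y := by
        by_contra hcon
        exact heR (mem_sdiff.2 ⟨mem_sdiff.2 ⟨heB, heA⟩, hcon⟩)
      have heU : e ∉ inc src tgt U := disjoint_left.1 hBU heB
      rw [mem_inc] at heU heY ⊢
      push Not at heU
      rcases heY with h1 | h1
      · exact Or.inl (mem_sdiff.2 ⟨h1, heU.1⟩)
      · exact Or.inr (mem_sdiff.2 ⟨h1, heU.2⟩)
  have hlostc : (B \ R).card ≤ ρ := by
    have h1 : (B \ R).card ≤ A.card + (inc src tgt (Y \ U)).card :=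
      (card_le_card hlost).trans (card_union_le _ _)
    have h2 : (inc src tgt (Y \ U)).card ≤ D * (Y \ U).card := card_inc_le h _
    have h3 : D * (Y \ U).card ≤ D * (4 * (1 + 2 * c0 * D) * (4 * L1 * j)) :=
      Nat.mul_le_mul_left _ (hY4.trans (Nat.mul_le_mul_left _ hFc))
    have h4 : j * (2 * L1 + 1) + D * (4 * (1 + 2 * c0 * D) * (4 * L1 * j)) =
        j * (2 * L1 + 1 + 16 * D * (1 + 2 * c0 * D) * L1) := by ring
    have h5 : j * (2 * L1 + 1 + 16 * D * (1 + 2 * c0 * D) * L1) ≤ ρ := by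
      rw [hρ]; exact Nat.mul_le_mul_right _ hj.le
    omega
  have hRc : (ρ + 1) * (2 * L1 + 1) ≤ R.card := by
    have h1 := card_sdiff_add_card_eq_card hRB
    omega
  have hodv : odv src tgt R = odv src tgt (B \ R) := by
    have h1 : symmDiff R (B \ R) = B := by
      ext e
      have := @hRB e
      simp only [mem_symmDiff, mem_sdiff]
      tauto
    have h2 := odv_symmDiff (src := src) (tgt := tgt) R (B \ R)
    rw [h1, hB] at h2
    exact symmDiff_eq_bot.1 h2.symm
  have hodvc : (odv src tgt R).card ≤ 2 * ρ := by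
    rw [hodv]
    exact (card_odv_le h _).trans (Nat.mul_le_mul_left _ hlostc)
  obtain ⟨σ, hσR, hσne, hσ⟩ := exists_trail h (2 * L1 + 1) (by omega) ρ R hodvc hRc
  have hσBA : σ ⊆ B \ A := hσR.trans sdiff_subset
  rcases hσ with ⟨ho, hc⟩ | ⟨a, b, hab, ho, hc⟩
  · refine ⟨σ, ∅, hσBA, hc, disjoint_empty_left _, disjoint_empty_left _, ?_, ?_, ?_⟩
    · simp
    · simpa using hσne
    · rw [ho, odv_empty]
  · have hnot : ∀ x ∈ odv src tgt σ, x ∉ Y := by
      intro x hx hxY
      obtain ⟨e, he, hex⟩ := mem_ends.1 (odv_sub_ends h σ hx)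
      have h1 : e ∈ inc src tgt Y := by
        rw [mem_inc]
        rcases hex with h2 | h2
        · left; rw [h2]; exact hxY
        · right; rw [h2]; exact hxY
      exact (mem_sdiff.1 (hσR he)).2 h1
    have haY : a ∉ Y := hnot a (by rw [ho]; simp)
    have hbY : b ∉ Y := hnot b (by rw [ho]; simp)
    obtain ⟨P, hP1, hP2, hP3⟩ := exists_link h (le_refl _) hL1 hY3 haY hbY
    refine ⟨σ, P, hσBA, hc.le, ?_, ?_, hP3, ?_, ?_⟩
    · exact hP1.mono_right (inc_mono (subset_union_left.trans hY1))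
    · exact hP1.mono_right (sub_inc_of_ends (subset_union_right.trans hY1))
    · omega
    · rw [ho, hP2]
      ext x
      simp only [mem_insert, mem_singleton, mem_symmDiff]
      constructor
      · rintro (rfl | rfl)
        · exact Or.inl ⟨rfl, hab⟩
        · exact Or.inr ⟨rfl, fun h1 => hab h1.symm⟩
      · rintro (h1 | h1)
        · exact Or.inl h1.1
        · exact Or.inr h1.1

theorem shortcut_list (h : GX src tgt D c0) {L1 m ρ : ℕ}
    (hL1 : Fintype.card Wv * (4 * c0 * D) ^ L1 < (4 * c0 * D + 1) ^ L1)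
    (hρ : ρ = m * (2 * L1 + 1 + 16 * D * (1 + 2 * c0 * D) * L1)) {U : Finset Wv}
    (hU : Cls src tgt (3 * c0) U) {B : Finset E} (hB : odv src tgt B = ∅)
    (hBU : Disjoint B (inc src tgt U)) (hBL : (ρ + 1) * (2 * L1 + 1) + ρ ≤ B.card) :
    ∀ j ≤ m, ∃ σ P : ℕ → Finset E, (∀ i < j, σ i ⊆ B ∧ (σ i).card ≤ 2 * L1 + 1 ∧
      Disjoint (P i) (inc src tgt U) ∧ (P i).card ≤ 2 * L1 ∧ (P i).card < (σ i).card ∧
      odv src tgt (σ i) = odv src tgt (P i)) ∧
      ∀ i < j, ∀ i' < j, i ≠ i' → Disjoint (σ i) (σ i') ∧ Disjoint (P i) (P i') := by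
  intro j
  induction j with
  | zero =>
    intro _
    exact ⟨fun _ => ∅, fun _ => ∅, fun i hi => absurd hi (Nat.not_lt_zero _),
      fun i hi => absurd hi (Nat.not_lt_zero _)⟩
  | succ j ih =>
    intro hj
    obtain ⟨σ, P, h1, h2⟩ := ih (by omega)
    have hAc : ((range j).biUnion σ).card ≤ j * (2 * L1 + 1) := by
      refine card_biUnion_le.trans ?_
      refine (sum_le_sum (g := fun _ => 2 * L1 + 1)
        (fun i hi => (h1 i (mem_range.1 hi)).2.1)).trans ?_
      simp
    have hQc : ((range j).biUnion P).card ≤ j * (2 * L1) := by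
      refine card_biUnion_le.trans ?_
      refine (sum_le_sum (g := fun _ => 2 * L1)
        (fun i hi => (h1 i (mem_range.1 hi)).2.2.2.1)).trans ?_
      simp
    obtain ⟨s, p, g1, g2, g3, g4, g5, g6, g7⟩ :=
      shortcut_step h hL1 hρ hU hB hBU hBL (by omega : j < m) hAc hQc
    have hs : ∀ i < j, Disjoint (σ i) s := by
      intro i hi
      refine disjoint_left.2 fun e he hes => ?_
      exact (mem_sdiff.1 (g1 hes)).2 (mem_biUnion.2 ⟨i, mem_range.2 hi, he⟩)
    have hp : ∀ i < j, Disjoint (P i) p := by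
      intro i hi
      refine disjoint_left.2 fun e he hep => ?_
      exact disjoint_left.1 g4 hep (mem_biUnion.2 ⟨i, mem_range.2 hi, he⟩)
    refine ⟨fun i => if i < j then σ i else s, fun i => if i < j then P i else p, ?_, ?_⟩
    · intro i hi
      by_cases hij : i < j
      · simp only [hij, if_true]
        exact h1 i hij
      · simp only [hij, if_false]
        exact ⟨g1.trans sdiff_subset, g2, g3, g5, g6, g7⟩
    · intro i hi i' hi' hne
      by_cases hij : i < j
      · by_cases hij' : i' < j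
        · simp only [hij, hij', if_true]
          exact h2 i hij i' hij' hne
        · simp only [hij, hij', if_true, if_false]
          exact ⟨hs i hij, hp i hij⟩
      · by_cases hij' : i' < j
        · simp only [hij, hij', if_true, if_false]
          exact ⟨(hs i' hij').symm, (hp i' hij').symm⟩
        · exact absurd (by omega : i = i') hne

theorem exists_shortcuts (h : GX src tgt D c0) {L1 m ρ : ℕ}
    (hL1 : Fintype.card Wv * (4 * c0 * D) ^ L1 < (4 * c0 * D + 1) ^ L1)
    (hρ : ρ = m * (2 * L1 + 1 + 16 * D * (1 + 2 * c0 * D) * L1)) {U : Finset Wv}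
    (hU : Cls src tgt (3 * c0) U) {B : Finset E} (hB : odv src tgt B = ∅)
    (hBU : Disjoint B (inc src tgt U)) (hBL : (ρ + 1) * (2 * L1 + 1) + ρ ≤ B.card) :
    ∃ C : Fin m → Finset E, (∀ j, odv src tgt (C j) = ∅ ∧ Disjoint (C j) (inc src tgt U) ∧
      (symmDiff B (C j)).card < B.card) ∧
      ∀ e, (univ.filter fun j => e ∈ C j).card ≤ 2 := by
  classical
  obtain ⟨σ, P, h1, h2⟩ := shortcut_list h hL1 hρ hU hB hBU hBL m (le_refl m)
  refine ⟨fun j => symmDiff (σ j) (P j), ?_, ?_⟩
  · intro j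
    obtain ⟨a1, a2, a3, a4, a5, a6⟩ := h1 j j.2
    refine ⟨?_, ?_, ?_⟩
    · rw [odv_symmDiff, a6, symmDiff_self]; rfl
    · refine disjoint_left.2 fun e he heU => ?_
      rcases mem_symmDiff.1 he with h3 | h3
      · exact disjoint_left.1 hBU (a1 h3.1) heU
      · exact disjoint_left.1 a3 h3.1 heU
    · have hsub : symmDiff B (symmDiff (σ j) (P j)) ⊆ (B \ σ j) ∪ P j := by
        intro e he
        have := @a1 e
        simp only [mem_symmDiff, mem_union, mem_sdiff] at he ⊢
        tauto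
      have h3 := (card_le_card hsub).trans (card_union_le _ _)
      have h4 := card_sdiff_add_card_eq_card a1
      show (symmDiff B (symmDiff (σ j) (P j))).card < B.card
      omega
  · intro e
    have hsub : (univ.filter fun j : Fin m => e ∈ symmDiff (σ j) (P j)) ⊆
        (univ.filter fun j : Fin m => e ∈ σ j) ∪ (univ.filter fun j : Fin m => e ∈ P j) := by
      intro j hj
      simp only [mem_filter, mem_univ, true_and, mem_symmDiff, mem_union] at hj ⊢
      tauto
    have hs1 : (univ.filter fun j : Fin m => e ∈ σ j).card ≤ 1 := by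
      rw [card_le_one]
      intro i hi i' hi'
      simp only [mem_filter, mem_univ, true_and] at hi hi'
      by_contra hne
      exact disjoint_left.1 (h2 i i.2 i' i'.2 (fun hh => hne (Fin.ext hh))).1 hi hi'
    have hp1 : (univ.filter fun j : Fin m => e ∈ P j).card ≤ 1 := by
      rw [card_le_one]
      intro i hi i' hi'
      simp only [mem_filter, mem_univ, true_and] at hi hi'
      by_contra hne
      exact disjoint_left.1 (h2 i i.2 i' i'.2 (fun hh => hne (Fin.ext hh))).2 hi hi'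
    have h3 := (card_le_card hsub).trans (card_union_le _ _)
    show (univ.filter fun j : Fin m => e ∈ symmDiff (σ j) (P j)).card ≤ 2
    omega

end Pool.Agent.H3.Ex
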