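import Mathlib
import Pool.Agent.H3.Ex.Defs
import Pool.Agent.H3.Ex.CoreDefs
import Pool.Agent.H3.Ex.Base
import Pool.Agent.H3.Ex.Tree
import Pool.Agent.H3.Ex.Clos
import Pool.Agent.H3.Ex.Link
import Pool.Agent.H3.Ex.Trail
import Pool.Agent.H3.Ex.Mark
import Pool.Agent.H3.Ex.Ext

set_option autoImplicit false
set_option linter.unusedSectionVars false

/-!
# Module CR3: minimal quadruples are short

* `quad_long`: `exists_shrink` (for `W' ⊆ W3`, `Q = T.qs (fp B3 y3)`, `F = ∅`) gives `W3'`,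
  `W' ⊆ W3' ⊆ W3`, `Lam W3' ≤ Lam W' + a d0`. `exists_shortcuts` for `B3`, `U'`, `m = kB t D`
  gives `C j`, `j < kB t D`. `exists_extension` for the state `(W3', y3)`, the sets `B3 ∆ C j`,
  `F = ∅`, `s = univ`, gives `W4, v4, y4` with `y4 = y3` on `inc W3'` and
  `T.qs (fp (B3 ∆ C j) y4) ⊆ inc W4`. By minimality (`hmin`) the tuple
  `(v4, y4, B3 ∆ C j, W4)` is not a quadruple (`|B3 ∆ C j| < |B3|`), so
  `T.eval (fp (B3 ∆ C j) y4) ≠ !b`; but `T.eval (fp B3 y4) = !b` (`DT.congr`). So all `C j` are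
  sensitive blocks at `fp B3 y4` (`fp_fp`), which is in the world `v4` (`fp_mem_Sol`): `lw_sensitivity`
  with `κ = 2`, `k = kB t D ≥ 1` gives `kB t D < 4 (2 (t + D))^2 = kB t D`.
-/

namespace Pool.Agent.H3.Ex

open Finset Pool.Agent.H3.Frg Pool.Agent.H3.Frg2 Pool.Agent.H3.Frg3

variable {E Wv : Type} [Fintype E] [DecidableEq E] [Fintype Wv] [DecidableEq Wv]
  {src tgt : E → Wv} {D c0 : ℕ} {ε : Wv → ℝ} {T : DT E} {b : Bool}

theorem quad_long (h : GX src tgt D c0) (hε : ∀ w, ε w * ε w = 1) {d0 t L1 : ℕ}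
    (hT : T.depth ≤ d0) (hLW : ∀ v, LW src tgt ε v (rl T.eval) t)
    (hL1 : Fintype.card Wv * (4 * c0 * D) ^ L1 < (4 * c0 * D + 1) ^ L1)
    {U' W' : Finset Wv} {y : E → Bool} (hU : Cls src tgt (3 * c0) U') (hUW : U' ⊆ W')
    {v3 : Wv} {y3 : E → Bool} {B3 : Finset E} {W3 : Finset Wv}
    (hq : IsQ src tgt ε c0 T b U' W' y v3 y3 B3 W3)
    (hmin : ∀ v4 y4 B4 W4, IsQ src tgt ε c0 T b U' W' y v4 y4 B4 W4 → B3.card ≤ B4.card)
    (hbud : Lam src tgt (4 * c0) W' + (1 + 4 * c0 * D) * (d0 + kB t D * d0) <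
      Fintype.card Wv) : B3.card < lB t D c0 L1 := by
  by_contra hlt
  push Not at hlt
  -- shrink
  obtain ⟨W3', h1, h2, h3, h4, h5⟩ := exists_shrink h hq.hW hq.hcls (T.qs (fp B3 y3)) hq.hqs ∅
    (empty_subset _)
  rw [union_empty] at h1
  have hQc : (T.qs (fp B3 y3)).card ≤ d0 := (DT.card_qs T _).trans hT
  have h5' : Lam src tgt (4 * c0) W3' ≤ Lam src tgt (4 * c0) W' + (1 + 4 * c0 * D) * d0 := by
    refine h5.trans ?_
    rw [card_empty, Nat.zero_add]
    exact Nat.add_le_add_left (Nat.mul_le_mul_left _ hQc) _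
  have hv3 : v3 ∉ W3' := fun hx => hq.hv (h2 hx)
  have hsat : Sat src tgt ε W3' y3 := sat_of_mem_Sol hq.hy hv3
  -- short cuts
  obtain ⟨C, hC, hκ⟩ := exists_shortcuts (m := kB t D) (ρ := rh t D c0 L1) h hL1 rfl hU hq.hodv
    hq.hdis hlt
  -- extension
  have hb4 : Lam src tgt (4 * c0) W3' + (1 + 4 * c0 * D) *
      ((∅ : Finset Wv).card + (univ : Finset (Fin (kB t D))).card * T.depth) <
      Fintype.card Wv := by
    refine lt_of_le_of_lt ?_ hbud
    rw [card_empty, Nat.zero_add, card_univ, Fintype.card_fin]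
    have hm : (1 + 4 * c0 * D) * (kB t D * T.depth) ≤ (1 + 4 * c0 * D) * (kB t D * d0) :=
      Nat.mul_le_mul_left _ (Nat.mul_le_mul_left _ hT)
    rw [Nat.mul_add]
    omega
  obtain ⟨W4, v4, y4, g1, g2, g3, g4, g5, -, g7⟩ := exists_extension h hε T
    (fun j : Fin (kB t D) => symmDiff B3 (C j)) ∅ univ h3 hsat hb4
  rw [union_empty] at g1
  have hne : ∀ j, T.eval (fp (symmDiff B3 (C j)) y4) ≠ !b := by
    intro j hj
    have hQ4 : IsQ src tgt ε c0 T b U' W' y v4 y4 (symmDiff B3 (C j)) W4 :=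
      { hW := h1.trans g1
        hcls := g2
        hv := g3
        hy := g4
        hz := fun e he => (g5 e (inc_mono h1 he)).trans (hq.hz e he)
        hodv := by
          rw [odv_symmDiff, hq.hodv, (hC j).1, symmDiff_self, bot_eq_empty]
        hdis := by
          rw [disjoint_left]
          intro e he hU'
          rw [mem_symmDiff] at he
          rcases he with he | he
          · exact (disjoint_left.1 hq.hdis) he.1 hU'
          · exact (disjoint_left.1 (hC j).2.1) he.1 hU'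
        hqs := g7 j (mem_univ j)
        hval := hj }
    exact absurd (hmin _ _ _ _ hQ4) (not_le.2 (hC j).2.2)
  have hev : T.eval (fp B3 y4) = !b := by
    rw [← hq.hval]
    refine (DT.congr T ?_).1
    intro e he
    have := g5 e (h4 he)
    simp only [fp, this]
  have hkB : 1 ≤ kB t D := by
    have hD := h.hD
    unfold kB
    have : 1 ≤ (t + D) ^ 2 := Nat.one_le_pow _ _ (by omega)
    omega
  have hfin := lw_sensitivity h (g := T.eval) (κ := 2) (hLW v4) ((fp_mem_Sol hq.hodv).2 g4) hkB C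
    (fun i => (hC i).1) hκ (by
      intro i
      rw [fp_fp, hev, symmDiff_comm]
      exact hne i)
  unfold kB at hfin
  have : 4 * (2 * (t + D)) ^ 2 = 16 * (t + D) ^ 2 := by ring
  omega

end Pool.Agent.H3.Ex
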