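import Mathlib
import Pool.Agent.H3.Ex.Defs
import Pool.Agent.H3.Ex.Core1
import Pool.Agent.H3.Ex.Core2
import Pool.Agent.H3.Ex.Core2b

set_option autoImplicit false
set_option linter.unusedSectionVars false

/-!
# Module CR4: the core lemma

`exists_core`: let `l = lB t D c0 L1`, `a = 1 + 4 c0 D`. `exists_max_cfg` gives a configuration
`(v, y, W', B)` with `k` blocks and no configuration with `k + 1` blocks; `k < kA t D` (`cfg_lt`); by
`cfg_shrink` we may assume `Lam W' ≤ Lam U + a (2 l kA + (kA + 1) d0)`. Let `F = ⋃ i, ends (B i)`,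
`|F| ≤ 2 l kA`, `F ⊆ W'`. `robust` with `c = 3 c0` (`Cls (4 c0) U`, `4 c0 = 3 c0 + c0`; `W'` is closed
for `3 c0` by `cls_mono`) gives `U'` closed for `3 c0`, `U ∪ F ⊆ U' ⊆ W'`,
`|U' \ U| ≤ 4 (1 + 3 c0 D) |F| ≤ q1`. `U' ≠ univ` because `v ∉ W'`. Take `z' = y`. `Sat U' y` because
`v ∉ U'`. It remains to see `Con T b U' y`. Otherwise `exists_quad`
(`Lam U' ≤ Lam U + a |U' \ U| ≤ Lam U + a q1` by `Lam_le_of_subset`) gives a quadruple; take one with
the smallest `|B3|`. By `quad_long` `|B3| < l`, and `cfg_step` gives a configuration with `k + 1`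
blocks, a contradiction. The budgets follow from `hUl : Lam U ≤ lmx` and `hbud : bud < n`.
-/

namespace Pool.Agent.H3.Ex

open Finset Pool.Agent.H3.Frg Pool.Agent.H3.Frg2 Pool.Agent.H3.Frg3

variable {E Wv : Type} [Fintype E] [DecidableEq E] [Fintype Wv] [DecidableEq Wv]
  {src tgt : E → Wv} {D c0 : ℕ} {ε : Wv → ℝ} {T : DT E} {b : Bool}

theorem exists_core (h : GX src tgt D c0) (hε : ∀ w, ε w * ε w = 1) {d0 t L1 : ℕ}
    (hT : T.depth ≤ d0) (hLW : ∀ v, LW src tgt ε v (rl T.eval) t)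
    (hL1 : Fintype.card Wv * (4 * c0 * D) ^ L1 < (4 * c0 * D + 1) ^ L1)
    (hbud : bud t D c0 L1 d0 < Fintype.card Wv)
    {U : Finset Wv} {z : E → Bool} (hU : Cls src tgt (4 * c0) U)
    (hUl : Lam src tgt (4 * c0) U ≤ lmx t D c0 L1)
    (hb : ¬ Con src tgt ε c0 T (!b) U z) :
    ∃ U' z', U ⊆ U' ∧ Cls src tgt (3 * c0) U' ∧ U' ≠ univ ∧ Sat src tgt ε U' z' ∧
      (∀ e ∈ inc src tgt U, z' e = z e) ∧ (U' \ U).card ≤ q1 t D c0 L1 ∧
      Con src tgt ε c0 T b U' z' := by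
  classical
  obtain ⟨k, ⟨v, y, W0, B, hc0⟩, hmax⟩ :=
    exists_max_cfg (l := lB t D c0 L1) h hLW hb
  have hk := cfg_lt h hLW hc0
  obtain ⟨W', _, hc, hLam⟩ := cfg_shrink h hT hc0
  -- the set of the ends
  obtain ⟨F, hF⟩ : ∃ F : Finset Wv, F = univ.biUnion fun i => ends src tgt (B i) := ⟨_, rfl⟩
  have hFcard : F.card ≤ 2 * lB t D c0 L1 * kA t D := by
    rw [hF]
    refine card_biUnion_le.trans ?_
    have h1 : ∀ i ∈ (univ : Finset (Fin k)), (ends src tgt (B i)).card ≤ 2 * lB t D c0 L1 := by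
      intro i _
      exact (card_ends_le _).trans (Nat.mul_le_mul_left 2 (hc.hcard i))
    refine (sum_le_card_nsmul _ _ _ h1).trans ?_
    rw [card_univ, Fintype.card_fin, smul_eq_mul, mul_comm]
    exact Nat.mul_le_mul_left _ hk.le
  have hFW : F ⊆ W' := by
    rw [hF, biUnion_subset]
    exact fun i _ => hc.hends i
  obtain ⟨U', hUF, hU'W, hU'c, hU'card⟩ := robust h (le_refl (3 * c0)) (U := U) (F := F)
    (W' := W') (by
      have h1 : 3 * c0 + c0 = 4 * c0 := by ring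
      rw [h1]
      exact hU) (cls_mono (by omega) hc.hcls) (union_subset hc.hUW hFW)
  have hUU' : U ⊆ U' := subset_union_left.trans hUF
  have hq1 : (U' \ U).card ≤ q1 t D c0 L1 := by
    refine hU'card.trans ?_
    unfold q1
    exact Nat.mul_le_mul_left _ hFcard
  have hvU' : v ∉ U' := fun hv => hc.hv (hU'W hv)
  -- budgets
  obtain ⟨a, ha⟩ : ∃ a, a = 1 + 4 * c0 * D := ⟨_, rfl⟩
  have hLU' := Lam_le_of_subset h (4 * c0) hUU'
  have hLU'2 := Nat.mul_le_mul_left (1 + 4 * c0 * D) hq1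
  unfold bud at hbud
  rw [← ha] at hbud hLam hLU' hLU'2
  have e1 : 2 * lB t D c0 L1 * k + (k + 1) * d0 ≤
      2 * lB t D c0 L1 * kA t D + (kA t D + 1) * d0 :=
    Nat.add_le_add (Nat.mul_le_mul_left _ hk.le) (Nat.mul_le_mul_right _ (by omega))
  have e2 := Nat.mul_le_mul_left a e1
  have e3 : a * (q1 t D c0 L1 + d0) = a * q1 t D c0 L1 + a * d0 := Nat.mul_add _ _ _
  have e4 : d0 + kB t D * d0 ≤ 2 * lB t D c0 L1 + (kB t D + 1) * d0 := by
    have : (kB t D + 1) * d0 = kB t D * d0 + d0 := by ring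
    omega
  have e5 : d0 + 2 * lB t D c0 L1 ≤ 2 * lB t D c0 L1 + (kB t D + 1) * d0 := by
    have h2 : (kB t D + 1) * d0 = kB t D * d0 + d0 := by ring
    omega
  have e6 := Nat.mul_le_mul_left a e4
  have e7 := Nat.mul_le_mul_left a e5
  refine ⟨U', y, hUU', hU'c, ?_, sat_of_mem_Sol hc.hy hvU', hc.hz, hq1, ?_⟩
  · intro h1
    apply hvU'
    rw [h1]
    exact mem_univ v
  · by_contra hcon
    obtain ⟨v0, y0, B0, W1, hq0⟩ := exists_quad h hε hT hU'W hc.hcls hc.hv hc.hy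
      (by rw [← ha]; omega) hcon
    have hex : ∃ n : ℕ, ∃ v3 y3 B3 W3, IsQ src tgt ε c0 T b U' W' y v3 y3 B3 W3 ∧
        B3.card = n := ⟨_, v0, y0, B0, W1, hq0, rfl⟩
    obtain ⟨v3, y3, B3, W3, hq, hn⟩ := Nat.find_spec hex
    have hmin : ∀ v4 y4 B4 W4, IsQ src tgt ε c0 T b U' W' y v4 y4 B4 W4 →
        B3.card ≤ B4.card := by
      intro v4 y4 B4 W4 hq4
      rw [hn]
      exact Nat.find_min' hex ⟨v4, y4, B4, W4, hq4, rfl⟩
    have hlt := quad_long h hε hT hLW hL1 hU'c hU'W hq hmin (by rw [← ha]; omega)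
    refine hmax (cfg_step h hε hT hc hUU' (fun i => ?_) hq hlt.le (by rw [← ha]; omega))
    refine Subset.trans ?_ (subset_union_right.trans hUF)
    rw [hF]
    exact subset_biUnion_of_mem (fun i => ends src tgt (B i)) (mem_univ i)

end Pool.Agent.H3.Ex
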