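import Mathlib
import Pool.Agent.H3.Ex.Defs
import Pool.Agent.H3.Ex.Base
import Pool.Agent.H3.Ex.Tree
import Pool.Agent.H3.Ex.Clos
import Pool.Agent.H3.Ex.Link
import Pool.Agent.H3.Ex.Mark
import Pool.Agent.H3.Ex.Ext

set_option autoImplicit false
set_option linter.unusedSectionVars false

/-!
# Module DT1: many blocks force the value

* `con_of_blocks`: suppose that `(v, y, W')` is as in `Con` and `T.eval y = false`. By
  `exists_shrink` (`U ⊆ W'`, `Q = T.qs y`, `F = ∅`) we get `W''`, `U ⊆ W'' ⊆ W'`,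
  `Lam W'' ≤ Lam U + a d0`, `T.qs y ⊆ inc W''` (`a = 1 + 4 c0 D`). `exists_extension` for the state
  `(W'', y)` and the sets `B i`, `s = univ`, `F = ∅`: `(U1, v1, y1)` with `y1 = y` on `inc W''`, so
  `T.eval y1 = false` (`DT.congr`), and `T.qs (fp (B i) y1) ⊆ inc U1`. `Sens` gives
  `T.eval (fp (B i) y1) = true` for all `i` (`y1 = y = z` on `inc U`). The `B i` are disjoint, so
  `lw_sensitivity` with `κ = 1`, `k = kA t D ≥ 1` gives `kA t D < 4 (t + D)^2 = kA t D`.
-/

namespace Pool.Agent.H3.Ex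

open Finset Pool.Agent.H3.Frg Pool.Agent.H3.Frg2 Pool.Agent.H3.Frg3

variable {E Wv : Type} [Fintype E] [DecidableEq E] [Fintype Wv] [DecidableEq Wv]
  {src tgt : E → Wv} {D c0 : ℕ} {ε : Wv → ℝ} {T : DT E}

theorem con_of_blocks (h : GX src tgt D c0) (hε : ∀ w, ε w * ε w = 1) {d0 t : ℕ}
    (hT : T.depth ≤ d0) (hLW : ∀ v, LW src tgt ε v (rl T.eval) t)
    {U : Finset Wv} {z : E → Bool}
    (hbud : Lam src tgt (4 * c0) U + (1 + 4 * c0 * D) * ((kA t D + 1) * d0) < Fintype.card Wv)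
    (B : Fin (kA t D) → Finset E) (hB : ∀ i, odv src tgt (B i) = ∅)
    (hdis : ∀ i j, i ≠ j → Disjoint (B i) (B j)) (hS : ∀ i, Sens src tgt ε c0 T U z (B i)) :
    Con src tgt ε c0 T true U z := by
  intro v y W' hy hyz hUW hW hv hqs
  by_contra hne
  have hval : T.eval y = false := by
    cases hTy : T.eval y
    · rfl
    · exact absurd hTy hne
  obtain ⟨W'', hUW'', hWW', hcls, hqs'', hLam⟩ := exists_shrink h hUW hW (T.qs y) hqs ∅
    (Finset.empty_subset _)
  rw [Finset.union_empty] at hUW''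
  rw [Finset.card_empty, zero_add] at hLam
  have hcard : (T.qs y).card ≤ d0 := (DT.card_qs T y).trans hT
  have h1 : (1 + 4 * c0 * D) * (T.qs y).card ≤ (1 + 4 * c0 * D) * d0 :=
    Nat.mul_le_mul_left _ hcard
  have h2 : (1 + 4 * c0 * D) * (kA t D * T.depth) ≤ (1 + 4 * c0 * D) * (kA t D * d0) :=
    Nat.mul_le_mul_left _ (Nat.mul_le_mul_left _ hT)
  have hb : Lam src tgt (4 * c0) W'' + (1 + 4 * c0 * D) *
      ((∅ : Finset Wv).card + (Finset.univ : Finset (Fin (kA t D))).card * T.depth) <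
      Fintype.card Wv := by
    rw [Finset.card_empty, zero_add, Finset.card_univ, Fintype.card_fin]
    have h3 : (1 + 4 * c0 * D) * ((kA t D + 1) * d0) =
        (1 + 4 * c0 * D) * d0 + (1 + 4 * c0 * D) * (kA t D * d0) := by ring
    omega
  obtain ⟨U1, v1, y1, hU1, hcls1, hv1, hy1, hyy, -, hqs1⟩ := exists_extension h hε T B ∅
    Finset.univ hcls (sat_of_mem_Sol hy (fun h' => hv (hWW' h'))) hb
  rw [Finset.union_empty] at hU1
  have hval1 : T.eval y1 = false := by
    rw [← hval]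
    exact (DT.congr T (fun e he => (hyy e (hqs'' he)).symm)).1
  have hinc : inc src tgt U ⊆ inc src tgt W'' := inc_mono hUW''
  have hSi : ∀ i, T.eval (fp (B i) y1) = true := fun i =>
    hS i v1 y1 U1 hy1 (fun e he => by rw [hyy e (hinc he), hyz e he]) (hUW''.trans hU1) hcls1 hv1
      (hqs1 i (Finset.mem_univ i))
  have hk : 1 ≤ kA t D := by
    unfold kA
    have hD := h.hD
    have h3 : 1 ≤ (t + D) ^ 2 := Nat.one_le_pow _ _ (by omega)
    omega
  have h4 := lw_sensitivity (κ := 1) h (hLW v1) hy1 hk B hB (fun e => by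
    rw [Finset.card_le_one]
    intro i hi j hj
    rw [Finset.mem_filter] at hi hj
    by_contra hij
    exact Finset.disjoint_left.1 (hdis i j hij) hi.2 hj.2) (fun i => by
    rw [hSi i, hval1]
    decide)
  unfold kA at h4
  rw [one_mul] at h4
  exact lt_irrefl _ h4

end Pool.Agent.H3.Ex
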