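import Mathlib
import Pool.Agent.H3.Ex.Defs
import Pool.Agent.H3.Ex.Base
import Pool.Agent.H3.Ex.Tree
import Pool.Agent.H3.Ex.Clos
import Pool.Agent.H3.Ex.Link

set_option autoImplicit false
set_option linter.unusedSectionVars false

/-!
# Module DT2: a new block

* `new_block`: let `δ = {e ∈ inc U' : z1 e ≠ z' e}`. `odv δ` is disjoint from `U'` (`odv_diff`),
  `|δ| ≤ D |U' \ U|` (`δ` is disjoint from `inc U` because `z1 = z = z'` there, so
  `δ ⊆ inc (U' \ U)`), `|odv δ| ≤ 2 |δ|`. `exists_completion` for `Y = U'`, some `x0 ∉ U'`,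
  `A = odv δ` (even cardinality, `even_odv`) gives `O` disjoint from `inc U'` with `odv O = odv δ`,
  `|O| ≤ 2 L1 |odv δ|`. `B = δ ∆ O`. `exists_cls_between` with `S = U' ∪ ends O`, `univ`, `c = 4 c0`
  gives `U1`, `Lam U1 ≤ Lam U' + a |ends O| ≤ Lam U + a |U' \ U| + a * 2 * (2 L1) * 2 D |U' \ U|`,
  which is at most `Lam U + q2`. `B ⊆ inc U1` (`δ ⊆ inc U' ⊆ inc U1`, `sub_inc_of_ends`).
  `B` is disjoint from `inc U`. Let `z2 = z1` on `inc U'` and `(v, y, W')` as in `Sens T U1 z2 B`: on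
  `inc U'` we have `y = z2 = z1`, and `e ∈ B ↔ e ∈ δ`, so `fp B y = z'` on `inc U'`; `fp B y` is in the
  world `v` (`fp_mem_Sol`), and `U' ⊆ U1 ⊆ W'`; so `Con T true U' z'` gives
  `T.eval (fp B y) = true`.
-/

namespace Pool.Agent.H3.Ex

open Finset Pool.Agent.H3.Frg Pool.Agent.H3.Frg2 Pool.Agent.H3.Frg3

variable {E Wv : Type} [Fintype E] [DecidableEq E] [Fintype Wv] [DecidableEq Wv]
  {src tgt : E → Wv} {D c0 : ℕ} {ε : Wv → ℝ} {T : DT E}

theorem new_block (h : GX src tgt D c0) {t L1 : ℕ}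
    (hL1 : Fintype.card Wv * (4 * c0 * D) ^ L1 < (4 * c0 * D + 1) ^ L1)
    {U U' : Finset Wv} {z z' z1 : E → Bool} (hU : U ⊆ U') (hcls : Cls src tgt (3 * c0) U')
    (hne : U' ≠ univ) (hz' : Sat src tgt ε U' z') (hz1 : Sat src tgt ε U' z1)
    (hzz' : ∀ e ∈ inc src tgt U, z' e = z e) (hzz1 : ∀ e ∈ inc src tgt U, z1 e = z e)
    (hcard : (U' \ U).card ≤ q1 t D c0 L1) (hcon : Con src tgt ε c0 T true U' z') :
    ∃ U1 B, U' ⊆ U1 ∧ Cls src tgt (4 * c0) U1 ∧
      Lam src tgt (4 * c0) U1 ≤ Lam src tgt (4 * c0) U + q2 t D c0 L1 ∧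
      odv src tgt B = ∅ ∧ B ⊆ inc src tgt U1 ∧ Disjoint B (inc src tgt U) ∧
      ∀ z2 : E → Bool, (∀ e ∈ inc src tgt U', z2 e = z1 e) → Sens src tgt ε c0 T U1 z2 B := by
  have hcl3 : 2 * c0 ≤ 3 * c0 := by omega
  obtain ⟨x0, hx0⟩ : ∃ x0, x0 ∉ U' := by
    by_contra hcon2
    push Not at hcon2
    exact hne (eq_univ_of_forall hcon2)
  obtain ⟨δ, hδ⟩ : ∃ δ : Finset E, δ = (inc src tgt U').filter fun e => z1 e ≠ z' e := ⟨_, rfl⟩
  have hodvδ : Disjoint (odv src tgt δ) U' := by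
    rw [hδ]
    exact odv_diff hz1 hz'
  have hδinc : δ ⊆ inc src tgt U' := by
    rw [hδ]
    exact filter_subset _ _
  have hδU : Disjoint δ (inc src tgt U) := by
    rw [disjoint_left]
    intro e he heU
    rw [hδ, mem_filter] at he
    exact he.2 ((hzz1 e heU).trans (hzz' e heU).symm)
  have hδF : δ ⊆ inc src tgt (U' \ U) := by
    intro e he
    have h1 := mem_inc.1 (hδinc he)
    have h2 : ¬ (src e ∈ U ∨ tgt e ∈ U) := fun h3 => (disjoint_left.1 hδU he) (mem_inc.2 h3)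
    rw [mem_inc, mem_sdiff, mem_sdiff]
    tauto
  have hδcard : δ.card ≤ D * (U' \ U).card := (card_le_card hδF).trans (card_inc_le h _)
  obtain ⟨O, hO1, hO2, hO3⟩ := exists_completion h hcl3 hL1 hcls hx0 (odv src tgt δ) hodvδ
  rw [if_pos (even_odv δ)] at hO2
  have hOcard : O.card ≤ 2 * L1 * (2 * (D * (U' \ U).card)) :=
    hO3.trans (Nat.mul_le_mul_left _ ((card_odv_le h δ).trans (Nat.mul_le_mul_left _ hδcard)))
  obtain ⟨U1, hSU, -, hU1cls, hU1lam⟩ := exists_cls_between (src := src) (tgt := tgt)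
    (cls_univ (src := src) (tgt := tgt) (4 * c0)) (subset_univ (U' ∪ ends src tgt O))
  have hU'1 : U' ⊆ U1 := subset_union_left.trans hSU
  have hO1' : O ⊆ inc src tgt U1 := sub_inc_of_ends (subset_union_right.trans hSU)
  refine ⟨U1, symmDiff δ O, hU'1, hU1cls, ?_, ?_, ?_, ?_, ?_⟩
  · have e1 := Lam_union_le h (4 * c0) U' (ends src tgt O)
    have e2 := Lam_le_of_subset h (4 * c0) hU
    have e3 := card_ends_le (src := src) (tgt := tgt) O
    unfold q2
    have e4 : (ends src tgt O).card ≤ 2 * (2 * L1 * (2 * (D * (U' \ U).card))) :=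
      e3.trans (Nat.mul_le_mul_left _ hOcard)
    calc Lam src tgt (4 * c0) U1 ≤ Lam src tgt (4 * c0) (U' ∪ ends src tgt O) := hU1lam
      _ ≤ Lam src tgt (4 * c0) U' + (1 + 4 * c0 * D) * (ends src tgt O).card := e1
      _ ≤ Lam src tgt (4 * c0) U + (1 + 4 * c0 * D) * (U' \ U).card +
          (1 + 4 * c0 * D) * (2 * (2 * L1 * (2 * (D * (U' \ U).card)))) :=
        add_le_add e2 (Nat.mul_le_mul_left _ e4)
      _ = Lam src tgt (4 * c0) U + (1 + 4 * c0 * D) * ((U' \ U).card * (1 + 8 * L1 * D)) := by ring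
      _ ≤ _ := by gcongr
  · rw [odv_symmDiff, hO2, symmDiff_self]
    rfl
  · intro e he
    rw [mem_symmDiff] at he
    rcases he with he | he
    · exact inc_mono hU'1 (hδinc he.1)
    · exact hO1' he.1
  · rw [disjoint_left]
    intro e he heU
    rw [mem_symmDiff] at he
    rcases he with he | he
    · exact disjoint_left.1 hδU he.1 heU
    · exact disjoint_left.1 hO1 he.1 (inc_mono hU heU)
  · intro z2 hz2 v y W' hy hyz hUW hcW hvW hqs
    have hBodv : odv src tgt (symmDiff δ O) = ∅ := by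
      rw [odv_symmDiff, hO2, symmDiff_self]
      rfl
    refine hcon v (fp (symmDiff δ O) y) W' ((fp_mem_Sol hBodv).2 hy) ?_ (hU'1.trans hUW) hcW hvW hqs
    intro e he
    have h1 : y e = z1 e := (hyz e (inc_mono hU'1 he)).trans (hz2 e he)
    have h2 : e ∉ O := fun heO => disjoint_left.1 hO1 heO he
    have h3 : e ∈ symmDiff δ O ↔ z1 e ≠ z' e := by
      rw [mem_symmDiff, hδ, mem_filter]
      tauto
    unfold fp
    rw [h1]
    by_cases h4 : z1 e = z' e
    · have h5 : e ∉ symmDiff δ O := fun h6 => (h3.1 h6) h4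
      simp [h5, h4]
    · have h5 : e ∈ symmDiff δ O := h3.2 h4
      simp only [h5, decide_true, Bool.xor_true]
      revert h4
      cases z1 e <;> cases z' e <;> simp

end Pool.Agent.H3.Ex
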