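import Mathlib
import Pool.Agent.H3.Ex.Defs
import Pool.Agent.H3.Ex.Core3
import Pool.Agent.H3.Ex.Det1
import Pool.Agent.H3.Ex.Det1b

set_option autoImplicit false
set_option linter.unusedSectionVars false

/-!
# Module DT3: the determined tree

`det_aux`: induction on `j` (for all `i, U, z, B`). `J = kA t D`, `n = |Wv|`.

* `j = 0`: `i = J` (`subst`), `T' = leaf true`: `con_of_blocks` (`Lam U ≤ J q2 = lmx`; budget).
* `j + 1`: if `Con T false U z`: `T' = leaf false`. Otherwise `exists_core` with `b = true` gives
  `U', z'`. For `z1 : E → Bool` define a tree `t1 z1`: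
  - if `z1 = z'` on `inc U'`: `leaf true`;
  - otherwise, if `Sat U' z1` and `z1 = z` on `inc U`: take `U1, B'` from `new_block`. For
    `z2 : E → Bool` let `t2 z2` be: if `Sat U1 z2` and `z2 = z1` on `inc U'`: the tree from the
    induction hypothesis for `i + 1`, `(U1, z2)` and the blocks `Fin.snoc B B'` (or `Fin.cons`); else
    `leaf false`. `t1 z1` is the tree from `exists_query (inc U1) t2`.
    (The old blocks: `B a ⊆ inc U ⊆ inc U1`; `Sens T U z (B a)` implies `Sens T U1 z2 (B a)` because
    `z2 = z1 = z` on `inc U`; `B'` is disjoint from `inc U`, hence from the `B a`.)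
  - otherwise `leaf false`.
  `T'` is the tree from `exists_query (inc U') t1`. Depth: `|inc U'| ≤ D |U'| ≤ D lmx`
  (`|U'| ≤ |U| + q1 ≤ i q2 + q2 ≤ lmx`) and `|inc U1| ≤ D |U1| ≤ D lmx`
  (`Lam U1 ≤ (i + 1) q2 ≤ J q2`).
  Correctness for `(v, y, W')`: `inc U' ⊆ T'.qs y ⊆ inc W'`, so `U' ⊆ W'` (`sub_of_inc_sub`), so
  `v ∉ U'`, `Sat U' y`. Let `z1 = rst (inc U') y` (`z1 = y` on `inc U'`). If `z1 = z'` on `inc U'`:
  `Con T true U' z'` gives `T.eval y = true`. Otherwise `Sat U' z1` (`sat_congr`) and `z1 = y = z` on
  `inc U`, so the second case applies, `inc U1 ⊆ T'.qs y`, `U1 ⊆ W'`; `z2 = rst (inc U1) y` equals `y`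
  on `inc U1`, so `Sat U1 z2`, `z2 = z1` on `inc U'`, and the tree from the induction hypothesis is
  correct on `y`.
* `exists_det`: `i = 0`, `U = ∅`, `z` arbitrary (`cls_empty`, `Lam_empty`).
-/

namespace Pool.Agent.H3.Ex

open Finset Pool.Agent.H3.Frg Pool.Agent.H3.Frg2 Pool.Agent.H3.Frg3

variable {E Wv : Type} [Fintype E] [DecidableEq E] [Fintype Wv] [DecidableEq Wv]
  {src tgt : E → Wv} {D c0 : ℕ} {ε : Wv → ℝ} {T : DT E}

theorem q1_le_q2 {t L1 : ℕ} : q1 t D c0 L1 ≤ q2 t D c0 L1 := by
  unfold q2
  calc q1 t D c0 L1 = 1 * (q1 t D c0 L1 * 1) := by ring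
    _ ≤ (1 + 4 * c0 * D) * (q1 t D c0 L1 * (1 + 8 * L1 * D)) := by gcongr <;> omega

theorem rst_eq (S : Finset E) (y : E → Bool) {e : E} (he : e ∈ S) : rst S y e = y e := by
  simp [rst, he]

theorem det_aux (h : GX src tgt D c0) (hε : ∀ w, ε w * ε w = 1) {d0 t L1 : ℕ}
    (hT : T.depth ≤ d0) (hLW : ∀ v, LW src tgt ε v (rl T.eval) t)
    (hL1 : Fintype.card Wv * (4 * c0 * D) ^ L1 < (4 * c0 * D + 1) ^ L1)
    (hn : 2 ≤ Fintype.card Wv) (hbud : bud t D c0 L1 d0 < Fintype.card Wv) (j : ℕ) :
    ∀ (i : ℕ) (U : Finset Wv) (z : E → Bool) (B : Fin i → Finset E), i + j = kA t D →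
      Cls src tgt (4 * c0) U → Sat src tgt ε U z →
      Lam src tgt (4 * c0) U ≤ i * q2 t D c0 L1 →
      (∀ a, odv src tgt (B a) = ∅) → (∀ a, B a ⊆ inc src tgt U) →
      (∀ a, Sens src tgt ε c0 T U z (B a)) → (∀ a a', a ≠ a' → Disjoint (B a) (B a')) →
      ∃ T' : DT E, T'.depth ≤ j * (2 * D * lmx t D c0 L1) ∧
        ∀ v y W', y ∈ Sol src tgt ε v → (∀ e ∈ inc src tgt U, y e = z e) → U ⊆ W' →
          Cls src tgt (4 * c0) W' → v ∉ W' → T.qs y ⊆ inc src tgt W' →
          T'.qs y ⊆ inc src tgt W' → T'.eval y = T.eval y := by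
  induction j with
  | zero =>
    intro i U z B hij hcls hsat hLam hodv hsub hsens hdisj
    obtain rfl : i = kA t D := by omega
    have hb : Lam src tgt (4 * c0) U + (1 + 4 * c0 * D) * ((kA t D + 1) * d0)
        < Fintype.card Wv := by
      refine lt_of_le_of_lt ?_ hbud
      unfold bud
      have h1 : Lam src tgt (4 * c0) U ≤ lmx t D c0 L1 := hLam
      have h2 : (1 + 4 * c0 * D) * ((kA t D + 1) * d0) ≤
          (1 + 4 * c0 * D) * (2 * lB t D c0 L1 * kA t D + (kA t D + 1) * d0) :=
        Nat.mul_le_mul_left _ (Nat.le_add_left _ _)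
      omega
    have hcon : Con src tgt ε c0 T true U z :=
      con_of_blocks h hε hT hLW hb B hodv (fun a a' => hdisj a a') hsens
    refine ⟨DT.leaf true, by simp [DT.depth], ?_⟩
    intro v y W' hy hz hUW hW hv hqs _
    exact (hcon v y W' hy hz hUW hW hv hqs).symm
  | succ j ih =>
    intro i U z B hij hcls hsat hLam hodv hsub hsens hdisj
    by_cases hf : Con src tgt ε c0 T false U z
    · refine ⟨DT.leaf false, by simp [DT.depth], ?_⟩
      intro v y W' hy hz hUW hW hv hqs _
      exact (hf v y W' hy hz hUW hW hv hqs).symm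
    · have hlmx : Lam src tgt (4 * c0) U ≤ lmx t D c0 L1 :=
        le_trans hLam (Nat.mul_le_mul_right _ (by omega))
      obtain ⟨U', z', hUU', hcls', hne', hsat', hzz', hcard', hcon'⟩ :=
        exists_core h hε hT hLW hL1 hbud hcls hlmx (b := true) hf
      have hi1 : (i + 1) * q2 t D c0 L1 ≤ lmx t D c0 L1 := Nat.mul_le_mul_right _ (by omega)
      -- the second family of trees
      have key : ∀ z1 : E → Bool, ∃ t1 : DT E,
          t1.depth ≤ D * lmx t D c0 L1 + j * (2 * D * lmx t D c0 L1) ∧
          ∀ v y W', y ∈ Sol src tgt ε v → (∀ e ∈ inc src tgt U, y e = z e) →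
            (∀ e ∈ inc src tgt U', y e = z1 e) → U' ⊆ W' → Cls src tgt (4 * c0) W' → v ∉ W' →
            T.qs y ⊆ inc src tgt W' → t1.qs y ⊆ inc src tgt W' → t1.eval y = T.eval y := by
        intro z1
        by_cases hA : ∀ e ∈ inc src tgt U', z1 e = z' e
        · refine ⟨DT.leaf true, by simp [DT.depth], ?_⟩
          intro v y W' hy _ hy1 hUW hW hv hqs _
          exact (hcon' v y W' hy (fun e he => (hy1 e he).trans (hA e he)) hUW hW hv hqs).symm
        · by_cases hB : Sat src tgt ε U' z1 ∧ ∀ e ∈ inc src tgt U, z1 e = z e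
          · obtain ⟨hz1, hzz1⟩ := hB
            obtain ⟨U1, B', hU'U1, hcls1, hLam1, hodvB, hsubB, hdisB, hsensB⟩ :=
              new_block (T := T) h hL1 hUU' hcls' hne' hsat' hz1 hzz' hzz1 hcard' hcon'
            have hLam1' : Lam src tgt (4 * c0) U1 ≤ (i + 1) * q2 t D c0 L1 := by
              rw [add_mul, one_mul]; omega
            have key2 : ∀ z2 : E → Bool, ∃ t2 : DT E,
                t2.depth ≤ j * (2 * D * lmx t D c0 L1) ∧
                ∀ v y W', y ∈ Sol src tgt ε v → (∀ e ∈ inc src tgt U', y e = z1 e) →
                  (∀ e ∈ inc src tgt U1, y e = z2 e) → U1 ⊆ W' → Cls src tgt (4 * c0) W' →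
                  v ∉ W' → T.qs y ⊆ inc src tgt W' → t2.qs y ⊆ inc src tgt W' →
                  t2.eval y = T.eval y := by
              intro z2
              by_cases hC : Sat src tgt ε U1 z2 ∧ ∀ e ∈ inc src tgt U', z2 e = z1 e
              · obtain ⟨hs2, h21⟩ := hC
                have hUU1 : U ⊆ U1 := hUU'.trans hU'U1
                obtain ⟨t2, ht2d, ht2⟩ := ih (i + 1) U1 z2
                  (Fin.cons (α := fun _ => Finset E) B' B) (by omega) hcls1 hs2 hLam1'
                  (by
                    intro a
                    refine Fin.cases ?_ (fun a => ?_) a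
                    · simpa using hodvB
                    · simpa using hodv a)
                  (by
                    intro a
                    refine Fin.cases ?_ (fun a => ?_) a
                    · simpa using hsubB
                    · simpa using (hsub a).trans (inc_mono hUU1))
                  (by
                    intro a
                    refine Fin.cases ?_ (fun a => ?_) a
                    · simpa using hsensB z2 h21
                    · simp only [Fin.cons_succ]
                      intro v y W' hy hyz hUW hW hv hqs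
                      refine hsens a v y W' hy ?_ (hUU1.trans hUW) hW hv hqs
                      intro e he
                      rw [hyz e (inc_mono hUU1 he), h21 e (inc_mono hUU' he), hzz1 e he])
                  (by
                    intro a a'
                    refine Fin.cases ?_ (fun a => ?_) a <;> refine Fin.cases ?_ (fun a' => ?_) a'
                    · intro hne
                      exact absurd rfl hne
                    · intro _
                      simp only [Fin.cons_zero, Fin.cons_succ]
                      exact Finset.disjoint_of_subset_right (hsub a') hdisB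
                    · intro _
                      simp only [Fin.cons_zero, Fin.cons_succ]
                      exact (Finset.disjoint_of_subset_right (hsub a) hdisB).symm
                    · intro hne
                      simp only [Fin.cons_succ]
                      exact hdisj a a' (fun h => hne (by rw [h])))
                refine ⟨t2, ht2d, ?_⟩
                intro v y W' hy _ hy2 hUW hW hv hqs hqs2
                exact ht2 v y W' hy hy2 hUW hW hv hqs hqs2
              · refine ⟨DT.leaf false, by simp [DT.depth], ?_⟩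
                intro v y W' hy hy1 hy2 hUW hW hv _ _
                exfalso
                apply hC
                refine ⟨?_, ?_⟩
                · exact sat_congr hy2 (sat_of_mem_Sol hy (fun hvU => hv (hUW hvU)))
                · intro e he
                  rw [← hy2 e (inc_mono hU'U1 he), hy1 e he]
            choose t2 ht2d ht2 using key2
            obtain ⟨t1, ht1d, ht1⟩ := exists_query (inc src tgt U1) t2 _ ht2d
            refine ⟨t1, ?_, ?_⟩
            · refine ht1d.trans (Nat.add_le_add_right ?_ _)
              refine (card_inc_le h U1).trans (Nat.mul_le_mul_left _ ?_)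
              exact (card_le_Lam (src := src) (tgt := tgt) (4 * c0) U1).trans (hLam1'.trans hi1)
            · intro v y W' hy hyz hy1 hUW hW hv hqs hqs1
              obtain ⟨he, hq⟩ := ht1 y
              rw [hq] at hqs1
              have hinc : inc src tgt U1 ⊆ inc src tgt W' :=
                Finset.Subset.trans Finset.subset_union_left hqs1
              have hU1W : U1 ⊆ W' := sub_of_inc_sub h (by omega) hn hW hinc
              rw [he]
              exact ht2 _ v y W' hy hy1 (fun e he => (rst_eq _ y he).symm) hU1W hW hv hqs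
                (Finset.Subset.trans Finset.subset_union_right hqs1)
          · refine ⟨DT.leaf false, by simp [DT.depth], ?_⟩
            intro v y W' hy hyz hy1 hUW hW hv _ _
            exfalso
            apply hB
            refine ⟨?_, ?_⟩
            · exact sat_congr hy1 (sat_of_mem_Sol hy (fun hvU => hv (hUW hvU)))
            · intro e he
              rw [← hy1 e (inc_mono hUU' he), hyz e he]
      choose t1 ht1d ht1 using key
      obtain ⟨T', hT'd, hT'⟩ := exists_query (inc src tgt U') t1 _ ht1d
      refine ⟨T', ?_, ?_⟩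
      · have h1 : (inc src tgt U').card ≤ D * lmx t D c0 L1 := by
          refine (card_inc_le h U').trans (Nat.mul_le_mul_left _ ?_)
          have h2 : U'.card ≤ U.card + (U' \ U).card := by
            rw [Finset.card_sdiff_of_subset hUU']; omega
          have h3 : U.card ≤ i * q2 t D c0 L1 :=
            (card_le_Lam (src := src) (tgt := tgt) (4 * c0) U).trans hLam
          have h4 : q1 t D c0 L1 ≤ q2 t D c0 L1 := q1_le_q2
          have h5 : (i + 1) * q2 t D c0 L1 = i * q2 t D c0 L1 + q2 t D c0 L1 := by ring
          omega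
        calc T'.depth ≤ (inc src tgt U').card +
              (D * lmx t D c0 L1 + j * (2 * D * lmx t D c0 L1)) := hT'd
          _ ≤ D * lmx t D c0 L1 + (D * lmx t D c0 L1 + j * (2 * D * lmx t D c0 L1)) :=
              Nat.add_le_add_right h1 _
          _ = (j + 1) * (2 * D * lmx t D c0 L1) := by ring
      · intro v y W' hy hyz hUW hW hv hqs hqs1
        obtain ⟨he, hq⟩ := hT' y
        rw [hq] at hqs1
        have hinc : inc src tgt U' ⊆ inc src tgt W' :=
          Finset.Subset.trans Finset.subset_union_left hqs1
        have hU'W : U' ⊆ W' := sub_of_inc_sub h (by omega) hn hW hinc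
        rw [he]
        exact ht1 _ v y W' hy hyz (fun e he => (rst_eq _ y he).symm) hU'W hW hv hqs
          (Finset.Subset.trans Finset.subset_union_right hqs1)

theorem exists_det (h : GX src tgt D c0) (hε : ∀ w, ε w * ε w = 1) {d0 t L1 : ℕ}
    (hT : T.depth ≤ d0) (hLW : ∀ v, LW src tgt ε v (rl T.eval) t)
    (hL1 : Fintype.card Wv * (4 * c0 * D) ^ L1 < (4 * c0 * D + 1) ^ L1)
    (hn : 2 ≤ Fintype.card Wv) (hbud : bud t D c0 L1 d0 < Fintype.card Wv) :
    ∃ T' : DT E, T'.depth ≤ dpt t D c0 L1 ∧
      ∀ v y W', y ∈ Sol src tgt ε v → Cls src tgt (4 * c0) W' → v ∉ W' →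
        T.qs y ⊆ inc src tgt W' → T'.qs y ⊆ inc src tgt W' → T'.eval y = T.eval y := by
  obtain ⟨T', hd, hT'⟩ := det_aux h hε hT hLW hL1 hn hbud (kA t D) 0 ∅ (fun _ => false)
    (fun a => a.elim0) (by omega) (cls_empty _) (by intro w hw; simp at hw)
    (by rw [Lam_empty]; exact Nat.zero_le _) (fun a => a.elim0) (fun a => a.elim0)
    (fun a => a.elim0) (fun a => a.elim0)
  refine ⟨T', hd, ?_⟩
  intro v y W' hy hW hv hqs hqs1
  exact hT' v y W' hy (by intro e he; simp [inc] at he) (Finset.empty_subset _) hW hv hqs hqs1

end Pool.Agent.H3.Ex
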