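import Mathlib
import Pool.Agent.H3.Ex.Defs

set_option autoImplicit false
set_option linter.unusedSectionVars false

/-!
# Definitions for the low level structure of a set of edges: weighted balls in the graph without
the edges at `v`; minimal representatives modulo cuts; signs of cuts
-/

namespace Pool.Agent.H3.Ex

open Finset Pool.Agent.H3.Frg Pool.Agent.H3.Frg2 Pool.Agent.H3.Frg3

variable {E Wv : Type} [Fintype E] [DecidableEq E] [Fintype Wv] [DecidableEq Wv]

/-- weight of a set of edges -/
def wtE (w : E → ℕ) (R : Finset E) : ℕ := ∑ e ∈ R, w e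

open scoped Classical in
/-- the vertices which are connected to `x0` by a set of edges of weight at most `r` which avoids
the edges at `v` -/
noncomputable def ball (src tgt : E → Wv) (v : Wv) (w : E → ℕ) (x0 : Wv) (r : ℕ) : Finset Wv :=
  univ.filter fun x => ∃ R : Finset E, Disjoint R (bd src tgt {v}) ∧
    odv src tgt R = symmDiff {x0} {x} ∧ wtE w R ≤ r

/-- the boundary of the ball, without the edges at `v` -/
noncomputable def dB (src tgt : E → Wv) (v : Wv) (w : E → ℕ) (x0 : Wv) (r : ℕ) : Finset E :=
  bd src tgt (ball src tgt v w x0 r) \ bd src tgt {v}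

/-- the value of the character of a cut on the world `v` -/
noncomputable def sX (ε : Wv → ℝ) (v : Wv) (X : Finset Wv) : ℝ :=
  if v ∈ X then epsX ε Xᶜ else epsX ε X

/-- an injective additive weight with priority for the cardinality -/
def InjW (m : E → ℕ) : Prop :=
  (∀ T T' : Finset E, wtE m T = wtE m T' → T = T') ∧
    ∀ T T' : Finset E, wtE m T ≤ wtE m T' → T.card ≤ T'.card

/-- `T` has the smallest weight in its class modulo cuts -/
def Minr (src tgt : E → Wv) (m : E → ℕ) (T : Finset E) : Prop :=
  ∀ X : Finset Wv, wtE m T ≤ wtE m (symmDiff T (bd src tgt X))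

open scoped Classical in
/-- coefficients of a function on the world `v` with respect to the minimal representatives -/
noncomputable def cf (src tgt : E → Wv) (ε : Wv → ℝ) (v : Wv) (m : E → ℕ)
    (g : (E → Bool) → ℝ) (T : Finset E) : ℝ :=
  if Minr src tgt m T then W g T / ((Sol src tgt ε v).card : ℝ) else 0

/-- the hypercontractive constant -/
def Kh (D c0 : ℕ) : ℕ := 9 * 2 ^ (4 + 4 * c0 * D)

end Pool.Agent.H3.Ex
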