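import Mathlib
import Pool.Agent.H3.Ex.Defs
import Pool.Agent.H3.Ex.BallDefs
import Pool.Agent.H3.Ex.Base
import Pool.Agent.H3.Frg3.Basic
import Pool.Agent.H3.Frg3.Clo3

set_option autoImplicit false
set_option linter.unusedSectionVars false

/-!
# Module SOL: Fourier analysis on the worlds, levels

`n = |Wv|`. `ε w * ε w = 1`.

* `sX_compl`, `sX_mul_self`: `epsX_mul_self` (`Frg/Tseitin.lean`). `sX_symmDiff`: `v` is in exactly one of
  `X, Y` iff it is in `X ∆ Y`; `(X ∆ Y)ᶜ = Xᶜ ∆ Y`, `Xᶜ ∆ Yᶜ = X ∆ Y`, `epsX_symmDiff`.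
* `chi_bd_Sol`: for `v ∉ X` use `chi_bd` (`chi (bd X) y = ∏_{w ∈ X} chi (bd {w}) y`); for `v ∈ X` use
  `bd X = bd Xᶜ` (`bd_compl`).
* `sI_expand`: `2^(n-1) sI y = ∏_{w ≠ v} (1 + ε w * chi (bd {w}) y)` (every factor is `2` or `0`);
  see the proof of `sum_Asn` in `Frg3/Basic.lean` (same computation).
* `W_sI`: `sI_expand` and `sum_x_chi_chi`.
* `card_Sol`: `W_sI` for `T = ∅`, `con_of_cheeger` (`Frg3/Clo3.lean`): `bd X = ∅`, `v ∉ X` implies
  `X = ∅`; `W (sI v) ∅ = |Sol v|`.
* `sum_Sol_cut`: `chi_bd_Sol`. `sum_Sol_ncut`: `W_sI`.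
* `W_shift`: `W g (T ∆ bd X) = Σ_y g y chi T y chi (bd X) y`, and `chi_bd_Sol` where `g y ≠ 0`.
* `W_mul_sI`: `W (f sI) T = Σ_y f y sI y chi T y`, `sI_expand`, `chi_mul`.
* `lw_of_dg`: by `W_mul_sI` some `W f (T ∆ bd X) ≠ 0`, so `|T ∆ bd X| ≤ d`.
* `exists_lvl`: `Finset.exists_mem_eq_inf'`. `lvl_le`: `Finset.inf'_le`. `lvl_shift`: reindex by
  `X ↦ X ∆ Y`, `bd_symmDiff`.
-/

namespace Pool.Agent.H3.Ex

open Finset Pool.Agent.H3.Frg Pool.Agent.H3.Frg2 Pool.Agent.H3.Frg3

variable {E Wv : Type} [Fintype E] [DecidableEq E] [Fintype Wv] [DecidableEq Wv]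
  {src tgt : E → Wv} {D c0 : ℕ} {ε : Wv → ℝ} {v : Wv}

theorem sX_compl (X : Finset Wv) : sX ε v Xᶜ = sX ε v X := by
  classical
  unfold sX
  by_cases hv : v ∈ X
  · have h1 : v ∉ Xᶜ := by simpa using hv
    rw [if_neg h1, if_pos hv]
  · have h1 : v ∈ Xᶜ := by simpa using hv
    rw [if_pos h1, if_neg hv, compl_compl]

theorem sX_mul_self (hε : ∀ w, ε w * ε w = 1) (X : Finset Wv) : sX ε v X * sX ε v X = 1 := by
  unfold sX
  split_ifs
  · exact epsX_mul_self hε _
  · exact epsX_mul_self hε _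

theorem sX_symmDiff (hε : ∀ w, ε w * ε w = 1) (X Y : Finset Wv) :
    sX ε v (symmDiff X Y) = sX ε v X * sX ε v Y := by
  have e1 : symmDiff Xᶜ Yᶜ = symmDiff X Y := by
    ext w
    simp only [Finset.mem_symmDiff, Finset.mem_compl]
    tauto
  have e2 : symmDiff Xᶜ Y = (symmDiff X Y)ᶜ := by
    ext w
    simp only [Finset.mem_symmDiff, Finset.mem_compl]
    tauto
  have e3 : symmDiff X Yᶜ = (symmDiff X Y)ᶜ := by
    ext w
    simp only [Finset.mem_symmDiff, Finset.mem_compl]
    tauto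
  unfold sX
  by_cases hX : v ∈ X <;> by_cases hY : v ∈ Y
  · have h1 : v ∉ symmDiff X Y := by
      rw [Finset.mem_symmDiff]
      tauto
    rw [if_neg h1, if_pos hX, if_pos hY, ← epsX_symmDiff hε, e1]
  · have h1 : v ∈ symmDiff X Y := by
      rw [Finset.mem_symmDiff]
      tauto
    rw [if_pos h1, if_pos hX, if_neg hY, ← epsX_symmDiff hε, e2]
  · have h1 : v ∈ symmDiff X Y := by
      rw [Finset.mem_symmDiff]
      tauto
    rw [if_pos h1, if_neg hX, if_pos hY, ← epsX_symmDiff hε, e3]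
  · have h1 : v ∉ symmDiff X Y := by
      rw [Finset.mem_symmDiff]
      tauto
    rw [if_neg h1, if_neg hX, if_neg hY, ← epsX_symmDiff hε]

theorem chi_bd_Sol {y : E → Bool} (hy : y ∈ Sol src tgt ε v) (X : Finset Wv) :
    chi (bd src tgt X) y = sX ε v X := by
  rw [mem_Sol] at hy
  have key : ∀ X : Finset Wv, v ∉ X → chi (bd src tgt X) y = epsX ε X := by
    intro X hX
    rw [chi_bd]
    unfold epsX
    exact Finset.prod_congr rfl fun w hw => hy w (fun h => hX (h ▸ hw))
  unfold sX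
  by_cases hv : v ∈ X
  · rw [if_pos hv, ← bd_compl]
    exact key Xᶜ (by simpa using hv)
  · rw [if_neg hv]
    exact key X hv

theorem sI_expand (hε : ∀ w, ε w * ε w = 1) (y : E → Bool) :
    (2 : ℝ) ^ (Fintype.card Wv - 1) * sI src tgt ε v y =
      ∑ X ∈ ((univ : Finset Wv).erase v).powerset, epsX ε X * chi (bd src tgt X) y := by
  classical
  have h2 : ∑ X ∈ ((univ : Finset Wv).erase v).powerset, epsX ε X * chi (bd src tgt X) y
      = ∏ w ∈ (univ : Finset Wv).erase v, (1 + ε w * chi (bd src tgt {w}) y) := by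
    rw [Finset.prod_one_add]
    refine Finset.sum_congr rfl fun X _ => ?_
    rw [chi_bd, Finset.prod_mul_distrib]
    rfl
  rw [h2]
  unfold sI
  by_cases h3 : y ∈ Sol src tgt ε v
  · rw [if_pos h3, mul_one]
    rw [mem_Sol] at h3
    rw [Finset.prod_congr rfl (fun w hw => by rw [h3 w (Finset.ne_of_mem_erase hw), hε w]),
      Finset.prod_const, Finset.card_erase_of_mem (Finset.mem_univ v), Finset.card_univ]
    norm_num
  · rw [if_neg h3, mul_zero]
    rw [mem_Sol] at h3
    push Not at h3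
    obtain ⟨w, hw, h4⟩ := h3
    refine (Finset.prod_eq_zero (Finset.mem_erase.mpr ⟨hw, Finset.mem_univ w⟩) ?_).symm
    have h5 := sign_cases (chi_mul_self (bd src tgt {w}) y) (hε w)
    rw [if_pos h4] at h5
    linarith

theorem W_mul_sI (hε : ∀ w, ε w * ε w = 1) (f : (E → Bool) → ℝ) (T : Finset E) :
    (2 : ℝ) ^ (Fintype.card Wv - 1) * W (fun y => f y * sI src tgt ε v y) T =
      ∑ X ∈ ((univ : Finset Wv).erase v).powerset,
        epsX ε X * W f (symmDiff T (bd src tgt X)) := by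
  have h1 : (2 : ℝ) ^ (Fintype.card Wv - 1) * W (fun y => f y * sI src tgt ε v y) T =
      ∑ y, ∑ X ∈ ((univ : Finset Wv).erase v).powerset,
        epsX ε X * (f y * (chi T y * chi (bd src tgt X) y)) := by
    unfold W
    rw [Finset.mul_sum]
    refine Finset.sum_congr rfl fun y _ => ?_
    have h2 := sI_expand (src := src) (tgt := tgt) (v := v) hε y
    calc (2 : ℝ) ^ (Fintype.card Wv - 1) * (f y * sI src tgt ε v y * chi T y)
        = ((2 : ℝ) ^ (Fintype.card Wv - 1) * sI src tgt ε v y) * (f y * chi T y) := by ring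
      _ = _ := by
        rw [h2, Finset.sum_mul]
        exact Finset.sum_congr rfl fun X _ => by ring
  rw [h1, Finset.sum_comm]
  refine Finset.sum_congr rfl fun X _ => ?_
  rw [← Finset.mul_sum]
  unfold W
  congr 1
  refine Finset.sum_congr rfl fun y _ => ?_
  rw [chi_mul]

theorem W_sI (hε : ∀ w, ε w * ε w = 1) (T : Finset E) :
    (2 : ℝ) ^ (Fintype.card Wv - 1) * W (sI src tgt ε v) T =
      ∑ X ∈ ((univ : Finset Wv).erase v).powerset,
        epsX ε X * (if bd src tgt X = T then (2 : ℝ) ^ Fintype.card E else 0) := by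
  have h1 : (2 : ℝ) ^ (Fintype.card Wv - 1) * W (sI src tgt ε v) T =
      ∑ y, ∑ X ∈ ((univ : Finset Wv).erase v).powerset,
        epsX ε X * (chi (bd src tgt X) y * chi T y) := by
    unfold W
    rw [Finset.mul_sum]
    refine Finset.sum_congr rfl fun y _ => ?_
    have h2 := sI_expand (src := src) (tgt := tgt) (v := v) hε y
    rw [← mul_assoc, h2, Finset.sum_mul]
    exact Finset.sum_congr rfl fun X _ => by ring
  rw [h1, Finset.sum_comm]
  refine Finset.sum_congr rfl fun X _ => ?_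
  rw [← Finset.mul_sum, sum_x_chi_chi]

theorem card_Sol (h : GX src tgt D c0) (hε : ∀ w, ε w * ε w = 1) :
    ((Sol src tgt ε v).card : ℝ) * 2 ^ (Fintype.card Wv - 1) = 2 ^ Fintype.card E := by
  classical
  have h1 := W_sI (src := src) (tgt := tgt) (v := v) hε (∅ : Finset E)
  have h2 : W (sI src tgt ε v) ∅ = ((Sol src tgt ε v).card : ℝ) := by
    unfold W sI
    simp only [chi_empty, mul_one]
    rw [Finset.sum_ite_mem, Finset.univ_inter, Finset.sum_const, nsmul_eq_mul, mul_one]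
  rw [h2] at h1
  rw [mul_comm, h1]
  have hcon := con_of_cheeger h.cheeger
  rw [Finset.sum_eq_single ∅]
  · rw [if_pos (bd_empty _ _)]
    simp [epsX]
  · intro X hX hne
    rw [if_neg, mul_zero]
    intro h3
    rcases hcon X h3 with h4 | h4
    · exact hne h4
    · rw [Finset.mem_powerset, h4] at hX
      exact absurd (hX (Finset.mem_univ v)) (Finset.notMem_erase v _)
  · intro h3
    exact absurd (Finset.empty_mem_powerset _) h3

theorem card_Sol_pos (h : GX src tgt D c0) (hε : ∀ w, ε w * ε w = 1) :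
    0 < (Sol src tgt ε v).card := by
  have h1 := card_Sol (ε := ε) (v := v) h hε
  rcases Nat.eq_zero_or_pos (Sol src tgt ε v).card with h2 | h2
  · rw [h2, Nat.cast_zero, zero_mul] at h1
    exact absurd h1.symm (by positivity)
  · exact h2

theorem sum_Sol_cut (X : Finset Wv) :
    ∑ y ∈ Sol src tgt ε v, chi (bd src tgt X) y = ((Sol src tgt ε v).card : ℝ) * sX ε v X := by
  rw [Finset.sum_congr rfl (fun y hy => chi_bd_Sol hy X), Finset.sum_const, nsmul_eq_mul]

theorem sum_Sol_ncut (hε : ∀ w, ε w * ε w = 1) {T : Finset E}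
    (hT : ∀ X : Finset Wv, bd src tgt X ≠ T) : ∑ y ∈ Sol src tgt ε v, chi T y = 0 := by
  classical
  have h1 := W_sI (src := src) (tgt := tgt) (v := v) hε T
  rw [Finset.sum_eq_zero (fun X _ => by rw [if_neg (hT X), mul_zero])] at h1
  have h2 : W (sI src tgt ε v) T = 0 := (mul_eq_zero.mp h1).resolve_left (by positivity)
  rw [← h2]
  unfold W sI
  simp only [ite_mul, one_mul, zero_mul]
  rw [Finset.sum_ite_mem, Finset.univ_inter]

theorem W_shift {g : (E → Bool) → ℝ} (hg : ∀ y, y ∉ Sol src tgt ε v → g y = 0)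
    (T : Finset E) (X : Finset Wv) :
    W g (symmDiff T (bd src tgt X)) = sX ε v X * W g T := by
  unfold W
  rw [Finset.mul_sum]
  refine Finset.sum_congr rfl fun y _ => ?_
  by_cases hy : y ∈ Sol src tgt ε v
  · rw [← chi_mul, chi_bd_Sol hy X]
    ring
  · rw [hg y hy]
    ring

theorem lvl_le (T : Finset E) (X : Finset Wv) :
    lvl src tgt v T ≤ (symmDiff T (bd src tgt X) \ bd src tgt {v}).card := by
  unfold lvl
  exact Finset.inf'_le (fun X => (symmDiff T (bd src tgt X) \ bd src tgt {v}).card) (Finset.mem_univ X)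

theorem exists_lvl (src tgt : E → Wv) (v : Wv) (T : Finset E) : ∃ X : Finset Wv,
    lvl src tgt v T = (symmDiff T (bd src tgt X) \ bd src tgt {v}).card := by
  unfold lvl
  obtain ⟨X, _, hX⟩ := Finset.exists_mem_eq_inf' (⟨∅, Finset.mem_univ _⟩ : (univ : Finset (Finset Wv)).Nonempty)
    (fun X => (symmDiff T (bd src tgt X) \ bd src tgt {v}).card)
  exact ⟨X, hX⟩

theorem lvl_shift (T : Finset E) (Y : Finset Wv) :
    lvl src tgt v (symmDiff T (bd src tgt Y)) = lvl src tgt v T := by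
  have key : ∀ (T : Finset E) (Y : Finset Wv),
      lvl src tgt v (symmDiff T (bd src tgt Y)) ≤ lvl src tgt v T := by
    intro T Y
    obtain ⟨X, hX⟩ := exists_lvl src tgt v T
    rw [hX]
    have h1 := lvl_le (src := src) (tgt := tgt) (v := v) (symmDiff T (bd src tgt Y)) (symmDiff Y X)
    have h2 : symmDiff (symmDiff T (bd src tgt Y)) (bd src tgt (symmDiff Y X)) =
        symmDiff T (bd src tgt X) := by
      rw [bd_symmDiff]
      ext e
      simp only [Finset.mem_symmDiff]
      tauto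
    rw [h2] at h1
    exact h1
  refine le_antisymm (key T Y) ?_
  have h3 := key (symmDiff T (bd src tgt Y)) Y
  rwa [symmDiff_symmDiff_cancel_right] at h3

theorem lvl_le_card (T : Finset E) : lvl src tgt v T ≤ T.card := by
  have h1 := lvl_le (src := src) (tgt := tgt) (v := v) T ∅
  refine h1.trans ((Finset.card_le_card Finset.sdiff_subset).trans ?_)
  rw [bd_empty]
  have h2 : symmDiff T (∅ : Finset E) = T := by
    ext e
    simp [Finset.mem_symmDiff]
  rw [h2]

theorem exists_close (h : GX src tgt D c0) (T : Finset E) : ∃ X : Finset Wv,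
    (symmDiff T (bd src tgt X)).card ≤ lvl src tgt v T + D := by
  obtain ⟨X, hX⟩ := exists_lvl src tgt v T
  refine ⟨X, ?_⟩
  rw [hX]
  have h1 : symmDiff T (bd src tgt X) ⊆
      (symmDiff T (bd src tgt X) \ bd src tgt {v}) ∪ bd src tgt {v} := by
    intro e he
    rw [Finset.mem_union, Finset.mem_sdiff]
    tauto
  have h2 := (Finset.card_le_card h1).trans (Finset.card_union_le _ _)
  have h3 := h.deg v
  omega

theorem lw_of_dg (hε : ∀ w, ε w * ε w = 1) {g : (E → Bool) → Bool} {d : ℕ}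
    (hg : Dg (rl g) d) : LW src tgt ε v (rl g) d := by
  intro T hT
  by_contra hlt
  push Not at hlt
  apply hT
  have h1 := W_mul_sI (src := src) (tgt := tgt) (v := v) hε (rl g) T
  rw [Finset.sum_eq_zero] at h1
  · exact (mul_eq_zero.mp h1).resolve_left (by positivity)
  · intro X _
    have h2 : d < (symmDiff T (bd src tgt X)).card := by
      refine hlt.trans_le ((lvl_le T X).trans (Finset.card_le_card Finset.sdiff_subset))
    rw [hg _ h2, mul_zero]

end Pool.Agent.H3.Ex
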