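import Mathlib
import Pool.Agent.H3.Ex.Defs
import Pool.Agent.H3.Ex.BallDefs
import Pool.Agent.H3.Ex.Base
import Pool.Agent.H3.Ex.Clos
import Pool.Agent.H3.Ex.Sol

set_option autoImplicit false
set_option linter.unusedSectionVars false

/-!
# Module LCS: a locally consistent partial assignment extends to a world

`n = |Wv|`. Let `W'` be the set from `exists_cls_between` with `c = 4 c0`, `S = ends Q`, `univ`: closed,
`ends Q ⊆ W'`, `|W'| ≤ Lam (4 c0) W' ≤ (1 + 4 c0 D) |ends Q| ≤ 2 (1 + 4 c0 D) |Q| < n`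
(`Lam_union_le` with `∅`, or `Lam_le_of_subset`), so there is `v ∉ W'`.

* If `bd Z ⊆ Q` and `2 |Z| ≤ n` then `Z ⊆ W'`: let `Z' = Z \ W'`. An edge in `bd Z'` has its other end in
  `W'` or outside `Z`; in the second case it is in `bd Z ⊆ Q`, so both ends are in `W'`. So
  `bd Z' ⊆ inc W'` and `cls_expand` gives `Z' = ∅`.
* If `v ∉ X`, `bd X ⊆ Q` then `epsX ε X * chi (bd X) z = 1`: if `2 |X| ≤ n` then `|X| ≤ c0 |Q|`
  (`pos_bd`, or `X = ∅`), so `3 |X| ≤ n` and `LC` applies. Otherwise `2 |Xᶜ| ≤ n` and `bd Xᶜ ⊆ Q`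
  (`bd_compl`), so `v ∈ Xᶜ ⊆ W'`, a contradiction.
* The number of `y ∈ Sol v` with `y = z` on `Q`, times `2^(n-1)`, is by `sI_expand`
  `Σ_{X, v ∉ X} epsX ε X Σ_{y = z on Q} chi (bd X) y`. The inner sum is `0` if `bd X` is not contained in
  `Q` (flip a variable in `bd X \ Q`) and `2^(|E| - |Q|) chi (bd X) z` otherwise. So all terms are `≥ 0`,
  and the term of `X = ∅` is positive: there is such a `y`.
-/

namespace Pool.Agent.H3.Ex

open Finset Pool.Agent.H3.Frg Pool.Agent.H3.Frg2 Pool.Agent.H3.Frg3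

variable {E Wv : Type} [Fintype E] [DecidableEq E] [Fintype Wv] [DecidableEq Wv]
  {src tgt : E → Wv} {D c0 : ℕ} {ε : Wv → ℝ}

/-- sums of characters over the assignments which agree with `z` on `Q` -/
private theorem lcs_sum (Q : Finset E) (z : E → Bool) (T : Finset E) :
    ∑ y ∈ (univ : Finset (E → Bool)).filter (fun y => ∀ e ∈ Q, y e = z e), chi T y =
      if T ⊆ Q then (((univ : Finset (E → Bool)).filter
        (fun y => ∀ e ∈ Q, y e = z e)).card : ℝ) * chi T z else 0 := by
  classical
  by_cases hT : T ⊆ Q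
  · rw [if_pos hT]
    have h1 : ∀ y ∈ (univ : Finset (E → Bool)).filter (fun y => ∀ e ∈ Q, y e = z e),
        chi T y = chi T z := by
      intro y hy
      rw [Finset.mem_filter] at hy
      unfold chi
      exact Finset.prod_congr rfl fun e he => by rw [hy.2 e (hT he)]
    rw [Finset.sum_congr rfl h1, Finset.sum_const, nsmul_eq_mul]
  · rw [if_neg hT]
    obtain ⟨e0, he0, he1⟩ := Finset.not_subset.mp hT
    have hneg : ∀ y : E → Bool, chi T (fp {e0} y) = -chi T y := by
      intro y
      have h2 : T ∩ {e0} = {e0} := by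
        ext e
        simp only [Finset.mem_inter, Finset.mem_singleton]
        constructor
        · exact fun h => h.2
        · rintro rfl
          exact ⟨he0, rfl⟩
      rw [chi_fp, h2, Finset.card_singleton, if_pos odd_one]
      ring
    have hne : ∀ y : E → Bool, chi T y ≠ 0 := by
      intro y h
      have := chi_mul_self T y
      rw [h] at this
      norm_num at this
    refine Finset.sum_involution (fun y _ => fp {e0} y) ?_ ?_ ?_ ?_
    · intro y _
      rw [hneg y]
      ring
    · intro y _ _ h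
      have h3 := hneg y
      rw [h] at h3
      exact hne y (by linarith)
    · intro y hy
      rw [Finset.mem_filter] at hy ⊢
      refine ⟨Finset.mem_univ _, ?_⟩
      intro e he
      have h4 : e ≠ e0 := fun h => he1 (h ▸ he)
      unfold fp
      rw [hy.2 e he]
      simp [h4]
    · intro y _
      rw [fp_fp]
      have h5 : symmDiff ({e0} : Finset E) {e0} = ∅ := by
        ext e
        simp [Finset.mem_symmDiff]
      rw [h5, fp_empty]

/-- a set with boundary in `Q` and at most half of the vertices is contained in a closed set containing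
the ends of `Q` -/
private theorem lcs_sub (h : GX src tgt D c0) {Q : Finset E} {W' : Finset Wv}
    (hW : Cls src tgt (4 * c0) W') (hQW : ends src tgt Q ⊆ W') {Z : Finset Wv}
    (hZ : bd src tgt Z ⊆ Q) (h2 : 2 * Z.card ≤ Fintype.card Wv) : Z ⊆ W' := by
  have hd : Disjoint (Z \ W') W' := Finset.sdiff_disjoint
  have hc : (Z \ W').card ≤ Z.card := Finset.card_le_card Finset.sdiff_subset
  have h3 := cls_expand h (c := 4 * c0) (by omega) hW hd (by omega)
  have h4 : bd src tgt (Z \ W') \ inc src tgt W' = ∅ := by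
    rw [Finset.sdiff_eq_empty_iff_subset]
    intro e he
    by_contra hcon
    rw [mem_inc] at hcon
    push Not at hcon
    rw [mem_bd, Finset.mem_sdiff, Finset.mem_sdiff] at he
    have h5 : e ∈ bd src tgt Z := by
      rw [mem_bd]
      intro h6
      apply he
      constructor
      · rintro ⟨a1, _⟩
        exact ⟨h6.mp a1, hcon.2⟩
      · rintro ⟨a1, _⟩
        exact ⟨h6.mpr a1, hcon.1⟩
    exact hcon.1 (hQW (mem_ends.mpr ⟨e, hZ h5, Or.inl rfl⟩))
  rw [h4, Finset.card_empty, Nat.mul_zero, Nat.le_zero, Finset.card_eq_zero,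
    Finset.sdiff_eq_empty_iff_subset] at h3
  exact h3

theorem exists_of_LC (h : GX src tgt D c0) (hε : ∀ w, ε w * ε w = 1) {Q : Finset E}
    {z : E → Bool} (hLC : LC src tgt ε Q z)
    (hQ : 4 * (1 + 4 * c0 * D) * Q.card < Fintype.card Wv) :
    ∃ v y W', y ∈ Sol src tgt ε v ∧ Cls src tgt (4 * c0) W' ∧ v ∉ W' ∧
      Q ⊆ inc src tgt W' ∧ ∀ e ∈ Q, y e = z e := by
  classical
  obtain ⟨W', hW1, _, hW3, hW4⟩ := exists_cls_between (src := src) (tgt := tgt) (c := 4 * c0)
    (S := ends src tgt Q) (W' := univ) (cls_univ _) (Finset.subset_univ _)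
  have hLam : Lam src tgt (4 * c0) W' < Fintype.card Wv := by
    have h1 := Lam_union_le h (4 * c0) ∅ (ends src tgt Q)
    rw [Finset.empty_union, Lam_empty, zero_add] at h1
    have h2 := card_ends_le (src := src) (tgt := tgt) Q
    have h3 := Nat.mul_le_mul_left (1 + 4 * c0 * D) h2
    have h4 : (1 + 4 * c0 * D) * (2 * Q.card) ≤ 4 * (1 + 4 * c0 * D) * Q.card := by
      calc (1 + 4 * c0 * D) * (2 * Q.card) = 2 * ((1 + 4 * c0 * D) * Q.card) := by ring
        _ ≤ 4 * ((1 + 4 * c0 * D) * Q.card) := Nat.mul_le_mul_right _ (by norm_num)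
        _ = _ := by ring
    omega
  obtain ⟨v, hv⟩ := exists_notMem_of_lam hLam
  have hB : ∀ X : Finset Wv, v ∉ X → bd src tgt X ⊆ Q →
      epsX ε X * chi (bd src tgt X) z = 1 := by
    intro X hvX hX
    rcases Nat.lt_or_ge (Fintype.card Wv) (2 * X.card) with h1 | h1
    · exfalso
      have h2 : 2 * Xᶜ.card ≤ Fintype.card Wv := by
        rw [Finset.card_compl]
        have := Finset.card_le_univ X
        omega
      have h3 : bd src tgt Xᶜ ⊆ Q := by
        rw [bd_compl]
        exact hX
      exact hv (lcs_sub h hW3 hW1 h3 h2 (Finset.mem_compl.mpr hvX))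
    · have h2 : 3 * X.card ≤ Fintype.card Wv := by
        rcases Finset.eq_empty_or_nonempty X with h3 | h3
        · rw [h3]
          simp
        · have h4 := pos_bd h h3 h1
          have h5 := Nat.mul_le_mul_left c0 (Finset.card_le_card hX)
          have h6 : 3 * (c0 * Q.card) ≤ 4 * (1 + 4 * c0 * D) * Q.card := by
            have h7 : 3 * c0 ≤ 4 * (1 + 4 * c0 * D) := by
              have h8 : c0 * 1 ≤ c0 * D := Nat.mul_le_mul_left c0 h.hD
              have h9 : 4 * c0 * D = 4 * (c0 * D) := by ring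
              omega
            calc 3 * (c0 * Q.card) = (3 * c0) * Q.card := by ring
              _ ≤ _ := Nat.mul_le_mul_right _ h7
          omega
      rw [hLC X h2 hX]
      exact epsX_mul_self hε X
  set A := (univ : Finset (E → Bool)).filter (fun y => ∀ e ∈ Q, y e = z e) with hA
  have hzA : z ∈ A := by
    rw [hA, Finset.mem_filter]
    exact ⟨Finset.mem_univ _, fun _ _ => rfl⟩
  have hApos : (0 : ℝ) < A.card := by
    exact_mod_cast Finset.card_pos.mpr ⟨z, hzA⟩
  have hsum : 0 < ∑ y ∈ A, (2 : ℝ) ^ (Fintype.card Wv - 1) * sI src tgt ε v y := by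
    have h1 : ∑ y ∈ A, (2 : ℝ) ^ (Fintype.card Wv - 1) * sI src tgt ε v y =
        ∑ X ∈ ((univ : Finset Wv).erase v).powerset,
          epsX ε X * ∑ y ∈ A, chi (bd src tgt X) y := by
      rw [Finset.sum_congr rfl (fun y _ => sI_expand (src := src) (tgt := tgt) (v := v) hε y),
        Finset.sum_comm]
      exact Finset.sum_congr rfl fun X _ => by rw [Finset.mul_sum]
    rw [h1]
    have h2 : ∀ X ∈ ((univ : Finset Wv).erase v).powerset,
        epsX ε X * ∑ y ∈ A, chi (bd src tgt X) y =
          if bd src tgt X ⊆ Q then (A.card : ℝ) else 0 := by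
      intro X hX
      rw [Finset.mem_powerset] at hX
      have hvX : v ∉ X := fun h3 => absurd (hX h3) (Finset.notMem_erase v _)
      rw [hA, lcs_sum Q z (bd src tgt X)]
      by_cases h4 : bd src tgt X ⊆ Q
      · rw [if_pos h4, if_pos h4]
        linear_combination ((univ.filter (fun y : E → Bool => ∀ e ∈ Q, y e = z e)).card : ℝ) *
          hB X hvX h4
      · rw [if_neg h4, if_neg h4, mul_zero]
    rw [Finset.sum_congr rfl h2]
    refine Finset.sum_pos' (fun X _ => ?_) ⟨∅, Finset.empty_mem_powerset _, ?_⟩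
    · split_ifs
      · exact hApos.le
      · exact le_rfl
    · rw [bd_empty, if_pos (Finset.empty_subset _)]
      exact hApos
  obtain ⟨y, hyA, hy⟩ : ∃ y ∈ A, sI src tgt ε v y ≠ 0 := by
    by_contra hcon
    push Not at hcon
    rw [Finset.sum_eq_zero (fun y hy => by rw [hcon y hy, mul_zero])] at hsum
    exact lt_irrefl _ hsum
  have hyS : y ∈ Sol src tgt ε v := by
    by_contra h1
    apply hy
    unfold sI
    rw [if_neg h1]
  rw [hA, Finset.mem_filter] at hyA
  exact ⟨v, y, W', hyS, hW3, hv, sub_inc_of_ends hW1, hyA.2⟩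

end Pool.Agent.H3.Ex
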