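import Mathlib
import Pool.Agent.H3.Frg.Tseitin

set_option autoImplicit false
set_option linter.unusedSectionVars false

/-!
# Module BON: the (2,4)-hypercontractive inequality on the cube

`bonami`: `2^|V| Σ p^4 ≤ 9^d (Σ p^2)^2` if all Fourier coefficients of order larger than `d` vanish.
Write `E[q] = 2^(-|V|) Σ_x q x`. By `inversion` `p = Σ_T c_T chi T`, `c_T = 2^(-|V|) W p T`. Prove by
induction on `S` (`Finset.induction_on`), for all `d`: if `p = Σ_{T ⊆ S, |T| ≤ d} c_T chi T` then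
`E[p^4] ≤ 9^d E[p^2]^2`. `S = ∅`: `p` is constant. `S = insert a S'`: `p = q + chi {a} r` where
`q = Σ_{T ⊆ S'} c_T chi T` (degree `≤ d`), `r = Σ_{T ⊆ S'} c_(insert a T) chi T` (degree `≤ d - 1`;
`r = 0` if `d = 0`), and `q`, `r` do not depend on `x a`. Since `E[chi {a} u] = 0` if `u` does not
depend on `x a` (flip `x a`): `E[p^2] = E[q^2] + E[r^2]`,
`E[p^4] = E[q^4] + 6 E[q^2 r^2] + E[r^4]`. With `x = E[q^2]`, `y = E[r^2]` and Cauchy-Schwarz
`E[q^2 r^2]^2 ≤ E[q^4] E[r^4] ≤ 9^d x^2 9^(d-1) y^2 = (3^(2d-1) x y)^2`, so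
`E[p^4] ≤ 9^d x^2 + 6 * 3^(2d-1) x y + 9^(d-1) y^2 ≤ 9^d (x^2 + 2 x y + y^2)`.
(Any other proof is fine, for instance induction on the number of variables for functions on
`Fin n → Bool`.)
-/

namespace Pool.Agent.H3.Ex

open Finset Pool.Agent.H3.Frg

variable {V : Type} [Fintype V] [DecidableEq V]

/-- flip the variable `a` -/
def Bona_fl (a : V) (x : V → Bool) : V → Bool := Function.update x a (!(x a))

omit [Fintype V] in
theorem Bona_fl_fl (a : V) (x : V → Bool) : Bona_fl a (Bona_fl a x) = x := by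
  unfold Bona_fl
  rw [Function.update_idem, Function.update_self, Bool.not_not, Function.update_eq_self]

/-- the flip as a permutation -/
def Bona_eq (a : V) : Equiv.Perm (V → Bool) where
  toFun := Bona_fl a
  invFun := Bona_fl a
  left_inv := Bona_fl_fl a
  right_inv := Bona_fl_fl a

theorem Bona_zero (a : V) (u : (V → Bool) → ℝ) (hu : ∀ x, u (Bona_fl a x) = u x) :
    ∑ x, sg (x a) * u x = 0 := by
  have h1 : ∑ x, sg ((Bona_eq a x) a) * u (Bona_eq a x) = ∑ x, sg (x a) * u x :=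
    Equiv.sum_comp (Bona_eq a) (fun x => sg (x a) * u x)
  have h2 : ∀ x : V → Bool, sg ((Bona_eq a x) a) * u (Bona_eq a x) = -(sg (x a) * u x) := by
    intro x
    have h3 : Bona_eq a x = Bona_fl a x := rfl
    rw [h3, hu]
    unfold Bona_fl
    rw [Function.update_self]
    cases x a <;> simp [sg]
  rw [sum_congr rfl fun x _ => h2 x, sum_neg_distrib] at h1
  linarith

/-- multilinear polynomial in the variables `S` -/
def Bona_F (S : Finset V) (c : Finset V → ℝ) (x : V → Bool) : ℝ :=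
  ∑ T ∈ S.powerset, c T * chi T x

omit [Fintype V] in
theorem Bona_F_fl {a : V} {S : Finset V} (ha : a ∉ S) (c : Finset V → ℝ) (x : V → Bool) :
    Bona_F S c (Bona_fl a x) = Bona_F S c x := by
  unfold Bona_F
  refine sum_congr rfl fun T hT => ?_
  congr 1
  unfold chi
  refine prod_congr rfl fun i hi => ?_
  have hia : i ≠ a := by
    rintro rfl
    exact ha ((mem_powerset.1 hT) hi)
  unfold Bona_fl
  rw [Function.update_of_ne hia]

omit [Fintype V] in
theorem Bona_F_ins {a : V} {S : Finset V} (ha : a ∉ S) (c : Finset V → ℝ) (x : V → Bool) :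
    Bona_F (insert a S) c x = Bona_F S c x +
      sg (x a) * Bona_F S (fun T => if a ∈ T then 0 else c (insert a T)) x := by
  unfold Bona_F
  rw [sum_powerset_insert ha, mul_sum]
  congr 1
  refine sum_congr rfl fun T hT => ?_
  have haT : a ∉ T := fun h => ha ((mem_powerset.1 hT) h)
  beta_reduce
  rw [if_neg haT]
  have h1 : chi (insert a T) x = sg (x a) * chi T x := by
    unfold chi
    rw [prod_insert haT]
  rw [h1]
  ring

theorem Bona_sq {a : V} {q r : (V → Bool) → ℝ} (hq : ∀ x, q (Bona_fl a x) = q x)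
    (hr : ∀ x, r (Bona_fl a x) = r x) :
    ∑ x, (q x + sg (x a) * r x) ^ 2 = ∑ x, q x ^ 2 + ∑ x, r x ^ 2 := by
  have h1 := Bona_zero a (fun x => 2 * (q x * r x)) (fun x => by rw [hq, hr])
  rw [← add_zero (∑ x, r x ^ 2), ← h1, ← sum_add_distrib, ← sum_add_distrib]
  refine sum_congr rfl fun x _ => ?_
  have h2 := sg_mul_self (x a)
  have h3 : (q x + sg (x a) * r x) ^ 2 =
      q x ^ 2 + ((sg (x a) * sg (x a)) * r x ^ 2 + sg (x a) * (2 * (q x * r x))) := by ring
  rw [h3, h2]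
  ring

theorem Bona_four {a : V} {q r : (V → Bool) → ℝ} (hq : ∀ x, q (Bona_fl a x) = q x)
    (hr : ∀ x, r (Bona_fl a x) = r x) :
    ∑ x, (q x + sg (x a) * r x) ^ 4 =
      ∑ x, q x ^ 4 + 6 * ∑ x, q x ^ 2 * r x ^ 2 + ∑ x, r x ^ 4 := by
  have h1 := Bona_zero a (fun x => 4 * (q x ^ 3 * r x) + 4 * (q x * r x ^ 3))
    (fun x => by rw [hq, hr])
  rw [← add_zero (∑ x, r x ^ 4), ← h1, mul_sum, ← sum_add_distrib, ← sum_add_distrib,
    ← sum_add_distrib]
  refine sum_congr rfl fun x _ => ?_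
  have h2 := sg_mul_self (x a)
  have h3 : (q x + sg (x a) * r x) ^ 4 =
      q x ^ 4 + 6 * ((sg (x a) * sg (x a)) * (q x ^ 2 * r x ^ 2)) +
      ((sg (x a) * sg (x a)) * (sg (x a) * sg (x a)) * r x ^ 4 +
        sg (x a) * (4 * (q x ^ 3 * r x) + (sg (x a) * sg (x a)) * (4 * (q x * r x ^ 3)))) := by
    ring
  rw [h3, h2]
  ring

theorem Bona_main (S : Finset V) : ∀ (d : ℕ) (c : Finset V → ℝ),
    (∀ T, d < T.card → c T = 0) →
    (2 : ℝ) ^ Fintype.card V * ∑ x, Bona_F S c x ^ 4 ≤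
      9 ^ d * (∑ x, Bona_F S c x ^ 2) ^ 2 := by
  induction S using Finset.induction_on with
  | empty =>
    intro d c _
    have h1 : ∀ x : V → Bool, Bona_F ∅ c x = c ∅ := by
      intro x
      unfold Bona_F
      rw [powerset_empty, sum_singleton, chi_empty, mul_one]
    simp only [h1, sum_const, card_univ, Fintype.card_fun, Fintype.card_bool, nsmul_eq_mul]
    push_cast
    have h2 : (1 : ℝ) ≤ 9 ^ d := one_le_pow₀ (by norm_num)
    have h3 : 0 ≤ ((2 : ℝ) ^ Fintype.card V * c ∅ ^ 2) ^ 2 := by positivity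
    have h4 : (2 : ℝ) ^ Fintype.card V * (2 ^ Fintype.card V * c ∅ ^ 4) =
        ((2 : ℝ) ^ Fintype.card V * c ∅ ^ 2) ^ 2 := by ring
    rw [h4]
    exact le_mul_of_one_le_left h3 h2
  | insert a S ha ih =>
    intro d c hc
    obtain ⟨q, hq⟩ : ∃ q : (V → Bool) → ℝ, q = Bona_F S c := ⟨_, rfl⟩
    obtain ⟨r, hr⟩ : ∃ r : (V → Bool) → ℝ,
      r = Bona_F S (fun T => if a ∈ T then 0 else c (insert a T)) := ⟨_, rfl⟩
    have hqf : ∀ x, q (Bona_fl a x) = q x := by
      intro x
      rw [hq]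
      exact Bona_F_fl ha c x
    have hrf : ∀ x, r (Bona_fl a x) = r x := by
      intro x
      rw [hr]
      exact Bona_F_fl ha _ x
    have hp : ∀ x, Bona_F (insert a S) c x = q x + sg (x a) * r x := by
      intro x
      rw [hq, hr]
      exact Bona_F_ins ha c x
    simp only [hp]
    rw [Bona_sq hqf hrf, Bona_four hqf hrf]
    have i1 := ih d c hc
    rw [← hq] at i1
    cases d with
    | zero =>
      have hr0 : ∀ x, r x = 0 := by
        intro x
        rw [hr]
        unfold Bona_F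
        refine sum_eq_zero fun T hT => ?_
        have haT : a ∉ T := fun h => ha ((mem_powerset.1 hT) h)
        beta_reduce
        rw [if_neg haT, hc _ (by rw [card_insert_of_notMem haT]; omega), zero_mul]
      simp only [hr0]
      simpa using i1
    | succ e =>
      have i2 := ih e (fun T => if a ∈ T then 0 else c (insert a T)) (by
        intro T hT
        by_cases haT : a ∈ T
        · exact if_pos haT
        · rw [if_neg haT]
          apply hc
          rw [card_insert_of_notMem haT]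
          omega)
      rw [← hr] at i2
      have hcs : (∑ x, q x ^ 2 * r x ^ 2) ^ 2 ≤ (∑ x, q x ^ 4) * ∑ x, r x ^ 4 := by
        have h1 := sum_mul_sq_le_sq_mul_sq univ (fun x => q x ^ 2) (fun x => r x ^ 2)
        simp only [← pow_mul] at h1
        exact h1
      obtain ⟨A, hA⟩ : ∃ A, A = ∑ x, q x ^ 2 := ⟨_, rfl⟩
      obtain ⟨B, hB⟩ : ∃ B, B = ∑ x, r x ^ 2 := ⟨_, rfl⟩
      obtain ⟨Q, hQ⟩ : ∃ Q, Q = ∑ x, q x ^ 4 := ⟨_, rfl⟩
      obtain ⟨R, hR⟩ : ∃ R, R = ∑ x, r x ^ 4 := ⟨_, rfl⟩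
      obtain ⟨M, hM⟩ : ∃ M, M = ∑ x, q x ^ 2 * r x ^ 2 := ⟨_, rfl⟩
      obtain ⟨n, hn⟩ : ∃ n : ℝ, n = 2 ^ Fintype.card V := ⟨_, rfl⟩
      obtain ⟨w, hw⟩ : ∃ w : ℝ, w = 9 ^ e := ⟨_, rfl⟩
      have hA0 : 0 ≤ A := hA ▸ sum_nonneg fun x _ => by positivity
      have hB0 : 0 ≤ B := hB ▸ sum_nonneg fun x _ => by positivity
      have hR0 : 0 ≤ R := hR ▸ sum_nonneg fun x _ => by positivity
      have hM0 : 0 ≤ M := hM ▸ sum_nonneg fun x _ => by positivity
      have hn0 : 0 < n := hn ▸ by positivity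
      have hw0 : 0 < w := hw ▸ by positivity
      rw [← hA, ← hQ, ← hn, pow_succ, ← hw] at i1
      rw [← hB, ← hR, ← hn, ← hw] at i2
      rw [← hM, ← hQ, ← hR] at hcs
      rw [← hA, ← hB, ← hQ, ← hR, ← hM, ← hn, pow_succ, ← hw]
      have h1 : (n * M) ^ 2 ≤ (3 * w * (A * B)) ^ 2 := by
        calc (n * M) ^ 2 = n ^ 2 * M ^ 2 := by ring
          _ ≤ n ^ 2 * (Q * R) := mul_le_mul_of_nonneg_left hcs (by positivity)
          _ = (n * Q) * (n * R) := by ring
          _ ≤ (w * 9 * A ^ 2) * (w * B ^ 2) :=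
              mul_le_mul i1 i2 (by positivity) (by positivity)
          _ = (3 * w * (A * B)) ^ 2 := by ring
      have h2 : n * M ≤ 3 * w * (A * B) := by
        have h0 : (0 : ℝ) ≤ 3 * w * (A * B) := by positivity
        exact (pow_le_pow_iff_left₀ (by positivity) h0 (by norm_num)).1 h1
      have h3 : 0 ≤ w * B ^ 2 := by positivity
      calc n * (Q + 6 * M + R) = n * Q + 6 * (n * M) + n * R := by ring
        _ ≤ w * 9 * A ^ 2 + 6 * (3 * w * (A * B)) + w * B ^ 2 := by linarith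
        _ ≤ w * 9 * A ^ 2 + 6 * (3 * w * (A * B)) + w * B ^ 2 + 8 * (w * B ^ 2) := by linarith
        _ = w * 9 * (A + B) ^ 2 := by ring

theorem bonami (p : (V → Bool) → ℝ) (d : ℕ) (hp : Dg p d) :
    (2 : ℝ) ^ Fintype.card V * ∑ x, p x ^ 4 ≤ 9 ^ d * (∑ x, p x ^ 2) ^ 2 := by
  have h1 : Bona_F univ (fun T => W p T / 2 ^ Fintype.card V) = p := by
    funext x
    unfold Bona_F
    rw [powerset_univ]
    have h2 := inversion p x
    have h3 : (2 : ℝ) ^ Fintype.card V ≠ 0 := by positivity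
    have h4 : ∑ T : Finset V, W p T / 2 ^ Fintype.card V * chi T x =
        (∑ T : Finset V, W p T * chi T x) / 2 ^ Fintype.card V := by
      rw [sum_div]
      refine sum_congr rfl fun T _ => ?_
      ring
    rw [h4, h2]
    field_simp
  have h2 := Bona_main univ d (fun T => W p T / 2 ^ Fintype.card V) (fun T hT => by
    rw [hp T hT, zero_div])
  rw [h1] at h2
  exact h2

end Pool.Agent.H3.Ex
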