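import Mathlib
import Pool.Agent.H3.Ex.Defs

set_option autoImplicit false
set_option linter.unusedSectionVars false

/-!
# Module CNX: the number of small sets of vertices all of whose components meet a given set

`cnx X P`: every nonempty `A ⊆ X` such that no edge connects `A` and `X \ A` meets `P`.

`card_cnx_le`: `#{X : |X| ≤ s, cnx X P} ≤ 2^(|P| + D s)`. Induction on `|P| + (D + 1) s` (or on `s`,
and for fixed `s` on `|P|`), for all `P`. If `P = ∅`: `A = X` shows that `X = ∅` is the only set.
Otherwise let `p ∈ P`. The sets `X` with `p ∉ X` satisfy `cnx X (P.erase p)` (because `p ∉ A`): at most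
`2^(|P| - 1 + D s)`. The sets with `p ∈ X` (then `s ≥ 1`): let `N` be the set of neighbours of `p`
(ends of the edges in `bd {p}`, without `p`), `|N| ≤ D`. `X' = X.erase p` satisfies `|X'| ≤ s - 1` and
`cnx X' (P.erase p ∪ N)`: let `A ⊆ X'` be nonempty with no edge between `A` and `X' \ A`; if there is
an edge between `A` and `p` then `A` meets `N`; otherwise there is no edge between `A` and `X \ A`,
so `A` meets `P`, and `p ∉ A`. `X ↦ X.erase p` is injective on the sets with `p ∈ X`, so there are at
most `2^(|P| - 1 + D + D (s - 1))` such sets. The sum is at most `2^(|P| + D s)`.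
-/

namespace Pool.Agent.H3.Ex

open Finset Pool.Agent.H3.Frg Pool.Agent.H3.Frg2 Pool.Agent.H3.Frg3

variable {E Wv : Type} [Fintype E] [DecidableEq E] [Fintype Wv] [DecidableEq Wv]
  {src tgt : E → Wv} {D c0 : ℕ}

/-- every union of components of `X` meets `P` -/
def cnx (src tgt : E → Wv) (X P : Finset Wv) : Prop :=
  ∀ A ⊆ X, A.Nonempty → (∀ e, ¬ (src e ∈ A ∧ tgt e ∈ X \ A) ∧ ¬ (tgt e ∈ A ∧ src e ∈ X \ A)) →
    (A ∩ P).Nonempty

private theorem cnx_empty {X : Finset Wv} (h : cnx src tgt X ∅) : X = ∅ := by
  by_contra hX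
  have h1 := h X (Subset.refl _) (nonempty_iff_ne_empty.2 hX) (fun e => by simp)
  simp at h1

private theorem cnx_erase_of_not_mem {X P : Finset Wv} {p : Wv} (h : cnx src tgt X P)
    (hp : p ∉ X) : cnx src tgt X (P.erase p) := by
  intro A hA hne hE
  obtain ⟨a, ha⟩ := h A hA hne hE
  rw [mem_inter] at ha
  refine ⟨a, mem_inter.2 ⟨ha.1, mem_erase.2 ⟨?_, ha.2⟩⟩⟩
  rintro rfl
  exact hp (hA ha.1)

/-- the neighbours of `p` -/
private def nbs (src tgt : E → Wv) (p : Wv) : Finset Wv :=
  (bd src tgt {p}).image fun e => if src e = p then tgt e else src e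

private theorem cnx_erase_of_mem {X P : Finset Wv} {p : Wv} (h : cnx src tgt X P) :
    cnx src tgt (X.erase p) (P.erase p ∪ nbs src tgt p) := by
  intro A hA hne hE
  have hpA : p ∉ A := fun hp => by simpa using hA hp
  by_cases hc : ∃ e, (src e ∈ A ∧ tgt e = p) ∨ (tgt e ∈ A ∧ src e = p)
  · obtain ⟨e, he⟩ := hc
    rcases he with ⟨h1, h2⟩ | ⟨h1, h2⟩
    · have h3 : src e ≠ p := fun h => hpA (h ▸ h1)
      refine ⟨src e, mem_inter.2 ⟨h1, mem_union_right _ (mem_image.2 ⟨e, ?_, ?_⟩)⟩⟩
      · simp [bd, h2, h3]
      · rw [if_neg h3]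
    · have h3 : tgt e ≠ p := fun h => hpA (h ▸ h1)
      refine ⟨tgt e, mem_inter.2 ⟨h1, mem_union_right _ (mem_image.2 ⟨e, ?_, ?_⟩)⟩⟩
      · simp [bd, h2, h3]
      · rw [if_pos h2]
  · push Not at hc
    have hE' : ∀ e, ¬ (src e ∈ A ∧ tgt e ∈ X \ A) ∧ ¬ (tgt e ∈ A ∧ src e ∈ X \ A) := by
      intro e
      refine ⟨?_, ?_⟩
      · rintro ⟨h1, h2⟩
        rw [mem_sdiff] at h2
        exact (hE e).1 ⟨h1, mem_sdiff.2 ⟨mem_erase.2 ⟨(hc e).1 h1, h2.1⟩, h2.2⟩⟩
      · rintro ⟨h1, h2⟩
        rw [mem_sdiff] at h2
        exact (hE e).2 ⟨h1, mem_sdiff.2 ⟨mem_erase.2 ⟨(hc e).2 h1, h2.1⟩, h2.2⟩⟩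
    obtain ⟨a, ha⟩ := h A (hA.trans (erase_subset _ _)) hne hE'
    rw [mem_inter] at ha
    refine ⟨a, mem_inter.2 ⟨ha.1, mem_union_left _ (mem_erase.2 ⟨?_, ha.2⟩)⟩⟩
    rintro rfl
    exact hpA ha.1

open scoped Classical in
private theorem card_cnx_aux (h : GX src tgt D c0) (m : ℕ) : ∀ (s : ℕ) (P : Finset Wv),
    P.card + (D + 1) * s = m →
    ((univ : Finset (Finset Wv)).filter fun X => X.card ≤ s ∧ cnx src tgt X P).card ≤
      2 ^ (P.card + D * s) := by
  induction m using Nat.strong_induction_on with
  | _ m ih =>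
    intro s P hm
    rcases P.eq_empty_or_nonempty with rfl | ⟨p, hp⟩
    · refine le_trans (card_le_card (t := {∅}) ?_) ?_
      · intro X hX
        rw [mem_filter] at hX
        rw [mem_singleton]
        exact cnx_empty hX.2.2
      · rw [card_singleton]
        exact Nat.one_le_two_pow
    · have hPc : (P.erase p).card + 1 = P.card := card_erase_add_one hp
      set F := (univ : Finset (Finset Wv)).filter fun X => X.card ≤ s ∧ cnx src tgt X P with hF
      have hsplit : F.card = (F.filter fun X => p ∉ X).card + (F.filter fun X => ¬ p ∉ X).card :=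
        (card_filter_add_card_filter_not (s := F) (fun X => p ∉ X)).symm
      have h1 : (F.filter fun X => p ∉ X).card ≤ 2 ^ ((P.erase p).card + D * s) := by
        refine le_trans (card_le_card ?_) (ih ((P.erase p).card + (D + 1) * s) (by omega) s
          (P.erase p) rfl)
        intro X hX
        rw [mem_filter, hF, mem_filter] at hX
        rw [mem_filter]
        exact ⟨mem_univ _, hX.1.2.1, cnx_erase_of_not_mem hX.1.2.2 hX.2⟩
      have h2 : (F.filter fun X => ¬ p ∉ X).card ≤ 2 ^ ((P.erase p).card + D * s) := by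
        rcases Nat.eq_zero_or_pos s with rfl | hs
        · have : (F.filter fun X => ¬ p ∉ X) = ∅ := by
            rw [eq_empty_iff_forall_notMem]
            intro X hX
            rw [mem_filter, hF, mem_filter] at hX
            have h3 : X = ∅ := card_eq_zero.1 (Nat.le_zero.1 hX.1.2.1)
            apply hX.2
            rw [h3]
            exact notMem_empty _
          rw [this, card_empty]
          exact Nat.zero_le _
        · obtain ⟨s', rfl⟩ : ∃ s', s = s' + 1 := ⟨s - 1, by omega⟩
          have hN : (P.erase p ∪ nbs src tgt p).card ≤ (P.erase p).card + D :=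
            (card_union_le _ _).trans (Nat.add_le_add_left (card_image_le.trans (h.deg p)) _)
          have h4 := ih ((P.erase p ∪ nbs src tgt p).card + (D + 1) * s') (by
            have e1 : (D + 1) * (s' + 1) = (D + 1) * s' + (D + 1) := by ring
            rw [e1] at hm
            omega) s' (P.erase p ∪ nbs src tgt p) rfl
          refine le_trans (card_le_card_of_injOn (fun X => X.erase p) ?_ ?_)
            (h4.trans (Nat.pow_le_pow_right (by norm_num) ?_))
          · intro X hX
            rw [mem_coe, mem_filter, hF, mem_filter] at hX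
            rw [mem_coe, mem_filter]
            have hpX : p ∈ X := not_not.1 hX.2
            have hc : (X.erase p).card + 1 = X.card := card_erase_add_one hpX
            refine ⟨mem_univ _, ?_, cnx_erase_of_mem hX.1.2.2⟩
            have := hX.1.2.1
            show (X.erase p).card ≤ s'
            omega
          · intro X hX Y hY hXY
            rw [mem_coe, mem_filter] at hX hY
            have hXY' : X.erase p = Y.erase p := hXY
            rw [← insert_erase (not_not.1 hX.2), ← insert_erase (not_not.1 hY.2), hXY']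
          · have e1 : D * (s' + 1) = D * s' + D := by ring
            rw [e1]
            omega
      rw [hsplit]
      have e2 : P.card + D * s = ((P.erase p).card + D * s) + 1 := by omega
      rw [e2, pow_succ]
      omega

open scoped Classical in
theorem card_cnx_le (h : GX src tgt D c0) (s : ℕ) (P : Finset Wv) :
    ((univ : Finset (Finset Wv)).filter fun X => X.card ≤ s ∧ cnx src tgt X P).card ≤
      2 ^ (P.card + D * s) :=
  card_cnx_aux h _ s P rfl

end Pool.Agent.H3.Ex
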