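import Mathlib
import Pool.Agent.H3.Ex.Defs
import Pool.Agent.H3.Ex.BallDefs
import Pool.Agent.H3.Ex.Base
import Pool.Agent.H3.Ex.Sol

set_option autoImplicit false
set_option linter.unusedSectionVars false

/-!
# Module MRP: minimal representatives modulo cuts

* `exists_injW`: `m e = 2^|E| + 2^(number of e)` with `Fintype.equivFin E`;
  `wtE m T = |T| 2^|E| + Σ_{e ∈ T} 2^(number of e)` and the second sum is smaller than `2^|E|` and
  determines `T` (binary expansion; for instance `Finset.sum` over the image in `ℕ` and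
  `Nat.geomSum_lt`, or compare the largest element of `T ∆ T'`).
* `minr_unique`: put `T' = T ∆ bd X`; `wt T ≤ wt T' ≤ wt (T' ∆ bd X) = wt T`, so `T = T'`.
* `exists_minr`: `Finset.exists_min_image` over `X`, `bd_symmDiff`.
* `minr_split`: let `C = bd A`, `P = T3 ∩ C`, `Q = T4 ∩ C`. As `C ⊆ T3 ∆ T4`: `C` is the disjoint union
  of `P` and `Q`. `T3 ∆ C = (T3 \ P) ∪ Q`, so `Minr T3` gives `wt P ≤ wt Q`, and `Minr T4` gives
  `wt Q ≤ wt P`. By injectivity `P = Q`, so both are empty.
* `cf_expand`: by `inversion` `2^|E| g y = Σ_T W g T * chi T y`. Every `T` can be written in exactly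
  one way as `T = M ∆ C` with `M` minimal and `C` a cut (`exists_minr`, `minr_unique`); for a cut
  `C = bd X` and `y ∈ Sol v` `W g (M ∆ C) chi (M ∆ C) y = W g M chi M y` (`W_shift`, `chi_bd_Sol`,
  `sX_mul_self`). So `2^|E| g y = N Σ_{M minimal} W g M chi M y`, where `N` is the number of cuts, and
  `N |Sol v| = 2^|E|` (`card_Sol`, `N = 2^(n-1)`: by `con_of_cheeger` the cuts `bd X`, `v ∉ X`, are
  different, and all cuts are of this form by `bd_compl`).
* `sum_sq_cf`: `Σ_y g^2 = Σ_{y ∈ Sol} (Σ_T cf T chi T y)^2 = Σ_{T, T'} cf T cf T' Σ_{y ∈ Sol}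
  chi (T ∆ T') y`; the inner sum is `0` if `T ∆ T'` is not a cut (`sum_Sol_ncut`), and for minimal
  `T, T'` it is a cut only if `T = T'` (`minr_unique`).
-/

namespace Pool.Agent.H3.Ex

open Finset Pool.Agent.H3.Frg Pool.Agent.H3.Frg2 Pool.Agent.H3.Frg3

variable {E Wv : Type} [Fintype E] [DecidableEq E] [Fintype Wv] [DecidableEq Wv]
  {src tgt : E → Wv} {D c0 : ℕ} {ε : Wv → ℝ} {v : Wv} {m : E → ℕ}

theorem mrp_image_sum (E : Type) [Fintype E] [DecidableEq E] (T : Finset E) :
    ∑ e ∈ T, 2 ^ ((Fintype.equivFin E e : Fin (Fintype.card E)) : ℕ) =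
      ∑ k ∈ T.image (fun e => ((Fintype.equivFin E e : Fin (Fintype.card E)) : ℕ)), 2 ^ k := by
  rw [Finset.sum_image]
  intro a _ b _ hab
  exact (Fintype.equivFin E).injective (Fin.val_injective hab)

theorem mrp_wt (E : Type) [Fintype E] [DecidableEq E] (T : Finset E) :
    wtE (fun e : E => 2 ^ Fintype.card E +
      2 ^ ((Fintype.equivFin E e : Fin (Fintype.card E)) : ℕ)) T =
      T.card * 2 ^ Fintype.card E +
      ∑ k ∈ T.image (fun e => ((Fintype.equivFin E e : Fin (Fintype.card E)) : ℕ)), 2 ^ k := by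
  unfold wtE
  rw [Finset.sum_add_distrib, Finset.sum_const, smul_eq_mul, mrp_image_sum]

theorem mrp_lt (E : Type) [Fintype E] [DecidableEq E] (T : Finset E) :
    ∑ k ∈ T.image (fun e => ((Fintype.equivFin E e : Fin (Fintype.card E)) : ℕ)), 2 ^ k <
      2 ^ Fintype.card E := by
  refine Nat.geomSum_lt le_rfl ?_
  intro k hk
  obtain ⟨e, _, rfl⟩ := Finset.mem_image.1 hk
  exact (Fintype.equivFin E e).2

theorem exists_injW (E : Type) [Fintype E] [DecidableEq E] : ∃ m : E → ℕ, InjW m := by
  refine ⟨fun e : E => 2 ^ Fintype.card E +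
      2 ^ ((Fintype.equivFin E e : Fin (Fintype.card E)) : ℕ), ?_⟩
  have hcard : ∀ T T' : Finset E,
      wtE (fun e : E => 2 ^ Fintype.card E +
        2 ^ ((Fintype.equivFin E e : Fin (Fintype.card E)) : ℕ)) T ≤
      wtE (fun e : E => 2 ^ Fintype.card E +
        2 ^ ((Fintype.equivFin E e : Fin (Fintype.card E)) : ℕ)) T' → T.card ≤ T'.card := by
    intro T T' h
    by_contra hlt
    push Not at hlt
    rw [mrp_wt, mrp_wt] at h
    have h1 := mrp_lt E T'
    have h2 : (T'.card + 1) * 2 ^ Fintype.card E ≤ T.card * 2 ^ Fintype.card E :=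
      Nat.mul_le_mul_right _ hlt
    rw [Nat.add_mul, one_mul] at h2
    omega
  refine ⟨?_, hcard⟩
  intro T T' h
  have h1 : T.card = T'.card := le_antisymm (hcard T T' h.le) (hcard T' T h.ge)
  rw [mrp_wt, mrp_wt, h1] at h
  have h2 := Finset.geomSum_injective (n := 2) le_rfl (Nat.add_left_cancel h)
  refine Finset.image_injective ?_ h2
  intro a b hab
  exact (Fintype.equivFin E).injective (Fin.val_injective hab)

theorem minr_unique (hm : InjW m) {T : Finset E} {X : Finset Wv} (h1 : Minr src tgt m T)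
    (h2 : Minr src tgt m (symmDiff T (bd src tgt X))) : bd src tgt X = ∅ := by
  have h3 := h1 X
  have h4 := h2 X
  rw [symmDiff_symmDiff_cancel_right] at h4
  have h5 := hm.1 _ _ (le_antisymm h3 h4)
  have h6 : symmDiff T (bd src tgt X) = T := h5.symm
  have h7 := symmDiff_eq_left.1 h6
  rw [← Finset.bot_eq_empty]
  exact h7

theorem exists_minr (src tgt : E → Wv) (m : E → ℕ) (T : Finset E) :
    ∃ X : Finset Wv, Minr src tgt m (symmDiff T (bd src tgt X)) := by
  obtain ⟨X, _, hX⟩ := Finset.exists_min_image (Finset.univ : Finset (Finset Wv))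
    (fun X => wtE m (symmDiff T (bd src tgt X))) ⟨∅, Finset.mem_univ _⟩
  refine ⟨X, fun Y => ?_⟩
  have h1 := hX (symmDiff X Y) (Finset.mem_univ _)
  rw [bd_symmDiff, ← symmDiff_assoc] at h1
  exact h1

theorem minr_card (hm : InjW m) {T : Finset E} (h1 : Minr src tgt m T) (X : Finset Wv) :
    T.card ≤ (symmDiff T (bd src tgt X)).card := hm.2 _ _ (h1 X)

theorem mrp_wt_split (T C : Finset E) : wtE m T = wtE m (T \ C) + wtE m (T ∩ C) := by
  unfold wtE
  rw [← Finset.sum_union, Finset.sdiff_union_inter]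
  rw [Finset.disjoint_left]
  intro e he he'
  rw [Finset.mem_sdiff] at he
  rw [Finset.mem_inter] at he'
  exact he.2 he'.2

theorem mrp_wt_sd (T C : Finset E) :
    wtE m (symmDiff T C) = wtE m (T \ C) + wtE m (C \ T) := by
  unfold wtE
  have h1 : symmDiff T C = (T \ C) ∪ (C \ T) := rfl
  rw [h1, Finset.sum_union]
  rw [Finset.disjoint_left]
  intro e he he'
  rw [Finset.mem_sdiff] at he he'
  exact he'.2 he.1

theorem minr_split (hm : InjW m) {T3 T4 : Finset E} (h3 : Minr src tgt m T3)
    (h4 : Minr src tgt m T4) {A : Finset Wv} (hA : bd src tgt A ⊆ symmDiff T3 T4) :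
    bd src tgt A = ∅ := by
  have e1 : bd src tgt A \ T3 = T4 ∩ bd src tgt A := by
    ext e
    have h := @hA e
    rw [Finset.mem_symmDiff] at h
    rw [Finset.mem_sdiff, Finset.mem_inter]
    tauto
  have e2 : bd src tgt A \ T4 = T3 ∩ bd src tgt A := by
    ext e
    have h := @hA e
    rw [Finset.mem_symmDiff] at h
    rw [Finset.mem_sdiff, Finset.mem_inter]
    tauto
  have h5 := h3 A
  have h6 := h4 A
  rw [mrp_wt_sd, mrp_wt_split T3 (bd src tgt A), e1] at h5
  rw [mrp_wt_sd, mrp_wt_split T4 (bd src tgt A), e2] at h6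
  have h7 : T3 ∩ bd src tgt A = T4 ∩ bd src tgt A := hm.1 _ _ (by omega)
  rw [Finset.eq_empty_iff_forall_notMem]
  intro e he
  have h := hA he
  rw [Finset.mem_symmDiff] at h
  have h8 : e ∈ T3 ∩ bd src tgt A ↔ e ∈ T4 ∩ bd src tgt A := by rw [h7]
  rw [Finset.mem_inter, Finset.mem_inter] at h8
  tauto

open scoped Classical in
/-- every set of edges is in exactly one way the sum of a minimal one and a cut -/
theorem mrp_sum (h : GX src tgt D c0) (v : Wv) (hm : InjW m) (F : Finset E → ℝ) :
    ∑ T, F T = ∑ p ∈ ((univ : Finset (Finset E)).filter (fun T => Minr src tgt m T)) ×ˢ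
      ((univ : Finset Wv).erase v).powerset, F (symmDiff p.1 (bd src tgt p.2)) := by
  classical
  symm
  refine Finset.sum_bij (fun p _ => symmDiff p.1 (bd src tgt p.2)) (fun _ _ => Finset.mem_univ _)
    ?_ ?_ (fun _ _ => rfl)
  · rintro ⟨M, X⟩ hp ⟨M', X'⟩ hp' heq
    rw [Finset.mem_product, Finset.mem_filter, Finset.mem_powerset] at hp hp'
    dsimp only at hp hp' heq
    have h1 : M' = symmDiff M (bd src tgt (symmDiff X X')) := by
      rw [bd_symmDiff, ← symmDiff_assoc, heq, symmDiff_symmDiff_cancel_right]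
    have h2 : bd src tgt (symmDiff X X') = ∅ := by
      refine minr_unique hm hp.1.2 ?_
      rw [← h1]
      exact hp'.1.2
    have h3 : M' = M := by
      rw [h1, h2, ← Finset.bot_eq_empty, symmDiff_bot]
    have h4 : X = X' := by
      rcases con_of_cheeger h.cheeger _ h2 with h5 | h5
      · rw [← Finset.bot_eq_empty] at h5
        exact symmDiff_eq_bot.1 h5
      · exfalso
        have h6 : v ∈ symmDiff X X' := by
          rw [h5]
          exact Finset.mem_univ v
        rw [Finset.mem_symmDiff] at h6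
        rcases h6 with ⟨h7, _⟩ | ⟨h7, _⟩
        · exact Finset.notMem_erase v _ (hp.2 h7)
        · exact Finset.notMem_erase v _ (hp'.2 h7)
    rw [h3, h4]
  · intro T _
    obtain ⟨X0, hX0⟩ := exists_minr src tgt m T
    obtain ⟨X, hvX, hX⟩ : ∃ X : Finset Wv, v ∉ X ∧ bd src tgt X = bd src tgt X0 := by
      by_cases hv : v ∈ X0
      · exact ⟨X0ᶜ, by simpa using hv, bd_compl X0⟩
      · exact ⟨X0, hv, rfl⟩
    refine ⟨(symmDiff T (bd src tgt X0), X), ?_, ?_⟩
    · rw [Finset.mem_product, Finset.mem_filter, Finset.mem_powerset]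
      refine ⟨⟨Finset.mem_univ _, hX0⟩, ?_⟩
      intro w hw
      rw [Finset.mem_erase]
      exact ⟨fun h5 => hvX (h5 ▸ hw), Finset.mem_univ _⟩
    · dsimp only
      rw [hX, symmDiff_symmDiff_cancel_right]

theorem cf_expand (h : GX src tgt D c0) (hε : ∀ w, ε w * ε w = 1) (hm : InjW m)
    {g : (E → Bool) → ℝ} (hg : ∀ y, y ∉ Sol src tgt ε v → g y = 0) {y : E → Bool}
    (hy : y ∈ Sol src tgt ε v) : g y = ∑ T, cf src tgt ε v m g T * chi T y := by
  classical
  have h1 := inversion g y
  rw [mrp_sum h v hm, Finset.sum_product] at h1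
  have h2 : ∀ M ∈ (univ : Finset (Finset E)).filter (fun T => Minr src tgt m T),
      ∑ X ∈ ((univ : Finset Wv).erase v).powerset, W g (symmDiff M (bd src tgt X)) *
        chi (symmDiff M (bd src tgt X)) y =
      2 ^ (Fintype.card Wv - 1) * (W g M * chi M y) := by
    intro M _
    have h3 : ∀ X ∈ ((univ : Finset Wv).erase v).powerset, W g (symmDiff M (bd src tgt X)) *
        chi (symmDiff M (bd src tgt X)) y = W g M * chi M y := by
      intro X _
      rw [W_shift hg, ← chi_mul, chi_bd_Sol hy X]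
      have h4 := sX_mul_self (v := v) hε X
      linear_combination (W g M * chi M y) * h4
    rw [Finset.sum_congr rfl h3, Finset.sum_const, Finset.card_powerset,
      Finset.card_erase_of_mem (Finset.mem_univ v), Finset.card_univ, nsmul_eq_mul]
    push_cast
    ring
  dsimp only at h1
  rw [Finset.sum_congr rfl h2, ← Finset.mul_sum, ← card_Sol (ε := ε) (v := v) h hε] at h1
  have hS : (0 : ℝ) < (Sol src tgt ε v).card := by exact_mod_cast card_Sol_pos h hε
  have h5 : ∑ T, cf src tgt ε v m g T * chi T y =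
      (∑ M ∈ (univ : Finset (Finset E)).filter (fun T => Minr src tgt m T), W g M * chi M y) /
        ((Sol src tgt ε v).card : ℝ) := by
    rw [Finset.sum_div, Finset.sum_filter]
    refine Finset.sum_congr rfl fun T _ => ?_
    unfold cf
    by_cases hT : Minr src tgt m T
    · rw [if_pos hT, if_pos hT]
      ring
    · rw [if_neg hT, if_neg hT, zero_mul]
  rw [h5, eq_div_iff hS.ne']
  have h6 : (0 : ℝ) < 2 ^ (Fintype.card Wv - 1) := by positivity
  apply mul_left_cancel₀ h6.ne'
  linarith

theorem cf_zero {g : (E → Bool) → ℝ} {T : Finset E} (hT : ¬ Minr src tgt m T) :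
    cf src tgt ε v m g T = 0 := by
  unfold cf
  rw [if_neg hT]

theorem sum_sq_cf (h : GX src tgt D c0) (hε : ∀ w, ε w * ε w = 1) (hm : InjW m)
    {g : (E → Bool) → ℝ} (hg : ∀ y, y ∉ Sol src tgt ε v → g y = 0) :
    ∑ y, g y ^ 2 = ((Sol src tgt ε v).card : ℝ) * ∑ T, cf src tgt ε v m g T ^ 2 := by
  classical
  have h1 : ∑ y, g y ^ 2 = ∑ y ∈ Sol src tgt ε v, g y ^ 2 := by
    symm
    refine Finset.sum_subset (Finset.subset_univ _) ?_
    intro y _ hy
    rw [hg y hy]
    ring
  have h2 : ∀ y ∈ Sol src tgt ε v, g y ^ 2 = ∑ T, ∑ T', cf src tgt ε v m g T *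
      cf src tgt ε v m g T' * chi (symmDiff T T') y := by
    intro y hy
    rw [cf_expand h hε hm hg hy, sq, Finset.sum_mul_sum]
    refine Finset.sum_congr rfl fun T _ => Finset.sum_congr rfl fun T' _ => ?_
    rw [← chi_mul]
    ring
  rw [h1, Finset.sum_congr rfl h2, Finset.sum_comm, Finset.mul_sum]
  refine Finset.sum_congr rfl fun T _ => ?_
  rw [Finset.sum_comm]
  have h3 : ∀ T', ∑ y ∈ Sol src tgt ε v, cf src tgt ε v m g T * cf src tgt ε v m g T' *
      chi (symmDiff T T') y = if T' = T then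
        ((Sol src tgt ε v).card : ℝ) * cf src tgt ε v m g T ^ 2 else 0 := by
    intro T'
    rw [← Finset.mul_sum]
    by_cases hTT : T' = T
    · rw [if_pos hTT, hTT, symmDiff_self, Finset.bot_eq_empty]
      simp only [chi_empty]
      rw [Finset.sum_const, nsmul_eq_mul]
      ring
    · rw [if_neg hTT]
      by_cases hT : Minr src tgt m T
      · by_cases hT' : Minr src tgt m T'
        · rw [sum_Sol_ncut hε, mul_zero]
          intro X hX
          apply hTT
          have h4 : T' = symmDiff T (bd src tgt X) := by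
            rw [hX, symmDiff_symmDiff_cancel_left]
          have h5 : bd src tgt X = ∅ := by
            refine minr_unique hm hT ?_
            rw [← h4]
            exact hT'
          rw [h4, h5, ← Finset.bot_eq_empty, symmDiff_bot]
        · rw [cf_zero hT', mul_zero, zero_mul]
      · rw [cf_zero hT, zero_mul, zero_mul]
  rw [Finset.sum_congr rfl fun T' _ => h3 T', Finset.sum_ite_eq', if_pos (Finset.mem_univ T)]

end Pool.Agent.H3.Ex
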