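import Mathlib
import Pool.Agent.H3.Ex.Defs
import Pool.Agent.H3.Ex.BallDefs
import Pool.Agent.H3.Ex.Base
import Pool.Agent.H3.Ex.Cnx
import Pool.Agent.H3.Ex.Sol
import Pool.Agent.H3.Ex.Minr

/-!
# Module HC1: quadruples of minimal sets whose sum is a cut

* `quad_cut`: choose `X` with `bd X = T1 ∆ T2 ∆ T3 ∆ T4` and `2 |X| ≤ n` (`X` or `Xᶜ`, `bd_compl`).
  `|bd X| ≤ 4 d`, so `|X| ≤ 4 c0 d` (`pos_bd`). Let `A ⊆ X` be nonempty with no edge between `A` and
  `X \ A`. Then `bd A ⊆ bd X`. If `A` does not meet `ends (T1 ∪ T2)` then `bd A` is disjoint from `T1` and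
  `T2`, so `bd A ⊆ T3 ∆ T4` and `minr_split` gives `bd A = ∅`, a contradiction to `pos_bd` for `A`
  (`2 |A| ≤ n`). In the same way `A` meets `ends (T3 ∪ T4)`.
* `quad_sum`: `Σ_{y ∈ Sol} (Σ_T b T chi T y)^4 = Σ_{T1,T2,T3,T4} b1 b2 b3 b4
  Σ_{y ∈ Sol} chi (T1 ∆ T2 ∆ T3 ∆ T4) y`; the inner sum is at most `|Sol|` in absolute value, and `0`
  if the set is not a cut (`sum_Sol_ncut`, `sum_Sol_cut`, `sX_mul_self`). Let
  `s = 4 c0 d`, `N = 2^((4 + 4 c0 D) d)`, and `a_X (T, T') = |b T b T'|` if `|X| ≤ s` and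
  `cnx X (ends (T ∪ T'))`, `0` otherwise. For `b T, b T' ≠ 0` we have `|ends (T ∪ T')| ≤ 4 d`, so by
  `card_cnx_le` for fixed `T, T'` there are at most `N` sets `X` with `a_X (T, T') ≠ 0`. By `quad_cut`
  the sum is at most `|Sol| Σ_X Σ_{T1,T2,T3,T4 : T1 ∆ T2 ∆ T3 ∆ T4 = bd X} a_X (T1, T2) a_X (T3, T4)
  = |Sol| Σ_X Σ_S A_X S * A_X (S ∆ bd X)`, `A_X S = Σ_T a_X (T, T ∆ S)`, which is at most
  `|Sol| Σ_X Σ_S (A_X S)^2` (`2 x y ≤ x^2 + y^2`, `S ↦ S ∆ bd X` is a bijection). Finally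
  `Σ_X (A_X S)^2 = Σ_{T,T'} Σ_X a_X (T, T ∆ S) a_X (T', T' ∆ S)
  ≤ Σ_{T,T'} N |b T b (T ∆ S)| |b T' b (T' ∆ S)| = N (Σ_T |b T| |b (T ∆ S)|)^2`.
-/

set_option autoImplicit false
set_option linter.unusedSectionVars false

namespace Pool.Agent.H3.Ex

open Finset Pool.Agent.H3.Frg Pool.Agent.H3.Frg2 Pool.Agent.H3.Frg3

variable {E Wv : Type} [Fintype E] [DecidableEq E] [Fintype Wv] [DecidableEq Wv]
  {src tgt : E → Wv} {D c0 : ℕ} {ε : Wv → ℝ} {v : Wv} {m : E → ℕ}

private theorem hyp1_cnx (h : GX src tgt D c0) (hm : InjW m) {T1 T2 T3 T4 : Finset E}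
    (h3 : Minr src tgt m T3) (h4 : Minr src tgt m T4) {X : Finset Wv}
    (hX : bd src tgt X = symmDiff (symmDiff T1 T2) (symmDiff T3 T4))
    (h2 : 2 * X.card ≤ Fintype.card Wv) : cnx src tgt X (ends src tgt (T1 ∪ T2)) := by
  intro A hAX hA hno
  by_contra hcon
  rw [Finset.not_nonempty_iff_eq_empty] at hcon
  have hnot : ∀ e, (src e ∈ A ∨ tgt e ∈ A) → e ∉ T1 ∧ e ∉ T2 := by
    intro e he
    have hfalse : e ∉ T1 ∪ T2 := by
      intro heT
      rcases he with he | he
      · have : src e ∈ A ∩ ends src tgt (T1 ∪ T2) :=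
          Finset.mem_inter.2 ⟨he, mem_ends.2 ⟨e, heT, Or.inl rfl⟩⟩
        rw [hcon] at this
        exact Finset.notMem_empty _ this
      · have : tgt e ∈ A ∩ ends src tgt (T1 ∪ T2) :=
          Finset.mem_inter.2 ⟨he, mem_ends.2 ⟨e, heT, Or.inr rfl⟩⟩
        rw [hcon] at this
        exact Finset.notMem_empty _ this
    rw [Finset.mem_union, not_or] at hfalse
    exact hfalse
  have hsub : bd src tgt A ⊆ symmDiff T3 T4 := by
    intro e he
    rw [mem_bd] at he
    have hor : src e ∈ A ∨ tgt e ∈ A := by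
      by_contra hh
      rw [not_or] at hh
      exact he ⟨fun h => absurd h hh.1, fun h => absurd h hh.2⟩
    obtain ⟨n1, n2⟩ := hnot e hor
    have heX : e ∈ bd src tgt X := by
      rw [mem_bd]
      intro hiff
      apply he
      have hne := hno e
      rw [Finset.mem_sdiff, Finset.mem_sdiff] at hne
      constructor
      · intro hs
        by_contra ht
        exact hne.1 ⟨hs, hiff.1 (hAX hs), ht⟩
      · intro ht
        by_contra hs
        exact hne.2 ⟨ht, hiff.2 (hAX ht), hs⟩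
    rw [hX, Finset.mem_symmDiff, Finset.mem_symmDiff (s := T1)] at heX
    rcases heX with ⟨h5 | h5, -⟩ | ⟨h5, -⟩
    · exact absurd h5.1 n1
    · exact absurd h5.1 n2
    · exact h5
  have h5 := minr_split hm h3 h4 hsub
  have h6 := pos_bd h hA (by
    have := Finset.card_le_card hAX
    omega)
  rw [h5, Finset.card_empty, mul_zero] at h6
  have := hA.card_pos
  omega

theorem quad_cut (h : GX src tgt D c0) (hm : InjW m) {d : ℕ} {T1 T2 T3 T4 : Finset E}
    (h1 : Minr src tgt m T1) (h2 : Minr src tgt m T2) (h3 : Minr src tgt m T3)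
    (h4 : Minr src tgt m T4) (c1 : T1.card ≤ d) (c2 : T2.card ≤ d) (c3 : T3.card ≤ d)
    (c4 : T4.card ≤ d) {X0 : Finset Wv}
    (hX : bd src tgt X0 = symmDiff (symmDiff T1 T2) (symmDiff T3 T4)) :
    ∃ X : Finset Wv, bd src tgt X = symmDiff (symmDiff T1 T2) (symmDiff T3 T4) ∧
      X.card ≤ 4 * c0 * d ∧ cnx src tgt X (ends src tgt (T1 ∪ T2)) ∧
      cnx src tgt X (ends src tgt (T3 ∪ T4)) := by
  obtain ⟨X, hXX, hX2⟩ : ∃ X : Finset Wv,
      bd src tgt X = symmDiff (symmDiff T1 T2) (symmDiff T3 T4) ∧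
      2 * X.card ≤ Fintype.card Wv := by
    by_cases hc : 2 * X0.card ≤ Fintype.card Wv
    · exact ⟨X0, hX, hc⟩
    · refine ⟨X0ᶜ, ?_, ?_⟩
      · rw [bd_compl, hX]
      · rw [Finset.card_compl]
        omega
  refine ⟨X, hXX, ?_, hyp1_cnx h hm h3 h4 hXX hX2, hyp1_cnx h hm h1 h2 ?_ hX2⟩
  · rcases X.eq_empty_or_nonempty with rfl | hne
    · simp
    · have h5 := pos_bd h hne hX2
      have h6 : (bd src tgt X).card ≤ 4 * d := by
        rw [hXX]
        have a1 := card_symmDiff_le' (symmDiff T1 T2) (symmDiff T3 T4)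
        have a2 := card_symmDiff_le' T1 T2
        have a3 := card_symmDiff_le' T3 T4
        omega
      calc X.card ≤ c0 * (bd src tgt X).card := h5
        _ ≤ c0 * (4 * d) := Nat.mul_le_mul_left _ h6
        _ = 4 * c0 * d := by ring
  · rw [hXX, symmDiff_comm]

private theorem hyp1_sd {α : Type} [DecidableEq α] (A B C : Finset α) :
    symmDiff A B = C ↔ B = symmDiff A C := by
  constructor
  · rintro rfl
    exact (sd_sd A B).symm
  · rintro rfl
    exact sd_sd A C

private theorem hyp1_pairs (f : Finset E × Finset E → ℝ) (S : Finset E) :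
    ∑ p : Finset E × Finset E, (if symmDiff p.1 p.2 = S then f p else 0) =
      ∑ T, f (T, symmDiff T S) := by
  rw [Fintype.sum_prod_type]
  refine Finset.sum_congr rfl fun T _ => ?_
  simp only [hyp1_sd]
  rw [Finset.sum_ite_eq', if_pos (Finset.mem_univ _)]

private theorem hyp1_conv (a : Finset E × Finset E → ℝ) (C : Finset E) :
    ∑ p : Finset E × Finset E, ∑ p' : Finset E × Finset E,
      (if C = symmDiff (symmDiff p.1 p.2) (symmDiff p'.1 p'.2) then a p * a p' else 0) ≤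
      ∑ S : Finset E, (∑ T, a (T, symmDiff T S)) ^ 2 := by
  obtain ⟨A, hA⟩ : ∃ A : Finset E → ℝ, A = fun S => ∑ T, a (T, symmDiff T S) := ⟨_, rfl⟩
  have hA' : ∀ S, A S = ∑ p : Finset E × Finset E, (if symmDiff p.1 p.2 = S then a p else 0) := by
    intro S
    rw [hyp1_pairs, hA]
  have e1 : ∀ p : Finset E × Finset E, ∑ p' : Finset E × Finset E,
      (if C = symmDiff (symmDiff p.1 p.2) (symmDiff p'.1 p'.2) then a p * a p' else 0) =
      a p * A (symmDiff (symmDiff p.1 p.2) C) := by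
    intro p
    rw [hA', Finset.mul_sum]
    refine Finset.sum_congr rfl fun p' _ => ?_
    rw [mul_ite, mul_zero]
    refine if_congr ?_ rfl rfl
    rw [eq_comm, hyp1_sd]
  have e2 : ∑ p : Finset E × Finset E, a p * A (symmDiff (symmDiff p.1 p.2) C) =
      ∑ S, A S * A (symmDiff S C) := by
    have e3 : ∀ S, A S * A (symmDiff S C) = ∑ p : Finset E × Finset E,
        (if symmDiff p.1 p.2 = S then a p * A (symmDiff S C) else 0) := by
      intro S
      rw [hA' S, Finset.sum_mul]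
      refine Finset.sum_congr rfl fun p _ => ?_
      rw [ite_mul, zero_mul]
    simp only [e3]
    rw [Finset.sum_comm]
    refine Finset.sum_congr rfl fun p _ => ?_
    rw [Finset.sum_ite_eq, if_pos (Finset.mem_univ _)]
  have e4 : ∑ S, A (symmDiff S C) ^ 2 = ∑ S, A S ^ 2 := by
    have hinv : Function.Involutive (fun S : Finset E => symmDiff S C) := by
      intro S
      show symmDiff (symmDiff S C) C = S
      rw [symmDiff_comm, symmDiff_comm S C]
      exact sd_sd C S
    exact Fintype.sum_bijective _ hinv.bijective _ _ fun S => rfl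
  rw [Finset.sum_congr rfl fun p _ => e1 p, e2]
  have e5 : ∑ S, A S * A (symmDiff S C) ≤ ∑ S, (A S ^ 2 + A (symmDiff S C) ^ 2) / 2 := by
    refine Finset.sum_le_sum fun S _ => ?_
    nlinarith [sq_nonneg (A S - A (symmDiff S C))]
  rw [← Finset.sum_div, Finset.sum_add_distrib, e4] at e5
  have e6 : ∑ S : Finset E, (∑ T, a (T, symmDiff T S)) ^ 2 = ∑ S, A S ^ 2 := by
    rw [hA]
  rw [e6]
  linarith

private theorem hyp1_sq {ι κ : Type} [Fintype ι] [Fintype κ] (B : κ → ℝ) (hB : ∀ T, 0 ≤ B T)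
    (u : ι → κ → ℝ) (h0 : ∀ X T, 0 ≤ u X T) (h1 : ∀ X T, u X T ≤ 1) (N : ℝ)
    (hN : ∀ T, ∑ X, u X T * B T ≤ N * B T) :
    ∑ X, (∑ T, u X T * B T) ^ 2 ≤ N * (∑ T, B T) ^ 2 := by
  have hs : 0 ≤ ∑ T, B T := Finset.sum_nonneg fun T _ => hB T
  calc ∑ X, (∑ T, u X T * B T) ^ 2 ≤ ∑ X, (∑ T, u X T * B T) * ∑ T, B T := by
        refine Finset.sum_le_sum fun X _ => ?_
        rw [sq]
        refine mul_le_mul_of_nonneg_left ?_
          (Finset.sum_nonneg fun T _ => mul_nonneg (h0 X T) (hB T))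
        refine Finset.sum_le_sum fun T _ => ?_
        have := mul_le_mul_of_nonneg_right (h1 X T) (hB T)
        linarith
    _ = (∑ T, ∑ X, u X T * B T) * ∑ T, B T := by
        rw [← Finset.sum_mul, Finset.sum_comm]
    _ ≤ (∑ T, N * B T) * ∑ T, B T :=
        mul_le_mul_of_nonneg_right (Finset.sum_le_sum fun T _ => hN T) hs
    _ = N * (∑ T, B T) ^ 2 := by
        rw [← Finset.mul_sum]
        ring

open scoped Classical in
private noncomputable def hyp1_u (src tgt : E → Wv) (s : ℕ) (X : Finset Wv)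
    (p : Finset E × Finset E) : ℝ :=
  @ite ℝ (X.card ≤ s ∧ cnx src tgt X (ends src tgt (p.1 ∪ p.2))) (Classical.propDecidable _) 1 0

private theorem hyp1_u_pos {s : ℕ} {X : Finset Wv} {p : Finset E × Finset E}
    (hX : X.card ≤ s) (hc : cnx src tgt X (ends src tgt (p.1 ∪ p.2))) :
    hyp1_u src tgt s X p = 1 := if_pos ⟨hX, hc⟩

private theorem hyp1_u_zero (s : ℕ) (X : Finset Wv) (p : Finset E × Finset E) :
    0 ≤ hyp1_u src tgt s X p := by
  unfold hyp1_u
  split_ifs <;> norm_num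

private theorem hyp1_u_one (s : ℕ) (X : Finset Wv) (p : Finset E × Finset E) :
    hyp1_u src tgt s X p ≤ 1 := by
  unfold hyp1_u
  split_ifs <;> norm_num

open scoped Classical in
private theorem hyp1_u_sum (h : GX src tgt D c0) (s : ℕ) (p : Finset E × Finset E) :
    ∑ X, hyp1_u src tgt s X p ≤ (2 : ℝ) ^ ((ends src tgt (p.1 ∪ p.2)).card + D * s) := by
  have h4 := card_cnx_le h s (ends src tgt (p.1 ∪ p.2))
  have h5 : ∀ X ∈ (univ : Finset (Finset Wv)), hyp1_u src tgt s X p ≠ 0 →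
      X.card ≤ s ∧ cnx src tgt X (ends src tgt (p.1 ∪ p.2)) := by
    intro X _ hX
    by_contra hcon
    exact hX (if_neg hcon)
  rw [← Finset.sum_filter_of_ne h5]
  refine (Finset.sum_le_card_nsmul _ _ 1 fun X _ => hyp1_u_one s X p).trans ?_
  rw [nsmul_eq_mul, mul_one]
  have h6 : ((((univ : Finset (Finset Wv)).filter fun X =>
      X.card ≤ s ∧ cnx src tgt X (ends src tgt (p.1 ∪ p.2))).card : ℕ) : ℝ) ≤
      ((2 ^ ((ends src tgt (p.1 ∪ p.2)).card + D * s) : ℕ) : ℝ) := Nat.cast_le.2 h4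
  rw [Nat.cast_pow, Nat.cast_ofNat] at h6
  exact h6

theorem quad_sum (h : GX src tgt D c0) (hε : ∀ w, ε w * ε w = 1) (hm : InjW m) {d : ℕ}
    (b : Finset E → ℝ) (hb : ∀ T, b T ≠ 0 → Minr src tgt m T ∧ T.card ≤ d) :
    ∑ y ∈ Sol src tgt ε v, (∑ T, b T * chi T y) ^ 4 ≤
      ((Sol src tgt ε v).card : ℝ) * 2 ^ ((4 + 4 * c0 * D) * d) *
        ∑ S : Finset E, (∑ T : Finset E, |b T| * |b (symmDiff T S)|) ^ 2 := by
  classical
  obtain ⟨u, hu⟩ : ∃ u : Finset Wv → Finset E × Finset E → ℝ, u = hyp1_u src tgt (4 * c0 * d) :=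
    ⟨_, rfl⟩
  have hu0 : ∀ X p, 0 ≤ u X p := by
    rw [hu]
    exact hyp1_u_zero _
  have hu1 : ∀ X p, u X p ≤ 1 := by
    rw [hu]
    exact hyp1_u_one _
  obtain ⟨a, ha⟩ : ∃ a : Finset Wv → Finset E × Finset E → ℝ, a = fun X p =>
      u X p * (|b p.1| * |b p.2|) := ⟨_, rfl⟩
  have ha0 : ∀ X p, 0 ≤ a X p := by
    intro X p
    rw [ha]
    exact mul_nonneg (hu0 X p) (by positivity)
  -- number of sets
  have hN : ∀ p : Finset E × Finset E, ∑ X, u X p * (|b p.1| * |b p.2|) ≤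
      (2 : ℝ) ^ ((4 + 4 * c0 * D) * d) * (|b p.1| * |b p.2|) := by
    intro p
    by_cases h1 : b p.1 = 0
    · simp [h1]
    by_cases h2 : b p.2 = 0
    · simp [h2]
    rw [← Finset.sum_mul]
    refine mul_le_mul_of_nonneg_right ?_ (by positivity)
    have h4 := hyp1_u_sum h (4 * c0 * d) p
    have h5 : (ends src tgt (p.1 ∪ p.2)).card + D * (4 * c0 * d) ≤ (4 + 4 * c0 * D) * d := by
      have h6 := card_ends_le (src := src) (tgt := tgt) (p.1 ∪ p.2)
      have h7 := Finset.card_union_le p.1 p.2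
      have h8 := (hb _ h1).2
      have h9 := (hb _ h2).2
      have h10 : (4 + 4 * c0 * D) * d = 4 * d + D * (4 * c0 * d) := by ring
      omega
    rw [hu]
    exact h4.trans (pow_le_pow_right₀ (by norm_num) h5)
  -- the expansion
  have hq : ∀ y, (∑ T, b T * chi T y) ^ 4 = ∑ p : Finset E × Finset E, ∑ p' : Finset E × Finset E,
      (b p.1 * b p.2 * (b p'.1 * b p'.2)) *
        chi (symmDiff (symmDiff p.1 p.2) (symmDiff p'.1 p'.2)) y := by
    intro y
    have h2 : (∑ T, b T * chi T y) ^ 2 = ∑ p : Finset E × Finset E,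
        b p.1 * b p.2 * chi (symmDiff p.1 p.2) y := by
      rw [sq, Finset.sum_mul_sum, Fintype.sum_prod_type]
      refine Finset.sum_congr rfl fun T _ => Finset.sum_congr rfl fun T' _ => ?_
      rw [← chi_mul]
      ring
    have h3 : (∑ T, b T * chi T y) ^ 4 = (∑ T, b T * chi T y) ^ 2 * (∑ T, b T * chi T y) ^ 2 := by
      ring
    rw [h3, h2, Finset.sum_mul_sum]
    refine Finset.sum_congr rfl fun p _ => Finset.sum_congr rfl fun p' _ => ?_
    rw [← chi_mul (symmDiff p.1 p.2) (symmDiff p'.1 p'.2)]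
    ring
  have hL : ∑ y ∈ Sol src tgt ε v, (∑ T, b T * chi T y) ^ 4 =
      ∑ p : Finset E × Finset E, ∑ p' : Finset E × Finset E,
      (b p.1 * b p.2 * (b p'.1 * b p'.2)) * ∑ y ∈ Sol src tgt ε v,
        chi (symmDiff (symmDiff p.1 p.2) (symmDiff p'.1 p'.2)) y := by
    rw [Finset.sum_congr rfl fun y _ => hq y, Finset.sum_comm]
    refine Finset.sum_congr rfl fun p _ => ?_
    rw [Finset.sum_comm]
    refine Finset.sum_congr rfl fun p' _ => ?_
    rw [Finset.mul_sum]
  -- the estimate for every quadruple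
  have hT : ∀ p p' : Finset E × Finset E,
      (b p.1 * b p.2 * (b p'.1 * b p'.2)) * ∑ y ∈ Sol src tgt ε v,
        chi (symmDiff (symmDiff p.1 p.2) (symmDiff p'.1 p'.2)) y ≤
      ((Sol src tgt ε v).card : ℝ) * ∑ X : Finset Wv,
        (if bd src tgt X = symmDiff (symmDiff p.1 p.2) (symmDiff p'.1 p'.2) then
          a X p * a X p' else 0) := by
    intro p p'
    have hr : 0 ≤ ((Sol src tgt ε v).card : ℝ) * ∑ X : Finset Wv,
        (if bd src tgt X = symmDiff (symmDiff p.1 p.2) (symmDiff p'.1 p'.2) then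
          a X p * a X p' else 0) := by
      refine mul_nonneg (Nat.cast_nonneg _) (Finset.sum_nonneg fun X _ => ?_)
      split_ifs
      · exact mul_nonneg (ha0 _ _) (ha0 _ _)
      · exact le_rfl
    by_cases h0 : b p.1 * b p.2 * (b p'.1 * b p'.2) = 0
    · rw [h0, zero_mul]
      exact hr
    have h01 := left_ne_zero_of_mul h0
    have h02 := right_ne_zero_of_mul h0
    have g1 := hb _ (left_ne_zero_of_mul h01)
    have g2 := hb _ (right_ne_zero_of_mul h01)
    have g3 := hb _ (left_ne_zero_of_mul h02)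
    have g4 := hb _ (right_ne_zero_of_mul h02)
    by_cases hcut : ∀ X : Finset Wv,
        bd src tgt X ≠ symmDiff (symmDiff p.1 p.2) (symmDiff p'.1 p'.2)
    · rw [sum_Sol_ncut hε hcut, mul_zero]
      exact hr
    push Not at hcut
    obtain ⟨X0, hX0⟩ := hcut
    obtain ⟨X, hX, hX1, hX2, hX3⟩ := quad_cut h hm g1.1 g2.1 g3.1 g4.1 g1.2 g2.2 g3.2 g4.2 hX0
    have hs := sX_mul_self (v := v) hε X
    have hsabs : |sX ε v X| = 1 := by
      have h5 : |sX ε v X| * |sX ε v X| = 1 := by rw [← abs_mul, hs, abs_one]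
      have h6 := abs_nonneg (sX ε v X)
      nlinarith
    have hle : (b p.1 * b p.2 * (b p'.1 * b p'.2)) * sX ε v X ≤ a X p * a X p' := by
      have hap : a X p = |b p.1| * |b p.2| := by
        rw [ha, hu]
        dsimp only
        rw [hyp1_u_pos hX1 hX2, one_mul]
      have hap' : a X p' = |b p'.1| * |b p'.2| := by
        rw [ha, hu]
        dsimp only
        rw [hyp1_u_pos hX1 hX3, one_mul]
      rw [hap, hap']
      refine (le_abs_self _).trans ?_
      rw [abs_mul, hsabs, mul_one, abs_mul, abs_mul, abs_mul]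
    have hsingle : a X p * a X p' ≤ ∑ X : Finset Wv,
        (if bd src tgt X = symmDiff (symmDiff p.1 p.2) (symmDiff p'.1 p'.2) then
          a X p * a X p' else 0) := by
      have h5 := Finset.single_le_sum (f := fun X : Finset Wv =>
        (if bd src tgt X = symmDiff (symmDiff p.1 p.2) (symmDiff p'.1 p'.2) then
          a X p * a X p' else 0)) (fun X _ => by
            split_ifs
            · exact mul_nonneg (ha0 _ _) (ha0 _ _)
            · exact le_rfl) (Finset.mem_univ X)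
      rw [if_pos hX] at h5
      exact h5
    rw [← hX, sum_Sol_cut]
    calc (b p.1 * b p.2 * (b p'.1 * b p'.2)) * (((Sol src tgt ε v).card : ℝ) * sX ε v X) =
        ((Sol src tgt ε v).card : ℝ) * ((b p.1 * b p.2 * (b p'.1 * b p'.2)) * sX ε v X) := by ring
      _ ≤ ((Sol src tgt ε v).card : ℝ) * (a X p * a X p') :=
        mul_le_mul_of_nonneg_left hle (Nat.cast_nonneg _)
      _ ≤ _ := by
        rw [hX]
        exact mul_le_mul_of_nonneg_left hsingle (Nat.cast_nonneg _)
  rw [hL]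
  calc _ ≤ ∑ p : Finset E × Finset E, ∑ p' : Finset E × Finset E,
      ((Sol src tgt ε v).card : ℝ) * ∑ X : Finset Wv,
        (if bd src tgt X = symmDiff (symmDiff p.1 p.2) (symmDiff p'.1 p'.2) then
          a X p * a X p' else 0) :=
        Finset.sum_le_sum fun p _ => Finset.sum_le_sum fun p' _ => hT p p'
    _ = ((Sol src tgt ε v).card : ℝ) * ∑ X : Finset Wv, ∑ p : Finset E × Finset E,
        ∑ p' : Finset E × Finset E,
        (if bd src tgt X = symmDiff (symmDiff p.1 p.2) (symmDiff p'.1 p'.2) then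
          a X p * a X p' else 0) := by
        simp only [← Finset.mul_sum]
        congr 1
        rw [Finset.sum_comm]
        have e1 : ∀ p : Finset E × Finset E, ∑ p' : Finset E × Finset E, ∑ X : Finset Wv,
            (if bd src tgt X = symmDiff (symmDiff p.1 p.2) (symmDiff p'.1 p'.2) then
              a X p * a X p' else 0) = ∑ X : Finset Wv, ∑ p' : Finset E × Finset E,
            (if bd src tgt X = symmDiff (symmDiff p.1 p.2) (symmDiff p'.1 p'.2) then
              a X p * a X p' else 0) := fun p => Finset.sum_comm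
        rw [Finset.sum_comm]
        rw [Finset.sum_congr rfl fun p _ => e1 p, Finset.sum_comm]
    _ ≤ ((Sol src tgt ε v).card : ℝ) * ∑ X : Finset Wv,
        ∑ S : Finset E, (∑ T, a X (T, symmDiff T S)) ^ 2 :=
        mul_le_mul_of_nonneg_left (Finset.sum_le_sum fun X _ => hyp1_conv (a X) (bd src tgt X))
          (Nat.cast_nonneg _)
    _ = ((Sol src tgt ε v).card : ℝ) * ∑ S : Finset E, ∑ X : Finset Wv,
        (∑ T, a X (T, symmDiff T S)) ^ 2 := by
        rw [Finset.sum_comm]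
    _ ≤ ((Sol src tgt ε v).card : ℝ) * ∑ S : Finset E, 2 ^ ((4 + 4 * c0 * D) * d) *
        (∑ T : Finset E, |b T| * |b (symmDiff T S)|) ^ 2 := by
        refine mul_le_mul_of_nonneg_left (Finset.sum_le_sum fun S _ => ?_) (Nat.cast_nonneg _)
        have h5 := hyp1_sq (fun T : Finset E => |b T| * |b (symmDiff T S)|)
          (fun T => by positivity) (fun (X : Finset Wv) (T : Finset E) => u X (T, symmDiff T S))
          (fun X T => hu0 _ _) (fun X T => hu1 _ _) ((2 : ℝ) ^ ((4 + 4 * c0 * D) * d))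
          (fun T => hN (T, symmDiff T S))
        rw [ha]
        exact h5
    _ = _ := by
        rw [← Finset.mul_sum]
        ring

end Pool.Agent.H3.Ex
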