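import Mathlib
import Pool.Agent.H3.Ex.Defs
import Pool.Agent.H3.Ex.BallDefs
import Pool.Agent.H3.Ex.Base
import Pool.Agent.H3.Ex.Bona
import Pool.Agent.H3.Ex.Sol
import Pool.Agent.H3.Ex.Minr
import Pool.Agent.H3.Ex.Hyp1

set_option autoImplicit false
set_option linter.unusedSectionVars false

/-!
# Module HC2: hypercontractivity on the worlds

* `conv_le`: let `q x = Σ_T a T chi T x`, `Dg q d`. The transform of `q^2` is
  `W (q^2) S = 2^|E| Σ_T a T a (T ∆ S)`, so by `parseval` for `q^2`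
  `2^|E| Σ_x q^4 = 4^|E| Σ_S (Σ_T a T a (T ∆ S))^2`; `Σ_x q^2 = 2^|E| Σ_T (a T)^2` (`parseval`,
  `W_syn` of `Frg/Fourier.lean`), and `bonami`.
* `hyper_sol`: `m` from `exists_injW`, `b = cf v m g`. If `b T ≠ 0` then `T` is minimal, `W g T ≠ 0`, so by
  `hd` and `minr_card` `|T| ≤ d`. By `cf_expand` and `quad_sum`
  `Σ_y g^4 ≤ |Sol| 2^((4 + 4 c0 D) d) Σ_S (..)^2`, by `conv_le` (`a = |b|`) the last sum is at most
  `9^d (Σ_T b T^2)^2`, and `sum_sq_cf`.
-/

namespace Pool.Agent.H3.Ex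

open Finset Pool.Agent.H3.Frg Pool.Agent.H3.Frg2 Pool.Agent.H3.Frg3

variable {E Wv : Type} [Fintype E] [DecidableEq E] [Fintype Wv] [DecidableEq Wv]
  {src tgt : E → Wv} {D c0 : ℕ} {ε : Wv → ℝ} {v : Wv}

private theorem hyp2_sq (a : Finset E → ℝ) (x : E → Bool) :
    syn a x ^ 2 = syn (fun S => ∑ T : Finset E, a T * a (symmDiff T S)) x := by
  unfold syn
  rw [sq, Finset.sum_mul_sum]
  simp only [Finset.sum_mul]
  rw [Finset.sum_comm (s := (univ : Finset (Finset E))) (t := (univ : Finset (Finset E)))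
    (f := fun S T => a T * a (symmDiff T S) * chi S x)]
  refine Finset.sum_congr rfl fun T _ => ?_
  have hinv : Function.Involutive (fun S : Finset E => symmDiff T S) := by
    intro S
    show symmDiff T (symmDiff T S) = S
    rw [← symmDiff_assoc, symmDiff_self, bot_symmDiff]
  refine Fintype.sum_bijective _ hinv.bijective _ _ fun S => ?_
  have h1 : symmDiff T (symmDiff T S) = S := hinv S
  rw [h1, ← chi_mul]
  ring

theorem conv_le {d : ℕ} (a : Finset E → ℝ) (ha : ∀ T, d < T.card → a T = 0) :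
    ∑ S : Finset E, (∑ T : Finset E, a T * a (symmDiff T S)) ^ 2 ≤
      9 ^ d * (∑ T : Finset E, a T ^ 2) ^ 2 := by
  have hDg : Dg (syn a) d := by
    intro T hT
    rw [W_syn, ha T hT, mul_zero]
  have h1 := bonami (syn a) d hDg
  have h2 := parseval (syn a)
  have h3 := parseval (fun x => syn a x ^ 2)
  have h4 : (fun x => syn a x ^ 2) = syn (fun S => ∑ T : Finset E, a T * a (symmDiff T S)) :=
    funext fun x => hyp2_sq a x
  rw [h4] at h3
  simp only [W_syn] at h2 h3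
  have h5 : ∀ x : E → Bool, (syn a x ^ 2) ^ 2 = syn a x ^ 4 := fun x => by ring
  simp only [h5, mul_pow, ← Finset.mul_sum] at h2 h3
  set n : ℝ := (2 : ℝ) ^ Fintype.card E with hn
  have hn0 : 0 < n := by positivity
  set P : ℝ := ∑ S : Finset E, (∑ T : Finset E, a T * a (symmDiff T S)) ^ 2 with hP
  set Q : ℝ := ∑ T : Finset E, a T ^ 2 with hQ
  have h6 : ∑ x, syn a x ^ 2 = n * Q := by
    have h7 : n * (∑ x, syn a x ^ 2) = n * (n * Q) := by rw [← h2]; ring
    exact mul_left_cancel₀ hn0.ne' h7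
  rw [h6, ← h3] at h1
  have h8 : n ^ 2 * P ≤ n ^ 2 * (9 ^ d * Q ^ 2) := by
    calc n ^ 2 * P ≤ 9 ^ d * (n * Q) ^ 2 := h1
      _ = n ^ 2 * (9 ^ d * Q ^ 2) := by ring
  exact le_of_mul_le_mul_left h8 (by positivity)

theorem hyper_sol (h : GX src tgt D c0) (hε : ∀ w, ε w * ε w = 1) {g : (E → Bool) → ℝ}
    (hg : ∀ y, y ∉ Sol src tgt ε v → g y = 0) {d : ℕ}
    (hd : ∀ T, W g T ≠ 0 → ∃ X : Finset Wv, (symmDiff T (bd src tgt X)).card ≤ d) :
    ((Sol src tgt ε v).card : ℝ) * ∑ y, g y ^ 4 ≤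
      (Kh D c0 : ℝ) ^ d * (∑ y, g y ^ 2) ^ 2 := by
  classical
  obtain ⟨m, hm⟩ := exists_injW E
  obtain ⟨b, hb⟩ : ∃ b : Finset E → ℝ, b = cf src tgt ε v m g := ⟨_, rfl⟩
  have hb1 : ∀ T, b T ≠ 0 → Minr src tgt m T ∧ T.card ≤ d := by
    intro T hT
    have h1 : Minr src tgt m T := by
      by_contra hcon
      exact hT (by rw [hb]; exact cf_zero hcon)
    refine ⟨h1, ?_⟩
    have h2 : W g T ≠ 0 := by
      intro h0
      apply hT
      rw [hb]
      unfold cf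
      rw [h0]
      simp
    obtain ⟨X, hX⟩ := hd T h2
    exact (minr_card hm h1 X).trans hX
  have h1 := quad_sum (v := v) h hε hm b hb1
  have h2 : ∑ y, g y ^ 4 = ∑ y ∈ Sol src tgt ε v, (∑ T, b T * chi T y) ^ 4 := by
    rw [← Finset.sum_subset (Finset.subset_univ (Sol src tgt ε v))]
    · refine Finset.sum_congr rfl fun y hy => ?_
      rw [hb, ← cf_expand h hε hm hg hy]
    · intro y _ hy
      rw [hg y hy]
      norm_num
  have h3 := conv_le (d := d) (fun T => |b T|) (by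
    intro T hT
    by_contra hcon
    have h4 : b T ≠ 0 := fun h0 => hcon (by rw [h0, abs_zero])
    have := (hb1 T h4).2
    omega)
  have h4 := sum_sq_cf h hε hm hg
  rw [← hb] at h4
  simp only [sq_abs] at h3
  set s : ℝ := ((Sol src tgt ε v).card : ℝ) with hs
  have hs0 : 0 ≤ s := Nat.cast_nonneg _
  have hK : ((Kh D c0 : ℕ) : ℝ) ^ d = 9 ^ d * 2 ^ ((4 + 4 * c0 * D) * d) := by
    unfold Kh
    push_cast
    rw [mul_pow, ← pow_mul]
  rw [h2, h4, hK]
  calc s * ∑ y ∈ Sol src tgt ε v, (∑ T, b T * chi T y) ^ 4 ≤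
      s * (s * 2 ^ ((4 + 4 * c0 * D) * d) *
        ∑ S : Finset E, (∑ T : Finset E, |b T| * |b (symmDiff T S)|) ^ 2) :=
        mul_le_mul_of_nonneg_left h1 hs0
    _ ≤ s * (s * 2 ^ ((4 + 4 * c0 * D) * d) * (9 ^ d * (∑ T : Finset E, b T ^ 2) ^ 2)) := by
        refine mul_le_mul_of_nonneg_left ?_ hs0
        exact mul_le_mul_of_nonneg_left h3 (by positivity)
    _ = 9 ^ d * 2 ^ ((4 + 4 * c0 * D) * d) * (s * ∑ T : Finset E, b T ^ 2) ^ 2 := by ring

end Pool.Agent.H3.Ex
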