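import Mathlib
import Pool.Agent.H3.Ex.Defs
import Pool.Agent.H3.Ex.BallDefs
import Pool.Agent.H3.Ex.Base

set_option autoImplicit false
set_option linter.unusedSectionVars false

/-!
# Module BG1: weighted balls

* `ball_self`: `R = ∅`, `odv_empty`, `symmDiff_self`. `ball_symm`: `symmDiff_comm`.
* `ball_trans`: `R ∆ R'`; `wtE w (R ∆ R') ≤ wtE w R + wtE w R'`; `odv_symmDiff`.
* `notMem_ball`: `v ∈ odv R = {x0} ∆ {v}` but `R ∩ bd {v} = ∅`.
* `ball_step`: `R ∆ {e}` (`odv_singleton`): if one end of `e ∉ bd {v}` is in the ball of radius `r`,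
  then both ends are in the ball of radius `r + w e`.
* `card_window`: if `e ∈ dB r` then `e ∉ bd {v}` and one end of `e` is in `ball r`, so for
  `r' ≥ r + w e` both ends are in `ball r'` (`ball_step`, `ball_mono`) and `e ∉ dB r'`. So all `r` with
  `e ∈ dB r` are in `[r0, r0 + w e)`, where `r0` is the smallest one.
* `sum_dB`: exchange the sums and `card_window`.
* `small_part`: for a set `X` with `v ∉ X`, `bd X ⊆ bd {v}` let `P X` be `|X| ≤ c0 |bd X|`. If
  `2 |X| ≤ n` then `P X` (`pos_bd`, or `X = ∅`). If `P X1`, and `X2` has `2 |X2| ≤ n` (both with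
  `v ∉ X`, `bd X ⊆ bd {v}`), then also `P (X1 ∪ X2)`: replace `X2` by `X2 \ X1` (again
  `bd (X2 \ X1) ⊆ bd {v}`); there is no edge between `X1` and `X2 \ X1` (it would be in
  `bd X1 ⊆ bd {v}`, but both ends are different from `v`), so
  `|bd (X1 ∪ X2)| = |bd X1| + |bd (X2 \ X1)|`. By induction `P` holds for the union `Xs` of all `X`
  with `v ∉ X`, `bd X ⊆ bd {v}`, `2 |X| ≤ n`, and `|bd Xs| ≤ |bd {v}| ≤ D`.
-/

namespace Pool.Agent.H3.Ex

open Finset Pool.Agent.H3.Frg Pool.Agent.H3.Frg2 Pool.Agent.H3.Frg3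

variable {E Wv : Type} [Fintype E] [DecidableEq E] [Fintype Wv] [DecidableEq Wv]
  {src tgt : E → Wv} {D c0 : ℕ} {v : Wv} {w : E → ℕ}

theorem mem_ball {x0 x : Wv} {r : ℕ} : x ∈ ball src tgt v w x0 r ↔
    ∃ R : Finset E, Disjoint R (bd src tgt {v}) ∧ odv src tgt R = symmDiff {x0} {x} ∧
      wtE w R ≤ r := by
  classical
  unfold ball
  rw [Finset.mem_filter]
  exact ⟨fun h => h.2, fun h => ⟨Finset.mem_univ _, h⟩⟩

theorem wtE_symmDiff_le (R R' : Finset E) : wtE w (symmDiff R R') ≤ wtE w R + wtE w R' := by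
  unfold wtE
  have h1 : symmDiff R R' ⊆ R ∪ R' := by
    intro e he
    rw [Finset.mem_symmDiff] at he
    rw [Finset.mem_union]
    tauto
  have h2 : ∑ e ∈ R ∪ R', w e + ∑ e ∈ R ∩ R', w e = ∑ e ∈ R, w e + ∑ e ∈ R', w e :=
    Finset.sum_union_inter
  have h3 : ∑ e ∈ symmDiff R R', w e ≤ ∑ e ∈ R ∪ R', w e :=
    Finset.sum_le_sum_of_subset h1
  omega

theorem ball_self (x0 : Wv) (r : ℕ) : x0 ∈ ball src tgt v w x0 r := by
  rw [mem_ball]
  refine ⟨∅, Finset.disjoint_empty_left _, ?_, ?_⟩
  · rw [odv_empty, symmDiff_self]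
    rfl
  · simp [wtE]

theorem ball_mono {x0 : Wv} {r r' : ℕ} (h : r ≤ r') :
    ball src tgt v w x0 r ⊆ ball src tgt v w x0 r' := by
  intro x hx
  rw [mem_ball] at hx ⊢
  obtain ⟨R, h1, h2, h3⟩ := hx
  exact ⟨R, h1, h2, h3.trans h⟩

theorem ball_symm {x y : Wv} {r : ℕ} (h : x ∈ ball src tgt v w y r) :
    y ∈ ball src tgt v w x r := by
  rw [mem_ball] at h ⊢
  obtain ⟨R, h1, h2, h3⟩ := h
  exact ⟨R, h1, by rw [h2, symmDiff_comm], h3⟩

theorem ball_trans {x y z : Wv} {r r' : ℕ} (h : y ∈ ball src tgt v w x r)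
    (h' : z ∈ ball src tgt v w y r') : z ∈ ball src tgt v w x (r + r') := by
  rw [mem_ball] at h h' ⊢
  obtain ⟨R, h1, h2, h3⟩ := h
  obtain ⟨R', h1', h2', h3'⟩ := h'
  refine ⟨symmDiff R R', ?_, ?_, ?_⟩
  · rw [Finset.disjoint_left] at h1 h1' ⊢
    intro e he
    rw [Finset.mem_symmDiff] at he
    rcases he with he | he
    · exact h1 he.1
    · exact h1' he.1
  · rw [odv_symmDiff, h2, h2']
    ext u
    simp only [Finset.mem_symmDiff]
    tauto
  · exact (wtE_symmDiff_le R R').trans (Nat.add_le_add h3 h3')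

theorem notMem_ball {x0 : Wv} (hx : x0 ≠ v) (r : ℕ) : v ∉ ball src tgt v w x0 r := by
  intro h
  rw [mem_ball] at h
  obtain ⟨R, h1, h2, h3⟩ := h
  have h4 : v ∈ odv src tgt R := by
    rw [h2, Finset.mem_symmDiff]
    right
    exact ⟨Finset.mem_singleton_self v, fun h5 => hx (Finset.mem_singleton.mp h5).symm⟩
  rw [mem_odv, Finset.disjoint_iff_inter_eq_empty.mp h1, Finset.card_empty] at h4
  exact absurd h4 (by decide)

theorem ball_step (h : GX src tgt D c0) {x0 : Wv} {r : ℕ} {e : E} (he : e ∉ bd src tgt {v})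
    (h1 : src e ∈ ball src tgt v w x0 r ∨ tgt e ∈ ball src tgt v w x0 r) :
    src e ∈ ball src tgt v w x0 (r + w e) ∧ tgt e ∈ ball src tgt v w x0 (r + w e) := by
  have hl := h.loopless e
  have key : ∀ a b : Wv, ({src e, tgt e} : Finset Wv) = symmDiff {a} {b} →
      a ∈ ball src tgt v w x0 r → b ∈ ball src tgt v w x0 (r + w e) := by
    intro a b hab ha
    rw [mem_ball] at ha ⊢
    obtain ⟨R, h1, h2, h3⟩ := ha
    refine ⟨symmDiff R {e}, ?_, ?_, ?_⟩
    · rw [Finset.disjoint_left] at h1 ⊢
      intro f hf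
      rw [Finset.mem_symmDiff, Finset.mem_singleton] at hf
      rcases hf with hf | hf
      · exact h1 hf.1
      · rw [hf.1]
        exact he
    · rw [odv_symmDiff, h2, odv_singleton h, hab]
      ext u
      simp only [Finset.mem_symmDiff]
      tauto
    · refine (wtE_symmDiff_le R {e}).trans (Nat.add_le_add h3 ?_)
      simp [wtE]
  have e1 : ({src e, tgt e} : Finset Wv) = symmDiff {src e} {tgt e} := by
    ext u
    simp only [Finset.mem_symmDiff, Finset.mem_insert, Finset.mem_singleton]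
    constructor
    · rintro (h1 | h1)
      · exact Or.inl ⟨h1, fun h2 => hl (h1.symm.trans h2)⟩
      · exact Or.inr ⟨h1, fun h2 => hl (h2.symm.trans h1)⟩
    · rintro (h1 | h1)
      · exact Or.inl h1.1
      · exact Or.inr h1.1
  have hm := ball_mono (src := src) (tgt := tgt) (v := v) (w := w) (x0 := x0)
    (Nat.le_add_right r (w e))
  rcases h1 with h1 | h1
  · exact ⟨hm h1, key _ _ e1 h1⟩
  · exact ⟨key _ _ (by rw [e1, symmDiff_comm]) h1, hm h1⟩

theorem card_window (h : GX src tgt D c0) (x0 : Wv) (e : E) (S : Finset ℕ) :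
    (S.filter fun r => e ∈ dB src tgt v w x0 r).card ≤ w e := by
  classical
  set F := S.filter fun r => e ∈ dB src tgt v w x0 r with hF
  rcases F.eq_empty_or_nonempty with h0 | h0
  · rw [h0]
    simp
  · have hsub : F ⊆ Finset.Ico (F.min' h0) (F.min' h0 + w e) := by
      intro r hr
      rw [Finset.mem_Ico]
      refine ⟨F.min'_le r hr, ?_⟩
      by_contra hcon
      rw [not_lt] at hcon
      have hr0 := F.min'_mem h0
      set r0 := F.min' h0
      have h1 := (Finset.mem_filter.mp hr).2
      have h2 := (Finset.mem_filter.mp hr0).2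
      unfold dB at h1 h2
      rw [Finset.mem_sdiff] at h1 h2
      have h3 : src e ∈ ball src tgt v w x0 r0 ∨ tgt e ∈ ball src tgt v w x0 r0 := by
        have h4 := h2.1
        rw [mem_bd] at h4
        by_contra h5
        rw [not_or] at h5
        exact h4 ⟨fun h6 => absurd h6 h5.1, fun h6 => absurd h6 h5.2⟩
      have h4 := ball_step h h1.2 h3
      have h5 := h1.1
      rw [mem_bd] at h5
      exact h5 ⟨fun _ => ball_mono hcon h4.2, fun _ => ball_mono hcon h4.1⟩
    have h1 := Finset.card_le_card hsub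
    rw [Nat.card_Ico] at h1
    omega

theorem sum_dB (h : GX src tgt D c0) (x0 : Wv) (S : Finset ℕ) :
    ∑ r ∈ S, (dB src tgt v w x0 r).card ≤ wtE w univ := by
  classical
  have h1 : ∀ r ∈ S, (dB src tgt v w x0 r).card =
      ∑ e : E, if e ∈ dB src tgt v w x0 r then 1 else 0 := by
    intro r _
    rw [← Finset.sum_filter, Finset.sum_const, smul_eq_mul, mul_one]
    congr 1
    ext e
    simp
  rw [Finset.sum_congr rfl h1, Finset.sum_comm]
  unfold wtE
  refine Finset.sum_le_sum fun e _ => ?_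
  rw [← Finset.sum_filter, Finset.sum_const, smul_eq_mul, mul_one]
  exact card_window h x0 e S

theorem small_part (h : GX src tgt D c0) (v : Wv) :
    ∃ Xs : Finset Wv, Xs.card ≤ c0 * D ∧ ∀ X : Finset Wv, v ∉ X →
      bd src tgt X ⊆ bd src tgt {v} → 2 * X.card ≤ Fintype.card Wv → X ⊆ Xs := by
  classical
  set F : Finset (Finset Wv) := univ.filter fun X => v ∉ X ∧ bd src tgt X ⊆ bd src tgt {v} ∧
    2 * X.card ≤ Fintype.card Wv with hF
  have key : ∀ F' : Finset (Finset Wv), F' ⊆ F → v ∉ F'.biUnion id ∧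
      bd src tgt (F'.biUnion id) ⊆ bd src tgt {v} ∧
      (F'.biUnion id).card ≤ c0 * (bd src tgt (F'.biUnion id)).card := by
    intro F'
    induction F' using Finset.induction_on with
    | empty =>
      intro _
      refine ⟨by simp, ?_, by simp⟩
      rw [Finset.biUnion_empty, bd_empty]
      exact Finset.empty_subset _
    | insert X2 F' ha ih =>
      intro hsub
      have hX2 := hsub (Finset.mem_insert_self X2 F')
      rw [hF, Finset.mem_filter] at hX2
      obtain ⟨-, hv2, hb2, hc2⟩ := hX2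
      obtain ⟨hv1, hb1, hc1⟩ := ih fun X hX => hsub (Finset.mem_insert_of_mem hX)
      set X1 := F'.biUnion id with hX1
      have e1 : (insert X2 F').biUnion id = X1 ∪ (X2 \ X1) := by
        rw [Finset.biUnion_insert, ← hX1, id, Finset.union_sdiff_self_eq_union,
          Finset.union_comm]
      rw [e1]
      set Y := X2 \ X1 with hY
      have hvY : v ∉ Y := fun h1 => hv2 (Finset.mem_sdiff.mp h1).1
      have hbY : bd src tgt Y ⊆ bd src tgt {v} := by
        intro e he
        by_contra hne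
        have h1 : e ∉ bd src tgt X1 := fun h2 => hne (hb1 h2)
        have h2 : e ∉ bd src tgt X2 := fun h2 => hne (hb2 h2)
        rw [mem_bd, not_not] at h1 h2
        rw [mem_bd, hY, Finset.mem_sdiff, Finset.mem_sdiff, h1, h2] at he
        exact he Iff.rfl
      have hcY : Y.card ≤ c0 * (bd src tgt Y).card := by
        rcases Y.eq_empty_or_nonempty with h0 | h0
        · rw [h0]
          simp
        · refine pos_bd h h0 ?_
          have h1 : Y.card ≤ X2.card := Finset.card_le_card Finset.sdiff_subset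
          omega
      have hdXY : Disjoint X1 Y := Finset.disjoint_sdiff
      have hdb : Disjoint (bd src tgt X1) (bd src tgt Y) := by
        rw [Finset.disjoint_left]
        intro e he1 he2
        have he3 := hb1 he1
        rw [mem_bd] at he1 he2 he3
        rw [Finset.mem_singleton, Finset.mem_singleton] at he3
        rw [Finset.disjoint_left] at hdXY
        by_cases h1 : src e = v
        · have h2 : src e ∉ X1 := by rw [h1]; exact hv1
          have h3 : src e ∉ Y := by rw [h1]; exact hvY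
          have h4 : tgt e ∈ X1 := by tauto
          have h5 : tgt e ∈ Y := by tauto
          exact hdXY h4 h5
        · have h1' : tgt e = v := by tauto
          have h2 : tgt e ∉ X1 := by rw [h1']; exact hv1
          have h3 : tgt e ∉ Y := by rw [h1']; exact hvY
          have h4 : src e ∈ X1 := by tauto
          have h5 : src e ∈ Y := by tauto
          exact hdXY h4 h5
      have e2 : X1 ∪ Y = symmDiff X1 Y := (hdXY.symmDiff_eq_sup).symm
      have e3 : bd src tgt (X1 ∪ Y) = bd src tgt X1 ∪ bd src tgt Y := by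
        rw [e2, bd_symmDiff, hdb.symmDiff_eq_sup]
        rfl
      refine ⟨?_, ?_, ?_⟩
      · rw [Finset.mem_union]
        tauto
      · rw [e3]
        exact Finset.union_subset hb1 hbY
      · rw [e3, Finset.card_union_of_disjoint hdb, Finset.card_union_of_disjoint hdXY, mul_add]
        exact Nat.add_le_add hc1 hcY
  obtain ⟨k1, k2, k3⟩ := key F (Finset.Subset.refl F)
  refine ⟨F.biUnion id, k3.trans (Nat.mul_le_mul_left c0 ((Finset.card_le_card k2).trans
    (h.deg v))), ?_⟩
  intro X h1 h2 h3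
  have hX : X ∈ F := by
    rw [hF, Finset.mem_filter]
    exact ⟨Finset.mem_univ _, h1, h2, h3⟩
  exact Finset.subset_biUnion_of_mem id hX

end Pool.Agent.H3.Ex
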