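import Mathlib
import Pool.Agent.H3.Ex.Defs
import Pool.Agent.H3.Ex.BallDefs
import Pool.Agent.H3.Ex.Base
import Pool.Agent.H3.Ex.Ball1

set_option autoImplicit false
set_option linter.unusedSectionVars false

/-!
# Module BG2: a root with a large ball

`exists_root`. Put `A' = c0 (A + D)`, `Wt = wtE w univ`, `n = |Wv|`. Suppose that
`|ball x (2 ρ)| ≤ A'` for all `x ≠ v`. Let `Xs` be the set from `small_part`, and `S` the set of all
`x ≠ v`, `x ∉ Xs`; `|S| ≥ n - 1 - c0 D`.

For `x ∈ S` and `r < ρ` the set `dB x r` is nonempty: otherwise `bd (ball x r) ⊆ bd {v}`,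
`v ∉ ball x r` (`notMem_ball`), `2 |ball x r| ≤ 2 A' ≤ n` (`2 A' ≤ 2 A' A < n` by `hn`, `1 ≤ A`), so
`x ∈ ball x r ⊆ Xs`. Hence `ρ |S| ≤ Σ_{x ∈ S} Σ_{r < ρ} |dB x r|
= Σ_e Σ_{x ∈ S} #{r < ρ : e ∈ dB x r} ≤ Σ_e w e * #{x ∈ S : e ∈ dB x r for some r < ρ}`
(`card_window`). If `e ∈ dB x r`, `r < ρ`, then an end `y` of `e` is in `ball x ρ`. For fixed `y` the
number of `x ∈ S` with `y ∈ ball x ρ` is at most `A'`: if `x1` is one of them, then all others are in
`ball x1 (2 ρ)` (`ball_symm`, `ball_trans`). So `ρ |S| ≤ 2 A' Wt ≤ 2 A' A ρ`, `|S| ≤ 2 A' A` and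
`n ≤ 1 + c0 D + 2 c0 (A + D) A`, a contradiction.
-/

namespace Pool.Agent.H3.Ex

open Finset Pool.Agent.H3.Frg Pool.Agent.H3.Frg2 Pool.Agent.H3.Frg3

variable {E Wv : Type} [Fintype E] [DecidableEq E] [Fintype Wv] [DecidableEq Wv]
  {src tgt : E → Wv} {D c0 : ℕ}

private theorem root_fib {v : Wv} {w : E → ℕ} {ρ A' : ℕ}
    (hcon : ∀ x, x ≠ v → (ball src tgt v w x (2 * ρ)).card ≤ A') (S : Finset Wv)
    (hS : ∀ x ∈ S, x ≠ v) (y : Wv) :
    (S.filter fun x => y ∈ ball src tgt v w x ρ).card ≤ A' := by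
  rcases (S.filter fun x => y ∈ ball src tgt v w x ρ).eq_empty_or_nonempty with h | ⟨x1, hx1⟩
  · rw [h, Finset.card_empty]
    exact Nat.zero_le _
  · rw [Finset.mem_filter] at hx1
    refine le_trans (Finset.card_le_card ?_) (hcon x1 (hS x1 hx1.1))
    intro x hx
    rw [Finset.mem_filter] at hx
    have h1 := ball_trans hx1.2 (ball_symm hx.2)
    rwa [← two_mul] at h1

private theorem root_win (h : GX src tgt D c0) {v : Wv} {w : E → ℕ} (ρ : ℕ) (S : Finset Wv)
    (e : E) : ∑ x ∈ S, ((range ρ).filter fun r => e ∈ dB src tgt v w x r).card ≤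
      w e * ((S.filter fun x => src e ∈ ball src tgt v w x ρ).card +
        (S.filter fun x => tgt e ∈ ball src tgt v w x ρ).card) := by
  rw [Finset.card_filter, Finset.card_filter, ← Finset.sum_add_distrib, Finset.mul_sum]
  refine Finset.sum_le_sum fun x _ => ?_
  rcases ((range ρ).filter fun r => e ∈ dB src tgt v w x r).eq_empty_or_nonempty with h0 | ⟨r, hr⟩
  · rw [h0, Finset.card_empty]
    exact Nat.zero_le _
  · refine (card_window h x e (range ρ)).trans ?_
    rw [Finset.mem_filter, Finset.mem_range] at hr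
    have h1 : e ∈ bd src tgt (ball src tgt v w x r) := (Finset.mem_sdiff.1 hr.2).1
    have h2 : src e ∈ ball src tgt v w x ρ ∨ tgt e ∈ ball src tgt v w x ρ := by
      rw [mem_bd] at h1
      have hm := ball_mono (src := src) (tgt := tgt) (v := v) (w := w) (x0 := x) hr.1.le
      by_contra hno
      rw [not_or] at hno
      apply h1
      constructor
      · intro h3
        exact absurd (hm h3) hno.1
      · intro h3
        exact absurd (hm h3) hno.2
    have h3 : 1 ≤ (if src e ∈ ball src tgt v w x ρ then 1 else 0) +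
        (if tgt e ∈ ball src tgt v w x ρ then 1 else 0) := by
      rcases h2 with h2 | h2
      · rw [if_pos h2]
        omega
      · rw [if_pos h2]
        omega
    exact Nat.le_mul_of_pos_right _ h3

theorem exists_root (h : GX src tgt D c0) (v : Wv) (w : E → ℕ) {ρ A : ℕ} (hρ : 1 ≤ ρ)
    (hA : 1 ≤ A) (hW : wtE w univ ≤ A * ρ)
    (hn : 1 + c0 * D + 2 * c0 * (A + D) * A < Fintype.card Wv) :
    ∃ x0, x0 ≠ v ∧ c0 * (A + D) < (ball src tgt v w x0 (2 * ρ)).card := by
  by_contra hno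
  have hcon : ∀ x, x ≠ v → (ball src tgt v w x (2 * ρ)).card ≤ c0 * (A + D) := by
    intro x hx
    by_contra h1
    exact hno ⟨x, hx, not_le.1 h1⟩
  obtain ⟨Xs, hXs, hsm⟩ := small_part h v
  obtain ⟨S, hSdef⟩ : ∃ S : Finset Wv, S = univ.filter fun x => x ≠ v ∧ x ∉ Xs := ⟨_, rfl⟩
  have hS : ∀ x, x ∈ S ↔ x ≠ v ∧ x ∉ Xs := by
    intro x
    rw [hSdef, Finset.mem_filter]
    exact ⟨fun h1 => h1.2, fun h1 => ⟨Finset.mem_univ _, h1⟩⟩
  have hcard : Fintype.card Wv ≤ S.card + 1 + c0 * D := by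
    have h1 : (univ : Finset Wv) ⊆ (S ∪ {v}) ∪ Xs := by
      intro x _
      rw [Finset.mem_union, Finset.mem_union, Finset.mem_singleton, hS]
      tauto
    have h2 := Finset.card_le_card h1
    have h3 := Finset.card_union_le (S ∪ {v}) Xs
    have h4 := Finset.card_union_le S {v}
    rw [Finset.card_singleton] at h4
    rw [Finset.card_univ] at h2
    omega
  have hpos : ∀ x ∈ S, ∀ r ∈ range ρ, 1 ≤ (dB src tgt v w x r).card := by
    intro x hx r hr
    rw [Finset.mem_range] at hr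
    obtain ⟨hxv, hxX⟩ := (hS x).1 hx
    by_contra h1
    have h2 : dB src tgt v w x r = ∅ := Finset.card_eq_zero.1 (by omega)
    have h3 : bd src tgt (ball src tgt v w x r) ⊆ bd src tgt {v} := by
      unfold dB at h2
      exact Finset.sdiff_eq_empty_iff_subset.1 h2
    have h4 : (ball src tgt v w x r).card ≤ c0 * (A + D) :=
      (Finset.card_le_card (ball_mono (by omega))).trans (hcon x hxv)
    have h5 : c0 * (A + D) * 1 ≤ c0 * (A + D) * A := Nat.mul_le_mul_left _ hA
    have h6 : 2 * c0 * (A + D) * A = 2 * (c0 * (A + D) * A) := by ring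
    have h7 := hsm _ (notMem_ball hxv r) h3 (by omega)
    exact hxX (h7 (ball_self x r))
  have h1 : ρ * S.card ≤ ∑ x ∈ S, ∑ r ∈ range ρ, (dB src tgt v w x r).card := by
    have h2 : ∀ x ∈ S, ρ ≤ ∑ r ∈ range ρ, (dB src tgt v w x r).card := by
      intro x hx
      have h3 := Finset.card_nsmul_le_sum (range ρ) (fun r => (dB src tgt v w x r).card) 1
        (hpos x hx)
      rw [Finset.card_range, smul_eq_mul, mul_one] at h3
      exact h3
    have h3 := Finset.card_nsmul_le_sum S _ ρ h2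
    rw [smul_eq_mul, mul_comm] at h3
    exact h3
  have h2 : ∑ x ∈ S, ∑ r ∈ range ρ, (dB src tgt v w x r).card =
      ∑ e, ∑ x ∈ S, ((range ρ).filter fun r => e ∈ dB src tgt v w x r).card := by
    rw [Finset.sum_comm]
    have h3 : ∀ x ∈ S, ∑ r ∈ range ρ, (dB src tgt v w x r).card =
        ∑ e, ((range ρ).filter fun r => e ∈ dB src tgt v w x r).card := by
      intro x _
      have h4 : ∀ r ∈ range ρ, (dB src tgt v w x r).card =
          ∑ e, if e ∈ dB src tgt v w x r then 1 else 0 := by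
        intro r _
        rw [← Finset.card_filter]
        congr 1
        ext e
        simp
      rw [Finset.sum_congr rfl h4, Finset.sum_comm]
      refine Finset.sum_congr rfl fun e _ => ?_
      rw [Finset.card_filter]
    rw [Finset.sum_comm, Finset.sum_congr rfl h3, Finset.sum_comm]
  have h3 : ∀ e : E, ∑ x ∈ S, ((range ρ).filter fun r => e ∈ dB src tgt v w x r).card ≤
      w e * (2 * (c0 * (A + D))) := by
    intro e
    refine (root_win h ρ S e).trans (Nat.mul_le_mul_left _ ?_)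
    have h4 := root_fib hcon S (fun x hx => ((hS x).1 hx).1) (src e)
    have h5 := root_fib hcon S (fun x hx => ((hS x).1 hx).1) (tgt e)
    omega
  have h4 : ρ * S.card ≤ A * ρ * (2 * (c0 * (A + D))) := by
    calc ρ * S.card ≤ ∑ e, ∑ x ∈ S, ((range ρ).filter fun r => e ∈ dB src tgt v w x r).card := by
          rw [← h2]
          exact h1
      _ ≤ ∑ e, w e * (2 * (c0 * (A + D))) := Finset.sum_le_sum fun e _ => h3 e
      _ = wtE w univ * (2 * (c0 * (A + D))) := by
          unfold wtE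
          rw [Finset.sum_mul]
      _ ≤ A * ρ * (2 * (c0 * (A + D))) := Nat.mul_le_mul_right _ hW
  have h5 : S.card ≤ 2 * c0 * (A + D) * A := by
    refine Nat.le_of_mul_le_mul_left ?_ (show 0 < ρ by omega)
    calc ρ * S.card ≤ A * ρ * (2 * (c0 * (A + D))) := h4
      _ = ρ * (2 * c0 * (A + D) * A) := by ring
  omega

end Pool.Agent.H3.Ex
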