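import Mathlib
import Pool.Agent.H3.Ex.Defs
import Pool.Agent.H3.Ex.BallDefs
import Pool.Agent.H3.Ex.Base
import Pool.Agent.H3.Ex.Ball1
import Pool.Agent.H3.Ex.Ball2

set_option autoImplicit false
set_option linter.unusedSectionVars false

/-!
# Module BG3: if all odd cycles are heavy then the level is small

`lvl_le_of_heavy`. Put `Wt = wtE w univ`, `ρ = β / 32` (so `1 ≤ ρ`, `32 ρ ≤ β < 64 ρ`, hence
`64 Wt ≤ A β ≤ 64 A ρ`, `Wt ≤ A ρ`), `L = (β + 15) / 16` (`β ≤ 16 L ≤ β + 15`).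
`exists_root` gives `x0 ≠ v` with `|ball (2 ρ)| > c0 (A + D)` (balls around `x0`).
`sum_dB` for the interval `[2 ρ, 2 ρ + L)`: there is `r` in it with `|dB r| L ≤ Wt`, so
`β |dB r| ≤ 16 Wt`, and `|dB r| ≤ A` (`16 Wt ≤ A β / 4`); `4 r ≤ β` (`r < β/16 + (β+15)/16`, `β ≥ 32`).

Let `B = ball r`, `v ∉ B`. `|bd B| ≤ |dB r| + D` (`bd B ⊆ dB r ∪ bd {v}`). `GX.cheeger` and
`|B| ≥ |ball (2 ρ)| > c0 (A + D) ≥ c0 |bd B|` give `n - |B| ≤ c0 (|dB r| + D)`.

For `x ∈ B` choose `R x` avoiding `bd {v}` with `odv (R x) = {x0} ∆ {x}`, `wtE (R x) ≤ r`. Let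
`X = {x ∈ B : |T ∩ R x| odd}`. Let `e ∉ bd {v}` be an edge with both ends `x, y` in `B`, and
`e ∈ T ∆ bd X`. Then `Q = R x ∆ R y ∆ {e}` satisfies `odv Q = ∅`, avoids `bd {v}`, and `|T ∩ Q|` is
odd (`odd_symmDiff_inter`: parity of `|T ∩ R x| + |T ∩ R y| + [e ∈ T]`, and `e ∈ bd X` iff exactly one
of `|T ∩ R x|`, `|T ∩ R y|` is odd), so by `hNB` `β ≤ 2 r + w e`, `2 w e ≥ β`. The number of such edges
is at most `2 Wt / β` (`N β ≤ 2 Wt`). All other edges of `(T ∆ bd X) \ bd {v}` are in `dB r` or have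
both ends outside `B`, and the latter are at most `D (n - |B|)`. So
`β lvl T ≤ β |(T ∆ bd X) \ bd {v}| ≤ 2 Wt + 16 Wt + D c0 (β |dB r| + D β)
  ≤ (18 + 16 D c0) Wt + D^2 c0 β` (`lvl` is an infimum: `Finset.inf'_le`).
-/

namespace Pool.Agent.H3.Ex

open Finset Pool.Agent.H3.Frg Pool.Agent.H3.Frg2 Pool.Agent.H3.Frg3

variable {E Wv : Type} [Fintype E] [DecidableEq E] [Fintype Wv] [DecidableEq Wv]
  {src tgt : E → Wv} {D c0 : ℕ}

theorem bg3_sets {x0 x y : Wv} (hxy : x ≠ y) :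
    symmDiff (symmDiff (symmDiff {x0} {x}) (symmDiff {x0} {y})) ({x, y} : Finset Wv) = ∅ := by
  ext z
  simp only [Finset.mem_symmDiff, Finset.mem_singleton, Finset.mem_insert, Finset.notMem_empty,
    iff_false]
  by_cases h1 : z = x0 <;> by_cases h2 : z = x <;> by_cases h3 : z = y <;>
    simp_all

theorem lvl_le_of_heavy (h : GX src tgt D c0) (v : Wv) (w : E → ℕ) (T : Finset E) {β A : ℕ}
    (hβ : 32 ≤ β) (hA : 1 ≤ A) (hW : 64 * wtE w univ ≤ A * β)
    (hn : 1 + c0 * D + 2 * c0 * (A + D) * A < Fintype.card Wv)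
    (hNB : ∀ B : Finset E, odv src tgt B = ∅ → Disjoint B (bd src tgt {v}) →
      Odd (T ∩ B).card → β ≤ wtE w B) :
    lvl src tgt v T * β ≤ (18 + 16 * D * c0) * wtE w univ + D ^ 2 * c0 * β := by
  classical
  set Wt := wtE w univ with hWt
  obtain ⟨ρ, hρ⟩ : ∃ ρ, ρ = β / 32 := ⟨_, rfl⟩
  have hρ1 : 1 ≤ ρ := by omega
  have hρ2 : 32 * ρ ≤ β := by omega
  have hρ3 : β ≤ 64 * ρ := by omega
  have hWρ : Wt ≤ A * ρ := by
    have h1 : A * β ≤ A * (64 * ρ) := Nat.mul_le_mul_left _ hρ3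
    have h2 : 64 * Wt ≤ 64 * (A * ρ) := by
      calc 64 * Wt ≤ A * β := hW
        _ ≤ A * (64 * ρ) := h1
        _ = 64 * (A * ρ) := by ring
    omega
  obtain ⟨x0, hx0, hball⟩ := exists_root h v w hρ1 hA hWρ hn
  obtain ⟨L, hL⟩ : ∃ L, L = (β + 15) / 16 := ⟨_, rfl⟩
  have hL1 : β ≤ 16 * L := by omega
  have hL2 : 16 * L ≤ β + 15 := by omega
  obtain ⟨r, hr1, hr2, hdL⟩ : ∃ r, 2 * ρ ≤ r ∧ r < 2 * ρ + L ∧ (dB src tgt v w x0 r).card * L ≤ Wt := by
    by_contra hcon
    push Not at hcon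
    have hs := sum_dB (w := w) (v := v) h x0 (Finset.Ico (2 * ρ) (2 * ρ + L))
    have h1 : ∑ r ∈ Finset.Ico (2 * ρ) (2 * ρ + L), (Wt + 1)
        ≤ ∑ r ∈ Finset.Ico (2 * ρ) (2 * ρ + L), (dB src tgt v w x0 r).card * L := by
      apply Finset.sum_le_sum
      intro r hr
      rw [Finset.mem_Ico] at hr
      exact hcon r hr.1 hr.2
    rw [Finset.sum_const, Nat.card_Ico, smul_eq_mul, ← Finset.sum_mul] at h1
    have h2 : 2 * ρ + L - 2 * ρ = L := by omega
    rw [h2] at h1
    have h3 := Nat.mul_le_mul_right L hs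
    have h4 : L * (Wt + 1) ≤ Wt * L := h1.trans h3
    have h5 : 0 < L := by omega
    nlinarith
  set d := (dB src tgt v w x0 r).card with hd
  have hβd : β * d ≤ 16 * Wt := by
    calc β * d ≤ 16 * L * d := Nat.mul_le_mul_right _ hL1
      _ = 16 * (d * L) := by ring
      _ ≤ 16 * Wt := Nat.mul_le_mul_left _ hdL
  have hdA : d ≤ A := by
    by_contra hlt
    push Not at hlt
    have h1 : β * (A + 1) ≤ β * d := Nat.mul_le_mul_left _ hlt
    nlinarith
  have h4r : 4 * r ≤ β := by omega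
  set B := ball src tgt v w x0 r with hB
  have hvB : v ∉ B := notMem_ball hx0 r
  have hbdB : (bd src tgt B).card ≤ d + D := by
    have h1 : bd src tgt B ⊆ dB src tgt v w x0 r ∪ bd src tgt {v} := by
      intro e he
      rw [Finset.mem_union]
      by_cases h2 : e ∈ bd src tgt {v}
      · exact Or.inr h2
      · exact Or.inl (Finset.mem_sdiff.2 ⟨he, h2⟩)
    exact ((Finset.card_le_card h1).trans (Finset.card_union_le _ _)).trans
      (Nat.add_le_add_left (h.deg v) _)
  have hBcard : c0 * (bd src tgt B).card < B.card := by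
    have h1 : (ball src tgt v w x0 (2 * ρ)).card ≤ B.card := Finset.card_le_card (ball_mono hr1)
    have h2 : c0 * (bd src tgt B).card ≤ c0 * (A + D) := by
      apply Nat.mul_le_mul_left
      omega
    omega
  have hout : Fintype.card Wv - B.card ≤ c0 * (d + D) := by
    have h1 := h.cheeger B
    rcases min_le_iff.1 h1 with h2 | h2
    · omega
    · exact h2.trans (Nat.mul_le_mul_left _ hbdB)
  have hR : ∀ x, ∃ R : Finset E, x ∈ B → (Disjoint R (bd src tgt {v}) ∧
      odv src tgt R = symmDiff {x0} {x} ∧ wtE w R ≤ r) := by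
    intro x
    by_cases hx : x ∈ B
    · obtain ⟨R, hR⟩ := mem_ball.1 hx
      exact ⟨R, fun _ => hR⟩
    · exact ⟨∅, fun h' => absurd h' hx⟩
  choose R hR using hR
  set X := B.filter fun x => Odd (T ∩ R x).card with hX
  have hkey : ∀ e, e ∉ bd src tgt {v} → src e ∈ B → tgt e ∈ B → e ∈ symmDiff T (bd src tgt X) →
      β ≤ 2 * w e := by
    intro e hev hs ht heT
    obtain ⟨d1, o1, w1⟩ := hR _ hs
    obtain ⟨d2, o2, w2⟩ := hR _ ht
    have hodv : odv src tgt (symmDiff (symmDiff (R (src e)) (R (tgt e))) {e}) = ∅ := by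
      rw [odv_symmDiff, odv_symmDiff, o1, o2, odv_singleton h]
      exact bg3_sets (h.loopless e)
    have hdis : Disjoint (symmDiff (symmDiff (R (src e)) (R (tgt e))) {e}) (bd src tgt {v}) := by
      rw [Finset.disjoint_left] at d1 d2 ⊢
      intro a ha
      rw [Finset.mem_symmDiff, Finset.mem_symmDiff] at ha
      rcases ha with ⟨⟨ha, -⟩ | ⟨ha, -⟩, -⟩ | ⟨ha, -⟩
      · exact d1 ha
      · exact d2 ha
      · rw [Finset.mem_singleton] at ha
        rw [ha]
        exact hev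
    have hodd : Odd (T ∩ symmDiff (symmDiff (R (src e)) (R (tgt e))) {e}).card := by
      rw [Finset.inter_comm, odd_symmDiff_inter, odd_symmDiff_inter, Finset.inter_comm (R (src e)) T,
        Finset.inter_comm (R (tgt e)) T]
      have h1 : Odd ({e} ∩ T).card ↔ e ∈ T := by
        by_cases heT' : e ∈ T
        · rw [Finset.singleton_inter_of_mem heT']
          simp [heT']
        · rw [Finset.singleton_inter_of_notMem heT']
          simp [heT']
      have h2 : src e ∈ X ↔ Odd (T ∩ R (src e)).card := by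
        rw [hX, Finset.mem_filter]
        exact ⟨fun h' => h'.2, fun h' => ⟨hs, h'⟩⟩
      have h3 : tgt e ∈ X ↔ Odd (T ∩ R (tgt e)).card := by
        rw [hX, Finset.mem_filter]
        exact ⟨fun h' => h'.2, fun h' => ⟨ht, h'⟩⟩
      rw [Finset.mem_symmDiff, mem_bd, h2, h3] at heT
      rw [h1]
      tauto
    have h5 := hNB _ hodv hdis hodd
    have h6 : wtE w (symmDiff (symmDiff (R (src e)) (R (tgt e))) {e}) ≤ r + r + w e := by
      refine (wtE_symmDiff_le _ _).trans ?_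
      have h7 : wtE w {e} = w e := by
        unfold wtE
        rw [Finset.sum_singleton]
      rw [h7]
      have h8 := (wtE_symmDiff_le (w := w) (R (src e)) (R (tgt e)))
      omega
    omega
  set N1 := (symmDiff T (bd src tgt X) \ bd src tgt {v}).filter
    (fun e => src e ∈ B ∧ tgt e ∈ B) with hN1
  have hN1card : β * N1.card ≤ 2 * Wt := by
    have h1 : ∑ e ∈ N1, β ≤ ∑ e ∈ N1, 2 * w e := by
      apply Finset.sum_le_sum
      intro e he
      rw [hN1, Finset.mem_filter, Finset.mem_sdiff] at he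
      exact hkey e he.1.2 he.2.1 he.2.2 he.1.1
    rw [Finset.sum_const, smul_eq_mul, ← Finset.mul_sum] at h1
    have h2 : ∑ e ∈ N1, w e ≤ Wt := Finset.sum_le_sum_of_subset (Finset.subset_univ _)
    calc β * N1.card = N1.card * β := mul_comm _ _
      _ ≤ 2 * ∑ e ∈ N1, w e := h1
      _ ≤ 2 * Wt := Nat.mul_le_mul_left _ h2
  have hcover : symmDiff T (bd src tgt X) \ bd src tgt {v}
      ⊆ (N1 ∪ dB src tgt v w x0 r) ∪ inc src tgt Bᶜ := by
    intro e he
    rw [Finset.mem_union, Finset.mem_union]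
    by_cases hs : src e ∈ B
    · by_cases ht : tgt e ∈ B
      · exact Or.inl (Or.inl (Finset.mem_filter.2 ⟨he, hs, ht⟩))
      · refine Or.inl (Or.inr (Finset.mem_sdiff.2 ⟨?_, (Finset.mem_sdiff.1 he).2⟩))
        rw [mem_bd]
        intro h'
        exact ht (h'.1 hs)
    · refine Or.inr (mem_inc.2 (Or.inl ?_))
      rw [Finset.mem_compl]
      exact hs
  have hcard : (symmDiff T (bd src tgt X) \ bd src tgt {v}).card ≤ N1.card + d + D * (c0 * (d + D)) := by
    refine (Finset.card_le_card hcover).trans ((Finset.card_union_le _ _).trans ?_)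
    have h1 : (N1 ∪ dB src tgt v w x0 r).card ≤ N1.card + d := Finset.card_union_le _ _
    have h2 : (inc src tgt Bᶜ).card ≤ D * (c0 * (d + D)) := by
      refine (card_inc_le h Bᶜ).trans (Nat.mul_le_mul_left _ ?_)
      rw [Finset.card_compl]
      exact hout
    omega
  have hlvl : lvl src tgt v T ≤ (symmDiff T (bd src tgt X) \ bd src tgt {v}).card := by
    unfold lvl
    exact Finset.inf'_le (fun X => (symmDiff T (bd src tgt X) \ bd src tgt {v}).card)
      (Finset.mem_univ X)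
  calc lvl src tgt v T * β ≤ (N1.card + d + D * (c0 * (d + D))) * β :=
        Nat.mul_le_mul_right _ (hlvl.trans hcard)
    _ = β * N1.card + β * d + D * c0 * (β * d) + D ^ 2 * c0 * β := by ring
    _ ≤ 2 * Wt + 16 * Wt + D * c0 * (16 * Wt) + D ^ 2 * c0 * β := by
        have h3 : D * c0 * (β * d) ≤ D * c0 * (16 * Wt) := Nat.mul_le_mul_left _ hβd
        omega
    _ = (18 + 16 * D * c0) * Wt + D ^ 2 * c0 * β := by ring

end Pool.Agent.H3.Ex
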