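import Mathlib
import Pool.Agent.H3.Ex.Defs
import Pool.Agent.H3.Ex.BallDefs
import Pool.Agent.H3.Ex.Base
import Pool.Agent.H3.Ex.Ball3

set_option autoImplicit false
set_option linter.unusedSectionVars false

/-!
# Module MWU: many odd cycles with small congestion (multiplicative weights)

Put `C = 18 + 16 D c0`, `D1 = lvl T`. `D1 ≤ |T| ≤ |E|` (`X = ∅` in `lvl`).

`exists_family`: by induction on `i ≤ D1` there is `B : Fin i → Finset E` (all `B j` even, avoiding
`bd {v}`, odd on `T`) such that with `w e = lam ^ #{j : e ∈ B j}` the total weight `Wt = wtE w univ`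
satisfies `(Wt : ℝ) ≤ |E| (1 + 4 C lam / D1)^i`. `i = 0`: `w = 1`. Step: `w e ≥ 1`, so
`Wt ≥ |E| ≥ D1`. Let `β = 4 C Wt / D1 + 1` (division in `ℕ`); `β ≥ 32` because
`4 C Wt / D1 ≥ 4 C ≥ 72`; `D1 β > 4 C Wt ≥ 64 Wt`. If all even `B` avoiding `bd {v}`, odd on `T`, had
weight at least `β`, then `lvl_le_of_heavy` with `A = D1` would give `D1 β ≤ C Wt + D^2 c0 β`, and since
`2 D^2 c0 + 2 ≤ D1`: `D1 β ≤ 2 C Wt`, a contradiction to `D1 β > 4 C Wt`, `Wt > 0`. So there is such a
`B'` with `wtE w B' < β`, i.e. `D1 * wtE w B' ≤ 4 C Wt`. Add it to the family: the new total weight is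
`Wt + (lam - 1) wtE w B' ≤ Wt (1 + 4 C lam / D1)`.

At the end (`i = D1`) for every `e`: `lam ^ #{j : e ∈ B j} ≤ Wt ≤ |E| (1 + 4 C lam / D1)^D1
  ≤ |E| exp (4 C lam) ≤ |E| 3^(4 C lam) < lam ^ κ`, so `#{j : e ∈ B j} ≤ κ` (`lam ≥ 2` or trivial).
-/

namespace Pool.Agent.H3.Ex

open Finset Pool.Agent.H3.Frg Pool.Agent.H3.Frg2 Pool.Agent.H3.Frg3

variable {E Wv : Type} [Fintype E] [DecidableEq E] [Fintype Wv] [DecidableEq Wv]
  {src tgt : E → Wv} {D c0 : ℕ}

theorem mwu_exp {n : ℕ} (hn : 0 < n) (a : ℕ) : (n + a) ^ n ≤ 3 ^ a * n ^ n := by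
  have hn' : (0 : ℝ) < n := by exact_mod_cast hn
  have h1 : (1 + (a : ℝ) / n) ≤ Real.exp ((a : ℝ) / n) := by
    have := Real.add_one_le_exp ((a : ℝ) / n)
    linarith
  have h2 : (1 + (a : ℝ) / n) ^ n ≤ Real.exp a := by
    calc (1 + (a : ℝ) / n) ^ n ≤ Real.exp ((a : ℝ) / n) ^ n :=
          pow_le_pow_left₀ (by positivity) h1 n
      _ = Real.exp a := by
          rw [← Real.exp_nat_mul]
          congr 1
          field_simp
  have h3 : Real.exp (a : ℝ) ≤ 3 ^ a := by
    have h4 : Real.exp (a : ℝ) = Real.exp 1 ^ a := by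
      rw [← Real.exp_nat_mul, mul_one]
    rw [h4]
    exact pow_le_pow_left₀ (Real.exp_pos 1).le (by linarith [Real.exp_one_lt_d9]) a
  have h5 : ((n : ℝ) + a) ^ n = (1 + (a : ℝ) / n) ^ n * (n : ℝ) ^ n := by
    rw [← mul_pow]
    congr 1
    field_simp
  have h6 : ((n : ℝ) + a) ^ n ≤ 3 ^ a * (n : ℝ) ^ n := by
    rw [h5]
    exact mul_le_mul_of_nonneg_right (h2.trans h3) (by positivity)
  exact_mod_cast h6

theorem exists_family (h : GX src tgt D c0) {v : Wv} {T : Finset E} {D1 κ lam : ℕ}
    (hD1 : D1 = lvl src tgt v T) (h1 : 2 * D ^ 2 * c0 + 2 ≤ D1)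
    (hn : 1 + c0 * D + 2 * c0 * (D1 + D) * D1 < Fintype.card Wv) (hlam : 2 ≤ lam)
    (hκ : Fintype.card E * 3 ^ (4 * (18 + 16 * D * c0) * lam) < lam ^ κ) :
    ∃ B : Fin D1 → Finset E, (∀ i, odv src tgt (B i) = ∅ ∧ Disjoint (B i) (bd src tgt {v}) ∧
      Odd (T ∩ B i).card) ∧ ∀ e, (univ.filter fun i => e ∈ B i).card ≤ κ := by
  classical
  obtain ⟨C, hC⟩ : ∃ C, C = 18 + 16 * D * c0 := ⟨_, rfl⟩
  rw [← hC] at hκ
  have hD0 : 0 < D1 := by omega
  have hDE : D1 ≤ Fintype.card E := by
    rw [hD1]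
    unfold lvl
    exact (Finset.inf'_le (fun X => (symmDiff T (bd src tgt X) \ bd src tgt {v}).card)
      (Finset.mem_univ ∅)).trans (Finset.card_le_univ _)
  have hmain : ∀ i : ℕ, ∃ B : ℕ → Finset E, (∀ j < i, odv src tgt (B j) = ∅ ∧
      Disjoint (B j) (bd src tgt {v}) ∧ Odd (T ∩ B j).card) ∧
      (∑ e, lam ^ ((Finset.range i).filter fun j => e ∈ B j).card) * D1 ^ i
        ≤ Fintype.card E * (D1 + 4 * C * lam) ^ i := by
    intro i
    induction i with
    | zero =>
      refine ⟨fun _ => ∅, fun j hj => absurd hj (Nat.not_lt_zero j), ?_⟩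
      simp
    | succ i ih =>
      obtain ⟨B, hB, hsum⟩ := ih
      set w : E → ℕ := fun e => lam ^ ((Finset.range i).filter fun j => e ∈ B j).card with hw
      have hw1 : ∀ e, 1 ≤ w e := fun e => Nat.one_le_pow _ _ (by omega)
      set Wt := wtE w univ with hWt
      have hWE : Fintype.card E ≤ Wt := by
        rw [hWt]
        unfold wtE
        calc Fintype.card E = ∑ _e : E, 1 := by simp
          _ ≤ ∑ e, w e := Finset.sum_le_sum fun e _ => hw1 e
      have hWD : D1 ≤ Wt := hDE.trans hWE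
      obtain ⟨β, hβ⟩ : ∃ β, β = 4 * C * Wt / D1 + 1 := ⟨_, rfl⟩
      have hq : 4 * C ≤ 4 * C * Wt / D1 := by
        rw [Nat.le_div_iff_mul_le hD0]
        exact Nat.mul_le_mul_left _ hWD
      have hC18 : 18 ≤ C := by rw [hC]; exact Nat.le_add_right _ _
      have hβ32 : 32 ≤ β := by omega
      have hDβ : 4 * C * Wt < D1 * β := by
        rw [hβ]
        exact Nat.lt_mul_div_succ _ hD0
      have hW0 : 0 < Wt := hD0.trans_le hWD
      have h64 : 64 * Wt ≤ D1 * β := by
        have : 72 * Wt ≤ 4 * C * Wt := Nat.mul_le_mul_right _ (by omega)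
        omega
      obtain ⟨B', ho, hd, hodd, hlt⟩ : ∃ B' : Finset E, odv src tgt B' = ∅ ∧
          Disjoint B' (bd src tgt {v}) ∧ Odd (T ∩ B').card ∧ wtE w B' < β := by
        by_contra hcon
        push Not at hcon
        have h5 := lvl_le_of_heavy h v w T hβ32 (A := D1) hD0 h64 hn hcon
        rw [← hD1, ← hC, ← hWt] at h5
        have h6 : (2 * D ^ 2 * c0 + 2) * β ≤ D1 * β := Nat.mul_le_mul_right _ h1
        have h7 : (2 * D ^ 2 * c0 + 2) * β = 2 * (D ^ 2 * c0 * β) + 2 * β := by ring
        have h8 : C * Wt ≤ 4 * C * Wt := by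
          apply Nat.mul_le_mul_right
          omega
        have h9 : 4 * C * Wt = 4 * (C * Wt) := by ring
        omega
      have hDw : D1 * wtE w B' ≤ 4 * C * Wt := by
        have h5 : wtE w B' ≤ 4 * C * Wt / D1 := by omega
        rw [Nat.le_div_iff_mul_le hD0] at h5
        rw [mul_comm]
        exact h5
      refine ⟨fun j => if j = i then B' else B j, ?_, ?_⟩
      · intro j hj
        beta_reduce
        by_cases hji : j = i
        · rw [if_pos hji]
          exact ⟨ho, hd, hodd⟩
        · rw [if_neg hji]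
          exact hB j (by omega)
      · have hcount : ∀ e, ((Finset.range (i + 1)).filter
            fun j => e ∈ (if j = i then B' else B j)).card
            = ((Finset.range i).filter fun j => e ∈ B j).card + (if e ∈ B' then 1 else 0) := by
          intro e
          rw [Finset.card_filter, Finset.card_filter, Finset.sum_range_succ, if_pos rfl]
          congr 1
          apply Finset.sum_congr rfl
          intro j hj
          rw [Finset.mem_range] at hj
          rw [if_neg (show j ≠ i by omega)]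
        have hnew : (∑ e, lam ^ ((Finset.range (i + 1)).filter
            fun j => e ∈ (if j = i then B' else B j)).card) ≤ Wt + lam * wtE w B' := by
          have h5 : ∀ e : E, lam ^ ((Finset.range (i + 1)).filter
              fun j => e ∈ (if j = i then B' else B j)).card
              ≤ w e + (if e ∈ B' then lam * w e else 0) := by
            intro e
            rw [hcount e]
            by_cases he : e ∈ B'
            · rw [if_pos he, if_pos he, pow_succ, mul_comm]
              exact Nat.le_add_left _ _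
            · rw [if_neg he, if_neg he]
              exact le_rfl
          calc (∑ e, lam ^ ((Finset.range (i + 1)).filter
                fun j => e ∈ (if j = i then B' else B j)).card)
              ≤ ∑ e, (w e + (if e ∈ B' then lam * w e else 0)) := Finset.sum_le_sum fun e _ => h5 e
            _ = Wt + lam * wtE w B' := by
                rw [Finset.sum_add_distrib, ← Finset.sum_filter, ← Finset.mul_sum]
                congr 3
                ext e
                simp
        calc (∑ e, lam ^ ((Finset.range (i + 1)).filter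
              fun j => e ∈ (if j = i then B' else B j)).card) * D1 ^ (i + 1)
            ≤ (Wt + lam * wtE w B') * D1 ^ (i + 1) := Nat.mul_le_mul_right _ hnew
          _ = (Wt * D1 + lam * (D1 * wtE w B')) * D1 ^ i := by ring
          _ ≤ (Wt * D1 + lam * (4 * C * Wt)) * D1 ^ i :=
              Nat.mul_le_mul_right _ (Nat.add_le_add_left (Nat.mul_le_mul_left _ hDw) _)
          _ = (Wt * D1 ^ i) * (D1 + 4 * C * lam) := by ring
          _ ≤ (Fintype.card E * (D1 + 4 * C * lam) ^ i) * (D1 + 4 * C * lam) :=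
              Nat.mul_le_mul_right _ hsum
          _ = Fintype.card E * (D1 + 4 * C * lam) ^ (i + 1) := by ring
  obtain ⟨B, hB, hsum⟩ := hmain D1
  refine ⟨fun i => B i, fun i => hB i i.2, fun e => ?_⟩
  have hcnt : (univ.filter fun i : Fin D1 => e ∈ B i).card
      = ((Finset.range D1).filter fun j => e ∈ B j).card := by
    rw [Finset.card_filter, Finset.card_filter]
    exact Fin.sum_univ_eq_sum_range (fun j => if e ∈ B j then 1 else 0) D1
  rw [hcnt]
  set m := ((Finset.range D1).filter fun j => e ∈ B j).card with hm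
  have h2 : lam ^ m * D1 ^ D1 ≤ Fintype.card E * (D1 + 4 * C * lam) ^ D1 := by
    refine le_trans (Nat.mul_le_mul_right _ ?_) hsum
    exact Finset.single_le_sum (f := fun e => lam ^ ((Finset.range D1).filter fun j => e ∈ B j).card)
      (fun _ _ => Nat.zero_le _) (Finset.mem_univ e)
  have h3 := mwu_exp hD0 (4 * C * lam)
  have h4 : lam ^ m * D1 ^ D1 ≤ (Fintype.card E * 3 ^ (4 * C * lam)) * D1 ^ D1 := by
    calc lam ^ m * D1 ^ D1 ≤ Fintype.card E * (D1 + 4 * C * lam) ^ D1 := h2
      _ ≤ Fintype.card E * (3 ^ (4 * C * lam) * D1 ^ D1) := Nat.mul_le_mul_left _ h3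
      _ = (Fintype.card E * 3 ^ (4 * C * lam)) * D1 ^ D1 := by ring
  have h5 : lam ^ m ≤ Fintype.card E * 3 ^ (4 * C * lam) :=
    Nat.le_of_mul_le_mul_right h4 (pow_pos hD0 _)
  have h6 : lam ^ m < lam ^ κ := h5.trans_lt hκ
  exact ((Nat.pow_lt_pow_iff_right (by omega)).1 h6).le

end Pool.Agent.H3.Ex
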