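import Mathlib
import Pool.Agent.H3.Ex.Defs
import Pool.Agent.H3.Ex.BallDefs
import Pool.Agent.H3.Ex.Base
import Pool.Agent.H3.Ex.Mwu
import Pool.Agent.H3.Ex.Sol
import Pool.Agent.H3.Ex.Hyp2

set_option autoImplicit false
set_option linter.unusedSectionVars false

/-!
# Module GRN: granularity. A Boolean function with a term of high level has large weighted mass

Let `F = fun y => rl f y * sI v y`, with values in `{0, 1}`, zero outside `Sol v`. Among the `T` with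
`W F T ≠ 0` choose `T0` with the largest level `D1 = lvl v T0`; `t + 1 ≤ D1 ≤ dmax`.
`exists_family` for `T0` gives `B : Fin D1 → Finset E`. Let
`R y = Σ_{s : Finset (Fin D1)} (-1)^|s| F (fp (sm B s) y)`.

* `W_fp`: `W (fun y => F (fp A y)) T = (-1)^|T ∩ A| W F T` (substitute `y = fp A y'`, `fp_fp`, `chi_fp`).
* `W R T = W F T * Σ_s (-1)^|s| (-1)^|T ∩ sm B s| = W F T * ∏_i (1 - (-1)^|T ∩ B i|)` (`odd_inter_sm`,
  `Finset.prod_one_add` or induction), which is `2^D1 W F T` if all `|T ∩ B i|` are odd, and `0`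
  otherwise. In particular `W R T0 ≠ 0`.
* `R y` is an integer, `R y = 0` for `y ∉ Sol v` (`fp_mem_Sol`, `odv_sm`), so `R^2 ≤ R^4`.
* If `W R T ≠ 0` then `W F T ≠ 0`, `lvl T ≤ D1`, and `exists_close` gives `X` with
  `|T ∆ bd X| ≤ D1 + D`. `hyper_sol`: `|Sol| Σ R^2 ≤ |Sol| Σ R^4 ≤ Kh^(D1 + D) (Σ R^2)^2`, and
  `Σ R^2 > 0`, so `|Sol| ≤ Kh^(D1 + D) Σ R^2`. `parseval`: `2^|E| Σ R^2 = Σ_T (W R T)^2
  = 4^D1 Σ_{T ∈ O} (W F T)^2`, `O` = the set of all `T` with all `|T ∩ B i|` odd.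
* For `T ∈ O`: `D1 ≤ κ lvl T`: let `lvl T = |(T ∆ bd X) \ bd {v}|`; each `B i` is even and avoids
  `bd {v}`, so `|B i ∩ ((T ∆ bd X) \ bd {v})|` is odd (`even_inter_bd`), hence at least one, and every
  edge is in at most `κ` of the `B i`. So `u0^(lvl T) ≥ u1^(κ lvl T) ≥ u1^D1`.
* `Σ_T u0^(lvl T) (W F T)^2 ≥ u1^D1 Σ_{T ∈ O} (W F T)^2 ≥ u1^D1 2^|E| |Sol| / (4^D1 Kh^(D1 + D))
  ≥ 4^D1 2^|E| |Sol|` because `u1 ≥ 16 Kh^(1 + D)` and `D1 ≥ 1`.
-/

namespace Pool.Agent.H3.Ex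

open Finset Pool.Agent.H3.Frg Pool.Agent.H3.Frg2 Pool.Agent.H3.Frg3

variable {E Wv : Type} [Fintype E] [DecidableEq E] [Fintype Wv] [DecidableEq Wv]
  {src tgt : E → Wv} {D c0 : ℕ} {ε : Wv → ℝ} {v : Wv}

theorem W_fp (F : (E → Bool) → ℝ) (A T : Finset E) :
    W (fun y => F (fp A y)) T = (if Odd (T ∩ A).card then -1 else 1) * W F T := by
  have hinv : Function.Involutive (fp A : (E → Bool) → (E → Bool)) := by
    intro y
    rw [fp_fp, symmDiff_self]
    exact fp_empty y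
  unfold W
  rw [← Equiv.sum_comp hinv.toPerm, Finset.mul_sum]
  refine Finset.sum_congr rfl fun y _ => ?_
  show F (fp A (fp A y)) * chi T (fp A y) = _
  rw [hinv y, chi_fp]
  ring

/-- the alternating sum -/
private noncomputable def gR (F : (E → Bool) → ℝ) {k : ℕ} (B : Fin k → Finset E)
    (y : E → Bool) : ℝ :=
  ∑ s : Finset (Fin k), (-1) ^ s.card * F (fp (sm B s) y)

private theorem gR_W (F : (E → Bool) → ℝ) {k : ℕ} (B : Fin k → Finset E) (T : Finset E) :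
    W (gR F B) T = (∏ i : Fin k, (if Odd (T ∩ B i).card then (2 : ℝ) else 0)) * W F T := by
  have h1 : W (gR F B) T = ∑ s : Finset (Fin k), (-1) ^ s.card *
      W (fun y => F (fp (sm B s) y)) T := by
    unfold W gR
    simp only [Finset.sum_mul, Finset.mul_sum]
    rw [Finset.sum_comm]
    exact Finset.sum_congr rfl fun s _ => Finset.sum_congr rfl fun y _ => by ring
  have h2 : ∀ s : Finset (Fin k), (-1 : ℝ) ^ s.card * W (fun y => F (fp (sm B s) y)) T =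
      (∏ i ∈ s, (if Odd (T ∩ B i).card then (1 : ℝ) else -1)) * W F T := by
    intro s
    rw [W_fp]
    have h3 : (if Odd (T ∩ sm B s).card then (-1 : ℝ) else 1) =
        ∏ i ∈ s, (if Odd (T ∩ B i).card then (-1 : ℝ) else 1) := by
      rw [Finset.prod_ite, Finset.prod_const, Finset.prod_const_one, mul_one]
      by_cases h : Odd (T ∩ sm B s).card
      · rw [if_pos h, ((odd_inter_sm B s T).mp h).neg_one_pow]
      · rw [if_neg h, (Nat.not_odd_iff_even.mp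
          (fun h4 => h ((odd_inter_sm B s T).mpr h4))).neg_one_pow]
    rw [h3, ← mul_assoc, ← Finset.prod_const, ← Finset.prod_mul_distrib]
    congr 1
    refine Finset.prod_congr rfl fun i _ => ?_
    split_ifs <;> norm_num
  rw [h1, Finset.sum_congr rfl fun s _ => h2 s, ← Finset.sum_mul]
  congr 1
  have h4 : ∑ s : Finset (Fin k), ∏ i ∈ s, (if Odd (T ∩ B i).card then (1 : ℝ) else -1) =
      ∏ i : Fin k, (1 + (if Odd (T ∩ B i).card then (1 : ℝ) else -1)) := by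
    rw [Finset.prod_one_add, Finset.powerset_univ]
  rw [h4]
  refine Finset.prod_congr rfl fun i _ => ?_
  split_ifs <;> norm_num

private theorem gR_int {F : (E → Bool) → ℝ} (hF : ∀ y, F y = 0 ∨ F y = 1) {k : ℕ}
    (B : Fin k → Finset E) (y : E → Bool) : ∃ n : ℤ, gR F B y = n := by
  have h : ∀ s : Finset (Fin k), ∃ n : ℤ, (-1 : ℝ) ^ s.card * F (fp (sm B s) y) = n := by
    intro s
    rcases hF (fp (sm B s) y) with h | h
    · exact ⟨0, by rw [h]; simp⟩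
    · exact ⟨(-1) ^ s.card, by rw [h]; simp⟩
  choose n hn using h
  refine ⟨∑ s, n s, ?_⟩
  unfold gR
  rw [Finset.sum_congr rfl fun s _ => hn s]
  push_cast
  rfl

private theorem gR_sq {F : (E → Bool) → ℝ} (hF : ∀ y, F y = 0 ∨ F y = 1) {k : ℕ}
    (B : Fin k → Finset E) (y : E → Bool) : gR F B y ^ 2 ≤ gR F B y ^ 4 := by
  obtain ⟨n, hn⟩ := gR_int hF B y
  rw [hn]
  have h : n ^ 2 ≤ n ^ 4 := by
    rcases eq_or_ne n 0 with h | h
    · rw [h]
      norm_num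
    · have h1 : 1 ≤ n ^ 2 := by
        have : 0 < n ^ 2 := by positivity
        omega
      nlinarith
  exact_mod_cast h

/-- a term with all products odd has high level -/
private theorem gran_lvl {T : Finset E} {k κ : ℕ} {B : Fin k → Finset E}
    (hB : ∀ i, odv src tgt (B i) = ∅ ∧ Disjoint (B i) (bd src tgt {v}))
    (hκ : ∀ e, (univ.filter fun i => e ∈ B i).card ≤ κ)
    (hT : ∀ i, Odd (T ∩ B i).card) : k ≤ κ * lvl src tgt v T := by
  obtain ⟨X, hX⟩ := exists_lvl src tgt v T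
  obtain ⟨Y, hY⟩ : ∃ Y : Finset E, Y = symmDiff T (bd src tgt X) \ bd src tgt {v} := ⟨_, rfl⟩
  rw [hX, ← hY]
  have h1 : ∀ i, 1 ≤ (Y.filter fun e => e ∈ B i).card := by
    intro i
    have h2 : Odd (symmDiff T (bd src tgt X) ∩ B i).card := by
      rw [odd_symmDiff_inter]
      have h3 : ¬ Odd (bd src tgt X ∩ B i).card := by
        rw [Finset.inter_comm, Nat.not_odd_iff_even]
        exact even_inter_bd (hB i).1 X
      have := hT i
      tauto
    have h4 : symmDiff T (bd src tgt X) ∩ B i = Y.filter fun e => e ∈ B i := by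
      ext e
      rw [Finset.mem_inter, Finset.mem_filter, hY, Finset.mem_sdiff]
      constructor
      · rintro ⟨h5, h6⟩
        exact ⟨⟨h5, fun h7 => Finset.disjoint_left.mp (hB i).2 h6 h7⟩, h6⟩
      · rintro ⟨⟨h5, _⟩, h6⟩
        exact ⟨h5, h6⟩
    rw [← h4]
    exact h2.pos
  have h2 : ∑ i : Fin k, (Y.filter fun e => e ∈ B i).card =
      ∑ e ∈ Y, (univ.filter fun i => e ∈ B i).card := by
    simp only [Finset.card_filter]
    exact Finset.sum_comm
  calc k = ∑ _i : Fin k, 1 := by simp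
    _ ≤ ∑ i : Fin k, (Y.filter fun e => e ∈ B i).card := Finset.sum_le_sum fun i _ => h1 i
    _ = ∑ e ∈ Y, (univ.filter fun i => e ∈ B i).card := h2
    _ ≤ ∑ _e ∈ Y, κ := Finset.sum_le_sum fun e _ => hκ e
    _ = κ * Y.card := by rw [Finset.sum_const, smul_eq_mul, mul_comm]

theorem gran (h : GX src tgt D c0) (hε : ∀ w, ε w * ε w = 1) {f : (E → Bool) → Bool}
    {t dmax κ lam : ℕ} {u0 u1 : ℝ} (hmax : LW src tgt ε v (rl f) dmax)
    (hnot : ¬ LW src tgt ε v (rl f) t) (ht : 2 * D ^ 2 * c0 + 1 ≤ t)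
    (hn : 1 + c0 * D + 2 * c0 * (dmax + D) * dmax < Fintype.card Wv) (hlam : 2 ≤ lam)
    (hκ : Fintype.card E * 3 ^ (4 * (18 + 16 * D * c0) * lam) < lam ^ κ)
    (hu1 : 16 * (Kh D c0 : ℝ) ^ (1 + D) ≤ u1) (hu0 : u1 ^ κ ≤ u0) :
    4 ^ (t + 1) * ((2 : ℝ) ^ Fintype.card E * ((Sol src tgt ε v).card : ℝ)) ≤
      ∑ T, u0 ^ lvl src tgt v T * W (fun y => rl f y * sI src tgt ε v y) T ^ 2 := by
  classical
  obtain ⟨F, hFdef⟩ : ∃ F : (E → Bool) → ℝ, F = fun y => rl f y * sI src tgt ε v y := ⟨_, rfl⟩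
  rw [← hFdef]
  unfold LW at hmax hnot
  rw [← hFdef] at hmax hnot
  have hF01 : ∀ y, F y = 0 ∨ F y = 1 := by
    intro y
    rw [hFdef]
    show rl f y * sI src tgt ε v y = 0 ∨ rl f y * sI src tgt ε v y = 1
    unfold rl sI
    split_ifs <;> simp
  have hF0 : ∀ y, y ∉ Sol src tgt ε v → F y = 0 := by
    intro y hy
    rw [hFdef]
    show rl f y * sI src tgt ε v y = 0
    unfold sI
    rw [if_neg hy, mul_zero]
  push Not at hnot
  obtain ⟨T1, hT1, hT1t⟩ := hnot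
  obtain ⟨T0, hT0, hT0max⟩ := Finset.exists_max_image
    ((univ : Finset (Finset E)).filter fun T => W F T ≠ 0) (fun T => lvl src tgt v T)
    ⟨T1, Finset.mem_filter.mpr ⟨Finset.mem_univ _, hT1⟩⟩
  rw [Finset.mem_filter] at hT0
  have hT0W := hT0.2
  obtain ⟨D1, hD1⟩ : ∃ D1, D1 = lvl src tgt v T0 := ⟨_, rfl⟩
  have hD1t : t + 1 ≤ D1 := by
    have := hT0max T1 (Finset.mem_filter.mpr ⟨Finset.mem_univ _, hT1⟩)
    omega
  have hD1max : D1 ≤ dmax := by
    rw [hD1]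
    exact hmax T0 hT0W
  have hlvl : ∀ T, W F T ≠ 0 → lvl src tgt v T ≤ D1 := by
    intro T hT
    rw [hD1]
    exact hT0max T (Finset.mem_filter.mpr ⟨Finset.mem_univ _, hT⟩)
  have hn' : 1 + c0 * D + 2 * c0 * (D1 + D) * D1 < Fintype.card Wv := by
    refine lt_of_le_of_lt ?_ hn
    have h1 : 2 * c0 * (D1 + D) * D1 ≤ 2 * c0 * (dmax + D) * dmax :=
      Nat.mul_le_mul (Nat.mul_le_mul_left _ (by omega)) hD1max
    omega
  obtain ⟨B, hB, hBκ⟩ := exists_family h hD1 (by omega) hn' hlam hκ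
  have hRW : ∀ T, W (gR F B) T =
      (∏ i : Fin D1, (if Odd (T ∩ B i).card then (2 : ℝ) else 0)) * W F T := gR_W F B
  have hRsol : ∀ y, y ∉ Sol src tgt ε v → gR F B y = 0 := by
    intro y hy
    unfold gR
    refine Finset.sum_eq_zero fun s _ => ?_
    rw [hF0 _ (fun h2 => hy ((fp_mem_Sol (odv_sm fun i _ => (hB i).1)).mp h2)), mul_zero]
  have hhyp := hyper_sol h hε (g := gR F B) hRsol (d := D1 + D) (by
    intro T hT
    have h1 : W F T ≠ 0 := by
      intro h2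
      exact hT (by rw [hRW, h2, mul_zero])
    obtain ⟨X, hX⟩ := exists_close h (v := v) T
    exact ⟨X, hX.trans (Nat.add_le_add_right (hlvl T h1) D)⟩)
  obtain ⟨R2, hR2⟩ : ∃ R2 : ℝ, R2 = ∑ y, gR F B y ^ 2 := ⟨_, rfl⟩
  have hpars := parseval (gR F B)
  rw [← hR2] at hpars hhyp
  have hW0 : W (gR F B) T0 ≠ 0 := by
    rw [hRW]
    refine mul_ne_zero (Finset.prod_ne_zero_iff.mpr fun i _ => ?_) hT0W
    rw [if_pos (hB i).2.2]
    norm_num
  have hR2pos : 0 < R2 := by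
    have h1 : W (gR F B) T0 ^ 2 ≤ ∑ S : Finset E, W (gR F B) S ^ 2 :=
      Finset.single_le_sum (f := fun S => W (gR F B) S ^ 2) (fun S _ => sq_nonneg _)
        (Finset.mem_univ T0)
    have h2 : 0 < W (gR F B) T0 ^ 2 := by positivity
    rw [hpars] at h1
    have h3 : 0 < (2 : ℝ) ^ Fintype.card E * R2 := lt_of_lt_of_le h2 h1
    exact pos_of_mul_pos_right h3 (by positivity)
  have hKh1 : (1 : ℝ) ≤ (Kh D c0 : ℝ) := by
    have : 1 ≤ Kh D c0 := by
      unfold Kh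
      have : 0 < 2 ^ (4 + 4 * c0 * D) := by positivity
      omega
    exact_mod_cast this
  have hSol : ((Sol src tgt ε v).card : ℝ) ≤ (Kh D c0 : ℝ) ^ (D1 + D) * R2 := by
    have h1 : R2 ≤ ∑ y, gR F B y ^ 4 := by
      rw [hR2]
      exact Finset.sum_le_sum fun y _ => gR_sq hF01 B y
    have h2 : ((Sol src tgt ε v).card : ℝ) * R2 ≤ (Kh D c0 : ℝ) ^ (D1 + D) * R2 * R2 := by
      calc ((Sol src tgt ε v).card : ℝ) * R2 ≤ ((Sol src tgt ε v).card : ℝ) *
            ∑ y, gR F B y ^ 4 := mul_le_mul_of_nonneg_left h1 (Nat.cast_nonneg _)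
        _ ≤ (Kh D c0 : ℝ) ^ (D1 + D) * R2 ^ 2 := hhyp
        _ = _ := by ring
    exact le_of_mul_le_mul_right h2 hR2pos
  have hu1one : 1 ≤ u1 := by
    have h1 : (1 : ℝ) ≤ (Kh D c0 : ℝ) ^ (1 + D) := one_le_pow₀ hKh1
    linarith
  have hu0one : 1 ≤ u0 := (one_le_pow₀ hu1one).trans hu0
  -- comparison of the terms
  have hterm : ∀ T : Finset E, u1 ^ D1 * W (gR F B) T ^ 2 ≤
      4 ^ D1 * (u0 ^ lvl src tgt v T * W F T ^ 2) := by
    intro T
    by_cases hT : ∀ i, Odd (T ∩ B i).card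
    · have h1 : ∏ i : Fin D1, (if Odd (T ∩ B i).card then (2 : ℝ) else 0) = 2 ^ D1 := by
        rw [Finset.prod_congr rfl fun i _ => if_pos (hT i), Finset.prod_const,
          Finset.card_univ, Fintype.card_fin]
      have h2 := gran_lvl (fun i => ⟨(hB i).1, (hB i).2.1⟩) hBκ hT
      have h3 : u1 ^ D1 ≤ u0 ^ lvl src tgt v T := by
        calc u1 ^ D1 ≤ u1 ^ (κ * lvl src tgt v T) := pow_le_pow_right₀ hu1one h2
          _ = (u1 ^ κ) ^ lvl src tgt v T := pow_mul _ _ _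
          _ ≤ u0 ^ lvl src tgt v T := pow_le_pow_left₀ (by positivity) hu0 _
      rw [hRW, h1, mul_pow]
      have h4 : ((2 : ℝ) ^ D1) ^ 2 = 4 ^ D1 := by
        rw [← pow_mul, mul_comm, pow_mul]
        norm_num
      rw [h4]
      have h5 : 0 ≤ (4 : ℝ) ^ D1 * W F T ^ 2 := by positivity
      calc u1 ^ D1 * (4 ^ D1 * W F T ^ 2) ≤ u0 ^ lvl src tgt v T * (4 ^ D1 * W F T ^ 2) :=
            mul_le_mul_of_nonneg_right h3 h5
        _ = _ := by ring
    · push Not at hT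
      obtain ⟨i, hi⟩ := hT
      have h1 : ∏ i : Fin D1, (if Odd (T ∩ B i).card then (2 : ℝ) else 0) = 0 :=
        Finset.prod_eq_zero (Finset.mem_univ i) (if_neg hi)
      rw [hRW, h1, zero_mul]
      have : 0 ≤ u0 ^ lvl src tgt v T := by positivity
      have h2 : 0 ≤ (4 : ℝ) ^ D1 * (u0 ^ lvl src tgt v T * W F T ^ 2) := by positivity
      simpa using h2
  have hsum : u1 ^ D1 * ((2 : ℝ) ^ Fintype.card E * R2) ≤
      4 ^ D1 * ∑ T, u0 ^ lvl src tgt v T * W F T ^ 2 := by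
    rw [← hpars, Finset.mul_sum, Finset.mul_sum]
    exact Finset.sum_le_sum fun T _ => hterm T
  have hpow : (4 : ℝ) ^ D1 * 4 ^ (t + 1) * (Kh D c0 : ℝ) ^ (D1 + D) ≤ u1 ^ D1 := by
    have h1 : (16 * (Kh D c0 : ℝ) ^ (1 + D)) ^ D1 ≤ u1 ^ D1 :=
      pow_le_pow_left₀ (by positivity) hu1 _
    refine le_trans ?_ h1
    rw [mul_pow, ← pow_mul]
    have h2 : (4 : ℝ) ^ (t + 1) ≤ 4 ^ D1 := pow_le_pow_right₀ (by norm_num) hD1t
    have h3 : (16 : ℝ) ^ D1 = 4 ^ D1 * 4 ^ D1 := by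
      rw [← mul_pow]
      norm_num
    have h4 : (Kh D c0 : ℝ) ^ (D1 + D) ≤ (Kh D c0 : ℝ) ^ ((1 + D) * D1) := by
      refine pow_le_pow_right₀ hKh1 ?_
      have h5 : D * 1 ≤ D * D1 := Nat.mul_le_mul_left _ (by omega)
      have h6 : (1 + D) * D1 = D1 + D * D1 := by ring
      rw [h6]
      omega
    rw [h3]
    exact mul_le_mul (mul_le_mul_of_nonneg_left h2 (by positivity)) h4 (by positivity)
      (by positivity)
  have h4pos : (0 : ℝ) < 4 ^ D1 := by positivity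
  refine le_of_mul_le_mul_left ?_ h4pos
  calc (4 : ℝ) ^ D1 * (4 ^ (t + 1) * (2 ^ Fintype.card E * ((Sol src tgt ε v).card : ℝ)))
      ≤ 4 ^ D1 * (4 ^ (t + 1) * (2 ^ Fintype.card E * ((Kh D c0 : ℝ) ^ (D1 + D) * R2))) := by
        gcongr
    _ = (4 ^ D1 * 4 ^ (t + 1) * (Kh D c0 : ℝ) ^ (D1 + D)) * (2 ^ Fintype.card E * R2) := by ring
    _ ≤ u1 ^ D1 * (2 ^ Fintype.card E * R2) := by
        refine mul_le_mul_of_nonneg_right hpow ?_
        positivity
    _ ≤ _ := hsum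

end Pool.Agent.H3.Ex
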