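import Mathlib
import Pool.Agent.H3.Ex.Defs
import Pool.Agent.H3.Ex.BallDefs
import Pool.Agent.H3.Ex.Base
import Pool.Agent.H3.Ex.Sol
import Pool.Agent.H3.Frg3.Basic

set_option autoImplicit false
set_option linter.unusedSectionVars false

/-!
# Module TRF: transfer of transforms and worlds to the small graph

Facts of `Frg3/Basic.lean`: `chi_rs` (`chi S (rs a z) = chi S a * chi (lv S) z`), `W_rs`, `mem_Asn`,
`sum_Asn_chi`, `card_Asn`, `mem_nce`, `cn`; `Stg.path`: `lv (bd X) = bd' (cn X)`.

* `sol_rs`: for `w : Wv` `chi (bd {w}) (rs a z) = chi (bd {w}) a * chi (bd' (cn {w})) z`. If `w` is not a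
  centre then `cn {w} = ∅` and the axiom of `w` holds because `a ∈ Asn`. If `w = cen c w'` then
  `cn {w} = {w'}` (`Stg.inj`), and the axiom of `w` for `rs a z` is equivalent to the axiom of `w'` for
  `z` with the signs `eN` (`eN w' = ε w * chi (bd {w}) a`). `w ≠ cen c v` iff `w` is not a centre or
  `w = cen c w'` with `w' ≠ v`.
* `sI_rs`: from `sol_rs`.
* `transfer`: by `W_rs`, `4^|E| Σ_{a ∈ Asn} Σ_{T'} ψ T' (W (F ∘ rs a) T')^2
  = 4^|E'| Σ_{S, S' : lv S = lv S'} ψ (lv S) W F S * W F S' * Σ_{a ∈ Asn} chi (S ∆ S') a`. By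
  `sum_Asn_chi` the inner sum is `|Asn| epsX ε X` if `S ∆ S' = bd X` with `X ⊆ nce` (there is at most one
  such `X`: if `bd X = bd Y`, then `bd (X ∆ Y) = ∅`, and `X ∆ Y = univ` is impossible for subsets of
  `nce`, `Con`), and `0` otherwise. For `X ⊆ nce` we have `cen c v ∉ X`, so
  `W F (S ∆ bd X) = epsX ε X * W F S` (`W_shift`), and `lv (S ∆ bd X) = lv S ∆ bd' (cn X) = lv S`. So for
  every `S` the sum over `S'` is `|Asn| 2^|nce| (W F S)^2 = 2^|E| (W F S)^2` (`card_Asn`).
-/

namespace Pool.Agent.H3.Ex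

open Finset Pool.Agent.H3.Frg Pool.Agent.H3.Frg2 Pool.Agent.H3.Frg3

variable {E Wv E' Wv' C : Type} [Fintype E] [DecidableEq E] [Fintype Wv] [DecidableEq Wv]
  [Fintype E'] [DecidableEq E'] [Fintype Wv'] [DecidableEq Wv'] [Fintype C] [DecidableEq C]
  {src tgt : E → Wv} {src' tgt' : E' → Wv'} {cen : C → Wv' → Wv}
  {lvi : C → E → Finset E'} {D : ℕ} {ε : Wv → ℝ}

theorem sol_rs (hst : Stg src tgt src' tgt' cen lvi D) (hε : ∀ w, ε w * ε w = 1) {c : C}
    {a : E → Bool} (ha : a ∈ Asn src tgt ε cen c) (z : E' → Bool) (v : Wv') :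
    rs lvi c a z ∈ Sol src tgt ε (cen c v) ↔
      z ∈ Sol src' tgt' (eN src tgt ε cen c a) v := by
  have hinj := hst.inj c
  have hcn : ∀ w' : Wv', cn cen c {cen c w'} = {w'} := by
    intro w'
    ext u
    rw [mem_cn, Finset.mem_singleton, Finset.mem_singleton]
    exact ⟨fun h => hinj h, fun h => by rw [h]⟩
  have hv : ∀ w : Wv, chi (bd src tgt {w}) (rs lvi c a z) =
      chi (bd src tgt {w}) a * chi (bd src' tgt' (cn cen c {w})) z := by
    intro w
    rw [chi_rs, hst.path]
  rw [mem_Sol, mem_Sol]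
  constructor
  · intro h w' hw'
    have h1 := h (cen c w') (fun h2 => hw' (hinj h2))
    rw [hv, hcn] at h1
    unfold eN
    rw [← h1]
    linear_combination (-chi (bd src' tgt' {w'}) z) * chi_mul_self (bd src tgt {cen c w'}) a
  · intro h w hw
    rw [hv]
    by_cases hc : ∃ w', cen c w' = w
    · obtain ⟨w', rfl⟩ := hc
      have h1 := h w' (fun h2 => hw (by rw [h2]))
      rw [hcn, h1]
      unfold eN
      linear_combination (ε (cen c w')) * chi_mul_self (bd src tgt {cen c w'}) a
    · push Not at hc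
      have h1 : cn cen c {w} = ∅ := by
        ext u
        rw [mem_cn, Finset.mem_singleton]
        simp only [Finset.notMem_empty, iff_false]
        exact hc u
      rw [h1, bd_empty, chi_empty, mul_one]
      exact mem_Asn.mp ha w (mem_nce.mpr hc)

theorem sI_rs (hst : Stg src tgt src' tgt' cen lvi D) (hε : ∀ w, ε w * ε w = 1) {c : C}
    {a : E → Bool} (ha : a ∈ Asn src tgt ε cen c) (z : E' → Bool) (v : Wv') :
    sI src tgt ε (cen c v) (rs lvi c a z) =
      sI src' tgt' (eN src tgt ε cen c a) v z := by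
  unfold sI
  by_cases h : z ∈ Sol src' tgt' (eN src tgt ε cen c a) v
  · rw [if_pos h, if_pos ((sol_rs hst hε ha z v).mpr h)]
  · rw [if_neg h, if_neg (fun h2 => h ((sol_rs hst hε ha z v).mp h2))]

theorem trf_key1 (F : (E → Bool) → ℝ) (c : C) (ψ : Finset E' → ℝ) (a : E → Bool) :
    ((2 : ℝ) ^ Fintype.card E) ^ 2 *
        ∑ T' : Finset E', ψ T' * W (fun z => F (rs lvi c a z)) T' ^ 2 =
      4 ^ Fintype.card E' * ∑ S : Finset E, ∑ S' : Finset E,
        (if lv lvi c S = lv lvi c S' then ψ (lv lvi c S) * W F S * W F S' else 0) *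
          chi (symmDiff S S') a := by
  have h3 : (4 : ℝ) ^ Fintype.card E' = (2 ^ Fintype.card E') ^ 2 := by
    rw [← pow_mul, mul_comm, pow_mul]
    norm_num
  have h1 : ∀ T' : Finset E', ((2 : ℝ) ^ Fintype.card E) ^ 2 *
      (ψ T' * W (fun z => F (rs lvi c a z)) T' ^ 2) =
      4 ^ Fintype.card E' * ∑ S : Finset E, ∑ S' : Finset E,
        ψ T' * (((if lv lvi c S = T' then W F S else 0) * chi S a) *
          ((if lv lvi c S' = T' then W F S' else 0) * chi S' a)) := by
    intro T'
    have h2 := W_rs (lvi := lvi) (c := c) F a T'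
    have h4 : ∑ S : Finset E, ∑ S' : Finset E,
        ψ T' * (((if lv lvi c S = T' then W F S else 0) * chi S a) *
          ((if lv lvi c S' = T' then W F S' else 0) * chi S' a)) =
        ψ T' * ((∑ S : Finset E, (if lv lvi c S = T' then W F S else 0) * chi S a) *
          (∑ S' : Finset E, (if lv lvi c S' = T' then W F S' else 0) * chi S' a)) := by
      rw [Finset.sum_mul_sum]
      simp only [Finset.mul_sum]
    rw [h4, h3]
    calc ((2 : ℝ) ^ Fintype.card E) ^ 2 * (ψ T' * W (fun z => F (rs lvi c a z)) T' ^ 2)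
        = ψ T' * ((2 : ℝ) ^ Fintype.card E * W (fun z => F (rs lvi c a z)) T') ^ 2 := by ring
      _ = ψ T' * ((2 : ℝ) ^ Fintype.card E' *
          ∑ S : Finset E, (if lv lvi c S = T' then W F S else 0) * chi S a) ^ 2 := by rw [h2]
      _ = _ := by ring
  rw [Finset.mul_sum, Finset.sum_congr rfl fun T' _ => h1 T', ← Finset.mul_sum]
  congr 1
  rw [Finset.sum_comm]
  refine Finset.sum_congr rfl fun S _ => ?_
  rw [Finset.sum_comm]
  refine Finset.sum_congr rfl fun S' _ => ?_
  rw [Finset.sum_eq_single (lv lvi c S)]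
  · rw [if_pos rfl, ← chi_mul]
    by_cases h : lv lvi c S = lv lvi c S'
    · rw [if_pos h, if_pos h.symm]
      ring
    · rw [if_neg h, if_neg (fun h2 => h h2.symm)]
      ring
  · intro T' _ hT'
    rw [if_neg (fun h2 => hT' h2.symm)]
    ring
  · intro h
    exact absurd (Finset.mem_univ _) h

theorem transfer (hst : Stg src tgt src' tgt' cen lvi D) (hconn : Frg3.Con src tgt)
    (hε : ∀ w, ε w * ε w = 1) (c : C) (v : Wv') {F : (E → Bool) → ℝ}
    (hF : ∀ y, y ∉ Sol src tgt ε (cen c v) → F y = 0) (ψ : Finset E' → ℝ) :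
    (2 : ℝ) ^ Fintype.card E * ∑ a ∈ Asn src tgt ε cen c, ∑ T' : Finset E',
        ψ T' * W (fun z => F (rs lvi c a z)) T' ^ 2 =
      4 ^ Fintype.card E' * ∑ S : Finset E, ψ (lv lvi c S) * W F S ^ 2 := by
  obtain ⟨A, hA⟩ : ∃ A : Finset E → Finset E → ℝ, A = fun S S' =>
      (if lv lvi c S = lv lvi c S' then ψ (lv lvi c S) * W F S * W F S' else 0) := ⟨_, rfl⟩
  have key1 : ∀ a : E → Bool, ((2 : ℝ) ^ Fintype.card E) ^ 2 *
        ∑ T' : Finset E', ψ T' * W (fun z => F (rs lvi c a z)) T' ^ 2 =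
      4 ^ Fintype.card E' * ∑ S : Finset E, ∑ S' : Finset E, A S S' * chi (symmDiff S S') a := by
    intro a
    rw [hA]
    exact trf_key1 F c ψ a
  have key2 : (2 : ℝ) ^ (nce cen c).card * ∑ a ∈ Asn src tgt ε cen c,
      ∑ S : Finset E, ∑ S' : Finset E, A S S' * chi (symmDiff S S') a =
      (2 : ℝ) ^ Fintype.card E * ∑ S : Finset E, ∑ S' : Finset E, A S S' *
        ∑ X ∈ (nce cen c).powerset, (if bd src tgt X = symmDiff S S' then epsX ε X else 0) := by
    rw [Finset.sum_comm, Finset.mul_sum, Finset.mul_sum]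
    refine Finset.sum_congr rfl fun S _ => ?_
    rw [Finset.sum_comm, Finset.mul_sum, Finset.mul_sum]
    refine Finset.sum_congr rfl fun S' _ => ?_
    rw [← Finset.mul_sum]
    have h := sum_Asn_chi (src := src) (tgt := tgt) (cen := cen) (c := c) hε (symmDiff S S')
    linear_combination (A S S') * h
  have key3 : ∀ S : Finset E, ∑ S' : Finset E, A S S' *
        ∑ X ∈ (nce cen c).powerset, (if bd src tgt X = symmDiff S S' then epsX ε X else 0) =
      (2 : ℝ) ^ (nce cen c).card * (ψ (lv lvi c S) * W F S ^ 2) := by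
    intro S
    have h1 : ∀ X ∈ (nce cen c).powerset, ∑ S' : Finset E, A S S' *
        (if bd src tgt X = symmDiff S S' then epsX ε X else 0) =
        ψ (lv lvi c S) * W F S ^ 2 := by
      intro X hX
      rw [Finset.mem_powerset] at hX
      have hcn : cn cen c X = ∅ := by
        ext u
        rw [mem_cn]
        simp only [Finset.notMem_empty, iff_false]
        intro h2
        exact mem_nce.mp (hX h2) u rfl
      have hlv : lv lvi c (symmDiff S (bd src tgt X)) = lv lvi c S := by
        rw [lv_symmDiff, hst.path, hcn, bd_empty]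
        ext e
        simp [Finset.mem_symmDiff]
      have hvX : cen c v ∉ X := fun h2 => mem_nce.mp (hX h2) v rfl
      have hW : W F (symmDiff S (bd src tgt X)) = epsX ε X * W F S := by
        rw [W_shift hF, sX, if_neg hvX]
      rw [Finset.sum_eq_single (symmDiff S (bd src tgt X))]
      · have h4 : symmDiff S (symmDiff S (bd src tgt X)) = bd src tgt X :=
          symmDiff_symmDiff_cancel_left _ _
        rw [h4, if_pos rfl, hA]
        show (if lv lvi c S = lv lvi c (symmDiff S (bd src tgt X)) then _ else 0) * _ = _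
        rw [hlv, if_pos rfl, hW]
        linear_combination (ψ (lv lvi c S) * W F S ^ 2) * epsX_mul_self hε X
      · intro S' _ hS'
        rw [if_neg, mul_zero]
        intro h4
        apply hS'
        rw [h4, symmDiff_symmDiff_cancel_left]
      · intro h
        exact absurd (Finset.mem_univ _) h
    calc ∑ S' : Finset E, A S S' *
        ∑ X ∈ (nce cen c).powerset, (if bd src tgt X = symmDiff S S' then epsX ε X else 0)
        = ∑ X ∈ (nce cen c).powerset, ∑ S' : Finset E, A S S' *
          (if bd src tgt X = symmDiff S S' then epsX ε X else 0) := by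
          rw [Finset.sum_comm]
          refine Finset.sum_congr rfl fun S' _ => ?_
          rw [Finset.mul_sum]
      _ = ∑ X ∈ (nce cen c).powerset, ψ (lv lvi c S) * W F S ^ 2 := Finset.sum_congr rfl h1
      _ = _ := by
          rw [Finset.sum_const, Finset.card_powerset, nsmul_eq_mul]
          push_cast
          ring
  rw [Finset.sum_congr rfl fun S _ => key3 S, ← Finset.mul_sum] at key2
  have hn : (2 : ℝ) ^ (nce cen c).card ≠ 0 := by positivity
  have hN : (2 : ℝ) ^ Fintype.card E ≠ 0 := by positivity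
  have key4 : ∑ a ∈ Asn src tgt ε cen c,
      ∑ S : Finset E, ∑ S' : Finset E, A S S' * chi (symmDiff S S') a =
      (2 : ℝ) ^ Fintype.card E * ∑ S : Finset E, ψ (lv lvi c S) * W F S ^ 2 := by
    apply mul_left_cancel₀ hn
    rw [key2]
    ring
  have key5 : ((2 : ℝ) ^ Fintype.card E) ^ 2 * ∑ a ∈ Asn src tgt ε cen c, ∑ T' : Finset E',
        ψ T' * W (fun z => F (rs lvi c a z)) T' ^ 2 =
      4 ^ Fintype.card E' * ((2 : ℝ) ^ Fintype.card E *
        ∑ S : Finset E, ψ (lv lvi c S) * W F S ^ 2) := by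
    rw [← key4, Finset.mul_sum, Finset.sum_congr rfl fun a _ => key1 a, ← Finset.mul_sum]
  apply mul_left_cancel₀ hN
  linear_combination key5

end Pool.Agent.H3.Ex
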