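import Mathlib
import Pool.Agent.H3.Ex.Defs
import Pool.Agent.H3.Ex.BallDefs
import Pool.Agent.H3.Ex.Base
import Pool.Agent.H3.Ex.Sol
import Pool.Agent.H3.Ex.Trf
import Pool.Agent.H3.Frg3.QLeaf
import Pool.Agent.H3.Frg3.Count3

set_option autoImplicit false
set_option linter.unusedSectionVars false

/-!
# Module MOM: the moment bound

Write `n = |Wv|`, `n' = |Wv'|`, `N = 2^|E| / 2^(n-1) = |Sol u|` for every `u`, `N' = 2^|E'| / 2^(n'-1)`
(`card_Sol`). For `u : Wv` let `Φ_u S = Σ_{c : cen c v = u} u0^(lvl v (lv c S))`, `m_u` = number of `c`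
with `cen c v = u`.

* `NP_sI`: `W (sI u) S ≠ 0` only if `S` is a cut `bd X` (`W_sI`), and then
  `lv c (bd X) = bd' (cn c X)` has level `0` (`lvl_shift`, or `lvl_le` with `cn c X`), so
  `Φ_u S = m_u`; `Σ_S (W (sI u) S)^2 = 2^|E| Σ_y (sI u y)^2 = 2^|E| N` (`parseval`).
* `moment_u`: if `m_u = 0` both sides vanish. Otherwise `Φ_u > 0`, and `vl_bound` (`Frg3/QLeaf.lean`) for
  `Φ_u`, `f = sI u`, and `hH` give `Σ_S Φ_u S (W (rl (vl A) sI u) S)^2 ≤ 2 m_u 2^|E| N`.
* `moment`: for `(c, a) ∈ Omg`, `u = cen c v`: `rl (vl A) (rs z) * sI' v z = F_u (rs z)` with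
  `F_u = fun y => rl (vl A) y * sI u y` (`sI_rs`). The sum over `ω ∈ Omg` is `Σ_c Σ_{a ∈ Asn c}`; by
  `transfer` it is `4^|E'| / 2^|E| * Σ_c Σ_S u0^(lvl v (lv c S)) (W F_{cen c v} S)^2
  = 4^|E'| / 2^|E| * Σ_u Σ_S Φ_u S (W F_u S)^2 ≤ 4^|E'| / 2^|E| * Σ_u 2 m_u 2^|E| N
  = 2 * 4^|E'| |C| N`. On the other side `|Omg| = Σ_c |Asn c| = |C| 2^|E| / 2^(n - n')` (`card_Omg`,
  `card_Asn`, `card_nce`), so `2^|E'| N' |Omg| = 4^|E'| |C| N`.
-/

namespace Pool.Agent.H3.Ex

open Finset Pool.Agent.H3.Frg Pool.Agent.H3.Frg2 Pool.Agent.H3.Frg3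

variable {E Wv E' Wv' C : Type} [Fintype E] [DecidableEq E] [Fintype Wv] [DecidableEq Wv]
  [Fintype E'] [DecidableEq E'] [Fintype Wv'] [DecidableEq Wv'] [Fintype C] [DecidableEq C]
  {src tgt : E → Wv} {src' tgt' : E' → Wv'} {cen : C → Wv' → Wv}
  {lvi : C → E → Finset E'} {D Dg0 c0 : ℕ} {ε : Wv → ℝ}

/-- the weight -/
noncomputable def Phu (src' tgt' : E' → Wv') (cen : C → Wv' → Wv) (lvi : C → E → Finset E')
    (u0 : ℝ) (v : Wv') (u : Wv) (S : Finset E) : ℝ :=
  ∑ c ∈ (univ : Finset C).filter (fun c => cen c v = u), u0 ^ lvl src' tgt' v (lv lvi c S)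

theorem NP_sI (hst : Stg src tgt src' tgt' cen lvi D) (hG : GX src tgt Dg0 c0)
    (hε : ∀ w, ε w * ε w = 1) (u0 : ℝ) (v : Wv') (u : Wv) :
    NP (Phu src' tgt' cen lvi u0 v u) (sI src tgt ε u) =
      (((univ : Finset C).filter (fun c => cen c v = u)).card : ℝ) *
        ((2 : ℝ) ^ Fintype.card E * (2 ^ Fintype.card E / 2 ^ (Fintype.card Wv - 1))) := by
  classical
  set m : ℝ := (((univ : Finset C).filter (fun c => cen c v = u)).card : ℝ) with hm
  have h1 : ∀ S : Finset E, Phu src' tgt' cen lvi u0 v u S * W (sI src tgt ε u) S ^ 2 =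
      m * W (sI src tgt ε u) S ^ 2 := by
    intro S
    by_cases hW : W (sI src tgt ε u) S = 0
    · rw [hW]
      ring
    · congr 1
      have h2 := W_sI (src := src) (tgt := tgt) (v := u) hε S
      obtain ⟨X, hX⟩ : ∃ X : Finset Wv, bd src tgt X = S := by
        by_contra hcon
        push Not at hcon
        rw [Finset.sum_eq_zero (fun X _ => by rw [if_neg (hcon X), mul_zero])] at h2
        rcases mul_eq_zero.mp h2 with h3 | h3
        · exact absurd h3 (by positivity)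
        · exact hW h3
      have h3 : ∀ c : C, lvl src' tgt' v (lv lvi c S) = 0 := by
        intro c
        rw [← hX, hst.path c X]
        have h4 := lvl_le (src := src') (tgt := tgt') (v := v) (bd src' tgt' (cn cen c X))
          (cn cen c X)
        rw [symmDiff_self, Finset.bot_eq_empty, Finset.empty_sdiff, Finset.card_empty] at h4
        exact Nat.le_zero.mp h4
      unfold Phu
      rw [Finset.sum_congr rfl (fun c _ => by rw [h3 c, pow_zero]), Finset.sum_const,
        nsmul_eq_mul, mul_one]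
  have h2 : ∑ y : E → Bool, sI src tgt ε u y ^ 2 = ((Sol src tgt ε u).card : ℝ) := by
    have h3 : ∀ y : E → Bool, sI src tgt ε u y ^ 2 = if y ∈ Sol src tgt ε u then (1 : ℝ) else 0 := by
      intro y
      unfold sI
      split_ifs <;> norm_num
    rw [Finset.sum_congr rfl (fun y _ => h3 y), Finset.sum_ite_mem, Finset.univ_inter,
      Finset.sum_const, nsmul_eq_mul, mul_one]
  have h3 := card_Sol (v := u) hG hε
  have h4 : ((Sol src tgt ε u).card : ℝ) = 2 ^ Fintype.card E / 2 ^ (Fintype.card Wv - 1) := by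
    rw [eq_div_iff (by positivity)]
    exact h3
  unfold NP
  rw [Finset.sum_congr rfl (fun S _ => h1 S), ← Finset.mul_sum, parseval, h2, h4]

theorem moment_u (hst : Stg src tgt src' tgt' cen lvi D) (hG : GX src tgt Dg0 c0)
    (hε : ∀ w, ε w * ε w = 1) {u0 η : ℝ} (hu0 : 1 ≤ u0) (hη : 0 < η) (v : Wv') (u : Wv)
    (hlip : ∀ S i, Phu src' tgt' cen lvi u0 v u (symmDiff S {i}) ≤
      (1 + η) * Phu src' tgt' cen lvi u0 v u S)
    {w H : ℕ} (ht : ((w : ℝ) + 1) * η ≤ 1 / 100)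
    (hH : (1 + 40 * (((w : ℝ) + 1) * η) ^ 2) ^ H ≤ 2) (A : Fm ((E → Bool) → Bool))
    (hA : A.all fun g => Dg (rl g) w) (hlen : A.len ≤ H) :
    NP (Phu src' tgt' cen lvi u0 v u) (fun y => rl (vl A) y * sI src tgt ε u y) ≤
      2 * ((((univ : Finset C).filter (fun c => cen c v = u)).card : ℝ) *
        ((2 : ℝ) ^ Fintype.card E * (2 ^ Fintype.card E / 2 ^ (Fintype.card Wv - 1)))) := by
  classical
  rcases ((univ : Finset C).filter (fun c => cen c v = u)).eq_empty_or_nonempty with h0 | h0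
  · have h1 : ∀ S : Finset E, Phu src' tgt' cen lvi u0 v u S = 0 := by
      intro S
      unfold Phu
      rw [h0, Finset.sum_empty]
    rw [h0, Finset.card_empty, Nat.cast_zero, zero_mul, mul_zero]
    unfold NP
    rw [Finset.sum_eq_zero (fun S _ => by rw [h1 S, zero_mul])]
  · have hpos : ∀ S : Finset E, 0 < Phu src' tgt' cen lvi u0 v u S := by
      intro S
      unfold Phu
      exact Finset.sum_pos (fun c _ => pow_pos (by linarith) _) h0
    have h1 := vl_bound hpos hη hlip w ht A hA (sI src tgt ε u)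
    have h2 : (1 : ℝ) ≤ 1 + 40 * (((w : ℝ) + 1) * η) ^ 2 := by
      nlinarith [sq_nonneg (((w : ℝ) + 1) * η)]
    have h3 : (1 + 40 * (((w : ℝ) + 1) * η) ^ 2) ^ A.len ≤ 2 :=
      (pow_le_pow_right₀ h2 hlen).trans hH
    have h4 := NP_sI (src' := src') (tgt' := tgt') (cen := cen) (lvi := lvi) hst hG hε u0 v u
    calc NP (Phu src' tgt' cen lvi u0 v u) (fun y => rl (vl A) y * sI src tgt ε u y)
        ≤ (1 + 40 * (((w : ℝ) + 1) * η) ^ 2) ^ A.len *
            NP (Phu src' tgt' cen lvi u0 v u) (sI src tgt ε u) := h1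
      _ ≤ 2 * NP (Phu src' tgt' cen lvi u0 v u) (sI src tgt ε u) :=
          mul_le_mul_of_nonneg_right h3 (NP_nonneg hpos _)
      _ = _ := by rw [h4]

theorem mom_sum_Omg (f : C × (E → Bool) → ℝ) :
    ∑ ω ∈ Omg src tgt ε cen, f ω = ∑ c : C, ∑ a ∈ Asn src tgt ε cen c, f (c, a) := by
  classical
  have h1 : ∑ ω ∈ Omg src tgt ε cen, f ω =
      ∑ ω : C × (E → Bool), if ω.2 ∈ Asn src tgt ε cen ω.1 then f ω else 0 := by
    rw [← Finset.sum_filter]
    refine Finset.sum_congr ?_ (fun _ _ => rfl)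
    ext ω
    rw [mem_Omg, Finset.mem_filter]
    exact ⟨fun h => ⟨Finset.mem_univ _, h⟩, fun h => h.2⟩
  rw [h1, Fintype.sum_prod_type]
  refine Finset.sum_congr rfl (fun c _ => ?_)
  simp only
  rw [Finset.sum_ite_mem, Finset.univ_inter]

theorem moment (hst : Stg src tgt src' tgt' cen lvi D) (hG : GX src tgt Dg0 c0)
    (hε : ∀ w, ε w * ε w = 1) {u0 η : ℝ} (hu0 : 1 ≤ u0) (hη : 0 < η) (v : Wv')
    (hlip : ∀ u S i, Phu src' tgt' cen lvi u0 v u (symmDiff S {i}) ≤
      (1 + η) * Phu src' tgt' cen lvi u0 v u S)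
    {w H : ℕ} (ht : ((w : ℝ) + 1) * η ≤ 1 / 100)
    (hH : (1 + 40 * (((w : ℝ) + 1) * η) ^ 2) ^ H ≤ 2) (A : Fm ((E → Bool) → Bool))
    (hA : A.all fun g => Dg (rl g) w) (hlen : A.len ≤ H) :
    ∑ ω ∈ Omg src tgt ε cen, ∑ T' : Finset E', u0 ^ lvl src' tgt' v T' *
        W (fun z => rl (fun z => vl A (rs lvi ω.1 ω.2 z)) z *
          sI src' tgt' (eN src tgt ε cen ω.1 ω.2) v z) T' ^ 2 ≤
      2 * ((2 : ℝ) ^ Fintype.card E' * (2 ^ Fintype.card E' / 2 ^ (Fintype.card Wv' - 1)) *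
        ((Omg src tgt ε cen).card : ℝ)) := by
  classical
  have hconn : Frg3.Con src tgt := con_of_cheeger hG.cheeger
  have : Nonempty Wv' := ⟨v⟩
  -- the function on the large graph
  set F : Wv → (E → Bool) → ℝ := fun u y => rl (vl A) y * sI src tgt ε u y with hF
  have hF0 : ∀ u y, y ∉ Sol src tgt ε u → F u y = 0 := by
    intro u y hy
    rw [hF]
    simp only
    unfold sI
    rw [if_neg hy, mul_zero]
  set NV : ℝ := (2 : ℝ) ^ Fintype.card E with hNV
  have hNV0 : 0 < NV := by rw [hNV]; positivity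
  -- one choice
  have hone : ∀ c : C, NV * ∑ a ∈ Asn src tgt ε cen c, ∑ T' : Finset E', u0 ^ lvl src' tgt' v T' *
        W (fun z => rl (fun z => vl A (rs lvi c a z)) z *
          sI src' tgt' (eN src tgt ε cen c a) v z) T' ^ 2 =
      4 ^ Fintype.card E' * ∑ S : Finset E, u0 ^ lvl src' tgt' v (lv lvi c S) *
        W (F (cen c v)) S ^ 2 := by
    intro c
    rw [← transfer hst hconn hε c v (hF0 (cen c v)) (fun T' => u0 ^ lvl src' tgt' v T')]
    congr 1
    refine Finset.sum_congr rfl (fun a ha => Finset.sum_congr rfl (fun T' _ => ?_))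
    have h1 : (fun z => rl (fun z => vl A (rs lvi c a z)) z *
        sI src' tgt' (eN src tgt ε cen c a) v z) = fun z => F (cen c v) (rs lvi c a z) := by
      funext z
      rw [hF]
      simp only
      rw [sI_rs hst hε ha z v]
      rfl
    rw [h1]
  -- the sum over the choices
  have hsum : ∑ c : C, ∑ S : Finset E, u0 ^ lvl src' tgt' v (lv lvi c S) * W (F (cen c v)) S ^ 2 =
      ∑ u : Wv, NP (Phu src' tgt' cen lvi u0 v u) (F u) := by
    rw [← Finset.sum_fiberwise (univ : Finset C) (fun c => cen c v)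
      (fun c => ∑ S : Finset E, u0 ^ lvl src' tgt' v (lv lvi c S) * W (F (cen c v)) S ^ 2)]
    refine Finset.sum_congr rfl (fun u _ => ?_)
    unfold NP Phu
    rw [Finset.sum_comm]
    refine Finset.sum_congr rfl (fun S _ => ?_)
    rw [Finset.sum_mul]
    refine Finset.sum_congr rfl (fun c hc => ?_)
    rw [(Finset.mem_filter.mp hc).2]
  set N0 : ℝ := 2 ^ Fintype.card E / 2 ^ (Fintype.card Wv - 1) with hN0
  have hub : ∑ u : Wv, NP (Phu src' tgt' cen lvi u0 v u) (F u) ≤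
      2 * ((Fintype.card C : ℝ) * (NV * N0)) := by
    refine (Finset.sum_le_sum (fun u _ =>
      moment_u hst hG hε hu0 hη v u (hlip u) ht hH A hA hlen)).trans (le_of_eq ?_)
    rw [← Finset.mul_sum, ← Finset.sum_mul]
    congr 2
    rw [← Nat.cast_sum, ← Finset.card_eq_sum_card_fiberwise (fun c _ => Finset.mem_univ _),
      Finset.card_univ]
  -- the number of restrictions
  have hOm : ((Omg src tgt ε cen).card : ℝ) / 2 ^ (Fintype.card Wv' - 1) =
      (Fintype.card C : ℝ) * N0 := by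
    rw [card_Omg]
    push_cast
    rw [Finset.sum_div]
    have h1 : ∀ c : C, ((Asn src tgt ε cen c).card : ℝ) / 2 ^ (Fintype.card Wv' - 1) = N0 := by
      intro c
      have h2 := card_Asn (src := src) (tgt := tgt) (cen := cen) (c := c) hconn hε
      have h3 := card_nce (hst.inj c)
      have h4 : 0 < Fintype.card Wv' := Fintype.card_pos
      have h5 : Fintype.card Wv - 1 = (nce cen c).card + (Fintype.card Wv' - 1) := by omega
      rw [hN0, h5, pow_add, ← h2]
      field_simp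
    rw [Finset.sum_congr rfl (fun c _ => h1 c), Finset.sum_const, nsmul_eq_mul, Finset.card_univ]
  rw [mom_sum_Omg]
  have hmain : NV * ∑ c : C, ∑ a ∈ Asn src tgt ε cen c, ∑ T' : Finset E',
      u0 ^ lvl src' tgt' v T' * W (fun z => rl (fun z => vl A (rs lvi c a z)) z *
          sI src' tgt' (eN src tgt ε cen c a) v z) T' ^ 2 ≤
      NV * (2 * (4 ^ Fintype.card E' * ((Fintype.card C : ℝ) * N0))) := by
    rw [Finset.mul_sum, Finset.sum_congr rfl (fun c _ => hone c), ← Finset.mul_sum, hsum]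
    calc (4 : ℝ) ^ Fintype.card E' * ∑ u : Wv, NP (Phu src' tgt' cen lvi u0 v u) (F u)
        ≤ 4 ^ Fintype.card E' * (2 * ((Fintype.card C : ℝ) * (NV * N0))) :=
          mul_le_mul_of_nonneg_left hub (by positivity)
      _ = _ := by ring
  refine (le_of_mul_le_mul_left hmain hNV0).trans (le_of_eq ?_)
  rw [← hOm]
  have h4 : (4 : ℝ) ^ Fintype.card E' = 2 ^ Fintype.card E' * 2 ^ Fintype.card E' := by
    rw [← mul_pow]
    norm_num
  rw [h4]
  ring

end Pool.Agent.H3.Ex
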