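import Mathlib
import Pool.Agent.H3.Ex.Defs
import Pool.Agent.H3.Ex.BallDefs
import Pool.Agent.H3.Ex.Base
import Pool.Agent.H3.Ex.Tree
import Pool.Agent.H3.Ex.Sol
import Pool.Agent.H3.Ex.Gran
import Pool.Agent.H3.Ex.Mom
import Pool.Agent.H3.Frg3.Lower3

set_option autoImplicit false
set_option linter.unusedSectionVars false

/-!
# Module STG: a restriction which is good for all formulas and all worlds

* `lw_max`: `td_vl` gives `TD (w * A.len) (vl A)`, `td_rs` gives `TD (D (w * A.len))` for the restricted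
  function, then `TD_mono`, `dg_of_TD`, `lw_of_dg` (`eN_sq`).
* `bad_card`: for `ω ∈ Bd = {ω ∈ Omg : ¬ LW v (rl f_ω) t}`, `f_ω z = vl A (rs z)`, `gran` (with
  `dmax = D (w H)`, `lw_max`) gives
  `4^(t+1) (2^|E'| |Sol' v|) ≤ Σ_T' u0^(lvl v T') (W (f_ω sI') T')^2`, and
  `|Sol' v| = 2^|E'| / 2^(n'-1)` (`card_Sol`). Sum over `Bd ⊆ Omg` and use `moment`:
  `|Bd| 4^(t+1) (2^|E'| N') ≤ 2 (2^|E'| N' |Omg|)`; divide by `2^|E'| N' > 0`.
* `good_exists`: the sum of `|Bd|` over all pairs `(x, v)` is at most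
  `|ι| n' 2 |Omg| / 4^(t+1) < |Omg|` (`Omg` is not empty: `card_Omg`, `card_Asn`, `Nonempty C`), so some
  `ω ∈ Omg` is in none of the sets.
-/

namespace Pool.Agent.H3.Ex

open Finset Pool.Agent.H3.Frg Pool.Agent.H3.Frg2 Pool.Agent.H3.Frg3

variable {E Wv E' Wv' C : Type} [Fintype E] [DecidableEq E] [Fintype Wv] [DecidableEq Wv]
  [Fintype E'] [DecidableEq E'] [Fintype Wv'] [DecidableEq Wv'] [Fintype C] [DecidableEq C]
  {src tgt : E → Wv} {src' tgt' : E' → Wv'} {cen : C → Wv' → Wv}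
  {lvi : C → E → Finset E'} {D Dg0 D' c0 c0' : ℕ} {ε : Wv → ℝ}

theorem Stage_all_mono {V : Type} {p q : V → Prop} (h : ∀ i, p i → q i) (A : Fm V) :
    A.all p → A.all q := by
  induction A with
  | var i => exact h i
  | neg A ih => exact ih
  | imp A B ihA ihB => exact fun hAB => ⟨ihA hAB.1, ihB hAB.2⟩

theorem lw_max (hst : Stg src tgt src' tgt' cen lvi D) (hε : ∀ w, ε w * ε w = 1) {w H : ℕ}
    (A : Fm ((E → Bool) → Bool)) (hA : A.all fun g => TD w g) (hlen : A.len ≤ H) (c : C)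
    (a : E → Bool) (v : Wv') :
    LW src' tgt' (eN src tgt ε cen c a) v (rl fun z => vl A (rs lvi c a z)) (D * (w * H)) := by
  have h1 := td_vl A hA
  have h2 := td_rs lvi c (hst.card c) a h1
  have h3 : TD (D * (w * H)) (fun z => vl A (rs lvi c a z)) :=
    TD_mono (Nat.mul_le_mul_left _ (Nat.mul_le_mul_left _ hlen)) h2
  exact lw_of_dg (fun x => eN_sq hε a x) (dg_of_TD h3)

open scoped Classical in
theorem bad_card (hst : Stg src tgt src' tgt' cen lvi D) (hG : GX src tgt Dg0 c0)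
    (hG' : GX src' tgt' D' c0') (hε : ∀ w, ε w * ε w = 1) {u0 u1 η : ℝ} (hη : 0 < η)
    (v : Wv') (hlip : ∀ u S i, Phu src' tgt' cen lvi u0 v u (symmDiff S {i}) ≤
      (1 + η) * Phu src' tgt' cen lvi u0 v u S)
    {w H t κ lam : ℕ} (ht : ((w : ℝ) + 1) * η ≤ 1 / 100)
    (hH : (1 + 40 * (((w : ℝ) + 1) * η) ^ 2) ^ H ≤ 2) (ht1 : 2 * D' ^ 2 * c0' + 1 ≤ t)
    (hn : 1 + c0' * D' + 2 * c0' * (D * (w * H) + D') * (D * (w * H)) < Fintype.card Wv')
    (hlam : 2 ≤ lam)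
    (hκ : Fintype.card E' * 3 ^ (4 * (18 + 16 * D' * c0') * lam) < lam ^ κ)
    (hu1 : 16 * (Kh D' c0' : ℝ) ^ (1 + D') ≤ u1) (hu0 : u1 ^ κ ≤ u0)
    (A : Fm ((E → Bool) → Bool)) (hA : A.all fun g => TD w g) (hlen : A.len ≤ H) :
    (((Omg src tgt ε cen).filter fun ω => ¬ LW src' tgt' (eN src tgt ε cen ω.1 ω.2) v
      (rl fun z => vl A (rs lvi ω.1 ω.2 z)) t).card : ℝ) * 4 ^ (t + 1) ≤
      2 * ((Omg src tgt ε cen).card : ℝ) := by
  set Bd := (Omg src tgt ε cen).filter fun ω => ¬ LW src' tgt' (eN src tgt ε cen ω.1 ω.2) v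
      (rl fun z => vl A (rs lvi ω.1 ω.2 z)) t with hBd
  -- `1 ≤ u0`
  have hKh : (1 : ℝ) ≤ (Kh D' c0' : ℝ) := by
    have : 1 ≤ Kh D' c0' := by
      unfold Kh
      have := Nat.one_le_two_pow (n := 4 + 4 * c0' * D')
      omega
    exact_mod_cast this
  have hKh' : (1 : ℝ) ≤ (Kh D' c0' : ℝ) ^ (1 + D') := one_le_pow₀ hKh
  have hu1' : 1 ≤ u1 := by linarith
  have hu0' : 1 ≤ u0 := (one_le_pow₀ hu1').trans hu0
  -- the size of the worlds
  have hN : ∀ ω : C × (E → Bool), ((Sol src' tgt' (eN src tgt ε cen ω.1 ω.2) v).card : ℝ) =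
      2 ^ Fintype.card E' / 2 ^ (Fintype.card Wv' - 1) := by
    intro ω
    have h1 := card_Sol (v := v) hG' (ε := eN src tgt ε cen ω.1 ω.2) (fun x => eN_sq hε ω.2 x)
    rw [eq_div_iff (by positivity)]
    exact h1
  set F : C × (E → Bool) → ℝ := fun ω => ∑ T' : Finset E', u0 ^ lvl src' tgt' v T' *
        W (fun z => rl (fun z => vl A (rs lvi ω.1 ω.2 z)) z *
          sI src' tgt' (eN src tgt ε cen ω.1 ω.2) v z) T' ^ 2 with hF
  have hF0 : ∀ ω, 0 ≤ F ω := by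
    intro ω
    rw [hF]
    refine Finset.sum_nonneg fun T _ => ?_
    have : 0 ≤ u0 := by linarith
    positivity
  set N' : ℝ := 2 ^ Fintype.card E' / 2 ^ (Fintype.card Wv' - 1) with hN'
  have hN'0 : 0 < N' := by rw [hN']; positivity
  have hbd : ∀ ω ∈ Bd, 4 ^ (t + 1) * ((2 : ℝ) ^ Fintype.card E' * N') ≤ F ω := by
    intro ω hω
    have h1 := (Finset.mem_filter.1 hω).2
    have h2 := gran hG' (fun x => eN_sq hε ω.2 x) (f := fun z => vl A (rs lvi ω.1 ω.2 z))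
      (lw_max hst hε A hA hlen ω.1 ω.2 v) h1 ht1 hn hlam hκ hu1 hu0
    rw [hN ω] at h2
    exact h2
  have hmom := moment hst hG hε hu0' hη v hlip ht hH A (Stage_all_mono (fun g hg => dg_of_TD hg) A hA) hlen
  have hsum : (Bd.card : ℝ) * (4 ^ (t + 1) * ((2 : ℝ) ^ Fintype.card E' * N')) ≤
      2 * ((2 : ℝ) ^ Fintype.card E' * N' * ((Omg src tgt ε cen).card : ℝ)) := by
    refine le_trans ?_ hmom
    calc (Bd.card : ℝ) * (4 ^ (t + 1) * ((2 : ℝ) ^ Fintype.card E' * N'))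
        = ∑ _ω ∈ Bd, (4 ^ (t + 1) * ((2 : ℝ) ^ Fintype.card E' * N')) := by
          rw [Finset.sum_const, nsmul_eq_mul]
      _ ≤ ∑ ω ∈ Bd, F ω := Finset.sum_le_sum hbd
      _ ≤ ∑ ω ∈ Omg src tgt ε cen, F ω :=
          Finset.sum_le_sum_of_subset_of_nonneg (Finset.filter_subset _ _) fun ω _ _ => hF0 ω
  have hpos : 0 < (2 : ℝ) ^ Fintype.card E' * N' := by positivity
  refine le_of_mul_le_mul_right ?_ hpos
  calc (Bd.card : ℝ) * 4 ^ (t + 1) * ((2 : ℝ) ^ Fintype.card E' * N')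
      = (Bd.card : ℝ) * (4 ^ (t + 1) * ((2 : ℝ) ^ Fintype.card E' * N')) := by ring
    _ ≤ 2 * ((2 : ℝ) ^ Fintype.card E' * N' * ((Omg src tgt ε cen).card : ℝ)) := hsum
    _ = 2 * ((Omg src tgt ε cen).card : ℝ) * ((2 : ℝ) ^ Fintype.card E' * N') := by ring

theorem good_exists (hst : Stg src tgt src' tgt' cen lvi D) (hG : GX src tgt Dg0 c0)
    (hG' : GX src' tgt' D' c0') [Nonempty C] (hε : ∀ w, ε w * ε w = 1) {u0 u1 η : ℝ}
    (hη : 0 < η) (hlip : ∀ v u S i, Phu src' tgt' cen lvi u0 v u (symmDiff S {i}) ≤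
      (1 + η) * Phu src' tgt' cen lvi u0 v u S)
    {w H t κ lam : ℕ} (ht : ((w : ℝ) + 1) * η ≤ 1 / 100)
    (hH : (1 + 40 * (((w : ℝ) + 1) * η) ^ 2) ^ H ≤ 2) (ht1 : 2 * D' ^ 2 * c0' + 1 ≤ t)
    (hn : 1 + c0' * D' + 2 * c0' * (D * (w * H) + D') * (D * (w * H)) < Fintype.card Wv')
    (hlam : 2 ≤ lam)
    (hκ : Fintype.card E' * 3 ^ (4 * (18 + 16 * D' * c0') * lam) < lam ^ κ)
    (hu1 : 16 * (Kh D' c0' : ℝ) ^ (1 + D') ≤ u1) (hu0 : u1 ^ κ ≤ u0)
    {ι : Type} [Fintype ι] (A : ι → Fm ((E → Bool) → Bool))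
    (hA : ∀ x, (A x).all fun g => TD w g) (hlen : ∀ x, (A x).len ≤ H)
    (hcard : (Fintype.card ι : ℝ) * (Fintype.card Wv' : ℝ) * 2 < 4 ^ (t + 1)) :
    ∃ ω ∈ Omg src tgt ε cen, ∀ x v, LW src' tgt' (eN src tgt ε cen ω.1 ω.2) v
      (rl fun z => vl (A x) (rs lvi ω.1 ω.2 z)) t := by
  classical
  have hne : Nonempty Wv' := Fintype.card_pos_iff.1 (by omega)
  have hOm : (Omg src tgt ε cen).Nonempty :=
    Omg_nonempty (con_of_cheeger hG.cheeger) hε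
  obtain ⟨ω, hω, hall⟩ := exists_omega (ι := ι × Wv') (Omg src tgt ε cen) hOm
    (fun i => (Omg src tgt ε cen).filter fun ω => ¬ LW src' tgt' (eN src tgt ε cen ω.1 ω.2) i.2
      (rl fun z => vl (A i.1) (rs lvi ω.1 ω.2 z)) t) (4 ^ (t + 1) / 2)
    (by
      intro i
      have h1 := bad_card hst hG hG' hε hη i.2 (hlip i.2) ht hH ht1 hn hlam hκ hu1 hu0 (A i.1) (hA i.1)
        (hlen i.1)
      have h2 : ∀ x y z : ℝ, x * y ≤ 2 * z → x * (y / 2) ≤ z := by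
        intro x y z h
        linarith
      refine h2 _ _ _ ?_
      convert h1 using 3)
    (by
      rw [Fintype.card_prod]
      push_cast
      linarith)
  refine ⟨ω, hω, fun x v => ?_⟩
  by_contra hcon
  exact hall (x, v) (Finset.mem_filter.2 ⟨hω, hcon⟩)

end Pool.Agent.H3.Ex
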