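import Mathlib
import Pool.Agent.H3.Ex.Defs
import Pool.Agent.H3.Ex.Base
import Pool.Agent.H3.Ex.TreeA
import Pool.Agent.H3.Frg3.Fam

set_option autoImplicit false
set_option linter.unusedSectionVars false

/-!
# Module TZP: trees that agree on locally consistent assignments are pseudo-equal

Let `Q x = T1.qs x ∪ T2.qs x`, `|Q x| ≤ 2 m`, `p = rl T1.eval - rl T2.eval`, and
`cube Q x z = 1` if `z = x` on `Q`, else `0`.

* `dg_cube`: `cube Q x z = 2^(-|Q|) ∏_{e ∈ Q} (1 + sg (x e) sg (z e)) = 2^(-|Q|) Σ_{R ⊆ Q} chi R x chi R z`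
  (see `hprod` in the proof of `bridge`, `Ac/Bri.lean`), or: it does not depend on the variables
  outside `Q`, so its transform is supported in `Q`.
* `cube_sum`: for fixed `z` and all `x`: `z = x` on `Q x` iff `z = x` on `Q z` (`DT.congr`: if the
  assignments agree on one of the sets then `Q x = Q z` and `p x = p z`). The number of `x` with
  `x = z` on `Q z` is `2^(|E| - |Q z|)`. So `Σ_x p x 2^|Q x| cube (Q x) x z = 2^|E| p z`.
* `tz`: by `cube_sum`, `z_smul`, `PA.z_sum` (`Frg3/Fam.lean`) it is enough to show that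
  `cube (Q x) x` is pseudo-zero if `T1.eval x ≠ T2.eval x`. Then `LC (Q x) x` fails: there is `X` with
  `3 |X| ≤ n`, `bd X ⊆ Q x`, `chi (bd X) x ≠ epsX ε X`, so `chi (bd X) x = - epsX ε X`
  (`chi_mul_self`, `epsX_mul_self`). `|X| ≤ c0 |bd X| ≤ c0 (2 m) ≤ fam.K` (`pos_bd`; `X ≠ ∅`).
  `fam.bf` for `X`, of degree `≤ 2 m` (`Dg_bd_sub`), times `cube (Q x) x` of degree `≤ 2 m` (`z_mul`,
  `fam.dg`, `fam.hM`): the function `cube (Q x) x z * (chi (bd X) z - epsX ε X)`, which equals
  `-2 epsX ε X * cube (Q x) x z` (if `z = x` on `Q x` then `chi (bd X) z = chi (bd X) x`), is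
  pseudo-zero.
-/

namespace Pool.Agent.H3.Ex

open Finset Pool.Agent.H3.Frg Pool.Agent.H3.Frg2 Pool.Agent.H3.Frg3

section Cube

variable {E : Type} [Fintype E] [DecidableEq E]

open scoped Classical in
/-- indicator function of a subcube -/
noncomputable def cube (Q : Finset E) (x z : E → Bool) : ℝ := if ∀ e ∈ Q, z e = x e then 1 else 0

/-- flip the variable `a` -/
def Tz_fl (a : E) : Equiv.Perm (E → Bool) where
  toFun x := Function.update x a (!(x a))
  invFun x := Function.update x a (!(x a))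
  left_inv x := by
    beta_reduce
    rw [Function.update_idem, Function.update_self, Bool.not_not, Function.update_eq_self]
  right_inv x := by
    beta_reduce
    rw [Function.update_idem, Function.update_self, Bool.not_not, Function.update_eq_self]

theorem Tz_zero (a : E) (g : (E → Bool) → ℝ) (hg : ∀ x, g (Tz_fl a x) = -g x) :
    ∑ x, g x = 0 := by
  have h1 := Equiv.sum_comp (Tz_fl a) g
  rw [sum_congr rfl fun x _ => hg x, sum_neg_distrib] at h1
  linarith

theorem dg_cube (Q : Finset E) (x : E → Bool) {m : ℕ} (h : Q.card ≤ m) : Dg (cube Q x) m := by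
  classical
  intro T hT
  obtain ⟨a, haT, haQ⟩ : ∃ a ∈ T, a ∉ Q := by
    by_contra hc
    push Not at hc
    have := card_le_card (show T ⊆ Q from hc)
    omega
  unfold W
  refine Tz_zero a _ fun z => ?_
  have h1 : cube Q x (Tz_fl a z) = cube Q x z := by
    unfold cube
    refine if_congr ?_ rfl rfl
    refine forall_congr' fun e => forall_congr' fun he => ?_
    have hea : e ≠ a := by
      rintro rfl
      exact haQ he
    have h2 : Tz_fl a z e = z e := Function.update_of_ne hea _ _
    rw [h2]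
  have h2 : chi T (Tz_fl a z) = -chi T z := by
    unfold chi
    rw [← mul_prod_erase T _ haT, ← mul_prod_erase T (fun i => sg (z i)) haT]
    have h3 : sg (Tz_fl a z a) = -sg (z a) := by
      have h4 : Tz_fl a z a = !(z a) := Function.update_self _ _ _
      rw [h4]
      cases z a <;> simp [sg]
    have h5 : ∏ i ∈ T.erase a, sg (Tz_fl a z i) = ∏ i ∈ T.erase a, sg (z i) := by
      refine prod_congr rfl fun i hi => ?_
      have h6 : Tz_fl a z i = z i := Function.update_of_ne (ne_of_mem_erase hi) _ _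
      rw [h6]
    rw [h3, h5]
    ring
  rw [h1, h2]
  ring

theorem Tz_count (Q : Finset E) (z : E → Bool) :
    (2 : ℝ) ^ Q.card * ∑ x : E → Bool, cube Q z x = (2 : ℝ) ^ Fintype.card E := by
  classical
  have h1 : ∀ x : E → Bool, cube Q z x =
      ∏ e, (if e ∈ Q then (if x e = z e then (1 : ℝ) else 0) else 1) := by
    intro x
    unfold cube
    by_cases h : ∀ e ∈ Q, x e = z e
    · rw [if_pos h]
      symm
      refine prod_eq_one fun e _ => ?_
      by_cases he : e ∈ Q
      · rw [if_pos he, if_pos (h e he)]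
      · rw [if_neg he]
    · rw [if_neg h]
      push Not at h
      obtain ⟨e, he, hne⟩ := h
      symm
      refine prod_eq_zero (mem_univ e) ?_
      rw [if_pos he, if_neg hne]
  have h2 : ∑ x : E → Bool, cube Q z x =
      ∏ e, ∑ b : Bool, (if e ∈ Q then (if b = z e then (1 : ℝ) else 0) else 1) := by
    rw [prod_univ_sum]
    simp only [Fintype.piFinset_univ]
    exact sum_congr rfl fun x _ => h1 x
  have h3 : ∀ e : E, ∑ b : Bool, (if e ∈ Q then (if b = z e then (1 : ℝ) else 0) else 1) =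
      if e ∈ Q then 1 else 2 := by
    intro e
    by_cases he : e ∈ Q
    · simp only [if_pos he]
      simp
    · simp only [if_neg he]
      simp
  have h4 : (2 : ℝ) ^ Q.card = ∏ e, (if e ∈ Q then (2 : ℝ) else 1) := by
    rw [prod_ite_mem, univ_inter, prod_const]
  rw [h2, h4, ← prod_mul_distrib]
  rw [← card_univ, ← prod_const]
  refine prod_congr rfl fun e _ => ?_
  rw [h3]
  by_cases he : e ∈ Q
  · rw [if_pos he, if_pos he, mul_one]
  · rw [if_neg he, if_neg he, one_mul]

theorem cube_sum (T1 T2 : DT E) (z : E → Bool) :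
    ∑ x : E → Bool, (rl T1.eval x - rl T2.eval x) *
        (2 : ℝ) ^ (T1.qs x ∪ T2.qs x).card * cube (T1.qs x ∪ T2.qs x) x z =
      (2 : ℝ) ^ Fintype.card E * (rl T1.eval z - rl T2.eval z) := by
  classical
  have key : ∀ y x : E → Bool, (∀ e ∈ T1.qs x ∪ T2.qs x, y e = x e) →
      T1.qs y ∪ T2.qs y = T1.qs x ∪ T2.qs x ∧ T1.eval y = T1.eval x ∧ T2.eval y = T2.eval x := by
    intro y x h
    have c1 := T1.congr (z := x) (z' := y) (fun e he => (h e (mem_union_left _ he)).symm)
    have c2 := T2.congr (z := x) (z' := y) (fun e he => (h e (mem_union_right _ he)).symm)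
    exact ⟨by rw [c1.2, c2.2], c1.1, c2.1⟩
  have h1 : ∀ x : E → Bool, (rl T1.eval x - rl T2.eval x) *
        (2 : ℝ) ^ (T1.qs x ∪ T2.qs x).card * cube (T1.qs x ∪ T2.qs x) x z =
      (rl T1.eval z - rl T2.eval z) * (2 : ℝ) ^ (T1.qs z ∪ T2.qs z).card *
        cube (T1.qs z ∪ T2.qs z) z x := by
    intro x
    by_cases h : ∀ e ∈ T1.qs x ∪ T2.qs x, z e = x e
    · obtain ⟨k1, k2, k3⟩ := key z x h
      have h2 : cube (T1.qs x ∪ T2.qs x) x z = 1 := if_pos h
      have h3 : cube (T1.qs z ∪ T2.qs z) z x = 1 := if_pos (by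
        rw [k1]
        exact fun e he => (h e he).symm)
      rw [h2, h3, k1]
      unfold rl
      rw [k2, k3]
    · have h2 : cube (T1.qs x ∪ T2.qs x) x z = 0 := if_neg h
      have h3 : cube (T1.qs z ∪ T2.qs z) z x = 0 := if_neg (fun h4 => h (by
        obtain ⟨k1, _, _⟩ := key x z h4
        rw [k1]
        exact fun e he => (h4 e he).symm))
      rw [h2, h3, mul_zero, mul_zero]
  rw [sum_congr rfl fun x _ => h1 x, ← mul_sum, mul_assoc, Tz_count]
  ring

end Cube

variable {E Wv : Type} [Fintype E] [DecidableEq E] [Fintype Wv] [DecidableEq Wv]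
  {src tgt : E → Wv} {D c0 : ℕ} {ε : Wv → ℝ}

theorem tz (fam : PFam src tgt) (h : GX src tgt D c0) (hε : ∀ w, ε w * ε w = 1) {m : ℕ}
    (hK : c0 * (2 * m) ≤ fam.K) (hM : 4 * m ≤ fam.M) (T1 T2 : DT E) (h1 : T1.depth ≤ m)
    (h2 : T2.depth ≤ m)
    (hT : ∀ z, LC src tgt ε (T1.qs z ∪ T2.qs z) z → T1.eval z = T2.eval z) :
    (fam.P ε hε).Z (fun z => rl T1.eval z - rl T2.eval z) := by
  classical
  have hcube : ∀ x : E → Bool, T1.eval x ≠ T2.eval x →
      (fam.P ε hε).Z (cube (T1.qs x ∪ T2.qs x) x) := by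
    intro x hx
    have hLC : ¬ LC src tgt ε (T1.qs x ∪ T2.qs x) x := fun h3 => hx (hT x h3)
    unfold LC at hLC
    push Not at hLC
    obtain ⟨X, hX1, hX2, hX3⟩ := hLC
    have hQ : (T1.qs x ∪ T2.qs x).card ≤ 2 * m := by
      have e1 := card_union_le (T1.qs x) (T2.qs x)
      have e2 := T1.card_qs x
      have e3 := T2.card_qs x
      omega
    have hbd : (bd src tgt X).card ≤ 2 * m := (card_le_card hX2).trans hQ
    have hne : X.Nonempty := by
      rw [nonempty_iff_ne_empty]
      rintro rfl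
      apply hX3
      rw [bd_empty, chi_empty]
      simp [epsX]
    have hcard : X.card ≤ fam.K := by
      have e1 := pos_bd h hne (by omega)
      exact e1.trans ((Nat.mul_le_mul_left c0 hbd).trans hK)
    have hz := (fam.P ε hε).z_mul (h := cube (T1.qs x ∪ T2.qs x) x) (a := 2 * m) (b := 2 * m)
      (fam.bf ε hε X hcard) ((fam.dg _ _ _ _).mpr (Dg_bd_sub src tgt ε _ _ hbd))
      ((fam.dg _ _ _ _).mpr (dg_cube _ x hQ)) (by rw [fam.hM]; omega)
    have hneg : chi (bd src tgt X) x = -epsX ε X := by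
      have e1 := chi_mul_self (bd src tgt X) x
      have e2 := epsX_mul_self hε X
      have e3 : (chi (bd src tgt X) x - epsX ε X) * (chi (bd src tgt X) x + epsX ε X) = 0 := by
        linear_combination e1 - e2
      rcases mul_eq_zero.mp e3 with e4 | e4
      · exact absurd (sub_eq_zero.mp e4) hX3
      · linarith
    refine (fam.P ε hε).z_congr ((fam.P ε hε).z_smul (-(1 / 2) * epsX ε X) hz) fun z => ?_
    by_cases hzx : ∀ e ∈ T1.qs x ∪ T2.qs x, z e = x e
    · have e1 : cube (T1.qs x ∪ T2.qs x) x z = 1 := if_pos hzx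
      have e2 : chi (bd src tgt X) z = chi (bd src tgt X) x := by
        unfold chi
        exact prod_congr rfl fun e he => by rw [hzx e (hX2 he)]
      rw [e1, e2, hneg]
      have e3 := epsX_mul_self hε X
      linear_combination e3
    · have e1 : cube (T1.qs x ∪ T2.qs x) x z = 0 := if_neg hzx
      rw [e1]
      ring
  have hsum : (fam.P ε hε).Z (fun z => ∑ x : E → Bool, (rl T1.eval x - rl T2.eval x) *
        (2 : ℝ) ^ (T1.qs x ∪ T2.qs x).card * cube (T1.qs x ∪ T2.qs x) x z) := by
    refine PA.z_sum _ _ _ fun x _ => ?_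
    by_cases hx : T1.eval x = T2.eval x
    · refine (fam.P ε hε).z_congr (fam.P ε hε).z_zero fun z => ?_
      unfold rl
      rw [hx]
      ring
    · exact (fam.P ε hε).z_smul _ (hcube x hx)
  have h3 : (2 : ℝ) ^ Fintype.card E ≠ 0 := by positivity
  refine (fam.P ε hε).z_congr ((fam.P ε hε).z_smul ((2 : ℝ) ^ Fintype.card E)⁻¹ hsum)
    fun z => ?_
  rw [cube_sum, ← mul_assoc, inv_mul_cancel₀ h3, one_mul]

end Pool.Agent.H3.Ex
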