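import Mathlib
import Pool.Agent.H3.Ex.Stage
import Pool.Agent.H3.Ex.Tz
import Pool.Agent.H3.Ex.Lcs
import Pool.Agent.H3.Ex.Det2
import Pool.Agent.H3.Ac.LevA

set_option autoImplicit false
set_option linter.unusedSectionVars false

/-!
# The recursion over the levels of the tower, values are decision trees
-/

namespace Pool.Agent.H3.Ex

open Finset Pool.Agent.H3.Frg Pool.Agent.H3.Frg2 Pool.Agent.H3.Frg3

section Det

variable {E Wv : Type} [Fintype E] [DecidableEq E] [Fintype Wv] [DecidableEq Wv]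
  {src tgt : E → Wv} {D c0 : ℕ} {ε : Wv → ℝ}

theorem det_z (fam : PFam src tgt) (h : GX src tgt D c0) (hε : ∀ w, ε w * ε w = 1)
    {d0 t L1 w : ℕ} (T : DT E) (hT : T.depth ≤ d0)
    (hLW : ∀ v, LW src tgt ε v (rl T.eval) t)
    (hL1 : Fintype.card Wv * (4 * c0 * D) ^ L1 < (4 * c0 * D + 1) ^ L1)
    (hn : 2 ≤ Fintype.card Wv) (hbud : bud t D c0 L1 d0 < Fintype.card Wv)
    (hw : dpt t D c0 L1 ≤ w) (hwd : w ≤ d0) (hK : c0 * (2 * d0) ≤ fam.K)
    (hM : 4 * d0 ≤ fam.M) (hQ : 4 * (1 + 4 * c0 * D) * (2 * d0) < Fintype.card Wv) :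
    ∃ T' : DT E, T'.depth ≤ w ∧
      (fam.P ε hε).Z (fun z => rl T'.eval z - rl T.eval z) := by
  obtain ⟨T', h1, h2⟩ := exists_det h hε hT hLW hL1 hn hbud
  refine ⟨T', h1.trans hw, tz fam h hε hK hM T' T ((h1.trans hw).trans hwd) hT fun z hz => ?_⟩
  have hc : (T'.qs z ∪ T.qs z).card ≤ 2 * d0 := by
    have e1 := DT.card_qs T' z
    have e2 := DT.card_qs T z
    have e3 := Finset.card_union_le (T'.qs z) (T.qs z)
    omega
  obtain ⟨v, y, W', a1, a2, a3, a4, a5⟩ := exists_of_LC h hε hz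
    (lt_of_le_of_lt (Nat.mul_le_mul_left _ hc) hQ)
  have b1 := DT.congr T (z := z) (z' := y) fun e he =>
    (a5 e (Finset.mem_union_right _ he)).symm
  have b2 := DT.congr T' (z := z) (z' := y) fun e he =>
    (a5 e (Finset.mem_union_left _ he)).symm
  have h3 := h2 v y W' a1 a2 a3 (by rw [b1.2]; exact Finset.union_subset_right a4)
    (by rw [b2.2]; exact Finset.union_subset_left a4)
  rw [← b1.1, ← b2.1, h3]

end Det

/-- The lower bound on one level of the tower: the passive property `Pr` is contradictory if all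
short formulas have coherent values which are decision trees of depth `w`. -/
def LevT {E Wv : Type} [Fintype E] [DecidableEq E] [Fintype Wv] [DecidableEq Wv]
    {src tgt : E → Wv} (fam : PFam src tgt)
    (Pr : (V : Type) → V → List (Fm V) → List (Fm V) → Prop) (j h k Kx w s cnt : ℕ) : Prop :=
  ∀ (V : Type) (v0 : V) (F : V → (E → Bool) → Bool) (ε : Wv → ℝ) (hε : ∀ v, ε v * ε v = 1),
    ∏ v, ε v = -1 → ∀ Bs : List (Fm V), (∀ B ∈ Bs, B.len ≤ s) → Bs.length ≤ cnt →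
    (∀ B ∈ deep v0 (j + 1) Bs, B.len ≤ 4 * h →
      ∃ g : (E → Bool) → Bool, TD w g ∧ CE (fam.P ε hε) F k B g) →
    ∀ As : List (Fm V), (∀ A ∈ As, (∀ B ∈ A.subs, Dg (rl (hv F B)) Kx) ∧
      (fam.P ε hε).Z (fun z => rl (hv F A) z - 1)) →
    Pr V v0 Bs As → False

section Base

variable {E Wv : Type} [Fintype E] [DecidableEq E] [Fintype Wv] [DecidableEq Wv]
  {src tgt : E → Wv}

theorem td_hv (B : Fm E) : TD B.len (hv (fun (i : E) (z : E → Bool) => z i) B) := by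
  have h1 : ∀ B : Fm E, vl (B.ren (fun (i : E) (z : E → Bool) => z i))
      = hv (fun (i : E) (z : E → Bool) => z i) B := by
    intro B
    funext z
    unfold vl hv
    induction B with
    | var i => rfl
    | neg A ih => simp only [Fm.ren, Fm.eval, ih]
    | imp A B ihA ihB => simp only [Fm.ren, Fm.eval, ihA, ihB]
  have h5 : ∀ i : E, TD 1 (fun z : E → Bool => z i) := fun i =>
    ⟨DT.node i (DT.leaf false) (DT.leaf true), by simp [DT.depth], fun z => by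
      cases hz : z i <;> simp [DT.eval, hz]⟩
  have h4 : ∀ B : Fm E, (B.ren (fun (i : E) (z : E → Bool) => z i)).all (fun g => TD 1 g) := by
    intro B
    induction B with
    | var i => exact h5 i
    | neg A ih => exact ih
    | imp A B ihA ihB => exact ⟨ihA, ihB⟩
  have h7 : ∀ B : Fm E, (B.ren (fun (i : E) (z : E → Bool) => z i)).len = B.len := by
    intro B
    induction B with
    | var i => rfl
    | neg A ih => simp only [Fm.ren, Fm.len, ih]
    | imp A B ihA ihB => simp only [Fm.ren, Fm.len, ihA, ihB]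
  have h6 := td_vl (w := 1) _ (h4 B)
  rw [h1, h7, one_mul] at h6
  exact h6

/-- the bound at the top level -/
theorem levT_top (fam : PFam src tgt) {Pr : (V : Type) → V → List (Fm V) → List (Fm V) → Prop}
    {J k Kx w s cnt : ℕ}
    (hlev : LevT fam Pr J 4 k Kx w s cnt) (hk : 16 ≤ k) (hw : 16 ≤ w)
    (hK : 1 ≤ fam.K) (v0 : E) {ε : Wv → ℝ} (hε : ∀ v, ε v * ε v = 1) (hprod : ∏ v, ε v = -1)
    (Bs : List (Fm E)) (hs : ∀ B ∈ Bs, B.len ≤ s) (hL : Bs.length ≤ cnt) (As : List (Fm E))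
    (hAs : ∀ A ∈ As, A.vars.card ≤ Kx ∧ ∃ v : Wv,
      ∀ x, A.eval x = true ↔ chi (bd src tgt {v}) x = ε v)
    (hPr : Pr E v0 Bs As) : False := by
  refine hlev E v0 (fun i z => z i) ε hε hprod Bs hs hL
    (fun B _ hB => ⟨hv (fun (i : E) (z : E → Bool) => z i) B, TD_mono (by omega) (td_hv B), ?_⟩)
    As (fun A hA => ?_) hPr
  · refine ce_exact _ _ _ _ fun C hC => ?_
    rw [fam.dg]
    intro T hT
    by_contra hne
    have h1 := W_ind_supp C T hne
    have h2 := Finset.card_le_card (h1.trans (vars_subs B C hC))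
    have h3 := card_vars_le B
    omega
  · obtain ⟨hv, v, hev⟩ := hAs A hA
    refine ⟨fun B hB => ?_, PFam.ax fam hε hK v A hev⟩
    intro T hT
    by_contra h1
    have h2 := W_ind_supp B T h1
    have h3 := Finset.card_le_card (h2.trans (vars_subs A B hB))
    omega

end Base

variable {E Wv E' Wv' C : Type} [Fintype E] [DecidableEq E] [Fintype Wv] [DecidableEq Wv]
  [Fintype E'] [DecidableEq E'] [Fintype Wv'] [DecidableEq Wv'] [Fintype C] [DecidableEq C]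
  {src tgt : E → Wv} {src' tgt' : E' → Wv'} {cen : C → Wv' → Wv}
  {lvi : C → E → Finset E'} {D : ℕ}

theorem levT_step {c0 t w H : ℕ} (fam' : PFam src' tgt')
    {Pr : (V : Type) → V → List (Fm V) → List (Fm V) → Prop}
    (hst : Stg src tgt src' tgt' cen lvi D)
    (hG : GX src tgt D c0) (hG' : GX src' tgt' D c0) [Nonempty C] [Nonempty Wv']
    (hconn : Frg3.Con src tgt)
    {u0 u1 η : ℝ} (hη : 0 < η)
    (hlip : ∀ v u S i, Phu src' tgt' cen lvi u0 v u (symmDiff S {i}) ≤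
      (1 + η) * Phu src' tgt' cen lvi u0 v u S)
    (ht : ((w : ℝ) + 1) * η ≤ 1 / 100)
    (hH : (1 + 40 * (((w : ℝ) + 1) * η) ^ 2) ^ H ≤ 2) (hH1 : 1 ≤ H)
    (ht1 : 2 * D ^ 2 * c0 + 1 ≤ t)
    (hn : 1 + c0 * D + 2 * c0 * (D * (w * H) + D) * (D * (w * H)) < Fintype.card Wv')
    {lam κ L1 : ℕ} (hlam : 2 ≤ lam)
    (hκ : Fintype.card E' * 3 ^ (4 * (18 + 16 * D * c0) * lam) < lam ^ κ)
    (hu1 : 16 * (Kh D c0 : ℝ) ^ (1 + D) ≤ u1) (hu0 : u1 ^ κ ≤ u0)
    (hL1 : Fintype.card Wv' * (4 * c0 * D) ^ L1 < (4 * c0 * D + 1) ^ L1)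
    (hbud : bud t D c0 L1 (D * (w * H)) < Fintype.card Wv')
    (hdw : dpt t D c0 L1 ≤ w) (hK : c0 * (2 * (D * (w * H))) ≤ fam'.K)
    (hM : 4 * (D * (w * H)) ≤ fam'.M)
    (hQ : 4 * (1 + 4 * c0 * D) * (2 * (D * (w * H))) < Fintype.card Wv')
    {j h h' k k' Kx Kx' s cnt : ℕ} (IH : LevT fam' Pr j h' k' Kx' w s cnt) (M : ℕ)
    (hDM : D * M ≤ fam'.M) (hDk : D * k ≤ k') (hDK : D * Kx ≤ Kx') (hh : 4 ≤ h) (hwk' : w ≤ k')
    (hwk : w ≤ k)
    (hkM : 20 * k ≤ M) (hsize : w * (h + 18 * (4 * h')) ≤ h * k)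
    (hHh : h + 18 * (4 * h') ≤ h * H)
    (hcnt : ((cnt * (3 * (s + 3 * (j + 1)) ^ 2) ^ (j + 1) : ℕ) : ℝ) *
      (Fintype.card Wv' : ℝ) * 2 < 4 ^ (t + 1)) :
    LevT (fam'.up hst hconn M hDM) Pr (j + 1) h k Kx w s cnt := by
  classical
  intro V v0 F ε hε hprod Bs hs hL hrep As hAs hfin
  set l : List (Fm V) := deep v0 (j + 1) Bs with hl
  -- the mid-sized formulas
  have hmid : ∀ x : {x : Fin l.length // (l[x]).len ≤ 4 * h'},
      ∃ Ah : Fm ((E → Bool) → Bool), Ah.all (fun g => TD w g) ∧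
        CE ((fam'.up hst hconn M hDM).P ε hε) F k (l[x.1]) (vl Ah) ∧ Ah.len ≤ H := by
    intro x
    obtain ⟨Ah, h1, h2, h3⟩ := mid ((fam'.up hst hconn M hDM).P ε hε) F k w h hh hwk
      (by rw [(fam'.up hst hconn M hDM).hM]; exact hkM) v0
      (fun g => TD w g) (l[x.1]) (by
        refine le_trans ?_ hsize
        have := x.2
        exact Nat.mul_le_mul_left _ (by omega)) (fun B hB hBl => by
        obtain ⟨g, h1, h3⟩ := hrep B (by
          show B ∈ (deep v0 (j + 1) Bs).flatMap (allInst v0)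
          exact List.mem_flatMap.mpr ⟨l[x.1], List.getElem_mem _, hB⟩) hBl
        exact ⟨g, ((fam'.up hst hconn M hDM).dg _ _ _ _).mpr (dg_of_TD h1), h1, h3⟩)
    refine ⟨Ah, all_mono (fun g hg => hg.2) Ah h1, h2, ?_⟩
    have h4 : h * Ah.len ≤ h * H := by
      refine le_trans h3 (le_trans ?_ hHh)
      have := x.2
      omega
    exact Nat.le_of_mul_le_mul_left h4 (by omega)
  choose Ah hAh1 hAh2 hAh3 using hmid
  have hcard : (Fintype.card {x : Fin l.length // (l[x]).len ≤ 4 * h'} : ℝ) *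
      (Fintype.card Wv' : ℝ) * 2 < 4 ^ (t + 1) := by
    refine lt_of_le_of_lt ?_ hcnt
    have h1 : Fintype.card {x : Fin l.length // (l[x]).len ≤ 4 * h'} ≤ l.length := by
      refine (Fintype.card_subtype_le _).trans ?_
      simp
    have h2 := length_deep v0 Bs s hs (j + 1)
    rw [← hl] at h2
    have h3 : Fintype.card {x : Fin l.length // (l[x]).len ≤ 4 * h'}
        ≤ cnt * (3 * (s + 3 * (j + 1)) ^ 2) ^ (j + 1) :=
      (h1.trans h2).trans (Nat.mul_le_mul_right _ hL)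
    have h4 : (Fintype.card {x : Fin l.length // (l[x]).len ≤ 4 * h'} : ℝ)
        ≤ ((cnt * (3 * (s + 3 * (j + 1)) ^ 2) ^ (j + 1) : ℕ) : ℝ) := by exact_mod_cast h3
    have h5 : (0:ℝ) ≤ (Fintype.card Wv' : ℝ) := Nat.cast_nonneg _
    exact mul_le_mul_of_nonneg_right (mul_le_mul_of_nonneg_right h4 h5) (by norm_num)
  obtain ⟨ω, hω, hgood⟩ := good_exists hst hG hG' hε hη hlip ht hH ht1 hn hlam hκ hu1 hu0 Ah
    hAh1 hAh3 hcard
  have hac := mem_Omg.mp hω
  have hD1 := hG.hD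
  have hw1 : w ≤ D * (w * H) := by
    calc w = 1 * (w * 1) := by ring
      _ ≤ D * (w * H) := Nat.mul_le_mul hD1 (Nat.mul_le_mul_left _ hH1)
  refine IH V v0 (fun v z => F v (rs lvi ω.1 ω.2 z)) (eN src tgt ε cen ω.1 ω.2)
    (eN_sq hε ω.2) ((Ac.prod_eN hst hε hac).trans hprod) Bs hs hL (fun B hB hBl => ?_) As
    (fun A hA => ?_) hfin
  · obtain ⟨x, hx, rfl⟩ := List.mem_iff_getElem.mp hB
    -- the tree of the restricted formula
    have e1 : TD (w * H) (vl (Ah ⟨⟨x, hx⟩, hBl⟩)) :=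
      TD_mono (Nat.mul_le_mul_left _ (hAh3 _)) (td_vl _ (hAh1 ⟨⟨x, hx⟩, hBl⟩))
    obtain ⟨T, hT1, hT2⟩ := td_rs lvi ω.1 (hst.card ω.1) ω.2 e1
    have hTe : T.eval = fun z => vl (Ah ⟨⟨x, hx⟩, hBl⟩) (rs lvi ω.1 ω.2 z) := funext hT2
    have hLW : ∀ v, LW src' tgt' (eN src tgt ε cen ω.1 ω.2) v (rl T.eval) t := fun v => by
      rw [hTe]; exact hgood ⟨⟨x, hx⟩, hBl⟩ v
    obtain ⟨T', hT'1, hT'2⟩ := det_z fam' hG' (eN_sq hε ω.2) T hT1 hLW hL1
      (by
        have := hQ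
        have h8 : 1 ≤ 4 * (1 + 4 * c0 * D) := by omega
        have h9 : 1 ≤ 1 + c0 * D := by omega
        have h10 := hn
        have h11 : 1 ≤ c0 * D := Nat.mul_pos hG.hc hG.hD
        omega) hbud hdw hw1 hK hM hQ
    refine ⟨T'.eval, ⟨T', hT'1, fun _ => rfl⟩, ?_⟩
    have h1 := ce_down fam' hst hconn M hDM hε F k hac _ (hAh2 ⟨⟨x, hx⟩, hBl⟩)
    have h2 := ce_mono3 hDk h1
    refine ce_congr h2 ((fam'.dg _ _ _ _).mpr
      (Dg_mono (dg_of_TD ⟨T', hT'1, fun _ => rfl⟩) hwk')) ?_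
    rw [hTe] at hT'2
    exact hT'2
  · obtain ⟨h1, h2⟩ := hAs A hA
    refine ⟨fun B hB => ?_, ?_⟩
    · have h3 := dg_rs hst.card (c := ω.1) (h1 B hB) ω.2
      exact Dg_mono h3 hDK
    · exact PFam.up_Z fam' hst hconn M hDM hε h2 hac

end Pool.Agent.H3.Ex
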