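import Mathlib
import Pool.Agent.H3.Ex.Defs
import Pool.Agent.H3.Ex.TreeA
import Pool.Agent.H3.Ac.Bsv

set_option autoImplicit false
set_option linter.unusedSectionVars false

/-!
# Module TVL: values of decision trees on partial matchings of the gadget graph

Adaptation of `bval_Val`, `bval_zero` in `Ac/Bsv.lean` (read them first) to decision trees: the queried
variables depend on the matching. `tval m a T M` is the value of `T` on the assignment of `M` if all
queried variables are determined by `M`.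

* `tval_Val`: `mono`: `M ⊆ M'`, `nds (T.qs (xM M)) ⊆ cov M`: `xM M = xM M'` on `T.qs (xM M)`
  (`xM_congr`), so `DT.congr` and `cov_mono`. `wit`: the edges of `M` that touch
  `nds (T.qs (xM M))`, at most `w` of them (`card_nds_le`, `DT.card_qs`; copy the private lemma
  `bsv_touch`). `tot`: show by induction on `T` that every matching `M` with
  `2 |M| + 2 T.depth ≤ m + 1` has an extension `M'` with at most `T.depth` further edges and
  `nds (T.qs (xM M')) ⊆ cov M'`: for `node e t0 t1` first cover `ndo m e` (if it is `some v`) by `cover`,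
  which gives `M1` with at most one further edge; the value `b` of `xM M1 e` does not change when
  `M1` is extended (`xM_congr` for `S = {e}`); apply the induction hypothesis to the subtree of `b`.
* `tzero`: let `δ z = 1` if `z = xM m a M` on `Q`, else `0`, a function of degree at most `|Q|`. Suppose
  `p (xM m a M) ≠ 0`. `ZZ .. (Mz - |Q|) (δ p)`: for `|S| ≤ Mz - |Q|` the function `chi S * δ` has
  degree `≤ Mz`, and `Et_mul_zero` (`Frg/Tseitin.lean`). But `δ p = p (xM m a M) δ` by `hp`, so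
  `ZZ .. (Mz - |Q|) δ` (`Et_smul`), and `bval_zero` for `δ`, `S = Q` (`|Q| ≤ Mz - |Q|`) gives
  `δ (xM m a M) = 0`, a contradiction.
-/

namespace Pool.Agent.H3.Ex

open Finset Pool.Agent.H3.Frg Pool.Agent.H3.Frg2 Pool.Agent.H3.Frg3 Pool.Agent.H3.Ac

variable {m : ℕ} {R : Type} [Fintype R] [DecidableEq R]

open scoped Classical in
/-- the three-valued function of a decision tree -/
noncomputable def tval (m : ℕ) (a : GE m ⊕ R → Bool) (T : DT (GE m ⊕ R))
    (M : Finset (Sym2 (Fin (m + 1)))) : Option Bool :=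
  if nds m (T.qs (xM m a M)) ⊆ cov M then some (T.eval (xM m a M)) else none

theorem tval_some {a : GE m ⊕ R → Bool} {T : DT (GE m ⊕ R)}
    {M : Finset (Sym2 (Fin (m + 1)))} {b : Bool} :
    tval m a T M = some b ↔
      nds m (T.qs (xM m a M)) ⊆ cov M ∧ T.eval (xM m a M) = b := by
  unfold tval
  by_cases h : nds m (T.qs (xM m a M)) ⊆ cov M
  · rw [if_pos h, Option.some_inj]
    exact ⟨fun h1 => ⟨h, h1⟩, fun h1 => h1.2⟩
  · rw [if_neg h]
    exact ⟨fun h1 => absurd h1 (by simp), fun h1 => absurd h1.1 h⟩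

/-- the edges that touch a set of vertices -/
private theorem tvl_touch {V : Type} [Fintype V] [DecidableEq V] {M : Finset (Sym2 V)}
    (hM : IsM M) (N : Finset V) (hN : N ⊆ cov M) :
    ∃ t, t ⊆ M ∧ t.card ≤ N.card ∧ N ⊆ cov t := by
  classical
  refine ⟨M.filter (fun e => ∃ v ∈ e, v ∈ N), Finset.filter_subset _ _, ?_, ?_⟩
  · have hne : ∀ e ∈ M.filter (fun e => ∃ v ∈ e, v ∈ N), ∃ v, v ∈ e ∧ v ∈ N := by
      intro e he
      obtain ⟨v, hv, hv2⟩ := (Finset.mem_filter.1 he).2
      exact ⟨v, hv, hv2⟩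
    rcases isEmpty_or_nonempty V with hV | hV
    · have h0 : M.filter (fun e => ∃ v ∈ e, v ∈ N) = ∅ := by
        rw [Finset.eq_empty_iff_forall_notMem]
        intro e he
        obtain ⟨v, _⟩ := hne e he
        exact hV.false v
      rw [h0, Finset.card_empty]
      exact Nat.zero_le _
    choose! φ hφ using hne
    refine Finset.card_le_card_of_injOn φ (fun e he => (hφ e he).2) ?_
    intro e he f hf hef
    rw [Finset.mem_coe] at he hf
    refine hM.2 e (Finset.mem_filter.1 he).1 f (Finset.mem_filter.1 hf).1 (φ e) (hφ e he).1 ?_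
    rw [hef]
    exact (hφ f hf).1
  · intro v hv
    obtain ⟨e, he, hve⟩ := mem_cov.1 (hN hv)
    exact mem_cov.2 ⟨e, Finset.mem_filter.2 ⟨he, v, hve, hv⟩, hve⟩

private theorem tvl_nds_insert (e : GE m ⊕ R) (S : Finset (GE m ⊕ R)) :
    nds m (insert e S) = nds m {e} ∪ nds m S := by
  rw [Finset.insert_eq, nds_union]

private theorem tvl_tot (a : GE m ⊕ R → Bool) (T : DT (GE m ⊕ R)) :
    ∀ M : Finset (Sym2 (Fin (m + 1))), IsM M → 2 * M.card + 2 * T.depth ≤ m + 1 →
      ∃ M', IsM M' ∧ M ⊆ M' ∧ M'.card ≤ M.card + T.depth ∧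
        nds m (T.qs (xM m a M')) ⊆ cov M' := by
  induction T with
  | leaf b =>
    intro M hM _
    refine ⟨M, hM, Finset.Subset.refl _, by omega, ?_⟩
    intro v hv
    obtain ⟨e, he, _⟩ := mem_nds.1 hv
    exact absurd he (Finset.notMem_empty e)
  | node e t0 t1 ih0 ih1 =>
    intro M hM hroom
    change 2 * M.card + 2 * (max t0.depth t1.depth + 1) ≤ m + 1 at hroom
    have hn : (nds m ({e} : Finset (GE m ⊕ R))).card ≤ 1 := by
      refine (card_nds_le _).trans ?_
      rw [Finset.card_singleton]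
    obtain ⟨M1, h1, h2, h3, h4, _⟩ := cover (nds m ({e} : Finset (GE m ⊕ R))) hM (by
      rw [Fintype.card_fin]
      omega)
    have hsub : ∃ t : DT (GE m ⊕ R), t.depth ≤ max t0.depth t1.depth ∧
        (∀ z : GE m ⊕ R → Bool, z e = xM m a M1 e →
          (DT.node e t0 t1).qs z = insert e (t.qs z)) ∧
        (∀ M : Finset (Sym2 (Fin (m + 1))), IsM M → 2 * M.card + 2 * t.depth ≤ m + 1 →
          ∃ M', IsM M' ∧ M ⊆ M' ∧ M'.card ≤ M.card + t.depth ∧
            nds m (t.qs (xM m a M')) ⊆ cov M') := by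
      by_cases hb : xM m a M1 e = true
      · refine ⟨t1, le_max_right _ _, fun z hz => ?_, ih1⟩
        rw [hb] at hz
        conv_lhs => unfold DT.qs
        rw [if_pos hz]
      · refine ⟨t0, le_max_left _ _, fun z hz => ?_, ih0⟩
        rw [← hz] at hb
        conv_lhs => unfold DT.qs
        rw [if_neg hb]
    obtain ⟨t, ht1, ht2, ht3⟩ := hsub
    obtain ⟨M', h5, h6, h7, h8⟩ := ht3 M1 h1 (by omega)
    refine ⟨M', h5, h2.trans h6, ?_, ?_⟩
    · change M'.card ≤ M.card + (max t0.depth t1.depth + 1)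
      omega
    · have h9 : xM m a M' e = xM m a M1 e :=
        (xM_congr a h5 h6 h3 e (Finset.mem_singleton_self e)).symm
      rw [ht2 _ h9, tvl_nds_insert]
      exact Finset.union_subset (h3.trans (cov_mono h6)) h8

theorem tval_Val (a : GE m ⊕ R → Bool) (w r : ℕ) (hr : 2 * w ≤ r) (T : DT (GE m ⊕ R))
    (hT : T.depth ≤ w) : Val w r (tval m a T) := by
  constructor
  · intro M M' hM' h b hb
    obtain ⟨h1, h2⟩ := tval_some.1 hb
    obtain ⟨e1, e2⟩ := T.congr (xM_congr a hM' h h1)
    refine tval_some.2 ⟨?_, ?_⟩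
    · rw [e2]
      exact h1.trans (cov_mono h)
    · rw [e1]
      exact h2
  · intro M hM b hb
    obtain ⟨h1, h2⟩ := tval_some.1 hb
    obtain ⟨t, ht1, ht2, ht3⟩ := tvl_touch hM _ h1
    have h3 := xM_congr a hM ht1 ht3
    obtain ⟨e1, e2⟩ := T.congr (fun e he => (h3 e he).symm)
    refine ⟨t, ht1, ?_, tval_some.2 ⟨?_, ?_⟩⟩
    · exact ht2.trans ((card_nds_le _).trans ((T.card_qs _).trans hT))
    · rw [e2]
      exact ht3
    · rw [e1]
      exact h2
  · intro M hM hroom
    rw [Fintype.card_fin] at hroom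
    obtain ⟨M', h1, h2, h3, h4⟩ := tvl_tot a T M hM (by omega)
    refine ⟨M', h1, h2, by omega, ?_⟩
    rw [tval_some.2 ⟨h4, rfl⟩]
    exact Option.some_ne_none _

theorem tzero {rsrc rtgt : R → GW m} {d Mz : ℕ}
    (hch : ∀ X : Finset (GW m), min X.card (Fintype.card (GW m) - X.card) ≤
      1000 * (bd (Sum.elim (gsrc m) rsrc) (Sum.elim (gtgt m) rtgt) X).card)
    {ε : GW m → ℝ} (hε : ∀ w, ε w * ε w = 1) {a : GE m ⊕ R → Bool}
    (ha : ∀ w : GW m, chi (bd (Sum.elim (gsrc m) rsrc) (Sum.elim (gtgt m) rtgt) {w}) a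
        = if w.2 = 0 then - ε w else ε w)
    {p : (GE m ⊕ R → Bool) → ℝ}
    (hZ : ZZ (Sum.elim (gsrc m) rsrc) (Sum.elim (gtgt m) rtgt) d Mz ε p)
    (Q : Finset (GE m ⊕ R)) (hQM : 2 * Q.card ≤ Mz)
    {M : Finset (Sym2 (Fin (m + 1)))} (hM : IsM M)
    (hp : ∀ z, (∀ e ∈ Q, z e = xM m a M e) → p z = p (xM m a M))
    (hroom : 2002 * Q.card ≤ m + 1) (hS4 : 4 * (1000 * Q.card) ≤ (m + 1) ^ 2)
    (hcov : nds m Q ⊆ cov M) :
    p (xM m a M) = 0 := by
  classical
  obtain ⟨z0, hz0⟩ : ∃ z0, z0 = xM m a M := ⟨_, rfl⟩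
  rw [← hz0] at hp ⊢
  have hprod : ∀ z, ∑ T ∈ Q.powerset, chi T z0 * chi T z = ∏ e ∈ Q, (1 + sg (z0 e) * sg (z e)) := by
    intro z
    rw [Finset.prod_one_add]
    refine Finset.sum_congr rfl fun T _ => ?_
    unfold chi
    rw [Finset.prod_mul_distrib]
  have hkey : ∀ z, (∑ T ∈ Q.powerset, chi T z0 * chi T z) * p z
      = p z0 * ∑ T ∈ Q.powerset, chi T z0 * chi T z := by
    intro z
    by_cases h : ∀ e ∈ Q, z e = z0 e
    · rw [hp z h, mul_comm]
    · push Not at h
      obtain ⟨e, he, hne⟩ := h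
      have h0 : ∑ T ∈ Q.powerset, chi T z0 * chi T z = 0 := by
        rw [hprod]
        refine Finset.prod_eq_zero he ?_
        revert hne
        cases z e <;> cases z0 e <;> simp [sg]
      rw [h0, zero_mul, mul_zero]
  have hZ2 : ZZ (Sum.elim (gsrc m) rsrc) (Sum.elim (gtgt m) rtgt) d (Mz - Q.card) ε
      (fun z => p z0 * ∑ T ∈ Q.powerset, chi T z0 * chi T z) := by
    intro S hS
    have h1 : (fun z => chi S z * (p z0 * ∑ T ∈ Q.powerset, chi T z0 * chi T z)) =
        fun z => ∑ T ∈ Q.powerset, chi T z0 * (chi (symmDiff S T) z * p z) := by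
      funext z
      rw [← hkey z, ← mul_assoc, Finset.mul_sum, Finset.sum_mul]
      refine Finset.sum_congr rfl fun T _ => ?_
      rw [← chi_mul]
      ring
    rw [h1]
    have h2 := Et_sum (Sum.elim (gsrc m) rsrc) (Sum.elim (gtgt m) rtgt) d ε Q.powerset
      (fun T => chi T z0) (fun T z => chi (symmDiff S T) z * p z)
    rw [h2]
    refine Finset.sum_eq_zero fun T hT => ?_
    have h3 : (symmDiff S T).card ≤ Mz := by
      have h4 : (symmDiff S T).card ≤ S.card + T.card := by
        refine (Finset.card_le_card (?_ : symmDiff S T ⊆ S ∪ T)).trans (Finset.card_union_le _ _)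
        intro e he
        rw [Finset.mem_symmDiff] at he
        rw [Finset.mem_union]
        tauto
      have h5 := Finset.card_le_card (Finset.mem_powerset.1 hT)
      omega
    rw [hZ _ h3, mul_zero]
  have h1 := bval_zero hch hε ha hZ2 Q (by omega) (by
    intro z z' hzz
    have h2 : ∀ T ∈ Q.powerset, chi T z0 * chi T z = chi T z0 * chi T z' := by
      intro T hT
      congr 1
      unfold chi
      exact Finset.prod_congr rfl fun e he => by
        rw [hzz e (Finset.mem_powerset.1 hT he)]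
    show p z0 * ∑ T ∈ Q.powerset, chi T z0 * chi T z =
      p z0 * ∑ T ∈ Q.powerset, chi T z0 * chi T z'
    rw [Finset.sum_congr rfl h2]) hroom hS4 hM hcov
  rw [← hz0] at h1
  have h2 : ∑ T ∈ Q.powerset, chi T z0 * chi T z0 = 2 ^ Q.card := by
    have h3 : ∀ T ∈ Q.powerset, chi T z0 * chi T z0 = (1 : ℝ) := fun T _ => chi_mul_self T z0
    rw [Finset.sum_congr rfl h3, Finset.sum_const, Finset.card_powerset, nsmul_eq_mul, mul_one]
    push_cast
    rfl
  have h3 : p z0 * ∑ T ∈ Q.powerset, chi T z0 * chi T z0 = 0 := h1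
  rw [h2] at h3
  exact (mul_eq_zero.1 h3).resolve_right (pow_ne_zero _ two_ne_zero)

end Pool.Agent.H3.Ex
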