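import Mathlib
import Pool.Agent.H3.Ex.Lev
import Pool.Agent.H3.Ex.Tvl
import Pool.Agent.H3.Ac.Bas

set_option autoImplicit false
set_option linter.unusedSectionVars false

/-!
# The bottom level: the gadget graph, values are decision trees
-/

namespace Pool.Agent.H3.Ex

open Finset Pool.Agent.H3.Frg Pool.Agent.H3.Frg2 Pool.Agent.H3.Frg3 Pool.Agent.H3.Ac

variable {m : ℕ} {R : Type} [Fintype R] [DecidableEq R]

theorem levT_base (hm : Even m) {rsrc rtgt : R → GW m} {D0 q : ℕ}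
    (hG : LG (Sum.elim (gsrc m) rsrc) (Sum.elim (gtgt m) rtgt) D0 1000 q)
    {d M K : ℕ} (hx : Expd (Sum.elim (gsrc m) rsrc) (Sum.elim (gtgt m) rtgt) d)
    (hMd : 2 * M ≤ d) (hK : 3 * K ≤ Fintype.card (GW m))
    (hKd : ∀ O : Finset (GW m), O.card ≤ K →
      M + (bd (Sum.elim (gsrc m) rsrc) (Sum.elim (gtgt m) rtgt) O).card ≤ d)
    {h k Kx w s cnt dd ℓ cnt2 : ℕ} (hsh : s ≤ 4 * h) (hkM : 2 * (k + Kx) ≤ M)
    (hw1 : 1 ≤ w) (hwM : 2 * (3 * w) ≤ M)
    (hroom : 2002 * (3 * w) ≤ m + 1) (hS4 : 4 * (1000 * (3 * w)) ≤ (m + 1) ^ 2)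
    (hcnt : cnt2 ≤ 2 ^ w) (hNN : NN w (2 * w * (ℓ + 4) + 8 * w) dd ≤ m + 1) :
    LevT (PFam.bottom d M K hx hMd hK hKd) (PrA s dd ℓ cnt2) 0 h k Kx w s cnt := by
  classical
  intro V v0 F ε hε hprod Bs hs hL hrep As hAs hPr
  obtain ⟨Sch, L, pf, S, htaut, hlen, hpf, hpfS, hSub, hSl, hSd, hSB, hAsS, hfin⟩ := hPr
  set fam := PFam.bottom d M K hx hMd hK hKd with hfam
  set P := fam.P ε hε with hP
  have hPM : P.M = M := rfl
  obtain ⟨a, ha⟩ := exists_a hm rsrc rtgt (con_of_cheeger hG.cheeger) ε hε hprod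
  -- the chosen values of the short formulas
  have hch : ∀ A : Fm V, A ∈ S → ldep s A = 0 →
      ∃ T : DT (GE m ⊕ R), T.depth ≤ w ∧ CE P F k A T.eval := by
    intro A hA h0
    have hAB := hSB A hA h0
    obtain ⟨g, ⟨T, hT1, hT2⟩, h3⟩ := hrep A (by
      show A ∈ (deep v0 0 Bs).flatMap (allInst v0)
      exact List.mem_flatMap.mpr ⟨A, hAB, mem_allInst_self v0 A⟩) ((hs A hAB).trans hsh)
    have hTg : T.eval = g := funext hT2
    exact ⟨T, hT1, by rw [hTg]; exact h3⟩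
  haveI : Nonempty (DT (GE m ⊕ R)) := ⟨DT.leaf false⟩
  choose! T hT1 hT3 using hch
  set val : Fm V → Finset (Sym2 (Fin (m + 1))) → Option Bool := fun A => tval m a (T A)
    with hval
  have hvs : ∀ A M b, val A M = some b →
      nds m ((T A).qs (xM m a M)) ⊆ cov M ∧ b = (T A).eval (xM m a M) := by
    intro A M b h
    obtain ⟨h1, h2⟩ := tval_some.1 h
    exact ⟨h1, h2.symm⟩
  have hzero : ∀ (p : (GE m ⊕ R → Bool) → ℝ), P.Z p → ∀ U : Finset (GE m ⊕ R),
      U.card ≤ 3 * w → ∀ M, IsM M → (∀ z, (∀ e ∈ U, z e = xM m a M e) → p z = p (xM m a M)) →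
      nds m U ⊆ cov M → p (xM m a M) = 0 := by
    intro p hp U hU M hM hpU hcov
    exact tzero hG.cheeger hε ha hp U (le_trans (Nat.mul_le_mul_left _ hU) hwM) hM hpU
      (le_trans (Nat.mul_le_mul_left _ hU) hroom)
      (le_trans (Nat.mul_le_mul_left _ (Nat.mul_le_mul_left _ hU)) hS4) hcov
  have h2k : 2 * k ≤ P.M := by rw [hPM]; omega
  have hdis : ∀ A : Fm V, ldep s A ≤ 0 → ldep s A = 0 := fun A h => by omega
  have hqc : ∀ A, A ∈ S → ldep s A = 0 → ∀ z, ((T A).qs z).card ≤ w := fun A hA h0 z =>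
    (DT.card_qs _ _).trans (hT1 A hA h0)
  have hcg : ∀ A M (z : GE m ⊕ R → Bool), (∀ e ∈ (T A).qs (xM m a M), z e = xM m a M e) →
      (T A).eval z = (T A).eval (xM m a M) := fun A M z hz =>
    (DT.congr (T A) (z := xM m a M) (z' := z) fun e he => (hz e he).symm).1
  refine ac_levels dd s w ℓ hw1 S hSub (hSl.trans hcnt) hSd Sch htaut hlen pf hpf hpfS v0 As hAsS
    hfin dd 0 (Fin (m + 1)) val (by omega) (fun A hA h0 => ?_) ⟨?_, ?_⟩ ?_ ?_
  · exact tval_Val a w (8 * w) (by omega) (T A) (hT1 A hA (hdis A h0))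
  · -- negation
    rintro A ⟨hnA, hn0⟩ M hM x y hx' hy
    have hn0' := hdis _ hn0
    have hA := hSub.1 A hnA
    have hA0 : ldep s A = 0 := hdis _ (ldep_neg_le hn0)
    obtain ⟨c1, rfl⟩ := hvs _ _ _ hx'
    obtain ⟨c2, rfl⟩ := hvs _ _ _ hy
    obtain ⟨-, a', ha', h1⟩ := ce_neg_iff.1 (hT3 _ hnA hn0')
    have h2 := ce_uniq h2k ha' (hT3 A hA hA0)
    have h3 : P.Z (fun z => rl (T (Fm.neg A)).eval z - (1 - rl (T A).eval z)) :=
      P.z_congr (P.z_add h1 (P.z_smul (-1) h2)) fun z => by ring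
    have h4 := hzero _ h3 ((T (Fm.neg A)).qs (xM m a M) ∪ (T A).qs (xM m a M)) (by
      refine (Finset.card_union_le _ _).trans ?_
      have e1 := hqc _ hnA hn0' (xM m a M)
      have e2 := hqc A hA hA0 (xM m a M)
      omega) M hM (fun z hz => by
        have e1 := hcg _ M z fun e he => hz e (Finset.mem_union_left _ he)
        have e2 := hcg _ M z fun e he => hz e (Finset.mem_union_right _ he)
        simp only [rl, e1, e2]) (by
        rw [nds_union]; exact Finset.union_subset c2 c1)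
    simp only [rl] at h4
    cases hg1 : (T (Fm.neg A)).eval (xM m a M) <;> cases hg2 : (T A).eval (xM m a M) <;>
      simp [hg1, hg2] at h4 ⊢
  · -- implication
    rintro A B ⟨hnA, hn0⟩ M hM x y w' hx' hy hw
    have hn0' := hdis _ hn0
    obtain ⟨hA, hB⟩ := hSub.2 A B hnA
    obtain ⟨hA0', hB0'⟩ := ldep_imp_le hn0
    have hA0 := hdis _ hA0'
    have hB0 := hdis _ hB0'
    obtain ⟨c1, rfl⟩ := hvs _ _ _ hx'
    obtain ⟨c2, rfl⟩ := hvs _ _ _ hy
    obtain ⟨c3, rfl⟩ := hvs _ _ _ hw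
    obtain ⟨-, a', b', ha', hb', h1⟩ := ce_imp_iff.1 (hT3 _ hnA hn0')
    have h2 := ce_uniq h2k ha' (hT3 A hA hA0)
    have h3 := ce_uniq h2k hb' (hT3 B hB hB0)
    have h4 := P.peq_imp (ce_dg ha') (ce_dg (hT3 A hA hA0)) (ce_dg hb') (ce_dg (hT3 B hB hB0))
      (by omega) h2 h3
    have h5 : P.Z (fun z => rl (T (Fm.imp A B)).eval z -
        (1 - rl (T A).eval z * (1 - rl (T B).eval z))) :=
      P.z_congr (P.z_add h1 h4) fun z => by ring
    have h6 := hzero _ h5 ((T (Fm.imp A B)).qs (xM m a M) ∪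
        ((T A).qs (xM m a M) ∪ (T B).qs (xM m a M))) (by
      refine (Finset.card_union_le _ _).trans ?_
      have e0 := Finset.card_union_le ((T A).qs (xM m a M)) ((T B).qs (xM m a M))
      have e1 := hqc _ hnA hn0' (xM m a M)
      have e2 := hqc A hA hA0 (xM m a M)
      have e3 := hqc B hB hB0 (xM m a M)
      omega) M hM (fun z hz => by
        have e1 := hcg _ M z fun e he => hz e (Finset.mem_union_left _ he)
        have e2 := hcg _ M z fun e he => hz e (Finset.mem_union_right _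
          (Finset.mem_union_left _ he))
        have e3 := hcg _ M z fun e he => hz e (Finset.mem_union_right _
          (Finset.mem_union_right _ he))
        simp only [rl, e1, e2, e3]) (by
        rw [nds_union, nds_union]
        exact Finset.union_subset c3 (Finset.union_subset c1 c2))
    simp only [rl] at h6
    cases hg1 : (T (Fm.imp A B)).eval (xM m a M) <;> cases hg2 : (T A).eval (xM m a M) <;>
      cases hg3 : (T B).eval (xM m a M) <;> simp [hg1, hg2, hg3] at h6 ⊢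
  · -- axioms
    intro A hA M hM hf
    obtain ⟨hAS, hA0⟩ := hAsS A hA
    obtain ⟨h1, h2⟩ := hAs A hA
    obtain ⟨c1, hb⟩ := hvs _ _ _ hf
    have h3 := ce_hv (K := Kx) (by rw [hPM]; omega) (fun B hB => (fam.dg _ _ _ _).mpr (h1 B hB))
      (hT3 A hAS hA0)
    have h4 : P.Z (fun z => rl (T A).eval z - 1) := P.z_congr (P.z_add h3 h2) fun z => by ring
    have h5 := hzero _ h4 ((T A).qs (xM m a M)) (by
        have := hqc A hAS hA0 (xM m a M); omega) M hM (fun z hz => by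
      have e1 := hcg A M z hz
      simp only [rl, e1]) c1
    simp only [rl] at h5
    rw [← hb] at h5
    simp at h5
  · rw [Fintype.card_fin]; exact hNN

end Pool.Agent.H3.Ex
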