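import Mathlib
import Pool.Agent.H3.Ex.Defs
import Pool.Agent.H3.Ex.BallDefs
import Pool.Agent.H3.Ex.Base
import Pool.Agent.H3.Ex.Sol
import Pool.Agent.H3.Frg3.Res

set_option autoImplicit false
set_option linter.unusedSectionVars false

/-!
# Module LIP: the weight is a Lipschitz function

Copy of `res_core`, `res_phi` in `Frg3/Res.lean` (read their proofs first) with two changes: the sums
are over the choices `c` with `c.1 v = α0` only, and the level does not count the edges at `v`.

Let `F c = lvl v (lv c S)`, `G c = lvl v (lv c (S ∆ {i}))`. `lv c (S ∆ {i}) = lv c S ∆ lvi c i`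
(`lv_symmDiff3`, `lv_singleton3`), so `G c ≤ F c + |lvi c i \ bd {v}|` (`lvl_le`, `exists_lvl`).
If `c`, `c'` have the same live variables outside `B` (as in `hF` of `res_core`) then
`F c ≤ |B| + F c'` (as `Nd_change`).

* `i = Sum.inl (e0, y)` (matching edges): `lvi c i` is `{e0}` or `∅`. Resampling of `c.2 e0`
  (`resample_one`) with `h c = if c.1 v = α0 then u ^ F c else 0` (resampling `c.2` does not change the
  indicator).
* `i = Sum.inr (Sum.inl (w, l, x, b))` (butterfly edges) with `w = v`: `lvi c i ⊆ bd {v}`, so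
  `G c ≤ F c` for all `c`. With `w ≠ v`: as in `res_core` with `resample_two` and
  `h c = if c.1 v = α0 then u ^ F c else 0` (resampling of `c.1 w`, `w ≠ v`, and `c.2 e` does not change
  the indicator).
* `i = Sum.inr (Sum.inr r)`: `lvi c i = ∅`.

`net_lip`: `ncen c v = (v, 0, c.1 v)`. If `x = (v, 0, α0)` the condition `ncen c v = x` is
`c.1 v = α0`; for all other `x` both sums are empty.
-/

namespace Pool.Agent.H3.Ex

open Finset Pool.Agent.H3.Frg Pool.Agent.H3.Frg2 Pool.Agent.H3.Frg3

variable {E' Wv' R : Type} [Fintype E'] [DecidableEq E'] [Fintype Wv'] [DecidableEq Wv']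
  [Fintype R] [DecidableEq R] {k : ℕ}

/-- `res_core` with the sums restricted to the choices with `c.1 v = α0` -/
theorem res_core_v {src' tgt' : E' → Wv'} {D : ℕ} (hD : 1 ≤ D) (hloop : ∀ e, src' e ≠ tgt' e)
    (hdeg : ∀ w, (bd src' tgt' {w}).card ≤ D) {u : ℝ} (hu : 1 ≤ u) (v : Wv') (α0 : Al k)
    (F G : Ch E' Wv' k → ℕ) (i : NE E' Wv' k R)
    (hFG : ∀ c, G c ≤ F c + (nlvi R src' tgt' c i \ bd src' tgt' {v}).card)
    (hF : ∀ (c c' : Ch E' Wv' k) (B : Finset E'), (∀ e ∉ B, ∀ j : NE E' Wv' k R,
      e ∈ nlvi R src' tgt' c j ↔ e ∈ nlvi R src' tgt' c' j) → F c ≤ B.card + F c') :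
    ∑ c : Ch E' Wv' k, (if c.1 v = α0 then u ^ G c else 0) ≤ (1 + D * u ^ (2 * D) / 2 ^ k) *
      ∑ c : Ch E' Wv' k, (if c.1 v = α0 then u ^ F c else 0) := by
  have hu0 : 0 ≤ u := by linarith
  have hN : (0:ℝ) < 2 ^ k := by positivity
  set h : Ch E' Wv' k → ℝ := fun c => if c.1 v = α0 then u ^ F c else 0 with hh
  have hh0 : ∀ c, 0 ≤ h c := by
    intro c
    simp only [hh]
    split_ifs
    · positivity
    · exact le_refl _
  have hle : ∀ (c c' : Ch E' Wv' k) (m : ℕ), (c.1 v = α0 → c'.1 v = α0) → F c ≤ m + F c' →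
      h c ≤ u ^ m * h c' := by
    intro c c' m h1 h2
    by_cases h3 : c.1 v = α0
    · simp only [hh, h3, h1 h3, if_true]
      rw [← pow_add]
      exact pow_le_pow_right₀ hu h2
    · have h4 : h c = 0 := by simp only [hh, h3, if_false]
      rw [h4]
      exact mul_nonneg (pow_nonneg hu0 _) (hh0 c')
  have hle0 : ∀ c : Ch E' Wv' k, G c ≤ F c →
      (if c.1 v = α0 then u ^ G c else 0) ≤ h c := by
    intro c h1
    simp only [hh]
    split_ifs
    · exact pow_le_pow_right₀ hu h1
    · exact le_refl _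
  have hS : 0 ≤ ∑ c, h c := Finset.sum_nonneg fun c _ => hh0 c
  have hDR : (1:ℝ) ≤ D := by exact_mod_cast hD
  have htriv : (∀ c, G c ≤ F c) → ∑ c : Ch E' Wv' k, (if c.1 v = α0 then u ^ G c else 0) ≤
      (1 + D * u ^ (2 * D) / 2 ^ k) * ∑ c : Ch E' Wv' k, h c := by
    intro h1
    calc ∑ c : Ch E' Wv' k, (if c.1 v = α0 then u ^ G c else 0) ≤ ∑ c, h c :=
          Finset.sum_le_sum fun c _ => hle0 c (h1 c)
      _ ≤ _ := by
        refine le_mul_of_one_le_left hS ?_
        have : 0 ≤ (D:ℝ) * u ^ (2 * D) / 2 ^ k := by positivity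
        linarith
  rcases i with z | z | z
  · -- matching edges
    have h1 : ∀ c : Ch E' Wv' k, (if c.1 v = α0 then u ^ G c else 0) ≤ h c +
        (u - 1) * (if c.2 z.1 = z.2 then h c else 0) := by
      intro c
      by_cases hv : c.1 v = α0
      · have h2 : G c ≤ F c + (nlvi R src' tgt' c (Sum.inl z)).card :=
          (hFG c).trans (Nat.add_le_add_left (Finset.card_le_card Finset.sdiff_subset) _)
        have h2' := pow_le_pow_right₀ hu h2
        have h7 : h c = u ^ F c := by simp only [hh, hv, if_true]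
        rw [if_pos hv, h7]
        refine h2'.trans ?_
        simp only [nlvi]
        by_cases h3 : c.2 z.1 = z.2
        · simp only [h3, if_true, Finset.card_singleton, pow_succ]
          exact le_of_eq (by ring)
        · simp only [h3, if_false, Finset.card_empty, add_zero, mul_zero]
          exact le_refl _
      · have h7 : h c = 0 := by simp only [hh, hv, if_false]
        rw [if_neg hv, h7]
        simp
    have h4 := resample_one (h := h) (K := u) z.1
      (fun c y => by
        have h5 := hF c (c.1, Function.update c.2 z.1 y) {z.1} (agree_one c z.1 y)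
        rw [Finset.card_singleton] at h5
        have h6 := hle c (c.1, Function.update c.2 z.1 y) 1 (fun h => h) h5
        rwa [pow_one] at h6) z.2
    set Q : ℝ := ∑ c : Ch E' Wv' k, (if c.2 z.1 = z.2 then h c else 0) with hQ
    have h5 : Q ≤ u * (∑ c, h c) / 2 ^ k := by
      rw [le_div_iff₀ hN]; linarith
    have h6 : (u - 1) * u ≤ D * u ^ (2 * D) := by
      have e1 : u ^ 2 ≤ u ^ (2 * D) := pow_le_pow_right₀ hu (by omega)
      have e2 : u ^ (2 * D) ≤ D * u ^ (2 * D) := le_mul_of_one_le_left (by positivity) hDR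
      have e3 : (u - 1) * u ≤ u ^ 2 := by nlinarith
      linarith
    calc ∑ c : Ch E' Wv' k, (if c.1 v = α0 then u ^ G c else 0)
        ≤ ∑ c, (h c + (u - 1) * (if c.2 z.1 = z.2 then h c else 0)) :=
          Finset.sum_le_sum fun c _ => h1 c
      _ = ∑ c, h c + (u - 1) * Q := by
          rw [Finset.sum_add_distrib, ← Finset.mul_sum]
      _ ≤ ∑ c, h c + (u - 1) * (u * (∑ c, h c) / 2 ^ k) := by
          have := mul_le_mul_of_nonneg_left h5 (show (0:ℝ) ≤ u - 1 by linarith)
          linarith
      _ = (1 + (u - 1) * u / 2 ^ k) * ∑ c, h c := by ring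
      _ ≤ _ := by
          refine mul_le_mul_of_nonneg_right ?_ hS
          have := div_le_div_of_nonneg_right h6 hN.le
          linarith
  · -- butterfly edges
    obtain ⟨w, l, x, b⟩ := z
    have hsub : ∀ c : Ch E' Wv' k, nlvi R src' tgt' c (Sum.inr (Sum.inl (w, l, x, b)))
        ⊆ bd src' tgt' {w} := by
      intro c e he
      simp only [nlvi, Finset.mem_filter, mem_univ, true_and] at he
      exact mem_bd_of hloop he.1
    by_cases hwv : w = v
    · subst hwv
      refine htriv fun c => ?_
      have h2 := hFG c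
      rw [Finset.sdiff_eq_empty_iff_subset.mpr (hsub c), Finset.card_empty, add_zero] at h2
      exact h2
    have h1 : ∀ c : Ch E' Wv' k, (if c.1 v = α0 then u ^ G c else 0) ≤ h c +
        (u ^ D - 1) * ∑ e ∈ bd src' tgt' {w},
          (if mix (l : ℕ) (c.2 e) (c.1 w) = x ∧ c.2 e l = b then h c else 0) := by
      intro c
      have hpos : ∀ e ∈ bd src' tgt' {w}, 0 ≤
          (if mix (l : ℕ) (c.2 e) (c.1 w) = x ∧ c.2 e l = b then h c else 0) := by
        intro e _
        split_ifs
        · exact hh0 c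
        · exact le_refl _
      have hsum : 0 ≤ ∑ e ∈ bd src' tgt' {w},
          (if mix (l : ℕ) (c.2 e) (c.1 w) = x ∧ c.2 e l = b then h c else 0) :=
        Finset.sum_nonneg hpos
      have huD : 0 ≤ u ^ D - 1 := by
        have := one_le_pow₀ hu (n := D)
        linarith
      have h2 : G c ≤ F c + (nlvi R src' tgt' c (Sum.inr (Sum.inl (w, l, x, b)))).card :=
        (hFG c).trans (Nat.add_le_add_left (Finset.card_le_card Finset.sdiff_subset) _)
      by_cases hv : c.1 v = α0
      swap
      · rw [if_neg hv]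
        have h5 := mul_nonneg huD hsum
        have h6 := hh0 c
        linarith
      have h7 : h c = u ^ F c := by simp only [hh, hv, if_true]
      rw [if_pos hv]
      rcases Finset.eq_empty_or_nonempty
        (nlvi R src' tgt' c (Sum.inr (Sum.inl (w, l, x, b)))) with h3 | ⟨e, he⟩
      · rw [h3, Finset.card_empty, add_zero] at h2
        have h4 := pow_le_pow_right₀ hu h2
        have h5 := mul_nonneg huD hsum
        linarith
      · have h4 : G c ≤ F c + D :=
          h2.trans (Nat.add_le_add_left ((Finset.card_le_card (hsub c)).trans (hdeg w)) _)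
        have h5 := pow_le_pow_right₀ hu h4
        have he2 := hsub c he
        simp only [nlvi, Finset.mem_filter, mem_univ, true_and] at he
        have h6 : h c ≤ ∑ e ∈ bd src' tgt' {w},
            (if mix (l : ℕ) (c.2 e) (c.1 w) = x ∧ c.2 e l = b then h c else 0) := by
          refine le_trans (le_of_eq ?_) (Finset.single_le_sum hpos he2)
          rw [if_pos he.2]
        calc u ^ G c ≤ u ^ (F c + D) := h5
          _ = h c + (u ^ D - 1) * h c := by rw [pow_add, h7]; ring
          _ ≤ _ := by
            have := mul_le_mul_of_nonneg_left h6 huD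
            linarith
    have h4 : ∀ e ∈ bd src' tgt' {w}, ∑ c : Ch E' Wv' k,
        (if mix (l : ℕ) (c.2 e) (c.1 w) = x ∧ c.2 e l = b then h c else 0)
        ≤ u ^ D * (∑ c, h c) / 2 ^ k := by
      intro e he
      rw [le_div_iff₀ hN, mul_comm]
      refine resample_two (h := h) (K := u ^ D) (by positivity)
        hh0 e w ?_ l x b
      intro c α y
      have h5 := hF c (Function.update c.1 w α, Function.update c.2 e y) _
        (agree_two hloop c e w he α y)
      have h6 := h5.trans (Nat.add_le_add_right (hdeg w) _)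
      refine hle c (Function.update c.1 w α, Function.update c.2 e y) D ?_ h6
      intro h7
      change Function.update c.1 w α v = α0
      rw [Function.update_of_ne (Ne.symm hwv)]
      exact h7
    have huD : 0 ≤ u ^ D - 1 := by
      have := one_le_pow₀ hu (n := D)
      linarith
    have h5 : ∑ e ∈ bd src' tgt' {w}, ∑ c : Ch E' Wv' k,
        (if mix (l : ℕ) (c.2 e) (c.1 w) = x ∧ c.2 e l = b then h c else 0)
        ≤ D * (u ^ D * (∑ c, h c) / 2 ^ k) := by
      refine (Finset.sum_le_sum h4).trans ?_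
      rw [Finset.sum_const, nsmul_eq_mul]
      refine mul_le_mul_of_nonneg_right ?_ (by positivity)
      exact_mod_cast hdeg w
    calc ∑ c : Ch E' Wv' k, (if c.1 v = α0 then u ^ G c else 0)
        ≤ ∑ c, (h c + (u ^ D - 1) * ∑ e ∈ bd src' tgt' {w},
          (if mix (l : ℕ) (c.2 e) (c.1 w) = x ∧ c.2 e l = b then h c else 0)) :=
          Finset.sum_le_sum fun c _ => h1 c
      _ = ∑ c, h c + (u ^ D - 1) * ∑ e ∈ bd src' tgt' {w}, ∑ c : Ch E' Wv' k,
          (if mix (l : ℕ) (c.2 e) (c.1 w) = x ∧ c.2 e l = b then h c else 0) := by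
          rw [Finset.sum_add_distrib, ← Finset.mul_sum, Finset.sum_comm]
      _ ≤ ∑ c, h c + (u ^ D - 1) * (D * (u ^ D * (∑ c, h c) / 2 ^ k)) := by
          have := mul_le_mul_of_nonneg_left h5 huD
          linarith
      _ = (1 + D * ((u ^ D - 1) * u ^ D) / 2 ^ k) * ∑ c, h c := by ring
      _ ≤ _ := by
          refine mul_le_mul_of_nonneg_right ?_ hS
          have h6 : (u ^ D - 1) * u ^ D ≤ u ^ (2 * D) := by
            have e1 : u ^ (2 * D) = u ^ D * u ^ D := by rw [two_mul, pow_add]
            rw [e1]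
            have : 0 ≤ u ^ D := by positivity
            nlinarith
          have h7 : D * ((u ^ D - 1) * u ^ D) ≤ D * u ^ (2 * D) :=
            mul_le_mul_of_nonneg_left h6 (by positivity)
          have := div_le_div_of_nonneg_right h7 hN.le
          linarith
  · -- further edges
    refine htriv fun c => ?_
    have h2 := hFG c
    simp only [nlvi, Finset.empty_sdiff, Finset.card_empty, add_zero] at h2
    exact h2

theorem lvl_flip {src' tgt' : E' → Wv'} (v : Wv') (T B : Finset E') :
    lvl src' tgt' v (symmDiff T B) ≤ lvl src' tgt' v T + (B \ bd src' tgt' {v}).card := by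
  obtain ⟨X, hX⟩ := exists_lvl src' tgt' v T
  refine (lvl_le _ X).trans ?_
  rw [hX]
  refine (Finset.card_le_card ?_).trans (Finset.card_union_le _ _)
  intro e he
  simp only [Finset.mem_sdiff, Finset.mem_symmDiff, Finset.mem_union] at he ⊢
  tauto

theorem lvl_change {src' tgt' : E' → Wv'} (v : Wv') (T T' B : Finset E')
    (h : ∀ e ∉ B, e ∈ T → e ∈ T') (h' : ∀ e ∉ B, e ∈ T' → e ∈ T) :
    lvl src' tgt' v T ≤ B.card + lvl src' tgt' v T' := by
  obtain ⟨X, hX⟩ := exists_lvl src' tgt' v T'
  refine (lvl_le _ X).trans ?_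
  rw [hX]
  refine (Finset.card_le_card ?_).trans (Finset.card_union_le _ _)
  intro e he
  have h1 := h e
  have h2 := h' e
  simp only [Finset.mem_sdiff, Finset.mem_symmDiff, Finset.mem_union] at he ⊢
  tauto

theorem res_lvl {src' tgt' : E' → Wv'} {D : ℕ} (hD : 1 ≤ D) (hloop : ∀ e, src' e ≠ tgt' e)
    (hdeg : ∀ w, (bd src' tgt' {w}).card ≤ D) {u : ℝ} (hu : 1 ≤ u) (v : Wv') (α0 : Al k)
    (S : Finset (NE E' Wv' k R)) (i : NE E' Wv' k R) :
    ∑ c ∈ (univ : Finset (Ch E' Wv' k)).filter (fun c => c.1 v = α0),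
        u ^ lvl src' tgt' v (lv (nlvi R src' tgt') c (symmDiff S {i})) ≤
      (1 + D * u ^ (2 * D) / 2 ^ k) *
        ∑ c ∈ (univ : Finset (Ch E' Wv' k)).filter (fun c => c.1 v = α0),
          u ^ lvl src' tgt' v (lv (nlvi R src' tgt') c S) := by
  rw [Finset.sum_filter, Finset.sum_filter]
  refine res_core_v (R := R) hD hloop hdeg hu v α0
    (fun c => lvl src' tgt' v (lv (nlvi R src' tgt') c S))
    (fun c => lvl src' tgt' v (lv (nlvi R src' tgt') c (symmDiff S {i}))) i ?_ ?_
  · intro c
    rw [lv_symmDiff3, lv_singleton3]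
    exact lvl_flip v _ _
  · intro c c' B hB
    refine lvl_change v _ _ B ?_ ?_
    · intro e he h1
      rw [mem_lv3] at h1 ⊢
      simp only [hB e he] at h1
      exact h1
    · intro e he h1
      rw [mem_lv3] at h1 ⊢
      simp only [← hB e he] at h1
      exact h1

open scoped Classical in
theorem net_lip {src' tgt' : E' → Wv'} {D : ℕ} (hD : 1 ≤ D) (hloop : ∀ e, src' e ≠ tgt' e)
    (hdeg : ∀ w, (bd src' tgt' {w}).card ≤ D) {u : ℝ} (hu : 1 ≤ u) (v : Wv') (x : NV Wv' k)
    (S : Finset (NE E' Wv' k R)) (i : NE E' Wv' k R) :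
    ∑ c ∈ (univ : Finset (Ch E' Wv' k)).filter (fun c => ncen c v = x),
        u ^ lvl src' tgt' v (lv (nlvi R src' tgt') c (symmDiff S {i})) ≤
      (1 + D * u ^ (2 * D) / 2 ^ k) *
        ∑ c ∈ (univ : Finset (Ch E' Wv' k)).filter (fun c => ncen c v = x),
          u ^ lvl src' tgt' v (lv (nlvi R src' tgt') c S) := by
  obtain ⟨w, l, α⟩ := x
  by_cases hx : w = v ∧ l = 0
  · obtain ⟨rfl, rfl⟩ := hx
    have h1 : ∀ c : Ch E' Wv' k, (ncen c w = ((w, 0, α) : NV Wv' k)) ↔ c.1 w = α := by
      intro c
      unfold ncen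
      simp
    have h2 : (univ : Finset (Ch E' Wv' k)).filter (fun c => ncen c w = ((w, 0, α) : NV Wv' k))
        = (univ : Finset (Ch E' Wv' k)).filter (fun c => c.1 w = α) := by
      ext c
      simp only [Finset.mem_filter, Finset.mem_univ, true_and, h1]
    rw [h2]
    exact res_lvl hD hloop hdeg hu w α S i
  · have h2 : (univ : Finset (Ch E' Wv' k)).filter (fun c => ncen c v = ((w, l, α) : NV Wv' k))
        = ∅ := by
      rw [Finset.filter_eq_empty_iff]
      intro c _ h3
      apply hx
      unfold ncen at h3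
      simp only [Prod.mk.injEq] at h3
      exact ⟨h3.1.symm, h3.2.1.symm⟩
    rw [h2]
    simp

end Pool.Agent.H3.Ex
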