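import Mathlib

set_option autoImplicit false
set_option linter.unusedSectionVars false

/-!
# Numerics: the noise

Proof of `num_e`. Take `b ≥ 2`, `b ≥ 200 * Dm` and `b ≥ 160 * 73 * 2 * Dm ^ 2`. By the hypothesis
`(2 : ℝ) ^ k = b ^ (y + 2 * Dm + 14)` (cast), so with `P := (b ^ 12 + 1) * (Dm * b ^ (2 * Dm) / 2 ^ k)`
one has `0 ≤ P ≤ 2 * b ^ 12 * Dm * b ^ (2 * Dm) / b ^ (y + 2 * Dm + 14) = 2 * Dm / b ^ (y + 2)`.
First part: `2 * Dm / b ^ (y + 2) ≤ 2 * Dm / b ≤ 1 / 100`.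
Second part: `40 * P ^ 2 ≤ 160 * Dm ^ 2 / b ^ (2 * y + 4)` and `1 + 72 * b ^ (2 * y) ≤ 73 * b ^ (2 * y)`,
so `(1 + 40 * P ^ 2) ^ n ≤ exp (n * 40 * P ^ 2)` (`Real.add_one_le_exp`, power) with
`n * 40 * P ^ 2 ≤ 73 * 160 * Dm ^ 2 / b ^ 4 ≤ 1 / 2`, and `exp (1 / 2) ≤ 2`
(`Real.exp_one_lt_d9`: `exp 1 < 2.7182818286 < 4 = 2 ^ 2`).
-/

namespace Pool.Agent.H3.Ex

open Finset Filter Topology

theorem numB_exp_half : Real.exp (1 / 2) ≤ 2 := by
  have h1 : Real.exp (1 / 2) ^ 2 = Real.exp 1 := by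
    rw [← Real.exp_nat_mul]
    norm_num
  have h2 := Real.exp_one_lt_d9
  have h3 : Real.exp (1 / 2) ^ 2 ≤ 2 ^ 2 := by rw [h1]; linarith
  exact le_of_pow_le_pow_left₀ two_ne_zero (by norm_num) h3

theorem num_e (Dm y : ℕ) : ∀ᶠ b : ℕ in atTop, ∀ k : ℕ, 2 ^ k = b ^ (y + (2 * Dm + 14)) →
    (((b ^ 12 : ℕ) : ℝ) + 1) * ((Dm : ℝ) * (b : ℝ) ^ (2 * Dm) / 2 ^ k) ≤ 1 / 100 ∧
    (1 + 40 * ((((b ^ 12 : ℕ) : ℝ) + 1) * ((Dm : ℝ) * (b : ℝ) ^ (2 * Dm) / 2 ^ k)) ^ 2) ^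
      (1 + 72 * b ^ (2 * y)) ≤ 2 := by
  filter_upwards [eventually_ge_atTop (2 + 200 * Dm + 160 * 73 * 2 * Dm ^ 2)] with b hb k hk
  have hb' : (2 : ℝ) + 200 * Dm + 160 * 73 * 2 * (Dm : ℝ) ^ 2 ≤ b := by exact_mod_cast hb
  set β : ℝ := (b : ℝ) with hβ
  set D : ℝ := (Dm : ℝ) with hD
  have hD0 : 0 ≤ D := Nat.cast_nonneg _
  have hβ2 : 2 ≤ β := by nlinarith [sq_nonneg D]
  have hβ1 : 1 ≤ β := by linarith
  have hβ0 : 0 < β := by linarith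
  have hβD : 200 * D ≤ β := by nlinarith [sq_nonneg D]
  have hβD2 : 160 * 73 * 2 * D ^ 2 ≤ β := by nlinarith
  have hk' : (2 : ℝ) ^ k = β ^ (y + (2 * Dm + 14)) := by
    rw [hβ]
    exact_mod_cast hk
  have hc : ((b ^ 12 : ℕ) : ℝ) = β ^ 12 := by push_cast; rfl
  rw [hc, hk']
  set P : ℝ := (β ^ 12 + 1) * (D * β ^ (2 * Dm) / β ^ (y + (2 * Dm + 14))) with hP
  have hP0 : 0 ≤ P := by positivity
  have hPle : P ≤ 2 * D / β ^ (y + 2) := by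
    have h1 : β ^ 12 + 1 ≤ 2 * β ^ 12 := by
      have := one_le_pow₀ (n := 12) hβ1
      linarith
    have h2 : β ^ (y + (2 * Dm + 14)) = β ^ (y + 2) * β ^ (2 * Dm) * β ^ 12 := by
      rw [← pow_add, ← pow_add]
      congr 1
      ring
    calc P ≤ (2 * β ^ 12) * (D * β ^ (2 * Dm) / β ^ (y + (2 * Dm + 14))) :=
          mul_le_mul_of_nonneg_right h1 (by positivity)
      _ = 2 * D / β ^ (y + 2) := by
          rw [h2]
          field_simp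
  constructor
  · refine hPle.trans ?_
    rw [div_le_iff₀ (by positivity)]
    have h1 : β ≤ β ^ (y + 2) := by
      calc β = β ^ 1 := (pow_one _).symm
        _ ≤ β ^ (y + 2) := pow_le_pow_right₀ hβ1 (by omega)
    linarith
  · have h1 : (1 + 40 * P ^ 2) ^ (1 + 72 * b ^ (2 * y)) ≤
        Real.exp (((1 + 72 * b ^ (2 * y) : ℕ) : ℝ) * (40 * P ^ 2)) := by
      rw [Real.exp_nat_mul]
      refine pow_le_pow_left₀ (by positivity) ?_ _
      linarith [Real.add_one_le_exp (40 * P ^ 2)]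
    refine h1.trans (le_trans (Real.exp_le_exp.mpr ?_) numB_exp_half)
    have h2 : ((1 + 72 * b ^ (2 * y) : ℕ) : ℝ) ≤ 73 * β ^ (2 * y) := by
      push_cast
      have := one_le_pow₀ (n := 2 * y) hβ1
      linarith
    have h3 : P ^ 2 ≤ (2 * D / β ^ (y + 2)) ^ 2 := pow_le_pow_left₀ hP0 hPle 2
    calc ((1 + 72 * b ^ (2 * y) : ℕ) : ℝ) * (40 * P ^ 2)
        ≤ (73 * β ^ (2 * y)) * (40 * (2 * D / β ^ (y + 2)) ^ 2) :=
          mul_le_mul h2 (mul_le_mul_of_nonneg_left h3 (by norm_num)) (by positivity) (by positivity)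
      _ = 73 * 160 * D ^ 2 / β ^ 4 := by
          have h4 : β ^ (y + 2) = β ^ y * β ^ 2 := pow_add _ _ _
          have h5 : β ^ (2 * y) = β ^ y * β ^ y := by rw [← pow_add]; congr 1; ring
          rw [h4, h5]
          field_simp
          ring
      _ ≤ 1 / 2 := by
          rw [div_le_iff₀ (by positivity)]
          have h6 : β ≤ β ^ 4 := by
            calc β = β ^ 1 := (pow_one _).symm
              _ ≤ β ^ 4 := pow_le_pow_right₀ hβ1 (by omega)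
          linarith

end Pool.Agent.H3.Ex
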