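import Mathlib

set_option autoImplicit false
set_option linter.unusedSectionVars false

/-!
# Numerics: exponentials

`num_l`: in the reals, `b ^ A / r ^ b → 0` for `r = (c + 1) / c > 1`
(`tendsto_pow_const_div_const_pow_of_one_lt`), so eventually `b ^ A / r ^ b < 1`, i.e.
`b ^ A * c ^ b < (c + 1) ^ b`; cast back to the naturals.

`num_two`: the same with `r = 2`, eventually `b ^ A / 2 ^ b < 1 / (C + 1)`.

`num_ka`: for `b > C` and `b ≥ U` (so `1 ≤ Nat.log U b`): with `κ = Nat.log U b`, `b < U ^ (κ + 1)`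
(`Nat.lt_pow_succ_log_self`) and `κ + 1 ≤ 2 * κ`, so
`C * b ^ A < b ^ (A + 1) ≤ (U ^ (κ + 1)) ^ (A + 1) ≤ (U ^ (2 * κ)) ^ (A + 1) = (U ^ (2 * (A + 1))) ^ κ`.
-/

namespace Pool.Agent.H3.Ex

open Finset Filter Topology

theorem num_l (c A : ℕ) (hc : 1 ≤ c) : ∀ᶠ b : ℕ in atTop, b ^ A * c ^ b < (c + 1) ^ b := by
  have hc0 : (0 : ℝ) < (c : ℝ) := by exact_mod_cast hc
  have hr : (1 : ℝ) < ((c : ℝ) + 1) / c := by
    rw [lt_div_iff₀ hc0]; linarith
  have h := tendsto_pow_const_div_const_pow_of_one_lt A hr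
  have h1 := h.eventually (gt_mem_nhds (show (0 : ℝ) < 1 by norm_num))
  filter_upwards [h1] with b hb
  have hp : (0 : ℝ) < (((c : ℝ) + 1) / c) ^ b := by positivity
  rw [div_lt_iff₀ hp, one_mul, div_pow, lt_div_iff₀ (by positivity)] at hb
  exact_mod_cast hb

theorem num_two (C A : ℕ) : ∀ᶠ b : ℕ in atTop, C * b ^ A < 2 ^ b := by
  have h := tendsto_pow_const_div_const_pow_of_one_lt A (show (1 : ℝ) < 2 by norm_num)
  have h1 := h.eventually (gt_mem_nhds (show (0 : ℝ) < 1 / ((C : ℝ) + 1) by positivity))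
  filter_upwards [h1] with b hb
  have hp : (0 : ℝ) < (2 : ℝ) ^ b := by positivity
  rw [div_lt_div_iff₀ hp (by positivity), one_mul] at hb
  have h2 : (C : ℝ) * (b : ℝ) ^ A < 2 ^ b := by
    have h3 : (0 : ℝ) ≤ (b : ℝ) ^ A := by positivity
    nlinarith
  exact_mod_cast h2

theorem num_ka (U A C : ℕ) (hU : 2 ≤ U) :
    ∀ᶠ b : ℕ in atTop, C * b ^ A < (U ^ (2 * (A + 1))) ^ Nat.log U b := by
  filter_upwards [eventually_gt_atTop C, eventually_ge_atTop U] with b hC hb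
  have hb0 : 0 < b := by omega
  have hlog : 1 ≤ Nat.log U b := Nat.log_pos (by omega) hb
  have h1 : b < U ^ (Nat.log U b + 1) := Nat.lt_pow_succ_log_self (by omega) b
  calc C * b ^ A < b * b ^ A := Nat.mul_lt_mul_of_pos_right hC (by positivity)
    _ = b ^ (A + 1) := by ring
    _ ≤ (U ^ (Nat.log U b + 1)) ^ (A + 1) := Nat.pow_le_pow_left h1.le _
    _ ≤ (U ^ (2 * Nat.log U b)) ^ (A + 1) :=
        Nat.pow_le_pow_left (Nat.pow_le_pow_right (by omega) (by omega)) _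
    _ = (U ^ (2 * (A + 1))) ^ Nat.log U b := by
        rw [← pow_mul, ← pow_mul]; congr 1; ring

end Pool.Agent.H3.Ex
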