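import Mathlib
import Pool.Agent.H3.Ex.Tow
import Pool.Agent.H3.Ex.NumB
import Pool.Agent.H3.Ex.NumC

set_option autoImplicit false
set_option linter.unusedSectionVars false

/-!
# Numerics: polynomial bounds
-/

namespace Pool.Agent.H3.Ex

open Finset Filter Topology Pool.Agent.H3.Frg Pool.Agent.H3.Frg2 Pool.Agent.H3.Frg3
  Pool.Agent.H3.Ac

/-- polynomial bound -/
def PB (f : ℕ → ℕ) (i : ℕ) : Prop := ∃ C : ℕ, ∀ b : ℕ, 1 ≤ b → f b ≤ C * b ^ i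

theorem PB.mono {f : ℕ → ℕ} {i j : ℕ} (h : PB f i) (hij : i ≤ j) : PB f j := by
  obtain ⟨C, hC⟩ := h
  exact ⟨C, fun b hb => (hC b hb).trans (Nat.mul_le_mul_left _ (Nat.pow_le_pow_right hb hij))⟩

theorem PB.const (c : ℕ) {i : ℕ} : PB (fun _ => c) i :=
  ⟨c, fun b hb => Nat.le_mul_of_pos_right _ (Nat.pow_pos hb)⟩

theorem PB.id : PB (fun b => b) 1 := ⟨1, fun b _ => by simp⟩

theorem PB.pow' (j : ℕ) : PB (fun b => b ^ j) j := ⟨1, fun b _ => by simp⟩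

theorem PB.add {f g : ℕ → ℕ} {i : ℕ} (hf : PB f i) (hg : PB g i) :
    PB (fun b => f b + g b) i := by
  obtain ⟨C, hC⟩ := hf
  obtain ⟨C', hC'⟩ := hg
  refine ⟨C + C', fun b hb => ?_⟩
  rw [add_mul]
  exact Nat.add_le_add (hC b hb) (hC' b hb)

theorem PB.mul {f g : ℕ → ℕ} {i j : ℕ} (hf : PB f i) (hg : PB g j) :
    PB (fun b => f b * g b) (i + j) := by
  obtain ⟨C, hC⟩ := hf
  obtain ⟨C', hC'⟩ := hg
  refine ⟨C * C', fun b hb => ?_⟩
  calc f b * g b ≤ (C * b ^ i) * (C' * b ^ j) := Nat.mul_le_mul (hC b hb) (hC' b hb)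
    _ = C * C' * b ^ (i + j) := by rw [pow_add]; ring

theorem PB.cmul {g : ℕ → ℕ} {j : ℕ} (c : ℕ) (hg : PB g j) : PB (fun b => c * g b) j := by
  have := (PB.const c (i := 0)).mul hg
  rwa [zero_add] at this

theorem PB.pow {f : ℕ → ℕ} {i : ℕ} (hf : PB f i) (n : ℕ) : PB (fun b => f b ^ n) (i * n) := by
  obtain ⟨C, hC⟩ := hf
  refine ⟨C ^ n, fun b hb => ?_⟩
  rw [pow_mul, ← mul_pow]
  exact Nat.pow_le_pow_left (hC b hb) n

theorem PB.lt {f : ℕ → ℕ} {i j : ℕ} (h : PB f i) (hij : i < j) :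
    ∀ᶠ b : ℕ in atTop, f b < b ^ j := by
  obtain ⟨C, hC⟩ := h
  filter_upwards [eventually_ge_atTop (C + 1)] with b hb
  have hb1 : 1 ≤ b := by omega
  calc f b ≤ C * b ^ i := hC b hb1
    _ < b * b ^ i := Nat.mul_lt_mul_of_pos_right (by omega) (Nat.pow_pos hb1)
    _ = b ^ (i + 1) := by rw [pow_succ]; ring
    _ ≤ b ^ j := Nat.pow_le_pow_right hb1 hij

theorem PB.congr {f g : ℕ → ℕ} {i : ℕ} (h : PB f i) (hfg : ∀ b, g b = f b) : PB g i := by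
  obtain ⟨C, hC⟩ := h
  exact ⟨C, fun b hb => by rw [hfg]; exact hC b hb⟩

theorem pb_kA (D : ℕ) : PB (fun b => kA b D) 2 :=
  ((PB.id.add (PB.const D)).pow 2).cmul 4

theorem pb_kB (D : ℕ) : PB (fun b => kB b D) 2 :=
  ((PB.id.add (PB.const D)).pow 2).cmul 16

theorem pb_rh (D : ℕ) : PB (fun b => rh b D 1000 b) 3 :=
  (pb_kB D).mul (((PB.id.cmul 2).add (PB.const 1)).add
    (PB.id.cmul (16 * D * (1 + 2 * 1000 * D))))

theorem pb_lB (D : ℕ) : PB (fun b => lB b D 1000 b) 4 :=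
  (((pb_rh D).add (PB.const 1)).mul ((PB.id.cmul 2).add (PB.const 1))).add
    ((pb_rh D).mono (by norm_num))

theorem pb_q1 (D : ℕ) : PB (fun b => q1 b D 1000 b) 6 :=
  (((pb_lB D).cmul 2).mul (pb_kA D)).cmul (4 * (1 + 3 * 1000 * D))

theorem pb_q2 (D : ℕ) : PB (fun b => q2 b D 1000 b) 7 := by
  have h1 : PB (fun b => 8 * b * D) 1 := (PB.id.cmul (8 * D)).congr fun b => by ring
  exact ((pb_q1 D).mul ((PB.const 1).add h1)).cmul (1 + 4 * 1000 * D)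

theorem pb_lmx (D : ℕ) : PB (fun b => lmx b D 1000 b) 9 := (pb_kA D).mul (pb_q2 D)

theorem pb_dpt (D : ℕ) : PB (fun b => dpt b D 1000 b) 11 :=
  (pb_kA D).mul ((pb_lmx D).cmul (2 * D))

theorem pb_bud (D : ℕ) {d0 : ℕ → ℕ} {i : ℕ} (h : PB d0 i) (hi : 7 ≤ i) :
    PB (fun b => bud b D 1000 b (d0 b)) (i + 2) := by
  have a1 : PB (fun b => 2 * lmx b D 1000 b) (i + 2) :=
    ((pb_lmx D).cmul 2).mono (by omega)
  have a2 : PB (fun b => 2 * lB b D 1000 b * kA b D) (i + 2) :=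
    (((pb_lB D).cmul 2).mul (pb_kA D)).mono (by omega)
  have a3 : PB (fun b => (kA b D + 1) * d0 b) (i + 2) :=
    (((pb_kA D).add (PB.const 1)).mul h).mono (by omega)
  have a4 : PB (fun b => q1 b D 1000 b + d0 b) (i + 2) :=
    ((pb_q1 D).mono (by omega)).add (h.mono (by omega))
  have a5 : PB (fun b => 2 * lB b D 1000 b) (i + 2) :=
    ((pb_lB D).cmul 2).mono (by omega)
  have a6 : PB (fun b => (kB b D + 1) * d0 b) (i + 2) :=
    (((pb_kB D).add (PB.const 1)).mul h).mono (by omega)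
  exact ((a1.add ((a2.add a3).cmul _)).add (a4.cmul _)).add ((a5.add a6).cmul _)

end Pool.Agent.H3.Ex
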