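import Mathlib
import Pool.Agent.H3.Ex.NumA

set_option autoImplicit false
set_option linter.unusedSectionVars false

/-!
# Numerics: all conditions can be satisfied
-/

namespace Pool.Agent.H3.Ex

open Finset Filter Topology Pool.Agent.H3.Frg Pool.Agent.H3.Frg2 Pool.Agent.H3.Frg3
  Pool.Agent.H3.Ac

theorem nx_exists (J Dm y q ℓ dd : ℕ) (hDm : dgf (J + 1) ≤ Dm) (hq : 2 * y + 15 ≤ q)
    (hq2 : 36 * 4 ^ dd ≤ q) : ∀ᶠ b : ℕ in atTop, ∀ k : ℕ, 2 ^ k = b ^ (y + (2 * Dm + 14)) →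
    ∃ (kt K Mt lam κ : ℕ) (u1 η : ℝ),
      Nx J (b ^ q) (b ^ (2 * q)) k b (b ^ 12) (b ^ (2 * y)) Dm kt (Dm + 1) Mt K
        (b ^ (2 * y * J)) dd ℓ (2 ^ b) lam κ b (b : ℝ) u1 η := by
  have hD80 : 80 ≤ Dm := (one_le_dgf (J + 1)).trans hDm
  obtain ⟨p, hp⟩ : ∃ p, p = y + (2 * Dm + 14) := ⟨_, rfl⟩
  obtain ⟨A, hA⟩ : ∃ A, A = q * 2 + (p + p) * J := ⟨_, rfl⟩
  obtain ⟨U, hU⟩ : ∃ U, U = 16 * Kh Dm 1000 ^ (1 + Dm) := ⟨_, rfl⟩
  have hKh : 1 ≤ Kh Dm 1000 := by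
    unfold Kh
    exact Nat.mul_pos (by norm_num) (by positivity)
  have hU2 : 2 ≤ U := by
    rw [hU]
    have := Nat.one_le_pow (1 + Dm) _ hKh
    omega
  obtain ⟨lam, hlam⟩ : ∃ lam, lam = U ^ (2 * (A + 1 + 1)) := ⟨_, rfl⟩
  obtain ⟨C0, hC0⟩ : ∃ C0, C0 = Dm * 3 ^ (4 * (18 + 16 * Dm * 1000) * lam) := ⟨_, rfl⟩
  -- polynomial bounds
  have pH : PB (fun b => b ^ 12 * (1 + 72 * b ^ (2 * y))) (12 + 2 * y) :=
    (PB.pow' 12).mul ((PB.const 1).add ((PB.pow' (2 * y)).cmul 72))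
  have pd : PB (fun b => Dm * (b ^ 12 * (1 + 72 * b ^ (2 * y)))) (12 + 2 * y) := pH.cmul Dm
  have pK : PB (fun b => 1000 * (2 * (Dm * (b ^ 12 * (1 + 72 * b ^ (2 * y)))))) (12 + 2 * y) :=
    (pd.cmul 2).cmul 1000
  have pMt : PB (fun b => Dm * (1000 * (2 * (Dm * (b ^ 12 * (1 + 72 * b ^ (2 * y)))))))
      (12 + 2 * y) := pK.cmul Dm
  have pn2 : PB (fun b => 3 * 1000 * (2 * (Dm * (1000 * (2 * (Dm * (b ^ 12 *
      (1 + 72 * b ^ (2 * y)))))) * Dm ^ J))) (12 + 2 * y + 0) :=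
    ((pMt.mul (PB.const (Dm ^ J))).cmul 2).cmul (3 * 1000)
  have pn3 : PB (fun b => 3 * (1000 * (2 * (Dm * (b ^ 12 * (1 + 72 * b ^ (2 * y)))))))
      (12 + 2 * y) := pK.cmul 3
  have prm : PB (fun b => 2002 * (3 * b ^ 12)) 12 := ((PB.pow' 12).cmul 3).cmul 2002
  have pr4 : PB (fun b => 4 * (1000 * (3 * b ^ 12))) 12 :=
    (((PB.pow' 12).cmul 3).cmul 1000).cmul 4
  have pg1 : PB (fun b => 1 + 1000 * Dm + 2 * 1000 * (Dm * (b ^ 12 * (1 + 72 * b ^ (2 * y)))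
      + Dm) * (Dm * (b ^ 12 * (1 + 72 * b ^ (2 * y))))) ((12 + 2 * y) + (12 + 2 * y)) :=
    (PB.const (1 + 1000 * Dm)).add (((pd.add (PB.const Dm)).cmul (2 * 1000)).mul pd)
  have pbu : PB (fun b => bud b Dm 1000 b (Dm * (b ^ 12 * (1 + 72 * b ^ (2 * y)))))
      (12 + 2 * y + 2) := pb_bud Dm pd (by omega)
  have pqq : PB (fun b => 4 * (1 + 4 * 1000 * Dm) * (2 * (Dm * (b ^ 12 *
      (1 + 72 * b ^ (2 * y)))))) (12 + 2 * y) := (pd.cmul 2).cmul (4 * (1 + 4 * 1000 * Dm))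
  have pNW : PB (fun b => (b ^ q + 1) ^ 2 * (b ^ p * b ^ p) ^ J) A := by
    rw [hA]
    exact (((PB.pow' q).add (PB.const 1)).pow 2).mul (((PB.pow' p).mul (PB.pow' p)).pow J)
  have pc : PB (fun b => (3 * (b ^ (2 * y * J) + 3 * J) ^ 2) ^ J *
      ((b ^ q + 1) ^ 2 * (b ^ p * b ^ p) ^ J)) ((2 * y * J * 2) * J + A) :=
    (((((PB.pow' (2 * y * J)).add (PB.const (3 * J))).pow 2).cmul 3).pow J).mul pNW
  filter_upwards [pn2.lt (show 12 + 2 * y + 0 < 2 * q by omega),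
    pn3.lt (show 12 + 2 * y < 2 * q by omega), prm.lt (show 12 < q by omega),
    pr4.lt (show 12 < 2 * q by omega),
    pg1.lt (show (12 + 2 * y) + (12 + 2 * y) < 2 * q by omega),
    pbu.lt (show 12 + 2 * y + 2 < 2 * q by omega), (pb_dpt Dm).lt (show 11 < 12 by norm_num),
    pqq.lt (show 12 + 2 * y < 2 * q by omega), pNW.lt (Nat.lt_succ_self A),
    pc.lt (Nat.lt_succ_self ((2 * y * J * 2) * J + A)),
    num_two 1 ((2 * y * J * 2) * J + A + 1), num_l (4 * 1000 * Dm) (A + 1) (by omega),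
    num_ka U (A + 1) C0 hU2, num_e Dm y,
    eventually_ge_atTop (1000 + 2 * Dm ^ 2 * 1000 + 1 + (2 * ℓ + 16))]
    with b h1 h2 h3 h4 h5 h6 h7 h8 h9 h10 h11 h12 h13 h14 h15
  intro k hk
  rw [← hp] at hk
  obtain ⟨h14a, h14b⟩ := h14 k (by rw [← hp]; exact hk)
  have hb1 : 1 ≤ b := by omega
  have hb1000 : 1000 ≤ b := by omega
  have hbp : ∀ i : ℕ, 1 ≤ b ^ i := fun i => Nat.one_le_pow _ _ hb1
  have hbq : ∀ i : ℕ, 1 ≤ i → b ≤ b ^ i := fun i hi => Nat.le_self_pow (by omega) _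
  have hb12 := hbq 12 (by norm_num)
  have hNW : (b ^ q + 1) ^ 2 * ((k + 1) * 2 ^ k) ^ J ≤ b ^ (A + 1) := by
    refine le_trans (Nat.mul_le_mul_left _ (Nat.pow_le_pow_left ?_ _)) h9.le
    rw [← hk]
    exact Nat.mul_le_mul_right _ Nat.lt_two_pow_self
  have hNW' : (b ^ q + 1) ^ 2 * ((k + 1) * 2 ^ k) ^ J ≤
      (b ^ q + 1) ^ 2 * (b ^ p * b ^ p) ^ J := by
    refine Nat.mul_le_mul_left _ (Nat.pow_le_pow_left ?_ _)
    rw [← hk]
    exact Nat.mul_le_mul_right _ Nat.lt_two_pow_self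
  obtain ⟨H, hH⟩ : ∃ H, H = b ^ 12 * (1 + 72 * b ^ (2 * y)) := ⟨_, rfl⟩
  have hHw : b ^ 12 ≤ H := by rw [hH]; exact Nat.le_mul_of_pos_right _ (by omega)
  have hDJ : 1 ≤ Dm ^ J := Nat.one_le_pow _ _ (by omega)
  have hDH : 80 * H ≤ Dm * H := Nat.mul_le_mul_right _ hD80
  have hH2 : 1 * H ≤ b * H := Nat.mul_le_mul_right _ hb1
  obtain ⟨K, hK⟩ : ∃ K, K = 1000 * (2 * (Dm * H)) := ⟨_, rfl⟩
  have hDK : 80 * K ≤ Dm * K := Nat.mul_le_mul_right _ hD80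
  obtain ⟨Mt, hMt⟩ : ∃ Mt, Mt = Dm * K := ⟨_, rfl⟩
  have hMJ : Mt ≤ Mt * Dm ^ J := Nat.le_mul_of_pos_right _ hDJ
  have hnm : b ^ (2 * q) = (b ^ q) ^ 2 := by rw [← pow_mul, mul_comm]
  have hDm2 : Dm ≤ 2 * Dm ^ 2 * 1000 := by nlinarith
  have hKR : ((Kh Dm 1000 : ℕ) : ℝ) ^ (1 + Dm) * 16 = (U : ℝ) := by rw [hU]; push_cast; ring
  rw [← hH] at h1 h2 h5 h6 h8
  rw [← hK] at h1 h2
  rw [← hMt] at h1
  refine ⟨H, K, Mt, lam, Nat.log U b, (U : ℝ), (Dm : ℝ) * (b : ℝ) ^ (2 * Dm) / 2 ^ k, ?_⟩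
  constructor
  case dm => exact hDm
  case n1 => exact hb1000.trans (hbq _ (by omega))
  case nm => rw [hnm]; exact Nat.pow_le_pow_left (by omega) 2
  case x1 => exact hbp _
  case w1 => omega
  case t1 => omega
  case n2 => exact h1
  case n3 => exact h2.le
  case n4 => rw [← hMt]; exact hMJ
  case sx =>
    rw [← pow_mul]
    exact Nat.le_mul_of_pos_left _ (by norm_num)
  case sm => omega
  case rm => omega
  case r4 =>
    have : b ^ (2 * q) ≤ (b ^ q + 1) ^ 2 := by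
      rw [hnm]; exact Nat.pow_le_pow_left (by omega) 2
    omega
  case cn => exact Nat.pow_le_pow_right (by norm_num) hb12
  case nn =>
    have h20 := NN_le (b ^ 12) (2 * b ^ 12 * (ℓ + 4) + 8 * b ^ 12) (b ^ 12) (by omega) le_rfl
      (by
        calc 2 * b ^ 12 * (ℓ + 4) + 8 * b ^ 12 = (2 * ℓ + 16) * b ^ 12 := by ring
          _ ≤ b ^ 12 * b ^ 12 := Nat.mul_le_mul_right _ (by omega)
          _ = (b ^ 12) ^ 2 := (sq _).symm) dd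
    have h21 : NN (b ^ 12) (2 * b ^ 12 * (ℓ + 4) + 8 * b ^ 12) dd * 1
        ≤ NN (b ^ 12) (2 * b ^ 12 * (ℓ + 4) + 8 * b ^ 12) dd * b ^ 12 :=
      Nat.mul_le_mul_left _ (hbp 12)
    have h22 : (b ^ 12) ^ (3 * 4 ^ dd) ≤ b ^ q := by
      rw [← pow_mul]
      exact Nat.pow_le_pow_right hb1 (by omega)
    omega
  case k1 => exact hH.ge
  case k2 => omega
  case k3 => omega
  case g1 => rw [← hH]; exact h5
  case la =>
    rw [hlam]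
    exact hU2.trans (Nat.le_self_pow (by omega) _)
  case ka =>
    refine lt_of_le_of_lt ?_ (show C0 * b ^ (A + 1) < lam ^ Nat.log U b by rw [hlam]; exact h13)
    calc Dm * ((b ^ q + 1) ^ 2 * ((k + 1) * 2 ^ k) ^ J) * 3 ^ (4 * (18 + 16 * Dm * 1000) * lam)
        = C0 * ((b ^ q + 1) ^ 2 * ((k + 1) * 2 ^ k) ^ J) := by rw [hC0]; ring
      _ ≤ C0 * b ^ (A + 1) := Nat.mul_le_mul_left _ hNW
  case a1 => rw [← hKR]; exact le_of_eq (by ring)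
  case a0 =>
    have := Nat.pow_log_le_self U (x := b) (by omega)
    exact_mod_cast this
  case l1 => exact lt_of_le_of_lt (Nat.mul_le_mul_right _ hNW) h12
  case bu => rw [← hH]; exact h6
  case dp => exact h7.le
  case kk => rw [← hH, ← hK]
  case mm => rw [← hH]; omega
  case qq => rw [← hH]; exact h8
  case e1 => exact le_rfl
  case e2 => exact h14a
  case e3 => exact h14b
  case c1 =>
    have h23 : 2 ^ b * (3 * (b ^ (2 * y * J) + 3 * J) ^ 2) ^ J *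
        ((b ^ q + 1) ^ 2 * ((k + 1) * 2 ^ k) ^ J) * 2 < 4 ^ (b + 1) := by
      calc 2 ^ b * (3 * (b ^ (2 * y * J) + 3 * J) ^ 2) ^ J *
          ((b ^ q + 1) ^ 2 * ((k + 1) * 2 ^ k) ^ J) * 2
          ≤ 2 ^ b * (3 * (b ^ (2 * y * J) + 3 * J) ^ 2) ^ J *
          ((b ^ q + 1) ^ 2 * (b ^ p * b ^ p) ^ J) * 2 :=
            Nat.mul_le_mul_right _ (Nat.mul_le_mul_left _ hNW')
        _ = 2 ^ b * ((3 * (b ^ (2 * y * J) + 3 * J) ^ 2) ^ J *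
          ((b ^ q + 1) ^ 2 * (b ^ p * b ^ p) ^ J)) * 2 := by ring
        _ ≤ 2 ^ b * 2 ^ b * 2 := Nat.mul_le_mul_right _ (Nat.mul_le_mul_left _
            (h10.le.trans (by simpa using h11.le)))
        _ = 4 ^ b * 2 := by rw [← mul_pow]; norm_num
        _ < 4 ^ b * 4 := Nat.mul_lt_mul_of_pos_left (by norm_num) (by positivity)
        _ = 4 ^ (b + 1) := (pow_succ 4 b).symm
    exact_mod_cast h23

end Pool.Agent.H3.Ex
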