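import Mathlib
import Pool.Agent.H3.Ex.Fix
import Pool.Agent.H3.Ex.Num
import Pool.Agent.H3.Ac.FinA

set_option autoImplicit false
set_option linter.unusedSectionVars false

/-!
# Final assembly: the exponential bound for proofs of bounded depth over short formulas
-/

namespace Pool.Agent.H3.Ex

open Finset Filter Topology Pool.Agent.H3.Frg Pool.Agent.H3.Frg2 Pool.Agent.H3.Frg3
  Pool.Agent.H3.Frg4 Pool.Agent.H3.Ac

theorem eventually_sizeE (J q pp Dm K0 : ℕ) : ∀ᶠ r : ℕ in atTop,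
    ((2 ^ r) ^ (2 * q) * ((pp * r + 1) * 2 ^ (pp * r)) ^ J * K0 + K0) *
        (2 * Nat.size (Dm * ((2 ^ r) ^ (2 * q) * ((pp * r + 1) * 2 ^ (pp * r)) ^ J)) + 2)
      ≤ (2 ^ r) ^ (2 * q + pp * J + 1) := by
  obtain ⟨A, hA⟩ : ∃ A, A = 2 * q + pp * J + 1 := ⟨_, rfl⟩
  filter_upwards [num_two (Dm * (pp + 1) ^ J) J,
    num_two (((pp + 1) ^ J * K0 + K0) * (2 * A + 4)) (J + 1),
    eventually_ge_atTop 1] with r h1 h2 h3
  obtain ⟨Q, hQ⟩ : ∃ Q, Q = 2 ^ r := ⟨_, rfl⟩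
  have hQ1 : 1 ≤ Q := by rw [hQ]; exact Nat.one_le_pow _ _ (by norm_num)
  have h2k : 2 ^ (pp * r) = Q ^ pp := by
    rw [hQ, ← pow_mul]
    congr 1; ring
  obtain ⟨P, hP⟩ : ∃ P, P = (pp * r + 1) ^ J := ⟨_, rfl⟩
  have hPle : P ≤ (pp + 1) ^ J * r ^ J := by
    rw [hP, ← mul_pow]
    exact Nat.pow_le_pow_left (by nlinarith) _
  obtain ⟨N, hN⟩ : ∃ N, N = (2 ^ r) ^ (2 * q) * ((pp * r + 1) * 2 ^ (pp * r)) ^ J :=
    ⟨_, rfl⟩
  have hN' : N = Q ^ (2 * q + pp * J) * P := by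
    rw [hN, h2k, ← hQ, hP, mul_pow, ← pow_mul]
    ring
  rw [← hN]
  rw [← hQ] at h1 h2 ⊢
  have hsz : Nat.size (Dm * N) ≤ r * A + 1 := by
    rw [Nat.size_le]
    have h4 : Dm * N ≤ Q ^ A := by
      calc Dm * N = Q ^ (2 * q + pp * J) * (Dm * P) := by rw [hN']; ring
        _ ≤ Q ^ (2 * q + pp * J) * Q := Nat.mul_le_mul_left _ (by
            refine le_trans (Nat.mul_le_mul_left _ hPle) ?_
            rw [← mul_assoc]; exact h1.le)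
        _ = Q ^ A := by rw [hA, pow_succ]
    have h5 : Q ^ A = 2 ^ (r * A) := by
      rw [hQ, ← pow_mul]
    rw [h5] at h4
    refine lt_of_le_of_lt h4 ?_
    exact Nat.pow_lt_pow_right (by norm_num) (by omega)
  have hQp : 1 ≤ Q ^ (2 * q + pp * J) := Nat.one_le_pow _ _ hQ1
  have htJ : 1 ≤ r ^ J := Nat.one_le_pow _ _ h3
  rw [← hA]
  calc (N * K0 + K0) * (2 * Nat.size (Dm * N) + 2)
      ≤ (Q ^ (2 * q + pp * J) * (((pp + 1) ^ J * K0 + K0) * r ^ J)) *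
        ((2 * A + 4) * r) := by
        refine Nat.mul_le_mul ?_ ?_
        · rw [hN']
          have e1 : Q ^ (2 * q + pp * J) * P * K0
              ≤ Q ^ (2 * q + pp * J) * ((pp + 1) ^ J * r ^ J) * K0 :=
            Nat.mul_le_mul_right _ (Nat.mul_le_mul_left _ hPle)
          have e2 : K0 ≤ Q ^ (2 * q + pp * J) * (K0 * r ^ J) := by
            calc K0 = 1 * (K0 * 1) := by ring
              _ ≤ _ := Nat.mul_le_mul hQp (Nat.mul_le_mul_left _ htJ)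
          calc _ ≤ Q ^ (2 * q + pp * J) * ((pp + 1) ^ J * r ^ J) * K0 +
                Q ^ (2 * q + pp * J) * (K0 * r ^ J) := Nat.add_le_add e1 e2
            _ = _ := by ring
        · calc 2 * Nat.size (Dm * N) + 2 ≤ 2 * (r * A + 1) + 2 := by omega
            _ = 2 * A * r + 4 := by ring
            _ ≤ 2 * A * r + 4 * r := by omega
            _ = _ := by ring
    _ = Q ^ (2 * q + pp * J) * (((pp + 1) ^ J * K0 + K0) * (2 * A + 4) *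
        r ^ (J + 1)) := by rw [pow_succ]; ring
    _ ≤ Q ^ (2 * q + pp * J) * Q := Nat.mul_le_mul_left _ h2.le
    _ = Q ^ A := by rw [hA, pow_succ]

/-- the bound on the size of proofs of bounded depth over short formulas -/
theorem finalE0 (θ : ℝ) (hθ : θ < 2) (D : ℕ) :
    ∃ (k : ℕ) (ε : ℝ), 0 < ε ∧ ∃ (d : ℕ → ℕ) (C : ℕ → ℕ → Fm ℕ) (τ : ℕ → Fm ℕ),
      (∀ n, τ n = Fm.neg (bigAnd (d n) (C n))) ∧
      (∀ n i, IsClause k (C n i)) ∧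
      (∀ n x, (τ n).eval x = true) ∧
      Tendsto (fun n => (τ n).enc.length) atTop atTop ∧
      ∀ Sch : Set (Fm ℕ), Sch.Finite → (∀ ψ ∈ Sch, ∀ x, ψ.eval x = true) →
        ∀ᶠ n in atTop, ∀ (L : ℕ) (pf : Fin L → Fm ℕ), IsDer Sch (Set.range (C n)) pf →
          (∃ i, pf i = τ n) →
          (∀ i, LDep (fun A => (A.enc.length : ℝ) ≤ ((τ n).enc.length : ℝ) ^ θ) D (pf i)) →
          (2 : ℝ) ^ (((τ n).enc.length : ℝ) ^ ε) ≤ ∑ i, ((pf i).enc.length : ℝ) := by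
  obtain ⟨θ', hθ'⟩ : ∃ θ' : ℝ, θ' = max θ 1 := ⟨_, rfl⟩
  have hθ1 : 1 ≤ θ' := by rw [hθ']; exact le_max_right _ _
  have hθθ : θ ≤ θ' := by rw [hθ']; exact le_max_left _ _
  have hθ2 : θ' < 2 := by rw [hθ']; exact max_lt hθ (by norm_num)
  obtain ⟨J, hJ⟩ : ∃ J : ℕ, J = ⌈8 / (2 - θ')⌉₊ + 1 := ⟨_, rfl⟩
  obtain ⟨γ, hγ⟩ : ∃ γ : ℝ, γ = 2 * (J:ℝ) - ((J:ℝ) + 4) * θ' := ⟨_, rfl⟩
  have hγ0 : 0 < γ := by
    have h1 : 8 / (2 - θ') + 1 ≤ J := by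
      rw [hJ]; push_cast
      have := Nat.le_ceil (8 / (2 - θ'))
      linarith
    have h2 : 0 < 2 - θ' := by linarith
    have h3 : 8 / (2 - θ') * (2 - θ') = 8 := div_mul_cancel₀ _ h2.ne'
    have h4 : (8 / (2 - θ') + 1) * (2 - θ') ≤ J * (2 - θ') :=
      mul_le_mul_of_nonneg_right h1 h2.le
    rw [hγ]
    nlinarith
  obtain ⟨Dm, hDm⟩ : ∃ Dm, Dm = dgf (J + 1) := ⟨_, rfl⟩
  have hD80 : 80 ≤ Dm := by rw [hDm]; exact one_le_dgf (J + 1)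
  obtain ⟨p0, hp0⟩ : ∃ p0, p0 = 2 * Dm + 14 := ⟨_, rfl⟩
  obtain ⟨q0, hq0⟩ : ∃ q0, q0 = 15 + 36 * 4 ^ (D + 1 + 2) := ⟨_, rfl⟩
  obtain ⟨c1, hc1⟩ : ∃ c1, c1 = 2 * q0 + J * p0 + 1 := ⟨_, rfl⟩
  obtain ⟨y, hy⟩ : ∃ y : ℕ, y = ⌈2 * (c1:ℝ) / γ⌉₊ + 1 := ⟨_, rfl⟩
  obtain ⟨q, hq⟩ : ∃ q : ℕ, q = 2 * y + q0 := ⟨_, rfl⟩
  have hyγ : 2 * (c1:ℝ) ≤ γ * y := by
    have h1 : 2 * (c1:ℝ) / γ ≤ y := by
      refine (Nat.le_ceil _).trans ?_
      rw [hy]; push_cast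
      linarith
    rw [div_le_iff₀ hγ0] at h1
    linarith
  obtain ⟨pp, hpp⟩ : ∃ pp, pp = y + p0 := ⟨_, rfl⟩
  obtain ⟨A, hA⟩ : ∃ A : ℕ, A = 2 * q + pp * J + 1 := ⟨_, rfl⟩
  obtain ⟨B, hB⟩ : ∃ B : ℕ, B = 2 * y * J := ⟨_, rfl⟩
  have hAθ : (A:ℝ) * θ' ≤ (B : ℝ) := by
    have h0 : A = (J + 4) * y + c1 := by
      rw [hA, hc1, hpp, hq]; ring
    rw [h0, hB]
    push_cast
    have h1 : (((J:ℝ) + 4) * y + c1) * θ' = y * (2 * J) - γ * y + c1 * θ' := by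
      rw [hγ]; ring
    rw [h1]
    have h2 : (c1:ℝ) * θ' ≤ c1 * 2 := mul_le_mul_of_nonneg_left hθ2.le (by positivity)
    linarith
  have hAB : A ≤ B := by
    have h1 : (A:ℝ) ≤ (A:ℝ) * θ' := le_mul_of_one_le_right (by positivity) hθ1
    exact_mod_cast h1.trans hAθ
  have hA1 : 1 ≤ A := by omega
  have hA0 : (0:ℝ) < A := by exact_mod_cast hA1
  have hq1 : 1 ≤ q := by omega
  have hm0 : ∀ n : ℕ, Even ((2 ^ (n + 10)) ^ q) := fun n => by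
    refine (Nat.even_pow.mpr ⟨Nat.even_pow.mpr ⟨by decide, by omega⟩, by omega⟩)
  have hmn : ∀ n : ℕ, (2 ^ (n + 10)) ^ (2 * q) ≤ ((2 ^ (n + 10)) ^ q + 1) ^ 2 := fun n => by
    rw [pow_mul' (2 ^ (n + 10)) 2 q]
    exact Nat.pow_le_pow_left (by omega) 2
  have hm4 : ∀ n : ℕ, ((2 ^ (n + 10)) ^ q + 1) ^ 2 ≤ 4 * (2 ^ (n + 10)) ^ (2 * q) := fun n => by
    rw [pow_mul' (2 ^ (n + 10)) 2 q]
    obtain ⟨z, hz⟩ : ∃ z, z = (2 ^ (n + 10)) ^ q := ⟨_, rfl⟩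
    have h2 : 1 ≤ z := by rw [hz]; exact Nat.one_le_pow _ _ (by positivity)
    rw [← hz]
    calc (z + 1) ^ 2 ≤ (2 * z) ^ 2 := Nat.pow_le_pow_left (by omega) 2
      _ = 4 * z ^ 2 := by ring
  have hch := fun n : ℕ => fixedT (J := J) (m := (2 ^ (n + 10)) ^ q)
    (n := (2 ^ (n + 10)) ^ (2 * q)) (k := pp * (n + 10)) (Dm := Dm) (hm0 n) (by rw [hDm]) (by
      calc 1000 ≤ 2 ^ 10 := by norm_num
        _ ≤ 2 ^ (n + 10) := Nat.pow_le_pow_right (by norm_num) (by omega)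
        _ ≤ (2 ^ (n + 10)) ^ (2 * q) := Nat.le_self_pow (by omega) _) (hmn n)
  choose d C hC1 hC2 hC3 hC5 hC6 using hch
  obtain ⟨τ, hτ⟩ : ∃ τ : ℕ → Fm ℕ, τ = fun n => Fm.neg (bigAnd (d n) (C n)) := ⟨_, rfl⟩
  have hτn : ∀ n, Fm.neg (bigAnd (d n) (C n)) = τ n := fun n => by rw [hτ]
  simp only [hτn] at hC2 hC3 hC5 hC6
  refine ⟨Dm, 1 / (2 * (A:ℝ)), by positivity, d, C, τ, fun n => (hτn n).symm, hC1, hC2,
    ?_, ?_⟩
  · refine tendsto_atTop_mono (fun n => ?_) tendsto_id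
    refine le_trans ?_ (hC3 n)
    calc n ≤ n + 10 := by omega
      _ ≤ 2 ^ (n + 10) := (Nat.lt_pow_self (by norm_num)).le
      _ ≤ (2 ^ (n + 10)) ^ (2 * q) := Nat.le_self_pow (by omega) _
  · intro Sch0 hfin0 htaut0
    obtain ⟨Sch, hSch⟩ : ∃ Sch, Sch = Sch0 ∪ Tau (2 * Dm + 20) (24 * Dm ^ 2 + 4 * Dm + 20) :=
      ⟨_, rfl⟩
    have hfin : Sch.Finite := by rw [hSch]; exact hfin0.union (finite_Tau _ _)
    have hTauS : Tau (2 * Dm + 20) (24 * Dm ^ 2 + 4 * Dm + 20) ⊆ Sch := by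
      rw [hSch]; exact Set.subset_union_right
    have hS0 : Sch0 ⊆ Sch := by rw [hSch]; exact Set.subset_union_left
    have htaut : ∀ ψ ∈ Sch, ∀ x, ψ.eval x = true := by
      intro ψ hψ x
      rw [hSch] at hψ
      rcases hψ with h | h
      · exact htaut0 ψ h x
      · exact h.1 x
    obtain ⟨ℓ, hℓ⟩ : ∃ ℓ : ℕ, ∀ ψ ∈ Sch, ψ.len ≤ ℓ := by
      obtain ⟨ℓ, hℓ⟩ := (hfin.image Fm.len).bddAbove
      exact ⟨ℓ, fun ψ hψ => hℓ (Set.mem_image_of_mem _ hψ)⟩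
    obtain ⟨K1, hK1⟩ : ∃ K1, K1 = 2 ^ Dm * (8 * Dm + 8) + 24 * Dm ^ 2 + 100 := ⟨_, rfl⟩
    have hshift : Tendsto (fun n : ℕ => n + 10) atTop atTop := tendsto_add_atTop_nat 10
    have hshift2 : Tendsto (fun n : ℕ => 2 ^ (n + 10)) atTop atTop :=
      (tendsto_pow_atTop_atTop_of_one_lt (by norm_num : (1:ℕ) < 2)).comp hshift
    filter_upwards [hshift.eventually (eventually_sizeE J q pp (4 * Dm) (4 * K1)),
      hshift2.eventually (nx_exists J Dm y q ℓ (D + 1 + 2) (by rw [hDm]) (by omega) (by omega)),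
      hshift2.eventually (num_two (168 ^ 2) (6 * A))]
      with n h1 h2 h3
    intro L pf hpf hex hlines
    obtain ⟨kt, K, Mt, lam, κ, u1, η, hNx⟩ := h2 (pp * (n + 10)) (by
      rw [← pow_mul, ← hp0, ← hpp]
      congr 1; ring)
    obtain ⟨i1, hi1⟩ := hex
    have hL1 : 1 ≤ L := by have := i1.isLt; omega
    have hm4' := hC6 n _ _ _ _ _ _ _ _ _ _ _ _ _ _ _ _ hNx (by omega)
    have hm5 := hC5 n
    have hmn4 := hm4 n
    obtain ⟨t, ht⟩ : ∃ t, t = n + 10 := ⟨_, rfl⟩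
    rw [← ht] at h1 hm4' hm5 hmn4 h3
    obtain ⟨Y, hY⟩ : ∃ Y, Y = ((pp * t + 1) * 2 ^ (pp * t)) ^ J := ⟨_, rfl⟩
    obtain ⟨N, hN⟩ : ∃ N, N = (2 ^ t) ^ (2 * q) * Y := ⟨_, rfl⟩
    obtain ⟨W, hW⟩ : ∃ W, W = ((2 ^ t) ^ q + 1) ^ 2 * Y := ⟨_, rfl⟩
    have hWN : W ≤ 4 * N := by
      rw [hW, hN, ← mul_assoc]
      exact Nat.mul_le_mul_right _ hmn4
    rw [← hY] at h1 hm4' hm5
    rw [← hN] at h1
    rw [← hW] at hm4' hm5
    rw [← hA] at h1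
    rw [← hB] at hm4'
    obtain ⟨Q, hQ⟩ : ∃ Q, Q = 2 ^ t := ⟨_, rfl⟩
    rw [← hQ] at h1 hm4' h3
    have hQ1000 : 2 ^ 10 ≤ Q := by
      rw [hQ]; exact Nat.pow_le_pow_right (by norm_num) (by omega)
    have hQ1 : 1 ≤ Q := by omega
    have hQR : (1:ℝ) ≤ Q := by exact_mod_cast hQ1
    have hQ0 : (0:ℝ) < Q := by linarith
    have hQA1 : 1 ≤ Q ^ A := Nat.one_le_pow _ _ hQ1
    have hNK : N * (4 * K1) + 4 * K1 ≤ Q ^ A := by
      refine le_trans ?_ h1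
      exact Nat.le_mul_of_pos_right _ (by omega)
    have hWK : W * K1 ≤ N * (4 * K1) := by
      calc W * K1 ≤ 4 * N * K1 := Nat.mul_le_mul_right _ hWN
        _ = N * (4 * K1) := by ring
    have hWK2 : W * K1 + 4 * K1 ≤ Q ^ A := le_trans (by omega) hNK
    have hWa : W * (24 * Dm ^ 2 + 1) + W * (2 ^ Dm * (8 * Dm + 8)) ≤ W * K1 := by
      rw [← Nat.mul_add, hK1]
      exact Nat.mul_le_mul_left _ (by omega)
    have hm3 : (τ n).enc.length ≤ Q ^ A := by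
      refine hm5.trans (le_trans (Nat.mul_le_mul ?_ ?_) h1)
      · have e1 : W * (2 ^ Dm * (8 * Dm + 8)) ≤ W * K1 := le_trans (by omega) hWa
        omega
      · have e1 : Nat.size (Dm * W) ≤ Nat.size (4 * Dm * N) := by
          refine Nat.size_le_size ?_
          calc Dm * W ≤ Dm * (4 * N) := Nat.mul_le_mul_left _ hWN
            _ = 4 * Dm * N := by ring
        omega
    have hxle : ((τ n).enc.length : ℝ) ≤ (Q:ℝ) ^ A := by exact_mod_cast hm3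
    have hx1 : (1:ℝ) ≤ ((τ n).enc.length : ℝ) := by
      have h3 : 1 ≤ (2 ^ (n + 10)) ^ (2 * q) := Nat.one_le_pow _ _ (by positivity)
      exact_mod_cast h3.trans (hC3 n)
    have hQAB : Q ^ A ≤ Q ^ B := Nat.pow_le_pow_right hQ1 hAB
    have hshort : ∀ F : Fm ℕ, (F.enc.length : ℝ) ≤ ((τ n).enc.length : ℝ) ^ θ →
        F.len ≤ Q ^ B := by
      intro F hF
      have e2 : (F.len : ℝ) ≤ (Q:ℝ) ^ B := by
        calc (F.len : ℝ) ≤ (F.enc.length : ℝ) := by exact_mod_cast len_le_enc _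
          _ ≤ ((τ n).enc.length : ℝ) ^ θ := hF
          _ ≤ ((τ n).enc.length : ℝ) ^ θ' := Real.rpow_le_rpow_of_exponent_le hx1 hθθ
          _ ≤ ((Q:ℝ) ^ A) ^ θ' := Real.rpow_le_rpow (by linarith) hxle (by linarith)
          _ = (Q:ℝ) ^ ((A:ℝ) * θ') := by
              rw [← Real.rpow_natCast, ← Real.rpow_mul hQ0.le]
          _ ≤ (Q:ℝ) ^ (B : ℝ) := Real.rpow_le_rpow_of_exponent_le hQR hAθ
          _ = (Q:ℝ) ^ B := Real.rpow_natCast _ _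
      exact_mod_cast e2
    -- the total size
    obtain ⟨T, hT⟩ : ∃ T : ℕ, T = ∑ i, (pf i).enc.length := ⟨_, rfl⟩
    have hTi : ∀ i, (pf i).len ≤ T := fun i => by
      rw [hT]
      exact (len_le_enc _).trans (Finset.single_le_sum (f := fun i => (pf i).enc.length)
        (fun i _ => Nat.zero_le _) (Finset.mem_univ i))
    have hLT : L ≤ T := by
      rw [hT]
      calc L = ∑ _i : Fin L, 1 := by simp
        _ ≤ _ := by
          refine Finset.sum_le_sum fun i _ => ?_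
          have e1 : 1 ≤ (pf i).len := by cases pf i <;> simp [Fm.len]
          exact e1.trans (len_le_enc _)
    have hT1 : 1 ≤ T := hL1.trans hLT
    have hm6 := hm4' (le_trans (by omega) (hWa.trans ((le_trans (by omega) hWK2).trans hQAB)))
      (le_trans (by omega) (hWK2.trans hQAB)) Sch htaut hℓ hTauS L pf (isDer_mono hpf hS0)
      ⟨i1, hi1⟩ T hTi (fun i => ?_)
    swap
    · have := ldep_of_LDep (b := Q ^ B) hshort (hlines i)
      omega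
    have hb1 : L + 2 * (2 * (W * 2 ^ Dm)) + 2 ≤ 2 * (T * Q ^ A) := by
      have e1 : 2 * (2 * (W * 2 ^ Dm)) + 2 ≤ W * K1 + 4 * K1 := by
        have e2 : 2 * (2 * (W * 2 ^ Dm)) = W * (2 ^ Dm * 4) := by ring
        have e3 : 2 ^ Dm * 4 ≤ K1 := by
          rw [hK1]
          have : 2 ^ Dm * 4 ≤ 2 ^ Dm * (8 * Dm + 8) := Nat.mul_le_mul_left _ (by omega)
          omega
        have e4 : W * (2 ^ Dm * 4) ≤ W * K1 := Nat.mul_le_mul_left _ e3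
        omega
      have e5 : T * 1 ≤ T * Q ^ A := Nat.mul_le_mul_left _ hQA1
      have e6 : 1 * Q ^ A ≤ T * Q ^ A := Nat.mul_le_mul_right _ hT1
      omega
    have hb2 : 6 * W + 7 ≤ Q ^ A := by
      refine le_trans ?_ hWK2
      have : W * 7 ≤ W * K1 := Nat.mul_le_mul_left _ (by omega)
      omega
    have hb3 : 12 * (W * (24 * Dm ^ 2 + 1) + T + W * (2 ^ Dm * (8 * Dm + 8))) + 60
        ≤ 84 * (T * Q ^ A) := by
      have e5 : T * 1 ≤ T * Q ^ A := Nat.mul_le_mul_left _ hQA1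
      have e6 : 1 * Q ^ A ≤ T * Q ^ A := Nat.mul_le_mul_right _ hT1
      omega
    have hb4 : 2 ^ Q < 2 * (T * Q ^ A) * Q ^ A * (84 * (T * Q ^ A)) :=
      lt_of_lt_of_le hm6 (Nat.mul_le_mul (Nat.mul_le_mul hb1 hb2) hb3)
    have hb5 : 2 ^ Q ≤ T ^ 2 * (168 * Q ^ (3 * A)) := by
      calc 2 ^ Q ≤ 2 * (T * Q ^ A) * Q ^ A * (84 * (T * Q ^ A)) := hb4.le
        _ = T ^ 2 * (168 * Q ^ (3 * A)) := by ring
    have hT4 : 2 ^ Q ≤ T ^ 4 := by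
      have e1 : 2 ^ Q * 2 ^ Q ≤ T ^ 4 * 2 ^ Q := by
        calc 2 ^ Q * 2 ^ Q
            ≤ (T ^ 2 * (168 * Q ^ (3 * A))) * (T ^ 2 * (168 * Q ^ (3 * A))) :=
              Nat.mul_le_mul hb5 hb5
          _ = T ^ 4 * (168 ^ 2 * Q ^ (6 * A)) := by ring
          _ ≤ T ^ 4 * 2 ^ Q := Nat.mul_le_mul_left _ h3.le
      exact Nat.le_of_mul_le_mul_right e1 (by positivity)
    have hTR : ∑ i, ((pf i).enc.length : ℝ) = (T : ℝ) := by rw [hT]; push_cast; rfl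
    rw [hTR]
    obtain ⟨x, hx⟩ : ∃ x : ℝ, x = ((τ n).enc.length : ℝ) := ⟨_, rfl⟩
    rw [← hx] at hx1 hxle ⊢
    have hx0 : 0 < x := by linarith
    have hroot : x ^ (1 / (2 * (A:ℝ))) ≤ (Q:ℝ) ^ ((1:ℝ) / 2) := by
      calc x ^ (1 / (2 * (A:ℝ))) ≤ ((Q:ℝ) ^ A) ^ (1 / (2 * (A:ℝ))) :=
            Real.rpow_le_rpow hx0.le hxle (by positivity)
        _ = (Q:ℝ) ^ ((1:ℝ) / 2) := by
            rw [← Real.rpow_natCast, ← Real.rpow_mul hQ0.le]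
            congr 1
            field_simp
    have hsqrt : (Q:ℝ) ^ ((1:ℝ) / 2) ≤ (Q:ℝ) / 4 := by
      rw [← Real.sqrt_eq_rpow]
      have h16 : (16:ℝ) ≤ Q := by
        have : 16 ≤ Q := le_trans (by norm_num) hQ1000
        exact_mod_cast this
      rw [Real.sqrt_le_left (by positivity)]
      nlinarith
    have hsq : ((2:ℝ) ^ (x ^ (1 / (2 * (A:ℝ))))) ^ 4 ≤ (T:ℝ) ^ 4 := by
      have hTR4 : (2:ℝ) ^ Q ≤ (T:ℝ) ^ 4 := by exact_mod_cast hT4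
      refine le_trans ?_ hTR4
      rw [← Real.rpow_natCast ((2:ℝ) ^ _) 4, ← Real.rpow_mul (by norm_num),
        ← Real.rpow_natCast 2 Q]
      refine Real.rpow_le_rpow_of_exponent_le (by norm_num) ?_
      have := hroot.trans hsqrt
      push_cast
      linarith
    exact (pow_le_pow_iff_left₀ (Real.rpow_nonneg (by norm_num) _) (Nat.cast_nonneg _)
      (by norm_num)).mp hsq

/-- the final theorem -/
theorem finalE (θ : ℝ) (hθ : θ < 2) (D : ℕ) :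
    ∃ (k : ℕ) (ε : ℝ), 0 < ε ∧ ∃ (d : ℕ → ℕ) (C : ℕ → ℕ → Fm ℕ) (τ : ℕ → Fm ℕ),
      (∀ n, τ n = Fm.neg (bigAnd (d n) (C n))) ∧
      (∀ n i, IsClause k (C n i)) ∧
      (∀ n x, (τ n).eval x = true) ∧
      Tendsto (fun n => (τ n).enc.length) atTop atTop ∧
      ∀ Sch : Set (Fm ℕ), Sch.Finite → (∀ ψ ∈ Sch, ∀ x, ψ.eval x = true) →
        ∀ᶠ n in atTop, ∀ (L : ℕ) (pf : Fin L → Fm ℕ), IsDer Sch (Set.range (C n)) pf →
          (∃ i, pf i = τ n) →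
          ((τ n).enc.length : ℝ) ^ θ ≤ ∑ i, ((pf i).enc.length : ℝ) ∧
          ((∀ i, LDep (fun A => (A.enc.length : ℝ) ≤ ((τ n).enc.length : ℝ) ^ θ) D (pf i)) →
            (2 : ℝ) ^ (((τ n).enc.length : ℝ) ^ ε) ≤ ∑ i, ((pf i).enc.length : ℝ)) := by
  obtain ⟨k, ε, hε, d, C, τ, h1, h2, h3, h4, h5⟩ := finalE0 θ hθ D
  refine ⟨k, ε, hε, d, C, τ, h1, h2, h3, h4, fun Sch hfin htaut => ?_⟩
  have hlim : Tendsto (fun n => ((τ n).enc.length : ℝ)) atTop atTop :=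
    tendsto_natCast_atTop_atTop.comp h4
  -- eventually `x ^ θ < 2 ^ (x ^ ε)`
  have hev : ∀ᶠ x : ℝ in atTop, x ^ θ < (2:ℝ) ^ (x ^ ε) := by
    have e1 : Tendsto (fun x : ℝ => x ^ ε) atTop atTop := tendsto_rpow_atTop hε
    have e2 : ∀ᶠ z : ℝ in atTop, z ^ (θ / ε) < (2:ℝ) ^ z := by
      have e3 := (isLittleO_rpow_exp_pos_mul_atTop (θ / ε) (Real.log_pos one_lt_two)).bound
        (show (0:ℝ) < 1 / 2 by norm_num)
      filter_upwards [e3, eventually_gt_atTop 0] with z hz hz0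
      rw [Real.norm_eq_abs, Real.norm_eq_abs, abs_of_nonneg (by positivity),
        abs_of_nonneg (by positivity)] at hz
      have e4 : (2:ℝ) ^ z = Real.exp (Real.log 2 * z) := by
        rw [Real.rpow_def_of_pos (by norm_num)]
      rw [e4]
      have := Real.exp_pos (Real.log 2 * z)
      linarith
    filter_upwards [e1.eventually e2, eventually_gt_atTop 0] with x hx hx0
    rw [← Real.rpow_mul hx0.le, mul_div_cancel₀ _ hε.ne'] at hx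
    exact hx
  filter_upwards [h5 Sch hfin htaut, hlim.eventually hev] with n h6 h7
  intro L pf hpf hex
  have h9 := h6 L pf hpf hex
  refine ⟨?_, h9⟩
  by_contra hcon
  push Not at hcon
  have h10 : ∀ i, ((pf i).enc.length : ℝ) ≤ ((τ n).enc.length : ℝ) ^ θ := fun i => by
    refine le_trans ?_ hcon.le
    exact Finset.single_le_sum (f := fun i => ((pf i).enc.length : ℝ))
      (fun i _ => Nat.cast_nonneg _) (Finset.mem_univ i)
  have h11 := h9 fun i => LDep.base _ _ (h10 i)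
  linarith

end Pool.Agent.H3.Ex
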